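import Pool.Agent.MP_99a865_pr.FV.T0

open MeasureTheory ProbabilityTheory Filter Topology
open scoped ENNReal NNReal

namespace Pool.Agent.BPT

theorem S2_depth_le_height (c : Bool) (u v : ℕ → ℝ) (n : ℕ) (s : Fin n) :
    depth c u v n s ≤ height c u v n :=
  Finset.le_sup (f := depth c u v n) (Finset.mem_univ s)

theorem S2_bdd (c : Bool) (u v : ℕ → ℝ) (n : ℕ) :
    BddAbove (Set.range fun k : ℕ =>
      (Finset.univ.filter fun s : Fin n => depth c u v n s = k).card) := by
  refine ⟨n, ?_⟩
  rintro _ ⟨k, rfl⟩
  calc (Finset.univ.filter fun s : Fin n => depth c u v n s = k).card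
      ≤ (Finset.univ : Finset (Fin n)).card := Finset.card_filter_le _ _
    _ = n := by simp

theorem S2_level_le_width (c : Bool) (u v : ℕ → ℝ) (n k : ℕ) :
    (Finset.univ.filter fun s : Fin n => depth c u v n s = k).card ≤ width c u v n :=
  le_ciSup (f := fun k : ℕ =>
      (Finset.univ.filter fun s : Fin n => depth c u v n s = k).card) (S2_bdd c u v n) k

/-- **[IVC-S2]** Elementary relations between the three functionals. PROOF. The depths are at most the height; every
vertex has a depth in `[0, height]`, and at most `width` vertices have a given depth (the supremum defining `width` is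
over a bounded family: `le_ciSup`). -/
theorem totalHeight_le (c : Bool) (u v : ℕ → ℝ) (n : ℕ) : totalHeight c u v n ≤ n * height c u v n := by
  unfold totalHeight
  calc ∑ s : Fin n, depth c u v n s ≤ ∑ _s : Fin n, height c u v n :=
        Finset.sum_le_sum fun s _ => S2_depth_le_height c u v n s
    _ = n * height c u v n := by simp

theorem le_width (c : Bool) (u v : ℕ → ℝ) (n : ℕ) : n ≤ (height c u v n + 1) * width c u v n := by
  have h := Finset.card_le_mul_card_image_of_maps_to (s := (Finset.univ : Finset (Fin n)))
    (t := Finset.range (height c u v n + 1)) (f := depth c u v n)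
    (fun s _ => Finset.mem_range.2 (Nat.lt_succ_of_le (S2_depth_le_height c u v n s)))
    (width c u v n) (fun k _ => S2_level_le_width c u v n k)
  simpa [mul_comm] using h

end Pool.Agent.BPT
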