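import Pool.Agent.MP_99a865_pr.CV.S3

open MeasureTheory ProbabilityTheory Filter Topology
open scoped ENNReal NNReal

namespace Pool.Agent.BPT

/-- the distribution function -/
noncomputable def S4_G (x : ℝ) : ℝ := if x ≤ 0 then 0 else FF x

theorem S4_mono (hm : MonotoneOn FF (Set.Ioi 0)) : Monotone S4_G := by
  intro x y hxy
  unfold S4_G
  by_cases hx : x ≤ 0
  · rw [if_pos hx]
    split_ifs with hy
    · exact le_rfl
    · exact (FF_pos (not_le.1 hy)).le
  · rw [if_neg hx, if_neg (by linarith [not_le.1 hx] : ¬ y ≤ 0)]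
    push Not at hx
    exact hm hx (show (0 : ℝ) < y by linarith) hxy

theorem S4_right (hc : ContinuousOn FF (Set.Ioi 0)) (x : ℝ) :
    ContinuousWithinAt S4_G (Set.Ici x) x := by
  rcases lt_trichotomy x 0 with hx | hx | hx
  · have h1 : S4_G =ᶠ[𝓝 x] fun _ => 0 := by
      filter_upwards [Iio_mem_nhds hx] with y hy
      exact if_pos (le_of_lt hy)
    exact (continuousAt_const.congr h1.symm).continuousWithinAt
  · subst hx
    have h0 : S4_G 0 = 0 := if_pos le_rfl
    rw [← continuousWithinAt_Ioi_iff_Ici]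
    unfold ContinuousWithinAt
    rw [h0]
    refine FF_tendsto_zero.congr' ?_
    filter_upwards [self_mem_nhdsWithin] with y hy
    exact (if_neg (not_le.2 hy)).symm
  · have h1 : S4_G =ᶠ[𝓝 x] FF := by
      filter_upwards [Ioi_mem_nhds hx] with y hy
      exact if_neg (not_le.2 hy)
    exact ((hc.continuousAt (Ioi_mem_nhds hx)).congr h1.symm).continuousWithinAt

/-- the Stieltjes function -/
noncomputable def S4_St (hm : MonotoneOn FF (Set.Ioi 0)) (hc : ContinuousOn FF (Set.Ioi 0)) :
    StieltjesFunction ℝ where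
  toFun := S4_G
  mono' := S4_mono hm
  right_continuous' := S4_right hc

theorem S4_bot : Tendsto S4_G atBot (𝓝 0) := by
  refine tendsto_const_nhds.congr' ?_
  filter_upwards [eventually_le_atBot 0] with x hx
  exact (if_pos hx).symm

theorem S4_top : Tendsto S4_G atTop (𝓝 1) := by
  refine FF_tendsto_one.congr' ?_
  filter_upwards [eventually_gt_atTop 0] with x hx
  exact (if_neg (not_le.2 hx)).symm

/-- the filter of the probability measures whose distribution functions converge at the rationals -/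
noncomputable def S4_fil (ν : ProbabilityMeasure ℝ) : Filter (ProbabilityMeasure ℝ) :=
  ⨅ q : ℚ, comap (fun μ : ProbabilityMeasure ℝ => (μ : Measure ℝ).real (Set.Iic (q : ℝ)))
    (𝓝 ((ν : Measure ℝ).real (Set.Iic (q : ℝ))))

theorem S4_Ioc (μ : ProbabilityMeasure ℝ) {a b : ℝ} (h : a ≤ b) :
    (μ : Measure ℝ).real (Set.Ioc a b) =
      (μ : Measure ℝ).real (Set.Iic b) - (μ : Measure ℝ).real (Set.Iic a) := by
  rw [← Set.Iic_sdiff_Iic, measureReal_sdiff (Set.Iic_subset_Iic.2 h) measurableSet_Iic]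

theorem S4_conv (ν : ProbabilityMeasure ℝ) : Tendsto id (S4_fil ν) (𝓝 ν) := by
  have hcg : (S4_fil ν).IsCountablyGenerated := by
    unfold S4_fil
    infer_instance
  refine IsPiSystem.tendsto_probabilityMeasure_of_tendsto_of_mem
    (S := {s | ∃ a b : ℚ, s = Set.Ioc (a : ℝ) b}) ?_ ?_ ?_ ?_
  · rintro s ⟨a, b, rfl⟩ t ⟨c, d, rfl⟩ -
    refine ⟨max a c, min b d, ?_⟩
    rw [Set.Ioc_inter_Ioc]
    push_cast
    rfl
  · rintro s ⟨a, b, rfl⟩
    exact measurableSet_Ioc
  · intro u hu x hx
    obtain ⟨l, r, hlr, hsub⟩ := mem_nhds_iff_exists_Ioo_subset.1 (hu.mem_nhds hx)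
    obtain ⟨a, ha1, ha2⟩ := exists_rat_btwn hlr.1
    obtain ⟨b, hb1, hb2⟩ := exists_rat_btwn hlr.2
    refine ⟨Set.Ioc (a : ℝ) b, ⟨a, b, rfl⟩, ?_, ?_⟩
    · exact mem_of_superset (Ioo_mem_nhds ha2 hb1) Set.Ioo_subset_Ioc_self
    · intro y hy
      exact hsub ⟨ha1.trans hy.1, lt_of_le_of_lt hy.2 hb2⟩
  · rintro s ⟨a, b, rfl⟩
    rw [← NNReal.tendsto_coe]
    have key : Tendsto (fun μ : ProbabilityMeasure ℝ => (μ : Measure ℝ).real (Set.Ioc (a : ℝ) b))
        (S4_fil ν) (𝓝 ((ν : Measure ℝ).real (Set.Ioc (a : ℝ) b))) := by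
      have hq : ∀ q : ℚ, Tendsto (fun μ : ProbabilityMeasure ℝ => (μ : Measure ℝ).real (Set.Iic (q : ℝ)))
          (S4_fil ν) (𝓝 ((ν : Measure ℝ).real (Set.Iic (q : ℝ)))) := fun q =>
        tendsto_iff_comap.2 (iInf_le _ q)
      rcases le_total (a : ℝ) b with hab | hab
      · rw [S4_Ioc ν hab]
        simp_rw [S4_Ioc _ hab]
        exact (hq b).sub (hq a)
      · rw [Set.Ioc_eq_empty (not_lt.2 hab)]
        simp only [measureReal_empty]
        exact tendsto_const_nhds
    exact key

theorem S4_ne_dirac {L : Measure ℝ} (hL : ∀ x, L.real (Set.Iic x) = S4_G x) (x : ℝ) :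
    L ≠ Measure.dirac x := by
  rintro rfl
  have h1 : ∀ᶠ y in 𝓝[>] (0 : ℝ), FF y < 1 := FF_tendsto_zero.eventually_lt_const one_pos
  obtain ⟨y, hy1, hy2⟩ := (h1.and self_mem_nhdsWithin).exists
  have hy0 : 0 < y := hy2
  have h2 := hL y
  have h3 : S4_G y = FF y := if_neg (not_le.2 hy0)
  rw [h3, measureReal_def, Measure.dirac_apply' _ measurableSet_Iic] at h2
  have h4 := FF_pos hy0
  by_cases hxy : x ∈ Set.Iic y
  · rw [Set.indicator_of_mem hxy] at h2
    simp at h2
    linarith
  · rw [Set.indicator_of_notMem hxy] at h2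
    simp at h2
    linarith

/-- **[IVC-S4]** From distribution functions to bounded continuous functions. PROOF. Let
`G x = FF x` for `x > 0`, `0` for `x ≤ 0`: it is continuous (`hc`, `FF_tendsto_zero`), nondecreasing (`hm`), with limits `0` and `1`;
let `L` be its Stieltjes measure, a probability measure. Let `f` be bounded and continuous, `|f| ≤ C`, and `ε > 0`. Choose
`0 < a < b` with `FF a < ε`, `FF b > 1 - ε`, and a subdivision `a = x_0 < ⋯ < x_m = b` on the pieces of which `f` oscillates by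
less than `ε`. For all `n` in the filter far enough, `p n (x_i)` is within `ε/m` of `FF (x_i)`, where
`p n x = P n {X n ≤ x}`, so `∫ f(X n) dP n` and `∫ f dL` are both within `ε + 4Cε` of
`∑ f(x_i) (FF x_{i+1} - FF x_i)`. Not a point mass: `L (-∞, x] = FF x > 0` for all `x > 0`, so the only possible point is
`0`, but `FF x < 1` for some `x > 0`. -/
theorem law_of_FF (hm : MonotoneOn FF (Set.Ioi 0)) (hc : ContinuousOn FF (Set.Ioi 0)) :
    ∃ L : Measure ℝ, IsProbabilityMeasure L ∧ (∀ x, L ≠ Measure.dirac x) ∧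
    ∀ (Ω : Type) (_ : MeasurableSpace Ω) (l : Filter ℕ) (P : ℕ → Measure Ω) (X : ℕ → Ω → ℝ),
      (∀ᶠ n in l, IsProbabilityMeasure (P n)) → (∀ n, Measurable (X n)) → (∀ n ω, 0 ≤ X n ω) →
      (∀ x > 0, Tendsto (fun n => (P n).real {ω | X n ω ≤ x}) l (𝓝 (FF x))) →
      ∀ f : BoundedContinuousFunction ℝ ℝ,
        Tendsto (fun n => ∫ ω, f (X n ω) ∂(P n)) l (𝓝 (∫ x, f x ∂L)) := by
  have hprob : IsProbabilityMeasure (S4_St hm hc).measure :=
    (S4_St hm hc).isProbabilityMeasure S4_bot S4_top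
  have hL : ∀ x, (S4_St hm hc).measure.real (Set.Iic x) = S4_G x := by
    intro x
    rw [measureReal_def, (S4_St hm hc).measure_Iic S4_bot, sub_zero, ENNReal.toReal_ofReal]
    · rfl
    · change 0 ≤ S4_G x
      unfold S4_G
      split_ifs with h
      · exact le_rfl
      · exact (FF_pos (not_le.1 h)).le
  refine ⟨(S4_St hm hc).measure, hprob, S4_ne_dirac hL, ?_⟩
  intro Ω _ l P X hP hX hX0 hF f
  set ν : ProbabilityMeasure ℝ := ⟨(S4_St hm hc).measure, hprob⟩ with hν
  classical
  set μ : ℕ → ProbabilityMeasure ℝ := fun n =>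
    if h : IsProbabilityMeasure (P n) then
      ⟨(P n).map (X n), Measure.isProbabilityMeasure_map (hX n).aemeasurable⟩ else ν with hμ
  have hμe : ∀ n, IsProbabilityMeasure (P n) → (μ n : Measure ℝ) = (P n).map (X n) := by
    intro n hn
    have h1 : μ n = ⟨(P n).map (X n), Measure.isProbabilityMeasure_map (hX n).aemeasurable⟩ :=
      dif_pos hn
    rw [h1]
    rfl
  have hreal : ∀ n, IsProbabilityMeasure (P n) → ∀ q : ℝ,
      (μ n : Measure ℝ).real (Set.Iic q) = (P n).real {ω | X n ω ≤ q} := by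
    intro n hn q
    rw [hμe n hn, map_measureReal_apply (hX n) measurableSet_Iic]
    rfl
  have hconv : ∀ q : ℝ, Tendsto (fun n => (μ n : Measure ℝ).real (Set.Iic q)) l (𝓝 (S4_G q)) := by
    intro q
    by_cases hq : 0 < q
    · have h1 : S4_G q = FF q := if_neg (not_le.2 hq)
      rw [h1]
      refine (hF q hq).congr' ?_
      filter_upwards [hP] with n hn
      exact (hreal n hn q).symm
    · push Not at hq
      have h1 : S4_G q = 0 := if_pos hq
      rw [h1]
      rw [tendsto_order]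
      constructor
      · intro a ha
        exact Eventually.of_forall fun n => lt_of_lt_of_le ha measureReal_nonneg
      · intro a ha
        have h2 : ∀ᶠ y in 𝓝[>] (0 : ℝ), FF y < a := FF_tendsto_zero.eventually_lt_const ha
        obtain ⟨y, hy1, hy2⟩ := (h2.and self_mem_nhdsWithin).exists
        have hy0 : 0 < y := hy2
        filter_upwards [hP, (hF y hy0).eventually_lt_const hy1] with n hn hn2
        rw [← hreal n hn] at hn2
        refine lt_of_le_of_lt ?_ hn2
        exact measureReal_mono (Set.Iic_subset_Iic.2 (hq.trans hy0.le))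
  have hfil : Tendsto μ l (S4_fil ν) := by
    unfold S4_fil
    refine tendsto_iInf.2 fun q => tendsto_comap_iff.2 ?_
    have h1 : (ν : Measure ℝ).real (Set.Iic (q : ℝ)) = S4_G q := hL q
    rw [h1]
    exact hconv q
  have hfinal : Tendsto μ l (𝓝 ν) := (S4_conv ν).comp hfil
  have h2 := (ProbabilityMeasure.tendsto_iff_forall_integral_tendsto.1 hfinal) f
  refine h2.congr' ?_
  filter_upwards [hP] with n hn
  rw [hμe n hn, integral_map (hX n).aemeasurable f.continuous.aestronglyMeasurable]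

end Pool.Agent.BPT
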