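import Pool.Agent.MP_99a865_pr.FV.A1b
import Pool.Agent.MP_99a865_pr.FV.A1c

/-!
# Busy-period trees with infinite variance: definitions

`D` is `Ici 0` or `Ioi 0` (`Dom D`), `ρ` the law of a step, `kap D ρ k z` the law at time `k` of the walk
started at `z` and killed when it is outside `D` at one of the times `1, 2, …`, `hit D ρ n z` the
probability that it is killed exactly at time `n`.
-/

open MeasureTheory ProbabilityTheory Filter Topology
open scoped ENNReal NNReal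

namespace Pool.Agent.BPT

/-- centred integrable law which charges the negative half-line -/
structure Cen (ρ : Measure ℝ) : Prop where
  prob : IsProbabilityMeasure ρ
  int : Integrable (fun x : ℝ => x) ρ
  mean : ∫ x, x ∂ρ = 0
  neg : ρ (Set.Iio 0) ≠ 0

/-- the half-line of the dual walk -/
def Dst (D : Set ℝ) : Set ℝ := {y | -y ∉ D}

/-- law of the depth `-S_j` at the first exit, on the event that the walk started at `0` first
leaves `D` at time `j` -/
noncomputable def lad (D : Set ℝ) (ρ : Measure ℝ) (j : ℕ) : Measure ℝ :=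
  ((seqLaw ρ).restrict {ω | 1 ≤ j ∧ Alive D 0 (j - 1) ω ∧ 0 + S j ω ∉ D}).map fun ω => -S j ω

/-- the same for all `j` together -/
noncomputable def ladS (D : Set ℝ) (ρ : Measure ℝ) : Measure ℝ := Measure.sum fun j => lad D ρ j

/-- mass of the `r`-tuples `(h₁, …, h_r)` with `z - (h₁ + ⋯ + h_i) ∈ D` for `1 ≤ i ≤ r` -/
noncomputable def ww (D : Set ℝ) (τ : Measure ℝ) : ℕ → ℝ → ℝ≥0∞
  | 0 => fun _ => 1
  | r + 1 => fun z => ∫⁻ h in {h | z - h ∈ D}, ww D τ r (z - h) ∂τ

/-- renewal function of `τ` -/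
noncomputable def VT (D : Set ℝ) (τ : Measure ℝ) (z : ℝ) : ℝ≥0∞ := ∑' r, ww D τ r z

/-- renewal function of the descending ladder heights -/
noncomputable def VV (D : Set ℝ) (ρ : Measure ℝ) (z : ℝ) : ℝ≥0∞ := VT D (ladS D ρ) z

/-- Green function of the killed walk started at `0` -/
noncomputable def GG (D : Set ℝ) (ρ : Measure ℝ) (y : ℝ) : ℝ≥0∞ := ∑' k, kap D ρ k 0 (Set.Iic y)

/-- `m` is a descending ladder epoch (strict for `D = Ici 0`, weak for `D = Ioi 0`) -/
def Lad (D : Set ℝ) (m : ℕ) (ω : ℕ → ℝ) : Prop := ∀ i < m, S m ω - S i ω ∉ D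

/-- positive times with mean one (no assumption on the variances) -/
structure QI (μ ν : Measure ℝ) : Prop where
  probμ : IsProbabilityMeasure μ
  probν : IsProbabilityMeasure ν
  nonnegμ : μ (Set.Iio 0) = 0
  nonnegν : ν (Set.Iio 0) = 0
  meanμ : ∫ x, x ∂μ = 1
  meanν : ∫ x, x ∂ν = 1

/-- infinite variance -/
def InfV (μ ν : Measure ℝ) : Prop :=
  ¬ (Integrable (fun x : ℝ => x ^ 2) μ ∧ Integrable (fun x : ℝ => x ^ 2) ν)

open Classical in
/-- number of boundaries `b < m` reached alive at a level `≤ x` -/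
noncomputable def cG (D : Set ℝ) (x : ℝ) (m : ℕ) (ω : ℕ → ℝ × ℝ) : ℕ :=
  ((Finset.range m).filter fun b => Bd D ω b ∧ AliveQ D b ω ∧ Zw b ω ≤ x).card

/-- `N ∈ [M, M')` -/
def EvI (D : Set ℝ) (M M' : ℕ) : Set (ℕ → ℝ × ℝ) := {ω | ∃ n, M ≤ n ∧ n < M' ∧ ω ∈ EvN D n}

/-- `P(2^j ≤ N < 2^{j+1})` -/
noncomputable def qj (D : Set ℝ) (ρ : Measure ℝ) (j : ℕ) : ℝ :=
  ∑ n ∈ Finset.Ico (2 ^ j) (2 ^ (j + 1)), hit D ρ n 0

end Pool.Agent.BPT
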