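import Pool.Agent.MP_99a865_pr.CV.CDefs

open MeasureTheory ProbabilityTheory Filter Topology
open scoped ENNReal NNReal

namespace Pool.Agent.BPT

variable {D : Set ℝ} {ρ : Measure ℝ}

/-! **[IVC-K1]** Elementary facts on `Dst`, `dual`, `lad`, `ladS`. -/

theorem dom_Dst (hD : Dom D) : Dom (Dst D) := by
  rcases hD with rfl | rfl
  · right
    ext y
    simp [Dst]
  · left
    ext y
    simp [Dst]

theorem Dst_Dst : Dst (Dst D) = D := by
  ext y
  simp [Dst]

theorem dual_dual [IsProbabilityMeasure ρ] : dual (dual ρ) = ρ := by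
  unfold dual
  rw [Measure.map_map measurable_neg measurable_neg]
  have : ((fun x : ℝ => -x) ∘ fun x : ℝ => -x) = id := by
    funext x
    simp
  rw [this, Measure.map_id]

theorem prob_dual [IsProbabilityMeasure ρ] : IsProbabilityMeasure (dual ρ) := by
  unfold dual
  exact Measure.isProbabilityMeasure_map measurable_neg.aemeasurable

/-- `neg`: a centred law which charges `(-∞,0)` also charges `(0,∞)` (otherwise its mean is negative). -/
theorem Cen.dual (h : Cen ρ) : Cen (dual ρ) := by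
  have hm : Measurable (fun x : ℝ => -x) := measurable_neg
  have hp := h.prob
  refine ⟨prob_dual, ?_, ?_, ?_⟩
  · unfold BPT.dual
    rw [integrable_map_measure (by fun_prop) hm.aemeasurable]
    exact h.int.neg
  · unfold BPT.dual
    rw [integral_map hm.aemeasurable (by fun_prop), integral_neg, h.mean, neg_zero]
  · unfold BPT.dual
    rw [Measure.map_apply hm measurableSet_Iio]
    intro h0
    have h1 : (fun x : ℝ => -x) ⁻¹' Set.Iio 0 = Set.Ioi 0 := by
      ext x
      simp
    rw [h1] at h0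
    apply h.neg
    have h2 : ∀ᵐ x ∂ρ, 0 ≤ -x := by
      rw [ae_iff]
      have : {x : ℝ | ¬ 0 ≤ -x} = Set.Ioi 0 := by
        ext x
        simp
      rw [this]
      exact h0
    have h3 : ∫ x, -x ∂ρ = 0 := by
      rw [integral_neg, h.mean, neg_zero]
    have h4 := (integral_eq_zero_iff_of_nonneg_ae h2 h.int.neg).1 h3
    have h5 : ∀ᵐ x ∂ρ, x ∉ Set.Iio (0 : ℝ) := by
      filter_upwards [h4] with x hx hx'
      have : -x = 0 := hx
      have h6 : x < 0 := hx'
      linarith
    have h6 := ae_iff.1 h5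
    have h7 : {x : ℝ | ¬ x ∉ Set.Iio (0 : ℝ)} = Set.Iio 0 := by
      ext x
      exact not_not
    rw [h7] at h6
    exact h6

theorem lad_zero : lad D ρ 0 = 0 := by
  unfold lad
  have : {ω : ℕ → ℝ | 1 ≤ 0 ∧ Alive D 0 (0 - 1) ω ∧ 0 + S 0 ω ∉ D} = ∅ := by
    ext ω
    simp
  rw [this, Measure.restrict_empty, Measure.map_zero]

/-- the exit event -/
def K1_E (D : Set ℝ) (z : ℝ) (j : ℕ) : Set (ℕ → ℝ) :=
  {ω | 1 ≤ j ∧ Alive D z (j - 1) ω ∧ z + S j ω ∉ D}

theorem K1_meas (hD : Dom D) (z : ℝ) (j : ℕ) : MeasurableSet (K1_E D z j) := by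
  have h1 : K1_E D z j = {ω : ℕ → ℝ | 1 ≤ j} ∩ ({ω | Alive D z (j - 1) ω} ∩
      {ω | z + S j ω ∉ D}) := by
    ext ω
    simp [K1_E]
  rw [h1]
  refine (MeasurableSet.const _).inter ((measurableSet_alive hD z (j - 1)).inter ?_)
  exact (A1_meas_add j z) hD.meas.compl

theorem K1_mneg (j : ℕ) : Measurable fun ω : ℕ → ℝ => -S j ω := (measurable_S j).neg

theorem K1_disj (z : ℝ) : Pairwise (Function.onFun Disjoint (K1_E D z)) := by
  have key : ∀ i j, i < j → Disjoint (K1_E D z i) (K1_E D z j) := by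
    intro i j hij
    rw [Set.disjoint_left]
    intro ω hi hj
    exact hi.2.2 (hj.2.1 i hi.1 (by omega))
  intro i j hij
  rcases Nat.lt_or_gt_of_ne hij with h | h
  · exact key i j h
  · exact (key j i h).symm

theorem lad_univ (hD : Dom D) [IsProbabilityMeasure ρ] (j : ℕ) :
    lad D ρ j Set.univ = ENNReal.ofReal (hit D ρ j 0) := by
  have _ := hD
  unfold lad hit
  rw [Measure.map_apply (K1_mneg j) MeasurableSet.univ, Set.preimage_univ,
    Measure.restrict_apply_univ, Measure.real, ENNReal.ofReal_toReal (measure_ne_top _ _)]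

theorem lad_neg (hD : Dom D) [IsProbabilityMeasure ρ] (j : ℕ) : lad D ρ j (Set.Iio 0) = 0 := by
  unfold lad
  rw [Measure.map_apply (K1_mneg j) measurableSet_Iio,
    Measure.restrict_apply ((K1_mneg j) measurableSet_Iio)]
  have : (fun ω : ℕ → ℝ => -S j ω) ⁻¹' Set.Iio 0 ∩
      {ω | 1 ≤ j ∧ Alive D 0 (j - 1) ω ∧ 0 + S j ω ∉ D} = ∅ := by
    ext ω
    simp only [Set.mem_inter_iff, Set.mem_preimage, Set.mem_Iio, Set.mem_empty_iff_false, iff_false]
    rintro ⟨h1, h2⟩
    have h3 := hD.not_mem h2.2.2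
    linarith
  rw [this, measure_empty]

theorem lintegral_lad (hD : Dom D) [IsProbabilityMeasure ρ] (j : ℕ) (f : ℝ → ℝ≥0∞)
    (hf : Measurable f) : ∫⁻ h, f h ∂(lad D ρ j) =
      ∫⁻ ω in {ω | 1 ≤ j ∧ Alive D 0 (j - 1) ω ∧ 0 + S j ω ∉ D}, f (-S j ω) ∂(seqLaw ρ) := by
  have _ := hD
  unfold lad
  rw [lintegral_map hf (K1_mneg j)]

theorem lintegral_ladS (f : ℝ → ℝ≥0∞) :
    ∫⁻ h, f h ∂(ladS D ρ) = ∑' j, ∫⁻ h, f h ∂(lad D ρ j) := by
  unfold ladS
  exact lintegral_sum_measure _ _

/-- the exit events at different times are disjoint -/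
theorem ladS_le_one (hD : Dom D) [IsProbabilityMeasure ρ] : ladS D ρ Set.univ ≤ 1 := by
  unfold ladS
  rw [Measure.sum_apply _ MeasurableSet.univ]
  have h1 : ∀ j, lad D ρ j Set.univ = seqLaw ρ (K1_E D 0 j) := by
    intro j
    unfold lad
    rw [Measure.map_apply (K1_mneg j) MeasurableSet.univ, Set.preimage_univ,
      Measure.restrict_apply_univ]
    rfl
  simp only [h1]
  rw [← measure_iUnion (K1_disj 0) fun j => K1_meas hD 0 j]
  exact prob_le_one

theorem ladS_neg (hD : Dom D) [IsProbabilityMeasure ρ] : ladS D ρ (Set.Iio 0) = 0 := by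
  unfold ladS
  rw [Measure.sum_apply _ measurableSet_Iio]
  simp only [lad_neg hD, tsum_zero]

/-- `ladS` charges `(0,∞)`: already `lad 1` does (`-S_1 > 0` has positive probability) -/
theorem ladS_pos (hD : Dom D) (hρ : Cen ρ) : ladS D ρ (Set.Ioi 0) ≠ 0 := by
  have hp := hρ.prob
  unfold ladS
  rw [Measure.sum_apply _ measurableSet_Ioi]
  intro h0
  have h1 := ENNReal.tsum_eq_zero.1 h0 1
  unfold lad at h1
  rw [Measure.map_apply (K1_mneg 1) measurableSet_Ioi,
    Measure.restrict_apply ((K1_mneg 1) measurableSet_Ioi)] at h1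
  have h2 : (fun ω : ℕ → ℝ => -S 1 ω) ⁻¹' Set.Ioi 0 ∩
      {ω | 1 ≤ 1 ∧ Alive D 0 (1 - 1) ω ∧ 0 + S 1 ω ∉ D} = (fun ω : ℕ → ℝ => ω 0) ⁻¹' Set.Iio 0 := by
    ext ω
    have hS : S 1 ω = ω 0 := by simp [S]
    simp only [Set.mem_inter_iff, Set.mem_preimage, Set.mem_Ioi, Set.mem_Iio]
    rw [hS]
    constructor
    · rintro ⟨h, _⟩
      linarith
    · intro h
      refine ⟨by linarith, le_refl 1, A1_alive_zero 0 ω, ?_⟩
      show 0 + S 1 ω ∉ D
      rw [hS]
      intro hmem
      have := hD.nonneg hmem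
      linarith
  rw [h2, ← Measure.map_apply (measurable_pi_apply 0) measurableSet_Iio] at h1
  have h3 : (seqLaw ρ).map (fun ω : ℕ → ℝ => ω 0) = ρ := by
    unfold seqLaw
    exact Measure.infinitePi_map_eval (fun _ : ℕ => ρ) 0
  rw [h3] at h1
  exact hρ.neg h1

/-- `P_z(N > k)` and the exit probabilities: `kap k z univ + ∑_{n ≤ k} hit n z = 1`
(the exit time is `> k` or one of `1, …, k`) -/
theorem surv_add_hit (hD : Dom D) [IsProbabilityMeasure ρ] (k : ℕ) (z : ℝ) :
    kap D ρ k z Set.univ + ∑ n ∈ Finset.range (k + 1), ENNReal.ofReal (hit D ρ n z) = 1 := by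
  have hh : ∀ n, ENNReal.ofReal (hit D ρ n z) = seqLaw ρ (K1_E D z n) := by
    intro n
    unfold hit
    rw [Measure.real, ENNReal.ofReal_toReal (measure_ne_top _ _)]
    rfl
  simp only [hh, kap_univ_eq hD]
  induction k with
  | zero =>
    have h1 : {ω : ℕ → ℝ | Alive D z 0 ω} = Set.univ := by
      ext ω
      simp only [Set.mem_univ, iff_true]
      exact A1_alive_zero z ω
    have h2 : K1_E D z 0 = ∅ := by
      ext ω
      simp [K1_E]
    rw [h1, measure_univ, Finset.sum_range_one, h2, measure_empty, add_zero]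
  | succ k ih =>
    rw [Finset.sum_range_succ]
    have h1 : {ω : ℕ → ℝ | Alive D z k ω} = {ω | Alive D z (k + 1) ω} ∪ K1_E D z (k + 1) := by
      ext ω
      constructor
      · intro h
        by_cases h' : z + S (k + 1) ω ∈ D
        · left
          intro j hj1 hj2
          rcases Nat.lt_or_ge k j with h3 | h3
          · have : j = k + 1 := by omega
            rw [this]
            exact h'
          · exact h j hj1 h3
        · right
          exact ⟨by omega, by simpa using h, h'⟩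
      · rintro (h | h)
        · intro j hj1 hj2
          exact h j hj1 (by omega)
        · have := h.2.1
          simpa using this
    have h2 : Disjoint {ω : ℕ → ℝ | Alive D z (k + 1) ω} (K1_E D z (k + 1)) := by
      rw [Set.disjoint_left]
      intro ω h h'
      exact h'.2.2 (h (k + 1) (by omega) le_rfl)
    have h3 := measure_union (μ := seqLaw ρ) h2 (K1_meas hD z (k + 1))
    rw [← h1] at h3
    rw [h3] at ih
    rw [← ih]
    ring

theorem surv_anti (hD : Dom D) [IsProbabilityMeasure ρ] (z : ℝ) :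
    Antitone fun k => kap D ρ k z Set.univ := by
  intro k l hkl
  show kap D ρ l z Set.univ ≤ kap D ρ k z Set.univ
  rw [kap_univ_eq hD, kap_univ_eq hD]
  apply measure_mono
  intro ω h j hj1 hj2
  exact h j hj1 (hj2.trans hkl)

end Pool.Agent.BPT
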