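import Pool.Agent.MP_99a865_pr.CV.K3

open MeasureTheory ProbabilityTheory Filter Topology
open scoped ENNReal NNReal

namespace Pool.Agent.BPT

variable {D : Set ℝ} {τ : Measure ℝ}

theorem K5_ae (h0 : τ (Set.Iio 0) = 0) : ∀ᵐ h ∂τ, (0 : ℝ) ≤ h := by
  rw [ae_iff]
  have : {h : ℝ | ¬ 0 ≤ h} = Set.Iio 0 := by
    ext h
    simp
  rw [this]
  exact h0

theorem K5_meas (hD : Dom D) (z : ℝ) : MeasurableSet {h : ℝ | z - h ∈ D} :=
  (measurable_const.sub measurable_id) hD.meas

theorem K5_meas_sum (hD : Dom D) [SFinite τ] (R : ℕ) (z : ℝ) :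
    Measurable fun h : ℝ => ∑ r ∈ Finset.range R, ww D τ r (z - h) :=
  Finset.measurable_sum _ fun r _ =>
    (measurable_ww hD r).comp (measurable_const.sub measurable_id)

/-- **[IVC-K5a]** Wald's identity, upper bound. PROOF. With `W_R(z) = ∑_{r<R} ww r z` and
`c = ∫ min(h,a) ∂τ`, show `c W_R(z) ≤ z + a` for all `z ≥ 0` by induction on `R`:
`c W_{R+1}(z) = c + ∫_{z-h∈D} c W_R(z-h) ≤ c + ∫_{z-h∈D} (z - h + a)`, and
`c ≤ ∫_{z-h∈D} h + a τ{z-h∉D}` (for `h ≥ 0`), so the total is at most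
`(z + a) τ{z-h∈D} + a τ{z-h∉D} ≤ z + a`. -/
theorem wald_le (hD : Dom D) (h1 : τ Set.univ ≤ 1) (h0 : τ (Set.Iio 0) = 0) (z a : ℝ) (hz : 0 ≤ z)
    (ha : 0 ≤ a) :
    (∫⁻ h, ENNReal.ofReal (min h a) ∂τ) * VT D τ z ≤ ENNReal.ofReal (z + a) := by
  haveI : IsFiniteMeasure τ := ⟨lt_of_le_of_lt h1 ENNReal.one_lt_top⟩
  have hae := K5_ae h0
  set c := ∫⁻ h, ENNReal.ofReal (min h a) ∂τ with hc
  have key : ∀ R : ℕ, ∀ z : ℝ, 0 ≤ z →
      c * ∑ r ∈ Finset.range R, ww D τ r z ≤ ENNReal.ofReal (z + a) := by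
    intro R
    induction R with
    | zero => intro z hz; simp
    | succ R ih =>
      intro z hz
      have hA := K5_meas hD z
      set A : Set ℝ := {h : ℝ | z - h ∈ D} with hAd
      rw [sum_ww_rec hD R z, mul_add, mul_one]
      have e1 : c * ∫⁻ h in A, ∑ r ∈ Finset.range R, ww D τ r (z - h) ∂τ ≤
          ∫⁻ h in A, ENNReal.ofReal (z - h + a) ∂τ := by
        rw [← lintegral_const_mul _ (K5_meas_sum hD R z)]
        apply setLIntegral_mono' hA
        intro h hh
        exact ih (z - h) (hD.nonneg hh)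
      have e2 : c ≤ ∫⁻ h in A, ENNReal.ofReal h ∂τ + ∫⁻ _h in Aᶜ, ENNReal.ofReal a ∂τ := by
        rw [hc, ← lintegral_add_compl _ hA]
        exact add_le_add
          (lintegral_mono fun h => ENNReal.ofReal_le_ofReal (min_le_left _ _))
          (lintegral_mono fun h => ENNReal.ofReal_le_ofReal (min_le_right _ _))
      have e3 : ∫⁻ h in A, ENNReal.ofReal h ∂τ + ∫⁻ h in A, ENNReal.ofReal (z - h + a) ∂τ ≤
          ∫⁻ _h in A, ENNReal.ofReal (z + a) ∂τ := by
        rw [← lintegral_add_left (by fun_prop)]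
        apply setLIntegral_mono_ae' hA
        filter_upwards [hae] with h hh hhA
        have h3 : 0 ≤ z - h := hD.nonneg hhA
        rw [← ENNReal.ofReal_add hh (by linarith)]
        apply ENNReal.ofReal_le_ofReal
        linarith
      have e4 : ∫⁻ _h in Aᶜ, ENNReal.ofReal a ∂τ ≤ ∫⁻ _h in Aᶜ, ENNReal.ofReal (z + a) ∂τ :=
        lintegral_mono fun h => ENNReal.ofReal_le_ofReal (by linarith)
      calc c + c * ∫⁻ h in A, ∑ r ∈ Finset.range R, ww D τ r (z - h) ∂τ
          ≤ (∫⁻ h in A, ENNReal.ofReal h ∂τ + ∫⁻ _h in Aᶜ, ENNReal.ofReal a ∂τ) +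
            ∫⁻ h in A, ENNReal.ofReal (z - h + a) ∂τ := add_le_add e2 e1
        _ = (∫⁻ h in A, ENNReal.ofReal h ∂τ + ∫⁻ h in A, ENNReal.ofReal (z - h + a) ∂τ) +
            ∫⁻ _h in Aᶜ, ENNReal.ofReal a ∂τ := by ring
        _ ≤ ∫⁻ _h in A, ENNReal.ofReal (z + a) ∂τ + ∫⁻ _h in Aᶜ, ENNReal.ofReal (z + a) ∂τ :=
            add_le_add e3 e4
        _ = ENNReal.ofReal (z + a) * τ Set.univ := by
            rw [lintegral_add_compl _ hA, lintegral_const]
        _ ≤ ENNReal.ofReal (z + a) * 1 := by gcongr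
        _ = ENNReal.ofReal (z + a) := mul_one _
  unfold VT
  rw [ENNReal.tsum_eq_iSup_nat, ENNReal.mul_iSup]
  exact iSup_le fun R => key R z hz

/-- **[IVC-K5b]** Wald's identity, lower bound. PROOF. With `c = ∫ h ∂τ`, show
`z ≤ c W_R(z) + z · ww R z` for all `z ≥ 0` by induction on `R`: `W_0 = 0`, `ww 0 = 1`; step:
`c W_{R+1}(z) + z ww (R+1) z = c + ∫_{z-h∈D} (c W_R(z-h) + z ww R (z-h)) ≥ c + ∫_{z-h∈D} (z - h)`
`≥ ∫_{z-h∉D} h + ∫_{z-h∈D} z ≥ z` (`z - h ∉ D` implies `h ≥ z`; `τ` has mass one; `c = ∞` is trivial since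
`VT ≥ 1`). As `VT z < ∞`, `ww R z → 0`. -/
theorem wald_ge (hD : Dom D) (h1 : τ Set.univ = 1) (h0 : τ (Set.Iio 0) = 0) (z : ℝ) (hz : 0 ≤ z)
    (hfin : VT D τ z ≠ ⊤) :
    ENNReal.ofReal z ≤ (∫⁻ h, ENNReal.ofReal h ∂τ) * VT D τ z := by
  haveI : IsFiniteMeasure τ := ⟨by rw [h1]; exact ENNReal.one_lt_top⟩
  have hae := K5_ae h0
  set c := ∫⁻ h, ENNReal.ofReal h ∂τ with hc
  have key : ∀ R : ℕ, ∀ z : ℝ, 0 ≤ z → ENNReal.ofReal z ≤
      c * ∑ r ∈ Finset.range R, ww D τ r z + ENNReal.ofReal z * ww D τ R z := by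
    intro R
    induction R with
    | zero => intro z hz; simp [ww]
    | succ R ih =>
      intro z hz
      have hA := K5_meas hD z
      have hw : ww D τ (R + 1) z = ∫⁻ h in {h | z - h ∈ D}, ww D τ R (z - h) ∂τ := rfl
      rw [sum_ww_rec hD R z, mul_add, mul_one, hw]
      set A : Set ℝ := {h : ℝ | z - h ∈ D} with hAd
      have hwm : Measurable fun h : ℝ => ww D τ R (z - h) :=
        (measurable_ww hD R).comp (measurable_const.sub measurable_id)
      rw [← lintegral_const_mul _ (K5_meas_sum hD R z), ← lintegral_const_mul _ hwm, add_assoc,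
        ← lintegral_add_left ((K5_meas_sum hD R z).const_mul c)]
      have e1 : ∫⁻ h in A, ENNReal.ofReal (z - h) ∂τ ≤
          ∫⁻ h in A, (c * ∑ r ∈ Finset.range R, ww D τ r (z - h) +
            ENNReal.ofReal z * ww D τ R (z - h)) ∂τ := by
        apply setLIntegral_mono_ae' hA
        filter_upwards [hae] with h hh hhA
        refine (ih (z - h) (hD.nonneg hhA)).trans ?_
        gcongr
        linarith
      have e2 : ∫⁻ h in A, ENNReal.ofReal h ∂τ + ∫⁻ h in Aᶜ, ENNReal.ofReal h ∂τ = c := by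
        rw [hc, lintegral_add_compl _ hA]
      calc ENNReal.ofReal z = ENNReal.ofReal z * τ Set.univ := by rw [h1, mul_one]
        _ = ∫⁻ _h in A, ENNReal.ofReal z ∂τ + ∫⁻ _h in Aᶜ, ENNReal.ofReal z ∂τ := by
            rw [lintegral_add_compl _ hA, lintegral_const]
        _ ≤ ∫⁻ h in A, (ENNReal.ofReal h + ENNReal.ofReal (z - h)) ∂τ +
            ∫⁻ h in Aᶜ, ENNReal.ofReal h ∂τ := by
            apply add_le_add
            · apply lintegral_mono
              intro h
              calc ENNReal.ofReal z = ENNReal.ofReal (h + (z - h)) := by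
                    congr 1
                    ring
                _ ≤ _ := ENNReal.ofReal_add_le
            · apply setLIntegral_mono' hA.compl
              intro h hh
              apply ENNReal.ofReal_le_ofReal
              have := hD.not_mem hh
              linarith
        _ = (∫⁻ h in A, ENNReal.ofReal h ∂τ + ∫⁻ h in A, ENNReal.ofReal (z - h) ∂τ) +
            ∫⁻ h in Aᶜ, ENNReal.ofReal h ∂τ := by
            rw [lintegral_add_left (by fun_prop)]
        _ = c + ∫⁻ h in A, ENNReal.ofReal (z - h) ∂τ := by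
            rw [← e2]
            ring
        _ ≤ _ := by gcongr
  have hT : Tendsto (fun R : ℕ => c * VT D τ z + ENNReal.ofReal z * ww D τ R z) atTop
      (𝓝 (c * VT D τ z + ENNReal.ofReal z * 0)) := by
    apply Tendsto.add tendsto_const_nhds
    apply ENNReal.Tendsto.const_mul
    · exact ENNReal.tendsto_atTop_zero_of_tsum_ne_top hfin
    · exact Or.inr ENNReal.ofReal_ne_top
  rw [mul_zero, add_zero] at hT
  apply ge_of_tendsto' hT
  intro R
  refine (key R z hz).trans ?_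
  gcongr
  unfold VT
  exact ENNReal.sum_le_tsum _

end Pool.Agent.BPT
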