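import Pool.Agent.MP_99a865_pr.CV.K9
import Pool.Agent.MP_99a865_pr.CV.K5

open MeasureTheory ProbabilityTheory Filter Topology
open scoped ENNReal NNReal

namespace Pool.Agent.BPT

variable {D : Set ℝ} {ρ : Measure ℝ}

lemma K10_lad_succ (hD : Dom D) [IsProbabilityMeasure ρ] (f : ℝ → ℝ≥0∞) (hf : Measurable f)
    (k : ℕ) :
    ∫⁻ h, f h ∂(lad D ρ (k + 1)) =
      ∫⁻ s, ∫⁻ x in {x | s + x ∉ D}, f (-(s + x)) ∂ρ ∂(kap D ρ k 0) := by
  classical
  set G : ℝ → ℝ≥0∞ := Dᶜ.indicator fun z => f (-z) with hG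
  have hGm : Measurable G := (hf.comp measurable_neg).indicator hD.meas.compl
  set H : (ℕ → ℝ) → (ℕ → ℝ) → ℝ≥0∞ := fun ω η =>
    (({ω | Alive D 0 k ω} : Set (ℕ → ℝ)).indicator (fun _ => (1 : ℝ≥0∞)) ω) *
      G ((0 + S k ω) + η 0) with hHdef
  have hSk : Measurable fun p : (ℕ → ℝ) × (ℕ → ℝ) => (0 + S k p.1) + p.2 0 :=
    ((A1_meas_add k 0).comp measurable_fst).add ((measurable_pi_apply 0).comp measurable_snd)
  have hHm : Measurable (Function.uncurry H) := by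
    refine Measurable.mul ?_ (hGm.comp hSk)
    exact (measurable_const.indicator (measurableSet_alive hD 0 k)).comp measurable_fst
  have hdep : ∀ ω ω' η, (∀ i < k, ω i = ω' i) → H ω η = H ω' η := by
    intro ω ω' η h
    have h1 := A1b_S_congr k h le_rfl
    have h2 := A1b_alive_congr (D := D) k 0 h
    simp only [hHdef, h1, Set.indicator, Set.mem_ofPred_eq, h2]
  have key := lintegral_split ρ k H hHm hdep
  have hms : MeasurableSet {ω : ℕ → ℝ | 1 ≤ k + 1 ∧ Alive D 0 (k + 1 - 1) ω ∧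
      0 + S (k + 1) ω ∉ D} := by
    refine MeasurableSet.inter (MeasurableSet.const _) (MeasurableSet.inter ?_ ?_)
    · exact measurableSet_alive hD 0 _
    · exact (A1_meas_add (k + 1) 0) hD.meas.compl
  have hL : ∫⁻ h, f h ∂(lad D ρ (k + 1)) = ∫⁻ ω, H ω (shift k ω) ∂(seqLaw ρ) := by
    rw [lintegral_lad hD (k + 1) f hf, ← lintegral_indicator hms]
    refine lintegral_congr fun ω => ?_
    have h2 : S k ω + shift k ω 0 = S (k + 1) ω := by
      rw [S_shift]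
      simp [S]
    simp only [hHdef, hG, Set.indicator, Set.mem_ofPred_eq, Set.mem_compl_iff, zero_add, h2]
    by_cases h1 : Alive D 0 k ω
    · by_cases h3 : S (k + 1) ω ∈ D
      · rw [if_neg (fun h => h.2.2 h3), if_neg (not_not.mpr h3), mul_zero]
      · rw [if_pos ⟨by omega, h1, h3⟩, if_pos h3, if_pos h1, one_mul]
    · rw [if_neg (fun h => h1 h.2.1), if_neg h1, zero_mul]
  rw [hL, key]
  have h3 : (seqLaw ρ).map (fun ω : ℕ → ℝ => ω 0) = ρ :=
    Measure.infinitePi_map_eval (μ := fun _ : ℕ => ρ) 0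
  have hinner : ∀ ω, ∫⁻ η, H ω η ∂(seqLaw ρ) =
      (({ω | Alive D 0 k ω} : Set (ℕ → ℝ)).indicator
        (fun ω => ∫⁻ x, G ((0 + S k ω) + x) ∂ρ) ω) := by
    intro ω
    have hη : Measurable fun η : ℕ → ℝ => G ((0 + S k ω) + η 0) :=
      hGm.comp ((measurable_const_add _).comp (measurable_pi_apply 0))
    have h4 : ∫⁻ η, G ((0 + S k ω) + η 0) ∂(seqLaw ρ) = ∫⁻ x, G ((0 + S k ω) + x) ∂ρ := by
      have h5 := lintegral_map (μ := seqLaw ρ) (f := fun x => G ((0 + S k ω) + x))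
        (g := fun ω : ℕ → ℝ => ω 0) (hGm.comp (measurable_const_add _)) (measurable_pi_apply 0)
      rw [h3] at h5
      exact h5.symm
    simp only [hHdef]
    rw [lintegral_const_mul _ hη, h4]
    by_cases h1 : Alive D 0 k ω
    · simp [Set.indicator, h1]
    · simp [Set.indicator, h1]
  simp_rw [hinner]
  rw [lintegral_indicator (measurableSet_alive hD 0 k)]
  have hΦ : Measurable fun s => ∫⁻ x, G (s + x) ∂ρ :=
    (hGm.comp (measurable_fst.add measurable_snd)).lintegral_prod_right'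
  rw [← lintegral_kap_eq hD k 0 (fun s => ∫⁻ x, G (s + x) ∂ρ) hΦ]
  refine lintegral_congr fun s => ?_
  have hms2 : MeasurableSet {x : ℝ | s + x ∉ D} := (measurable_const_add s) hD.meas.compl
  rw [← lintegral_indicator hms2]
  rfl

/-- **[IVC-K10a]** Integrals against the ladder height law (a walk alive up to `k` at `s` exits at time
`k + 1` with depth `-(s + x)`; `lintegral_lad`, `lintegral_split` at time `k`). -/
theorem lintegral_ladS_kap (hD : Dom D) [IsProbabilityMeasure ρ] (f : ℝ → ℝ≥0∞) (hf : Measurable f) :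
    ∫⁻ h, f h ∂(ladS D ρ) =
      ∑' k, ∫⁻ s, ∫⁻ x in {x | s + x ∉ D}, f (-(s + x)) ∂ρ ∂(kap D ρ k 0) := by
  rw [lintegral_ladS, tsum_eq_zero_add' ENNReal.summable, lad_zero, lintegral_zero_measure,
    zero_add]
  exact tsum_congr fun k => K10_lad_succ hD f hf k

lemma K10_vol (m : Measure ℝ) (c : ℝ≥0∞) (hm : ∀ s, 0 ≤ s → c * ENNReal.ofReal s ≤
    m (Set.Icc 0 s)) (A : Set ℝ) (hA : MeasurableSet A) (h0 : A ⊆ Set.Ici 0)
    (hd : ∀ s ∈ A, Set.Icc 0 s ⊆ A) : c * volume A ≤ m A := by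
  rw [hA.measure_eq_iSup_isCompact]
  simp only [ENNReal.mul_iSup]
  refine iSup_le fun K => iSup_le fun hK => iSup_le fun hKc => ?_
  rcases K.eq_empty_or_nonempty with rfl | hne
  · simp
  · obtain ⟨a, ha, hmax⟩ := hKc.exists_isGreatest hne
    have h1 : K ⊆ Set.Icc 0 a := fun x hx => ⟨h0 (hK hx), hmax hx⟩
    have h2 : volume K ≤ ENNReal.ofReal a := by
      refine (measure_mono h1).trans ?_
      rw [Real.volume_Icc, sub_zero]
    calc c * volume K ≤ c * ENNReal.ofReal a := by gcongr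
      _ ≤ m (Set.Icc 0 a) := hm a (h0 (hK ha))
      _ ≤ m A := measure_mono (hd a (hK ha))

/-- **[IVC-K10b]** If `m [0,s] ≥ c s` for all `s ≥ 0` then `∫ φ dm ≥ c ∫_0^∞ φ` for `φ` nonincreasing
(layer cake `lintegral_eq_lintegral_meas_lt`: `{s ≥ 0 : φ s > t}` is an interval `[0, s_t)` or `[0, s_t]`). -/
theorem lintegral_antitone_ge (m : Measure ℝ) (c : ℝ≥0∞) (hm : ∀ s, 0 ≤ s → c * ENNReal.ofReal s ≤
    m (Set.Icc 0 s)) (φ : ℝ → ℝ) (hφ : Antitone φ) (h0 : ∀ s, 0 ≤ φ s) :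
    c * ∫⁻ s in Set.Ici (0 : ℝ), ENNReal.ofReal (φ s) ≤
      ∫⁻ s in Set.Ici (0 : ℝ), ENNReal.ofReal (φ s) ∂m := by
  have hφm : Measurable φ := hφ.measurable
  rw [lintegral_eq_lintegral_meas_lt _ (Filter.Eventually.of_forall h0) hφm.aemeasurable,
    lintegral_eq_lintegral_meas_lt _ (Filter.Eventually.of_forall h0) hφm.aemeasurable]
  refine (lintegral_const_mul_le _ _).trans (lintegral_mono fun t => ?_)
  have hms : MeasurableSet {a | t < φ a} := measurableSet_lt measurable_const hφm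
  rw [Measure.restrict_apply hms, Measure.restrict_apply hms]
  refine K10_vol m c hm _ (hms.inter measurableSet_Ici) Set.inter_subset_right ?_
  rintro s ⟨hs1, hs2⟩ u ⟨hu1, hu2⟩
  exact ⟨lt_of_lt_of_le hs1 (hφ hu2), hu1⟩

lemma K10_Phi_fin (hρ : Cen ρ) (s : ℝ) : ∫⁻ x, ENNReal.ofReal (-(s + x)) ∂ρ ≠ ⊤ := by
  have := hρ.prob
  have h1 : Integrable (fun x : ℝ => -(s + x)) ρ := ((integrable_const s).add hρ.int).neg
  exact h1.lintegral_lt_top.ne

lemma K10_pos (τ : Measure ℝ) (h : τ (Set.Ioi 0) ≠ 0) (f : ℝ → ℝ) (hf : Measurable f)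
    (hpos : ∀ x, 0 < x → 0 < f x) : ∫⁻ x, ENNReal.ofReal (f x) ∂τ ≠ 0 := by
  intro h0
  rw [lintegral_eq_zero_iff hf.ennreal_ofReal] at h0
  apply h
  rw [measure_eq_zero_iff_ae_notMem]
  filter_upwards [h0] with x hx hx'
  have h1 : ENNReal.ofReal (f x) = 0 := hx
  rw [ENNReal.ofReal_eq_zero] at h1
  exact absurd (hpos x hx') (not_lt.mpr h1)

lemma K10_green (hD : Dom D) (hρ : Cen ρ)
    (h2 : ∫⁻ h, ENNReal.ofReal h ∂(ladS (Dst D) (dual ρ)) ≠ ⊤) (s : ℝ) (hs : 0 ≤ s) :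
    (∫⁻ h, ENNReal.ofReal h ∂(ladS (Dst D) (dual ρ)))⁻¹ * ENNReal.ofReal s ≤
      (Measure.sum fun k => kap D ρ k 0) (Set.Icc 0 s) := by
  have := hρ.prob
  have hD' := dom_Dst hD
  have hρ' := hρ.dual
  have := hρ'.prob
  have hp := ladS_pos hD' hρ'
  have hc0 : ∫⁻ h, ENNReal.ofReal h ∂(ladS (Dst D) (dual ρ)) ≠ 0 :=
    K10_pos _ hp _ measurable_id fun x hx => hx
  have hu := ladS_univ hD' hρ'
  have hn := ladS_neg (ρ := dual ρ) hD'
  have hfin : VT (Dst D) (ladS (Dst D) (dual ρ)) s ≠ ⊤ := by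
    intro htop
    have h3 := wald_le hD' hu.le hn s 1 hs zero_le_one
    have h4 : ∫⁻ h, ENNReal.ofReal (min h 1) ∂(ladS (Dst D) (dual ρ)) ≠ 0 :=
      K10_pos _ hp _ (measurable_id.min measurable_const) fun x hx => lt_min hx one_pos
    rw [htop, ENNReal.mul_top h4] at h3
    exact absurd h3 (not_le.mpr ENNReal.ofReal_lt_top)
  have h5 := wald_ge hD' hu hn s hs hfin
  have h6 := le_GG (ρ := ρ) hD s hs
  rw [ENNReal.inv_mul_le_iff hc0 h2]
  refine h5.trans ?_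
  gcongr
  refine h6.trans ?_
  unfold GG
  rw [Measure.sum_apply _ measurableSet_Icc]
  refine ENNReal.tsum_le_tsum fun k => ?_
  have h7 : kap D ρ k 0 (Set.Iio 0) = 0 := by
    rcases Nat.eq_zero_or_pos k with rfl | hk
    · rw [kap_zero, Measure.dirac_apply' _ measurableSet_Iio]
      simp
    · refine measure_mono_null ?_ (kap_compl hD k 0 (Or.inl hk))
      intro x hx hx'
      exact absurd (hD.nonneg hx') (not_le.mpr hx)
  have h8 : Set.Iic s ⊆ Set.Icc 0 s ∪ Set.Iio 0 := by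
    intro x hx
    rcases lt_or_ge x 0 with h | h
    · exact Or.inr h
    · exact Or.inl ⟨h, hx⟩
  refine (measure_mono h8).trans ((measure_union_le _ _).trans ?_)
  rw [h7, add_zero]

lemma K10_half (hD : Dom D) (hρ : Cen ρ) (h1 : ∫⁻ h, ENNReal.ofReal h ∂(ladS D ρ) ≠ ⊤)
    (h2 : ∫⁻ h, ENNReal.ofReal h ∂(ladS (Dst D) (dual ρ)) ≠ ⊤) :
    ∫⁻ x in Set.Iic 0, ENNReal.ofReal (x ^ 2) ∂ρ ≠ ⊤ := by
  have := hρ.prob
  set m : Measure ℝ := Measure.sum fun k => kap D ρ k 0 with hm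
  set c : ℝ≥0∞ := (∫⁻ h, ENNReal.ofReal h ∂(ladS (Dst D) (dual ρ)))⁻¹ with hc
  set Φ : ℝ → ℝ≥0∞ := fun s => ∫⁻ x, ENNReal.ofReal (-(s + x)) ∂ρ with hΦ
  have hΦm : Measurable Φ :=
    (((measurable_fst.add measurable_snd).neg).ennreal_ofReal : Measurable
      fun p : ℝ × ℝ => ENNReal.ofReal (-(p.1 + p.2))).lintegral_prod_right'
  have hΦf : ∀ s, Φ s ≠ ⊤ := fun s => K10_Phi_fin hρ s
  have hΦa : Antitone Φ := by
    intro s s' hss
    refine lintegral_mono fun x => ENNReal.ofReal_le_ofReal ?_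
    linarith
  have hφ : ∀ s, ENNReal.ofReal (Φ s).toReal = Φ s := fun s => ENNReal.ofReal_toReal (hΦf s)
  have h3 : c * ∫⁻ s in Set.Ici (0 : ℝ), Φ s ≤ ∫⁻ s in Set.Ici (0 : ℝ), Φ s ∂m := by
    have := lintegral_antitone_ge m c (K10_green hD hρ h2) (fun s => (Φ s).toReal)
      (fun s s' hss => ENNReal.toReal_mono (hΦf s) (hΦa hss)) (fun s => ENNReal.toReal_nonneg)
    simpa only [hφ] using this
  have h4 : ∫⁻ s, Φ s ∂m = ∫⁻ h, ENNReal.ofReal h ∂(ladS D ρ) := by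
    rw [lintegral_ladS_kap hD _ ENNReal.measurable_ofReal, hm, lintegral_sum_measure]
    refine tsum_congr fun k => lintegral_congr fun s => ?_
    have hms : MeasurableSet {x : ℝ | s + x ∉ D} := (measurable_const_add s) hD.meas.compl
    rw [← lintegral_indicator hms]
    refine lintegral_congr fun x => ?_
    simp only [Set.indicator, Set.mem_ofPred_eq]
    by_cases h : s + x ∈ D
    · rw [if_neg (not_not.mpr h), ENNReal.ofReal_eq_zero]
      linarith [hD.nonneg h]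
    · rw [if_pos h]
  have h5 : c * ∫⁻ s in Set.Ici (0 : ℝ), Φ s ≠ ⊤ := by
    refine ne_top_of_le_ne_top h1 ?_
    rw [← h4]
    exact h3.trans (setLIntegral_le_lintegral _ _)
  have hc0 : c ≠ 0 := ENNReal.inv_ne_zero.mpr h2
  have h6 : ∫⁻ s in Set.Ici (0 : ℝ), Φ s ≠ ⊤ := by
    intro h
    rw [h, ENNReal.mul_top hc0] at h5
    exact h5 rfl
  -- Tonelli
  have hms : Measurable (fun p : ℝ × ℝ => ENNReal.ofReal (-(p.1 + p.2))) :=
    (measurable_fst.add measurable_snd).neg.ennreal_ofReal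
  have h7 : ∫⁻ s in Set.Ici (0 : ℝ), Φ s =
      ∫⁻ x, (∫⁻ s in Set.Ici (0 : ℝ), ENNReal.ofReal (-(s + x))) ∂ρ := by
    exact lintegral_lintegral_swap hms.aemeasurable
  have h8 : ∫⁻ x in Set.Iic 0, ENNReal.ofReal (x ^ 2) * ENNReal.ofReal (1 / 4) ∂ρ ≤
      ∫⁻ s in Set.Ici (0 : ℝ), Φ s := by
    rw [h7]
    refine le_trans ?_ (setLIntegral_le_lintegral (Set.Iic 0) _)
    refine setLIntegral_mono' measurableSet_Iic fun x hx => ?_
    have hx' : x ≤ 0 := hx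
    calc ENNReal.ofReal (x ^ 2) * ENNReal.ofReal (1 / 4)
        = ENNReal.ofReal (-x / 2) * ENNReal.ofReal (-x / 2) := by
          rw [← ENNReal.ofReal_mul (by positivity), ← ENNReal.ofReal_mul (by linarith)]
          congr 1
          ring
      _ = ∫⁻ s in Set.Icc 0 (-x / 2), ENNReal.ofReal (-x / 2) := by
          rw [setLIntegral_const, Real.volume_Icc, sub_zero]
      _ ≤ ∫⁻ s in Set.Icc 0 (-x / 2), ENNReal.ofReal (-(s + x)) := by
          refine setLIntegral_mono' measurableSet_Icc fun s hs => ?_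
          refine ENNReal.ofReal_le_ofReal ?_
          linarith [hs.2]
      _ ≤ ∫⁻ s in Set.Ici 0, ENNReal.ofReal (-(s + x)) :=
          lintegral_mono_set fun s hs => hs.1
  have h9 : (∫⁻ x in Set.Iic 0, ENNReal.ofReal (x ^ 2) ∂ρ) * ENNReal.ofReal (1 / 4) ≠ ⊤ := by
    rw [← lintegral_mul_const _ (by fun_prop)]
    exact ne_top_of_le_ne_top h6 h8
  intro h
  rw [h, ENNReal.top_mul (by simp)] at h9
  exact h9 rfl

/-- **[IVC-K10c]** If both ladder heights have finite mean then the variance is finite.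
PROOF. Let `c = ∫ h ∂(ladS D ρ)`, `c* = ∫ h ∂(ladS (Dst D) (dual ρ))`, both finite, `c* > 0` (`ladS_pos`). By `wald_ge`
(`ladS_univ`, `ladS_neg`, finiteness from `wald_le` with `a = 1`) `VV (Dst D) (dual ρ) s ≥ s/c*`, so the measure
`m = ∑_k kap D ρ k 0` satisfies `m [0,s] ≥ s/c*` (`le_GG`; the killed walk from `0` lives on `[0,∞)`). By
`lintegral_ladS_kap` with `f h = ofReal h`, `c = ∫ φ dm`, `φ(s) = ∫ ofReal (-(s+x)) ∂ρ` (`-(s+x) ≤ 0` when `s + x ∈ D`),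
which is nonincreasing, so `c ≥ (1/c*) ∫_0^∞ φ = (1/(2c*)) E[(X^-)²]` (Tonelli). The same with the dual walk
bounds `E[(X^+)²]`. -/
theorem var_of_means (hD : Dom D) (hρ : Cen ρ) (h1 : ∫⁻ h, ENNReal.ofReal h ∂(ladS D ρ) ≠ ⊤)
    (h2 : ∫⁻ h, ENNReal.ofReal h ∂(ladS (Dst D) (dual ρ)) ≠ ⊤) :
    ∫⁻ x, ENNReal.ofReal (x ^ 2) ∂ρ ≠ ⊤ := by
  have := hρ.prob
  have h3 := K10_half hD hρ h1 h2
  have h4 := K10_half (dom_Dst hD) hρ.dual h2 (by rwa [Dst_Dst, dual_dual])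
  have h5 : ∫⁻ x in Set.Iic 0, ENNReal.ofReal (x ^ 2) ∂(dual ρ) =
      ∫⁻ x in Set.Ici 0, ENNReal.ofReal (x ^ 2) ∂ρ := by
    unfold dual
    rw [setLIntegral_map measurableSet_Iic (by fun_prop) measurable_neg]
    have h6 : (fun x : ℝ => -x) ⁻¹' Set.Iic 0 = Set.Ici 0 := by
      ext x
      simp
    rw [h6]
    refine lintegral_congr fun x => ?_
    rw [neg_sq]
  rw [h5] at h4
  have h7 : ∫⁻ x, ENNReal.ofReal (x ^ 2) ∂ρ ≤ ∫⁻ x in Set.Iic 0, ENNReal.ofReal (x ^ 2) ∂ρ +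
      ∫⁻ x in Set.Ici 0, ENNReal.ofReal (x ^ 2) ∂ρ := by
    rw [← setLIntegral_univ]
    have h8 : (Set.univ : Set ℝ) = Set.Iic 0 ∪ Set.Ici 0 := by
      ext x
      simp
    rw [h8]
    exact lintegral_union_le _ _ _
  exact ne_top_of_le_ne_top (ENNReal.add_ne_top.mpr ⟨h3, h4⟩) h7

end Pool.Agent.BPT
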