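import Pool.Agent.MP_99a865_pr.CV.K10

open MeasureTheory ProbabilityTheory Filter Topology
open scoped ENNReal NNReal

namespace Pool.Agent.BPT

variable {D : Set ℝ} {ρ : Measure ℝ}

theorem K11_mono {τ : Measure ℝ} {a b : ℝ} (hab : a ≤ b) :
    ∫⁻ h, ENNReal.ofReal (min h a) ∂τ ≤ ∫⁻ h, ENNReal.ofReal (min h b) ∂τ :=
  lintegral_mono fun _ => ENNReal.ofReal_le_ofReal (min_le_min le_rfl hab)

theorem K11_pos {τ : Measure ℝ} (h : τ (Set.Ioi 0) ≠ 0) :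
    ∫⁻ h, ENNReal.ofReal (min h 1) ∂τ ≠ 0 := by
  intro h0
  rw [lintegral_eq_zero_iff (by fun_prop)] at h0
  apply h
  have h1 : ∀ᵐ x ∂τ, x ∉ Set.Ioi (0 : ℝ) := by
    filter_upwards [h0] with x hx hx0
    have hx1 : min x 1 ≤ 0 := ENNReal.ofReal_eq_zero.mp hx
    exact absurd (lt_min hx0 one_pos) (not_lt.mpr hx1)
  have h2 := measure_eq_zero_iff_ae_notMem.mpr h1
  exact h2

theorem K11_le_univ {τ : Measure ℝ} : ∫⁻ h, ENNReal.ofReal (min h 1) ∂τ ≤ τ Set.univ := by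
  calc ∫⁻ h, ENNReal.ofReal (min h 1) ∂τ ≤ ∫⁻ _h, 1 ∂τ := by
        apply lintegral_mono
        intro h
        calc ENNReal.ofReal (min h 1) ≤ ENNReal.ofReal 1 := ENNReal.ofReal_le_ofReal (min_le_right _ _)
          _ = 1 := ENNReal.ofReal_one
    _ = τ Set.univ := by rw [lintegral_one]

theorem K11_large {τ : Measure ℝ} (h : ∫⁻ h, ENNReal.ofReal h ∂τ = ⊤) (K : ℝ≥0) :
    ∃ n : ℕ, (K : ℝ≥0∞) ≤ ∫⁻ h, ENNReal.ofReal (min h n) ∂τ := by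
  have h1 : ∫⁻ h, ENNReal.ofReal h ∂τ = ⨆ n : ℕ, ∫⁻ h, ENNReal.ofReal (min h n) ∂τ := by
    rw [← lintegral_iSup]
    · apply lintegral_congr
      intro x
      apply le_antisymm
      · obtain ⟨n, hn⟩ := exists_nat_ge x
        refine le_trans ?_ (le_iSup _ n)
        rw [min_eq_left hn]
      · exact iSup_le fun n => ENNReal.ofReal_le_ofReal (min_le_left _ _)
    · intro n
      fun_prop
    · intro a b hab x
      exact ENNReal.ofReal_le_ofReal (min_le_min le_rfl (by exact_mod_cast hab))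
  rw [h] at h1
  have h2 : (K : ℝ≥0∞) < ⨆ n : ℕ, ∫⁻ h, ENNReal.ofReal (min h n) ∂τ := by
    rw [← h1]
    exact ENNReal.coe_lt_top
  obtain ⟨n, hn⟩ := lt_iSup_iff.mp h2
  exact ⟨n, hn.le⟩

/-- **[IVC-K11]** Linear bounds, from `wald_le` with `a = 1` (`∫ min(h,1) > 0` by `ladS_pos`) and `GG_le`. -/
theorem VV_linear (hD : Dom D) (hρ : Cen ρ) : ∃ C : ℝ≥0, ∀ y : ℝ, 1 ≤ y →
    VV D ρ y ≤ C * ENNReal.ofReal y := by
  have := hρ.prob
  have h1 := ladS_le_one (ρ := ρ) hD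
  have h0 := K11_pos (ladS_pos hD hρ)
  have hf : ∫⁻ h, ENNReal.ofReal (min h 1) ∂(ladS D ρ) ≠ ⊤ :=
    ne_top_of_le_ne_top ENNReal.one_ne_top (le_trans K11_le_univ h1)
  refine ⟨(2 / ∫⁻ h, ENNReal.ofReal (min h 1) ∂(ladS D ρ)).toNNReal, ?_⟩
  intro y hy
  rw [ENNReal.coe_toNNReal (ENNReal.div_ne_top (by norm_num) h0)]
  have h2 := wald_le hD h1 (ladS_neg hD) y 1 (by linarith) zero_le_one
  have h3 : ENNReal.ofReal (y + 1) ≤ 2 * ENNReal.ofReal y := by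
    rw [show (2 : ℝ≥0∞) = ENNReal.ofReal 2 by simp, ← ENNReal.ofReal_mul (by norm_num)]
    exact ENNReal.ofReal_le_ofReal (by linarith)
  have h4 := le_trans h2 h3
  rw [div_eq_mul_inv, mul_right_comm, ← div_eq_mul_inv, ENNReal.le_div_iff_mul_le (Or.inl h0) (Or.inl hf),
    mul_comm]
  exact h4

theorem GG_linear (hD : Dom D) (hρ : Cen ρ) : ∃ C : ℝ≥0, ∀ y : ℝ, 1 ≤ y →
    GG D ρ y ≤ C * ENNReal.ofReal y := by
  have := hρ.prob
  obtain ⟨C, hC⟩ := VV_linear (dom_Dst hD) hρ.dual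
  refine ⟨C * 2, ?_⟩
  intro y hy
  refine le_trans (GG_le hD y (by linarith)) (le_trans (hC (y + 1) (by linarith)) ?_)
  have h3 : ENNReal.ofReal (y + 1) ≤ 2 * ENNReal.ofReal y := by
    rw [show (2 : ℝ≥0∞) = ENNReal.ofReal 2 by simp, ← ENNReal.ofReal_mul (by norm_num)]
    exact ENNReal.ofReal_le_ofReal (by linarith)
  calc (C : ℝ≥0∞) * ENNReal.ofReal (y + 1) ≤ C * (2 * ENNReal.ofReal y) := by gcongr
    _ = ((C * 2 : ℝ≥0) : ℝ≥0∞) * ENNReal.ofReal y := by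
      push_cast
      rw [mul_assoc]

theorem K11_slow (hD : Dom D) (hρ : Cen ρ) (h : ∫⁻ h, ENNReal.ofReal h ∂(ladS D ρ) = ⊤) (K : ℝ≥0) :
    ∃ y₀ : ℝ, ∀ y ≥ y₀, (K : ℝ≥0∞) * VV D ρ y ≤ ENNReal.ofReal (2 * y) := by
  have := hρ.prob
  obtain ⟨n, hn⟩ := K11_large h K
  refine ⟨n, ?_⟩
  intro y hy
  have hn0 : (0 : ℝ) ≤ n := Nat.cast_nonneg n
  have hy0 : (0 : ℝ) ≤ y := le_trans hn0 hy
  have h2 := wald_le hD (ladS_le_one (ρ := ρ) hD) (ladS_neg hD) y n hy0 hn0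
  calc (K : ℝ≥0∞) * VV D ρ y ≤ (∫⁻ h, ENNReal.ofReal (min h n) ∂(ladS D ρ)) * VT D (ladS D ρ) y := by
        gcongr
        exact le_rfl
    _ ≤ ENNReal.ofReal (y + n) := h2
    _ ≤ ENNReal.ofReal (2 * y) := ENNReal.ofReal_le_ofReal (by
      have : (n : ℝ) ≤ y := hy
      linarith)

theorem K11_prod (A B : ℝ → ℝ≥0∞) (hA : ∀ K : ℝ≥0, ∃ y₀ : ℝ, ∀ y ≥ y₀, (K : ℝ≥0∞) * A y ≤ ENNReal.ofReal (4 * y))
    (hB : ∃ C : ℝ≥0, ∀ y : ℝ, 1 ≤ y → B y ≤ C * ENNReal.ofReal y) :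
    ∀ ε > (0 : ℝ), ∃ y₀ : ℝ, ∀ y ≥ y₀, A y * B y ≤ ENNReal.ofReal (ε * y ^ 2) := by
  intro ε hε
  obtain ⟨C, hC⟩ := hB
  set K : ℝ≥0 := ⟨4 * (C + 1) / ε, by positivity⟩ with hK
  have hKr : (K : ℝ) = 4 * (C + 1) / ε := rfl
  have hKpos : (0 : ℝ) < K := by
    rw [hKr]
    positivity
  have hK0 : (K : ℝ≥0∞) ≠ 0 := by
    rw [Ne, ENNReal.coe_eq_zero]
    intro h0
    rw [h0] at hKpos
    exact lt_irrefl _ hKpos
  obtain ⟨y₁, hy₁⟩ := hA K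
  refine ⟨max y₁ 1, ?_⟩
  intro y hy
  have hy1 : y₁ ≤ y := le_trans (le_max_left _ _) hy
  have hy2 : 1 ≤ y := le_trans (le_max_right _ _) hy
  have h1 := hy₁ y hy1
  have h2 := hC y hy2
  have h3 : (K : ℝ≥0∞) * (A y * B y) ≤ K * ENNReal.ofReal (ε * y ^ 2) := by
    calc (K : ℝ≥0∞) * (A y * B y) = (K * A y) * B y := by rw [mul_assoc]
      _ ≤ ENNReal.ofReal (4 * y) * (C * ENNReal.ofReal y) := mul_le_mul' h1 h2
      _ = ENNReal.ofReal (4 * y * (C * y)) := by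
        rw [ENNReal.ofReal_mul (by positivity : (0:ℝ) ≤ 4 * y), ENNReal.ofReal_mul (NNReal.coe_nonneg C),
          ENNReal.ofReal_coe_nnreal]
      _ ≤ ENNReal.ofReal (K * (ε * y ^ 2)) := by
        apply ENNReal.ofReal_le_ofReal
        rw [hKr]
        have : 4 * ((C : ℝ) + 1) / ε * (ε * y ^ 2) = 4 * (C + 1) * y ^ 2 := by
          field_simp
        rw [this]
        nlinarith [sq_nonneg y]
      _ = K * ENNReal.ofReal (ε * y ^ 2) := by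
        rw [ENNReal.ofReal_mul (NNReal.coe_nonneg K), ENNReal.ofReal_coe_nnreal]
  exact (ENNReal.mul_le_mul_iff_right hK0 ENNReal.coe_ne_top).mp h3

/-- **[IVC-K11b]** With infinite variance the product is `o(y²)`. PROOF. By `var_of_means` one of the two ladder
heights has infinite mean, say that of `ladS D ρ` (the other case is the same, through `GG_le`). Then
`c(a) = ∫ min(h,a) → ∞` (monotone convergence), `VV y ≤ (y + a)/c(a)`, so `VV y ≤ ε' y` for `y` large, and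
`GG y ≤ C y`. -/
theorem VG_small (hD : Dom D) (hρ : Cen ρ) (hinf : ∫⁻ x, ENNReal.ofReal (x ^ 2) ∂ρ = ⊤) :
    ∀ ε > (0 : ℝ), ∃ y₀ : ℝ, ∀ y ≥ y₀, VV D ρ y * GG D ρ y ≤ ENNReal.ofReal (ε * y ^ 2) := by
  have := hρ.prob
  by_cases h1 : ∫⁻ h, ENNReal.ofReal h ∂(ladS D ρ) = ⊤
  · apply K11_prod _ _ _ (GG_linear hD hρ)
    intro K
    obtain ⟨y₀, hy₀⟩ := K11_slow hD hρ h1 K
    refine ⟨max y₀ 0, ?_⟩
    intro y hy
    refine le_trans (hy₀ y (le_trans (le_max_left _ _) hy)) (ENNReal.ofReal_le_ofReal ?_)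
    have : 0 ≤ y := le_trans (le_max_right _ _) hy
    linarith
  · have h2 : ∫⁻ h, ENNReal.ofReal h ∂(ladS (Dst D) (dual ρ)) = ⊤ := by
      by_contra h2
      exact var_of_means hD hρ h1 h2 hinf
    have h3 := K11_prod (GG D ρ) (VV D ρ) (fun K => by
      obtain ⟨y₀, hy₀⟩ := K11_slow (dom_Dst hD) hρ.dual h2 K
      refine ⟨max y₀ 1, ?_⟩
      intro y hy
      have hy1 : y₀ ≤ y := le_trans (le_max_left _ _) hy
      have hy2 : 1 ≤ y := le_trans (le_max_right _ _) hy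
      calc (K : ℝ≥0∞) * GG D ρ y ≤ K * VV (Dst D) (dual ρ) (y + 1) := by
            gcongr
            exact GG_le hD y (by linarith)
        _ ≤ ENNReal.ofReal (2 * (y + 1)) := hy₀ (y + 1) (by linarith)
        _ ≤ ENNReal.ofReal (4 * y) := ENNReal.ofReal_le_ofReal (by linarith)) (VV_linear hD hρ)
    intro ε hε
    obtain ⟨y₀, hy₀⟩ := h3 ε hε
    refine ⟨y₀, ?_⟩
    intro y hy
    rw [mul_comm]
    exact hy₀ y hy

end Pool.Agent.BPT
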