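import Pool.Agent.MP_99a865_pr.CV.K1

open MeasureTheory ProbabilityTheory Filter Topology
open scoped ENNReal NNReal

namespace Pool.Agent.BPT

variable {D : Set ℝ} {τ : Measure ℝ}

/-! **[IVC-K3]** Elementary facts on `ww`, `VT` (induction on `r`; `lintegral_tsum`). -/

theorem K3_meas_set (hD : Dom D) (z : ℝ) : MeasurableSet {h : ℝ | z - h ∈ D} :=
  (measurable_const.sub measurable_id) hD.meas

theorem measurable_ww (hD : Dom D) [SFinite τ] (r : ℕ) : Measurable (ww D τ r) := by
  induction r with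
  | zero => exact measurable_const
  | succ r ih =>
    have hs : MeasurableSet {p : ℝ × ℝ | p.1 - p.2 ∈ D} :=
      (measurable_fst.sub measurable_snd) hD.meas
    have hm : Measurable (({p : ℝ × ℝ | p.1 - p.2 ∈ D} : Set (ℝ × ℝ)).indicator
        fun p => ww D τ r (p.1 - p.2)) :=
      (ih.comp (measurable_fst.sub measurable_snd)).indicator hs
    have h1 : ww D τ (r + 1) = fun z => ∫⁻ h,
        (({p : ℝ × ℝ | p.1 - p.2 ∈ D} : Set (ℝ × ℝ)).indicator
          fun p => ww D τ r (p.1 - p.2)) (z, h) ∂τ := by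
      funext z
      show ∫⁻ h in {h | z - h ∈ D}, ww D τ r (z - h) ∂τ = _
      rw [← lintegral_indicator (K3_meas_set hD z)]
      rfl
    rw [h1]
    exact hm.lintegral_prod_right'

theorem ww_mono (hD : Dom D) (r : ℕ) : Monotone (ww D τ r) := by
  induction r with
  | zero => exact monotone_const
  | succ r ih =>
    intro z z' hz
    show ∫⁻ h in {h | z - h ∈ D}, ww D τ r (z - h) ∂τ ≤
      ∫⁻ h in {h | z' - h ∈ D}, ww D τ r (z' - h) ∂τ
    have hs : {h | z - h ∈ D} ⊆ {h | z' - h ∈ D} := by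
      intro h hh
      exact hD.up hh (by linarith)
    exact (lintegral_mono_set hs).trans (lintegral_mono fun h => ih (by linarith))

theorem measurable_VT (hD : Dom D) [SFinite τ] : Measurable (VT D τ) :=
  Measurable.tsum fun r => measurable_ww hD r

theorem VT_mono (hD : Dom D) : Monotone (VT D τ) := by
  intro z z' hz
  exact ENNReal.tsum_le_tsum fun r => ww_mono hD r hz

theorem one_le_VT (z : ℝ) : 1 ≤ VT D τ z := by
  have h := ENNReal.le_tsum (f := fun r => ww D τ r z) 0
  exact h

theorem K3_meas (hD : Dom D) [SFinite τ] (r : ℕ) (z : ℝ) :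
    Measurable fun h => ww D τ r (z - h) :=
  (measurable_ww hD r).comp (measurable_const.sub measurable_id)

theorem VT_rec (hD : Dom D) [SFinite τ] (z : ℝ) :
    VT D τ z = 1 + ∫⁻ h in {h | z - h ∈ D}, VT D τ (z - h) ∂τ := by
  unfold VT
  rw [lintegral_tsum fun r => (K3_meas hD r z).aemeasurable, tsum_eq_zero_add' ENNReal.summable]
  rfl

/-- partial sums: `W_{R+1}(z) = 1 + ∫ W_R (z - h)` -/
theorem sum_ww_rec (hD : Dom D) [SFinite τ] (R : ℕ) (z : ℝ) :
    ∑ r ∈ Finset.range (R + 1), ww D τ r z =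
      1 + ∫⁻ h in {h | z - h ∈ D}, ∑ r ∈ Finset.range R, ww D τ r (z - h) ∂τ := by
  rw [lintegral_finsetSum _ fun r _ => K3_meas hD r z, Finset.sum_range_succ', add_comm]
  rfl

end Pool.Agent.BPT
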