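import Pool.Agent.MP_99a865_pr.CV.K2
import Pool.Agent.MP_99a865_pr.CV.K3

open MeasureTheory ProbabilityTheory Filter Topology
open scoped ENNReal NNReal

namespace Pool.Agent.BPT

variable {D : Set ℝ} {ρ : Measure ℝ}

theorem K12_nonneg (hD : Dom D) {x : ℝ} (hx : x ∈ D) : 0 ≤ x := by
  rcases hD with h | h
  · rw [h] at hx; exact hx
  · rw [h] at hx; exact le_of_lt hx

theorem K12_meas (hD : Dom D) : MeasurableSet D := by
  rcases hD with h | h
  · rw [h]; exact measurableSet_Ici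
  · rw [h]; exact measurableSet_Ioi

theorem K12_measSet (hD : Dom D) (z : ℝ) : MeasurableSet {h : ℝ | z - h ∈ D} :=
  (measurable_const.sub measurable_id) (K12_meas hD)

theorem K12_fin (hD : Dom D) [IsProbabilityMeasure ρ] : IsFiniteMeasure (ladS D ρ) :=
  ⟨(ladS_le_one hD).trans_lt ENNReal.one_lt_top⟩

theorem K12_measVV (hD : Dom D) [IsProbabilityMeasure ρ] (z : ℝ) :
    Measurable fun h : ℝ => VV D ρ (z - h) := by
  have := K12_fin (ρ := ρ) hD
  exact (measurable_VT hD).comp (measurable_const.sub measurable_id)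

/-- the renewal equation -/
theorem K12_rec (hD : Dom D) [IsProbabilityMeasure ρ] (z : ℝ) :
    VV D ρ z = 1 + ∑' j, ∫⁻ h in {h | z - h ∈ D}, VV D ρ (z - h) ∂(lad D ρ j) := by
  have := K12_fin (ρ := ρ) hD
  conv_lhs => rw [VV, VT_rec hD]
  congr 1
  rw [← lintegral_indicator (K12_measSet hD z), lintegral_ladS]
  congr 1
  funext j
  rw [← lintegral_indicator (K12_measSet hD z)]
  rfl

/-- one term of the decomposition -/
theorem K12_term (hD : Dom D) [IsProbabilityMeasure ρ] (z : ℝ) (j : ℕ) (E : ℝ≥0∞)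
    (g : ℝ → ℝ≥0∞) (hg : j ≠ 0 → ∀ h, z - h ∈ D → g h ≤ VV D ρ (z - h) * E + j) :
    ∫⁻ h in {h | z - h ∈ D}, g h ∂(lad D ρ j) ≤
      (∫⁻ h in {h | z - h ∈ D}, VV D ρ (z - h) ∂(lad D ρ j)) * E +
        j * lad D ρ j {h | z - h ∈ D} := by
  by_cases hj : j = 0
  · subst hj
    rw [lad_zero]
    simp
  · calc ∫⁻ h in {h | z - h ∈ D}, g h ∂(lad D ρ j)
        ≤ ∫⁻ h in {h | z - h ∈ D}, (VV D ρ (z - h) * E + j) ∂(lad D ρ j) :=
          setLIntegral_mono' (K12_measSet hD z) fun h hh => hg hj h hh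
      _ = (∫⁻ h in {h | z - h ∈ D}, VV D ρ (z - h) ∂(lad D ρ j)) * E +
        j * lad D ρ j {h | z - h ∈ D} := by
          rw [lintegral_add_right _ measurable_const, lintegral_mul_const _ (K12_measVV hD z),
            setLIntegral_const]

theorem K12_hit_sum_le (hD : Dom D) [IsProbabilityMeasure ρ] (t t' : ℕ) (z : ℝ) :
    ∑ n ∈ Finset.Ico t t', ENNReal.ofReal (hit D ρ n z) ≤ 1 := by
  rw [← surv_add_hit (ρ := ρ) hD t' z]
  refine le_add_left (Finset.sum_le_sum_of_subset ?_)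
  intro n hn
  rw [Finset.mem_Ico] at hn
  rw [Finset.mem_range]
  omega

/-- summation by parts -/
theorem K12_parts (hD : Dom D) [IsProbabilityMeasure ρ] (t : ℕ) :
    (t : ℝ≥0∞) * kap D ρ t 0 Set.univ +
      ∑ j ∈ Finset.range (t + 1), (j : ℝ≥0∞) * ENNReal.ofReal (hit D ρ j 0) =
      ∑ k ∈ Finset.range t, kap D ρ k 0 Set.univ := by
  induction t with
  | zero => simp
  | succ t ih =>
    have hstep : kap D ρ (t + 1) 0 Set.univ + ENNReal.ofReal (hit D ρ (t + 1) 0) =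
        kap D ρ t 0 Set.univ := by
      have h1 := surv_add_hit (ρ := ρ) hD (t + 1) 0
      have h2 := surv_add_hit (ρ := ρ) hD t 0
      rw [Finset.sum_range_succ] at h1
      have hne : ∑ n ∈ Finset.range (t + 1), ENNReal.ofReal (hit D ρ n 0) ≠ ⊤ := by
        rw [ENNReal.sum_ne_top]
        exact fun n _ => ENNReal.ofReal_ne_top
      have h3 : kap D ρ (t + 1) 0 Set.univ + ENNReal.ofReal (hit D ρ (t + 1) 0) +
          ∑ n ∈ Finset.range (t + 1), ENNReal.ofReal (hit D ρ n 0) =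
          kap D ρ t 0 Set.univ + ∑ n ∈ Finset.range (t + 1), ENNReal.ofReal (hit D ρ n 0) := by
        rw [h2, ← h1]
        ring
      exact (ENNReal.add_left_inj hne).1 h3
    rw [Finset.sum_range_succ, Finset.sum_range_succ (fun k => kap D ρ k 0 Set.univ) t, ← ih]
    push_cast
    calc ((t : ℝ≥0∞) + 1) * kap D ρ (t + 1) 0 Set.univ +
          (∑ j ∈ Finset.range (t + 1), (j : ℝ≥0∞) * ENNReal.ofReal (hit D ρ j 0) +
            ((t : ℝ≥0∞) + 1) * ENNReal.ofReal (hit D ρ (t + 1) 0))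
        = ((t : ℝ≥0∞) + 1) * (kap D ρ (t + 1) 0 Set.univ + ENNReal.ofReal (hit D ρ (t + 1) 0)) +
          ∑ j ∈ Finset.range (t + 1), (j : ℝ≥0∞) * ENNReal.ofReal (hit D ρ j 0) := by ring
      _ = _ := by rw [hstep]; ring

/-- **[IVC-K12a]** `t P_z(N > t) ≤ VV z · E[N ∧ t]`. PROOF. Strong induction on `t`, all `z ≥ 0`. Let
`f_t(z) = kap t z univ ≤ 1`, `e_t = ∑_{k<t} P(N>k)`. By `kap_ladder` (`A = univ`)
`f_t(z) = f_t(0) + ∑_{j≤t} ∫_{z-h∈D} f_{t-j}(z-h) ∂(lad j)`. Multiply by `t = (t-j) + j`, use the induction hypothesis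
for `(t-j) f_{t-j}` (`j ≥ 1` since `lad 0 = 0`) with `e_{t-j} ≤ e_t`, and `j f_{t-j} ≤ j`:
`t f_t(z) ≤ t f_t(0) + ∑_{j≤t} j (lad j univ) + e_t ∫_{z-h∈D} VV(z-h) ∂(ladS)`. By `lad_univ` and `surv_add_hit`
(summation by parts) `t P(N>t) + ∑_{j≤t} j hit j = e_t`; conclude with `VT_rec`. -/
theorem surv_le (hD : Dom D) [IsProbabilityMeasure ρ] (t : ℕ) (z : ℝ) (hz : 0 ≤ z) :
    (t : ℝ≥0∞) * kap D ρ t z Set.univ ≤
      VV D ρ z * ∑ k ∈ Finset.range t, kap D ρ k 0 Set.univ := by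
  induction t using Nat.strong_induction_on generalizing z with
  | _ t IH =>
  have hle1 : ∀ (k : ℕ) (y : ℝ), kap D ρ k y Set.univ ≤ 1 := by
    intro k y
    rw [← surv_add_hit (ρ := ρ) hD k y]
    exact le_self_add
  have hlad := kap_ladder (ρ := ρ) hD t z hz Set.univ MeasurableSet.univ
  have h0 : {s : ℝ | z + s ∈ (Set.univ : Set ℝ)} = Set.univ := by simp
  rw [h0] at hlad
  set E := ∑ k ∈ Finset.range t, kap D ρ k 0 Set.univ with hE
  rw [hlad, mul_add, Finset.mul_sum]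
  have hterm : ∀ j ∈ Finset.range (t + 1),
      (t : ℝ≥0∞) * ∫⁻ h in {h | z - h ∈ D}, kap D ρ (t - j) (z - h) Set.univ ∂(lad D ρ j) ≤
      (∫⁻ h in {h | z - h ∈ D}, VV D ρ (z - h) ∂(lad D ρ j)) * E +
        j * ENNReal.ofReal (hit D ρ j 0) := by
    intro j hj
    rw [Finset.mem_range] at hj
    rw [← lintegral_const_mul' _ _ (ENNReal.natCast_ne_top t)]
    refine (K12_term hD z j E _ ?_).trans ?_
    · intro hj0 h hh
      have hz' := K12_nonneg hD hh
      have h1 := IH (t - j) (by omega) (z - h) hz'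
      have h2 : (t : ℝ≥0∞) = ((t - j : ℕ) : ℝ≥0∞) + j := by
        rw [← Nat.cast_add]
        congr 1
        omega
      rw [h2, add_mul]
      refine add_le_add (h1.trans ?_) ?_
      · gcongr
        exact Finset.sum_le_sum_of_subset (Finset.range_subset_range.2 (by omega))
      · calc (j : ℝ≥0∞) * kap D ρ (t - j) (z - h) Set.univ ≤ j * 1 := by gcongr; exact hle1 _ _
          _ = j := mul_one _
    · gcongr
      rw [← lad_univ hD]
      exact measure_mono (Set.subset_univ _)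
  calc (t : ℝ≥0∞) * kap D ρ t 0 Set.univ + ∑ j ∈ Finset.range (t + 1),
        (t : ℝ≥0∞) * ∫⁻ h in {h | z - h ∈ D}, kap D ρ (t - j) (z - h) Set.univ ∂(lad D ρ j)
      ≤ (t : ℝ≥0∞) * kap D ρ t 0 Set.univ + ∑ j ∈ Finset.range (t + 1),
        ((∫⁻ h in {h | z - h ∈ D}, VV D ρ (z - h) ∂(lad D ρ j)) * E +
        j * ENNReal.ofReal (hit D ρ j 0)) := by
        gcongr with j hj
        exact hterm j hj
    _ = ((t : ℝ≥0∞) * kap D ρ t 0 Set.univ +
      ∑ j ∈ Finset.range (t + 1), (j : ℝ≥0∞) * ENNReal.ofReal (hit D ρ j 0)) +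
        (∑ j ∈ Finset.range (t + 1), ∫⁻ h in {h | z - h ∈ D}, VV D ρ (z - h) ∂(lad D ρ j)) * E := by
        rw [Finset.sum_add_distrib, Finset.sum_mul]
        ring
    _ = E + (∑ j ∈ Finset.range (t + 1), ∫⁻ h in {h | z - h ∈ D}, VV D ρ (z - h) ∂(lad D ρ j)) * E := by
        rw [K12_parts hD t]
    _ ≤ E + (∑' j, ∫⁻ h in {h | z - h ∈ D}, VV D ρ (z - h) ∂(lad D ρ j)) * E := by
        gcongr
        exact ENNReal.sum_le_tsum _
    _ = VV D ρ z * E := by
        rw [K12_rec hD z]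
        ring

theorem K12_sum_lintegral {α : Type*} [MeasurableSpace α] (μ : Measure α) (s : Finset ℕ)
    (f : ℕ → α → ℝ≥0∞) : ∑ n ∈ s, ∫⁻ a, f n a ∂μ ≤ ∫⁻ a, ∑ n ∈ s, f n a ∂μ := by
  classical
  induction s using Finset.induction_on with
  | empty => simp
  | insert n s hn ih =>
    rw [Finset.sum_insert hn]
    refine (add_le_add le_rfl ih).trans ?_
    refine (le_lintegral_add _ _).trans ?_
    refine lintegral_mono fun a => ?_
    rw [Finset.sum_insert hn]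

/-- **[IVC-K12b]** `t P_z(t ≤ N < t') ≤ VV z · E[N; N < t']`. PROOF. Strong induction on `t'` for all `t` and `z ≥ 0`, with
`hit_ladder`: `F_{t,t'}(z) = ∑_{n∈[t,t')} lad n {z-h∉D} + ∑_{1≤j<t'} ∫_{z-h∈D} F_{t-j,t'-j}(z-h) ∂(lad j)` (natural
subtraction; `hit 0 = 0`). Multiply by `t ≤ (t-j) + j`; `(t-j) F_{t-j,t'-j}(z-h) ≤ VV(z-h) E[N; N<t']` by induction,
`j F ≤ j` as the total is at most one (`surv_add_hit`). So `t F ≤ ∑_{n<t'} n lad n {z-h∉D} + ∑_{j<t'} j lad j {z-h∈D} +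
E[N;N<t'] ∫_{z-h∈D} VV(z-h) ∂(ladS) = E[N;N<t'] VV z`. -/
theorem hit_win_le (hD : Dom D) [IsProbabilityMeasure ρ] (t t' : ℕ) (z : ℝ) (hz : 0 ≤ z) :
    (t : ℝ≥0∞) * ∑ n ∈ Finset.Ico t t', ENNReal.ofReal (hit D ρ n z) ≤
      VV D ρ z * ∑ n ∈ Finset.range t', (n : ℝ≥0∞) * ENNReal.ofReal (hit D ρ n 0) := by
  induction t' using Nat.strong_induction_on generalizing t z with
  | _ t' IH =>
  set E := ∑ n ∈ Finset.range t', (n : ℝ≥0∞) * ENNReal.ofReal (hit D ρ n 0) with hE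
  -- the exchange
  have hsplit : ∑ n ∈ Finset.Ico t t', ENNReal.ofReal (hit D ρ n z) ≤
      ∑ n ∈ Finset.Ico t t', lad D ρ n {h | z - h ∉ D} +
      ∑ j ∈ Finset.range t', ∫⁻ h in {h | z - h ∈ D},
        (∑ n ∈ Finset.Ico (t - j) (t' - j), ENNReal.ofReal (hit D ρ n (z - h))) ∂(lad D ρ j) := by
    rw [Finset.sum_congr rfl fun n _ => hit_ladder (ρ := ρ) hD n z hz, Finset.sum_add_distrib]
    gcongr
    have h1 : ∀ n ∈ Finset.Ico t t', ∑ j ∈ Finset.range n,
        ∫⁻ h in {h | z - h ∈ D}, ENNReal.ofReal (hit D ρ (n - j) (z - h)) ∂(lad D ρ j) =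
        ∑ j ∈ Finset.range t', if j < n then
        ∫⁻ h in {h | z - h ∈ D}, ENNReal.ofReal (hit D ρ (n - j) (z - h)) ∂(lad D ρ j) else 0 := by
      intro n hn
      rw [Finset.mem_Ico] at hn
      rw [← Finset.sum_filter]
      refine Finset.sum_congr ?_ fun _ _ => rfl
      ext j
      simp only [Finset.mem_range, Finset.mem_filter]
      omega
    rw [Finset.sum_congr rfl h1, Finset.sum_comm]
    refine Finset.sum_le_sum fun j hj => ?_
    rw [← Finset.sum_filter]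
    refine (K12_sum_lintegral _ _ _).trans ?_
    refine lintegral_mono fun h => ?_
    have h2 : ∑ n ∈ (Finset.Ico t t').filter (fun n => j < n), ENNReal.ofReal (hit D ρ (n - j) (z - h)) =
        ∑ m ∈ ((Finset.Ico t t').filter (fun n => j < n)).image (fun n => n - j),
          ENNReal.ofReal (hit D ρ m (z - h)) := by
      rw [Finset.sum_image]
      intro a ha b hb hab
      rw [Finset.mem_coe, Finset.mem_filter, Finset.mem_Ico] at ha hb
      simp only at hab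
      omega
    rw [h2]
    refine Finset.sum_le_sum_of_subset ?_
    intro m hm
    simp only [Finset.mem_image, Finset.mem_filter, Finset.mem_Ico] at hm ⊢
    obtain ⟨n, hn, rfl⟩ := hm
    omega
  have hterm : ∀ j ∈ Finset.range t',
      (t : ℝ≥0∞) * ∫⁻ h in {h | z - h ∈ D},
        (∑ n ∈ Finset.Ico (t - j) (t' - j), ENNReal.ofReal (hit D ρ n (z - h))) ∂(lad D ρ j) ≤
      (∫⁻ h in {h | z - h ∈ D}, VV D ρ (z - h) ∂(lad D ρ j)) * E +
        j * lad D ρ j {h | z - h ∈ D} := by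
    intro j hj
    rw [Finset.mem_range] at hj
    rw [← lintegral_const_mul' _ _ (ENNReal.natCast_ne_top t)]
    refine K12_term hD z j E _ ?_
    intro hj0 h hh
    have hz' := K12_nonneg hD hh
    have h1 := IH (t' - j) (by omega) (t - j) (z - h) hz'
    have h2 : (t : ℝ≥0∞) ≤ ((t - j : ℕ) : ℝ≥0∞) + j := by
      rw [← Nat.cast_add]
      exact_mod_cast (by omega : t ≤ (t - j) + j)
    calc (t : ℝ≥0∞) * ∑ n ∈ Finset.Ico (t - j) (t' - j), ENNReal.ofReal (hit D ρ n (z - h))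
        ≤ (((t - j : ℕ) : ℝ≥0∞) + j) *
          ∑ n ∈ Finset.Ico (t - j) (t' - j), ENNReal.ofReal (hit D ρ n (z - h)) := by gcongr
      _ = ((t - j : ℕ) : ℝ≥0∞) *
          ∑ n ∈ Finset.Ico (t - j) (t' - j), ENNReal.ofReal (hit D ρ n (z - h)) +
          j * ∑ n ∈ Finset.Ico (t - j) (t' - j), ENNReal.ofReal (hit D ρ n (z - h)) := add_mul _ _ _
      _ ≤ VV D ρ (z - h) * E + j := by
          refine add_le_add (h1.trans ?_) ?_
          · gcongr
            exact Finset.sum_le_sum_of_subset (Finset.range_subset_range.2 (by omega))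
          · calc (j : ℝ≥0∞) * ∑ n ∈ Finset.Ico (t - j) (t' - j), ENNReal.ofReal (hit D ρ n (z - h))
                ≤ j * 1 := by gcongr; exact K12_hit_sum_le hD _ _ _
              _ = j := mul_one _
  have hout : (t : ℝ≥0∞) * ∑ n ∈ Finset.Ico t t', lad D ρ n {h | z - h ∉ D} ≤
      ∑ n ∈ Finset.range t', (n : ℝ≥0∞) * lad D ρ n {h | z - h ∉ D} := by
    rw [Finset.mul_sum]
    calc ∑ n ∈ Finset.Ico t t', (t : ℝ≥0∞) * lad D ρ n {h | z - h ∉ D}
        ≤ ∑ n ∈ Finset.Ico t t', (n : ℝ≥0∞) * lad D ρ n {h | z - h ∉ D} := by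
          refine Finset.sum_le_sum fun n hn => ?_
          rw [Finset.mem_Ico] at hn
          gcongr
          exact hn.1
      _ ≤ _ := by
          refine Finset.sum_le_sum_of_subset ?_
          intro n hn
          rw [Finset.mem_Ico] at hn
          exact Finset.mem_range.2 hn.2
  have hEeq : ∑ n ∈ Finset.range t', (n : ℝ≥0∞) * lad D ρ n {h | z - h ∉ D} +
      ∑ n ∈ Finset.range t', (n : ℝ≥0∞) * lad D ρ n {h | z - h ∈ D} = E := by
    rw [← Finset.sum_add_distrib, hE]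
    refine Finset.sum_congr rfl fun n _ => ?_
    rw [← mul_add, ← lad_univ hD, add_comm]
    congr 1
    exact measure_add_measure_compl (K12_measSet hD z)
  calc (t : ℝ≥0∞) * ∑ n ∈ Finset.Ico t t', ENNReal.ofReal (hit D ρ n z)
      ≤ (t : ℝ≥0∞) * (∑ n ∈ Finset.Ico t t', lad D ρ n {h | z - h ∉ D} +
      ∑ j ∈ Finset.range t', ∫⁻ h in {h | z - h ∈ D},
        (∑ n ∈ Finset.Ico (t - j) (t' - j), ENNReal.ofReal (hit D ρ n (z - h))) ∂(lad D ρ j)) := by
        gcongr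
    _ = (t : ℝ≥0∞) * ∑ n ∈ Finset.Ico t t', lad D ρ n {h | z - h ∉ D} +
      ∑ j ∈ Finset.range t', (t : ℝ≥0∞) * ∫⁻ h in {h | z - h ∈ D},
        (∑ n ∈ Finset.Ico (t - j) (t' - j), ENNReal.ofReal (hit D ρ n (z - h))) ∂(lad D ρ j) := by
        rw [mul_add, Finset.mul_sum (Finset.range t')]
    _ ≤ ∑ n ∈ Finset.range t', (n : ℝ≥0∞) * lad D ρ n {h | z - h ∉ D} +
        ∑ j ∈ Finset.range t', ((∫⁻ h in {h | z - h ∈ D}, VV D ρ (z - h) ∂(lad D ρ j)) * E +
        j * lad D ρ j {h | z - h ∈ D}) := add_le_add hout (Finset.sum_le_sum hterm)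
    _ = (∑ n ∈ Finset.range t', (n : ℝ≥0∞) * lad D ρ n {h | z - h ∉ D} +
      ∑ n ∈ Finset.range t', (n : ℝ≥0∞) * lad D ρ n {h | z - h ∈ D}) +
        (∑ j ∈ Finset.range t', ∫⁻ h in {h | z - h ∈ D}, VV D ρ (z - h) ∂(lad D ρ j)) * E := by
        rw [Finset.sum_add_distrib, Finset.sum_mul]
        ring
    _ = E + (∑ j ∈ Finset.range t', ∫⁻ h in {h | z - h ∈ D}, VV D ρ (z - h) ∂(lad D ρ j)) * E := by
        rw [hEeq]
    _ ≤ E + (∑' j, ∫⁻ h in {h | z - h ∈ D}, VV D ρ (z - h) ∂(lad D ρ j)) * E := by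
        gcongr
        exact ENNReal.sum_le_tsum _
    _ = VV D ρ z * E := by
        rw [K12_rec hD z]
        ring

end Pool.Agent.BPT
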