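import Pool.Agent.MP_99a865_pr.CV.K1

open MeasureTheory ProbabilityTheory Filter Topology
open scoped ENNReal NNReal

namespace Pool.Agent.BPT

variable {D : Set ℝ} {ρ : Measure ℝ}

/-- the walk started at `0` first leaves `D` at time `j` -/
def K2_A (D : Set ℝ) (j : ℕ) : Set (ℕ → ℝ) :=
  {ω | 1 ≤ j ∧ Alive D 0 (j - 1) ω ∧ 0 + S j ω ∉ D}

theorem K2_meas_A (hD : Dom D) (j : ℕ) : MeasurableSet (K2_A D j) := by
  have h1 : K2_A D j = {_ω : ℕ → ℝ | 1 ≤ j} ∩ ({ω : ℕ → ℝ | Alive D 0 (j - 1) ω} ∩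
      ((fun ω : ℕ → ℝ => 0 + S j ω) ⁻¹' D)ᶜ) := rfl
  rw [h1]
  exact (MeasurableSet.const _).inter ((measurableSet_alive hD 0 (j - 1)).inter
    ((A1_meas_add j 0) hD.meas).compl)

theorem K2_alive_succ (x : ℝ) (n : ℕ) (ω : ℕ → ℝ) :
    Alive D x (n + 1) ω ↔ Alive D x n ω ∧ x + S (n + 1) ω ∈ D := by
  constructor
  · intro h
    exact ⟨fun j h1 h2 => h j h1 (by omega), h (n + 1) (by omega) le_rfl⟩
  · rintro ⟨h1, h2⟩ j h3 h4
    rcases Nat.lt_or_ge n j with h5 | h5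
    · have : j = n + 1 := by omega
      rw [this]
      exact h2
    · exact h1 j h3 h5

theorem K2_alive_mono (hD : Dom D) {x y : ℝ} (h : x ≤ y) (n : ℕ) (ω : ℕ → ℝ)
    (hx : Alive D x n ω) : Alive D y n ω :=
  fun j h1 h2 => hD.up (hx j h1 h2) (by linarith)

/-- partition according to the first exit of the walk from `0` -/
theorem K2_part (hD : Dom D) (E : Set (ℕ → ℝ)) (n : ℕ) :
    seqLaw ρ E = seqLaw ρ (E ∩ {ω | Alive D 0 n ω}) +
      ∑ j ∈ Finset.range (n + 1), seqLaw ρ (E ∩ K2_A D j) := by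
  induction n with
  | zero =>
    have h1 : {ω : ℕ → ℝ | Alive D 0 0 ω} = Set.univ := by
      ext ω
      simp only [Set.mem_univ, iff_true]
      exact A1_alive_zero 0 ω
    have h2 : K2_A D 0 = ∅ := by
      ext ω
      simp [K2_A]
    rw [h1, Set.inter_univ, Finset.sum_range_one, h2, Set.inter_empty, measure_empty, add_zero]
  | succ n ih =>
    have hm : MeasurableSet ((fun ω : ℕ → ℝ => 0 + S (n + 1) ω) ⁻¹' D) :=
      (A1_meas_add (n + 1) 0) hD.meas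
    have h1 := measure_inter_add_sdiff (μ := seqLaw ρ) (E ∩ {ω : ℕ → ℝ | Alive D 0 n ω}) hm
    have h2 : (E ∩ {ω : ℕ → ℝ | Alive D 0 n ω}) ∩ ((fun ω : ℕ → ℝ => 0 + S (n + 1) ω) ⁻¹' D) =
        E ∩ {ω | Alive D 0 (n + 1) ω} := by
      ext ω
      constructor
      · rintro ⟨⟨h3, h4⟩, h5⟩
        exact ⟨h3, (K2_alive_succ 0 n ω).2 ⟨h4, h5⟩⟩
      · rintro ⟨h3, h4⟩
        obtain ⟨h5, h6⟩ := (K2_alive_succ 0 n ω).1 h4
        exact ⟨⟨h3, h5⟩, h6⟩
    have h3 : (E ∩ {ω : ℕ → ℝ | Alive D 0 n ω}) \ ((fun ω : ℕ → ℝ => 0 + S (n + 1) ω) ⁻¹' D) =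
        E ∩ K2_A D (n + 1) := by
      ext ω
      constructor
      · rintro ⟨⟨h3, h4⟩, h5⟩
        exact ⟨h3, by omega, h4, h5⟩
      · rintro ⟨h3, -, h4, h5⟩
        exact ⟨⟨h3, h4⟩, h5⟩
    rw [h2, h3] at h1
    rw [ih, Finset.sum_range_succ _ (n + 1), ← h1]
    ring

/-- the Markov property at the first exit -/
theorem K2_split (hD : Dom D) [IsProbabilityMeasure ρ] (j : ℕ) (z : ℝ)
    (Q : Set (ℝ × (ℕ → ℝ))) (hQ : MeasurableSet Q) :
    seqLaw ρ {ω | ω ∈ K2_A D j ∧ z + S j ω ∈ D ∧ (z + S j ω, shift j ω) ∈ Q} =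
      ∫⁻ h in {h | z - h ∈ D}, seqLaw ρ {η | (z - h, η) ∈ Q} ∂(lad D ρ j) := by
  classical
  -- the right side
  have hms : MeasurableSet {h : ℝ | z - h ∈ D} := (measurable_const.sub measurable_id) hD.meas
  have hmP : Measurable fun y : ℝ => seqLaw ρ {η | (y, η) ∈ Q} := by
    have : IsProbabilityMeasure (seqLaw ρ) := by unfold seqLaw; infer_instance
    exact measurable_measure_prodMk_left hQ
  have hmf : Measurable (({h : ℝ | z - h ∈ D} : Set ℝ).indicator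
      fun h => seqLaw ρ {η | (z - h, η) ∈ Q}) :=
    (hmP.comp (measurable_const.sub measurable_id)).indicator hms
  rw [← lintegral_indicator hms, lintegral_lad hD j _ hmf]
  show _ = ∫⁻ ω in K2_A D j, _ ∂(seqLaw ρ)
  rw [← lintegral_indicator (K2_meas_A hD j)]
  -- the left side
  set H : (ℕ → ℝ) → (ℕ → ℝ) → ℝ≥0∞ := fun ω η =>
    ({p : (ℕ → ℝ) × (ℕ → ℝ) | p.1 ∈ K2_A D j ∧ z + S j p.1 ∈ D ∧ (z + S j p.1, p.2) ∈ Q}.indicator
      (fun _ => (1 : ℝ≥0∞)) (ω, η)) with hH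
  have hmS : MeasurableSet {p : (ℕ → ℝ) × (ℕ → ℝ) | p.1 ∈ K2_A D j ∧ z + S j p.1 ∈ D ∧
      (z + S j p.1, p.2) ∈ Q} := by
    have h1 : Measurable fun p : (ℕ → ℝ) × (ℕ → ℝ) => z + S j p.1 :=
      (A1_meas_add j z).comp measurable_fst
    exact ((K2_meas_A hD j).preimage measurable_fst).inter
      ((h1 hD.meas).inter ((h1.prodMk measurable_snd) hQ))
  have hHm : Measurable (Function.uncurry H) := measurable_const.indicator hmS
  have hdep : ∀ ω ω' η, (∀ i < j, ω i = ω' i) → H ω η = H ω' η := by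
    intro ω ω' η h
    have h1 : S j ω = S j ω' := A1b_S_congr j h le_rfl
    have h2 : Alive D 0 (j - 1) ω ↔ Alive D 0 (j - 1) ω' :=
      A1b_alive_congr (j - 1) 0 fun i hi => h i (by omega)
    have h3 : ω ∈ K2_A D j ↔ ω' ∈ K2_A D j := by
      show (1 ≤ j ∧ Alive D 0 (j - 1) ω ∧ 0 + S j ω ∉ D) ↔
        (1 ≤ j ∧ Alive D 0 (j - 1) ω' ∧ 0 + S j ω' ∉ D)
      rw [h1, h2]
    have h4 : ((ω, η) ∈ {p : (ℕ → ℝ) × (ℕ → ℝ) | p.1 ∈ K2_A D j ∧ z + S j p.1 ∈ D ∧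
        (z + S j p.1, p.2) ∈ Q}) ↔ ((ω', η) ∈ {p : (ℕ → ℝ) × (ℕ → ℝ) | p.1 ∈ K2_A D j ∧
        z + S j p.1 ∈ D ∧ (z + S j p.1, p.2) ∈ Q}) := by
      show (ω ∈ K2_A D j ∧ z + S j ω ∈ D ∧ (z + S j ω, η) ∈ Q) ↔
        (ω' ∈ K2_A D j ∧ z + S j ω' ∈ D ∧ (z + S j ω', η) ∈ Q)
      rw [h3, h1]
    rw [hH]
    dsimp only
    by_cases h5 : (ω, η) ∈ {p : (ℕ → ℝ) × (ℕ → ℝ) | p.1 ∈ K2_A D j ∧ z + S j p.1 ∈ D ∧
        (z + S j p.1, p.2) ∈ Q}
    · rw [Set.indicator_of_mem h5, Set.indicator_of_mem (h4.1 h5)]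
    · rw [Set.indicator_of_notMem h5, Set.indicator_of_notMem (fun h6 => h5 (h4.2 h6))]
  have hs := lintegral_split ρ j H hHm hdep
  have hL : ∫⁻ ω, H ω (shift j ω) ∂(seqLaw ρ) =
      seqLaw ρ {ω | ω ∈ K2_A D j ∧ z + S j ω ∈ D ∧ (z + S j ω, shift j ω) ∈ Q} := by
    have hm1 : MeasurableSet {ω | ω ∈ K2_A D j ∧ z + S j ω ∈ D ∧ (z + S j ω, shift j ω) ∈ Q} :=
      (measurable_id.prodMk (measurable_shift j)) hmS
    rw [← lintegral_indicator_one hm1]
    rfl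
  rw [← hL, hs]
  refine lintegral_congr fun ω => ?_
  by_cases h1 : ω ∈ K2_A D j
  · rw [Set.indicator_of_mem h1]
    by_cases h2 : z + S j ω ∈ D
    · have h3 : -S j ω ∈ {h : ℝ | z - h ∈ D} := by
        show z - -S j ω ∈ D
        rwa [sub_neg_eq_add]
      rw [Set.indicator_of_mem h3, sub_neg_eq_add]
      have hm2 : MeasurableSet {η : ℕ → ℝ | (z + S j ω, η) ∈ Q} :=
        (measurable_const.prodMk measurable_id) hQ
      rw [← lintegral_indicator_one hm2]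
      refine lintegral_congr fun η => ?_
      by_cases h4 : (z + S j ω, η) ∈ Q
      · rw [Set.indicator_of_mem (show η ∈ {η : ℕ → ℝ | (z + S j ω, η) ∈ Q} from h4)]
        exact Set.indicator_of_mem (show (ω, η) ∈ {p : (ℕ → ℝ) × (ℕ → ℝ) | p.1 ∈ K2_A D j ∧
          z + S j p.1 ∈ D ∧ (z + S j p.1, p.2) ∈ Q} from ⟨h1, h2, h4⟩) _
      · rw [Set.indicator_of_notMem (show η ∉ {η : ℕ → ℝ | (z + S j ω, η) ∈ Q} from h4)]
        exact Set.indicator_of_notMem (fun h5 => h4 h5.2.2) _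
    · have h3 : -S j ω ∉ {h : ℝ | z - h ∈ D} := by
        intro h4
        have h5 : z - -S j ω ∈ D := h4
        rw [sub_neg_eq_add] at h5
        exact h2 h5
      rw [Set.indicator_of_notMem h3]
      have h5 : ∀ η, H ω η = 0 := fun η => Set.indicator_of_notMem (fun h6 => h2 h6.2.1) _
      simp only [h5, lintegral_zero]
  · rw [Set.indicator_of_notMem h1]
    have h5 : ∀ η, H ω η = 0 := fun η => Set.indicator_of_notMem (fun h6 => h1 h6.1) _
    simp only [h5, lintegral_zero]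

theorem K2_kap (hD : Dom D) [IsProbabilityMeasure ρ] (n : ℕ) (z : ℝ) (A : Set ℝ)
    (hA : MeasurableSet A) :
    kap D ρ n z A = seqLaw ρ {ω | Alive D z n ω ∧ z + S n ω ∈ A} := by
  unfold kap
  rw [Measure.map_apply (A1_meas_add n z) hA, Measure.restrict_apply ((A1_meas_add n z) hA)]
  congr 1
  ext ω
  exact and_comm

theorem K2_hit [IsProbabilityMeasure ρ] (n : ℕ) (z : ℝ) :
    ENNReal.ofReal (hit D ρ n z) =
      seqLaw ρ {ω | 1 ≤ n ∧ Alive D z (n - 1) ω ∧ z + S n ω ∉ D} := by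
  have : IsProbabilityMeasure (seqLaw ρ) := by unfold seqLaw; infer_instance
  unfold hit
  exact ofReal_measureReal

/-- **[IVC-K2]** Decomposition of the walk started at `z ≥ 0` at the first time `j` at which the walk started
at `0` (same steps) is outside `D`.
PROOF. The events `A_j = {1 ≤ j, Alive D 0 (j-1), 0 + S j ∉ D}`, `1 ≤ j ≤ n`, and `{Alive D 0 n}` form a
partition. As `z ≥ 0`, `Alive D 0 m → Alive D z m` (`Dom.up`), so on `{Alive D 0 n}` the walk from `z` is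
alive up to `n`: this gives the first term (`kap D ρ n 0 {s | z + s ∈ A}` is
`P(Alive D 0 n, z + (0 + S n) ∈ A)`). On `A_j` the walk from `z` is alive up to `j - 1`, and
`z + S n = (z + S j) + S (n-j) (shift j)`, with `z + S j = z - h`, `h = -S j`; so
`Alive D z n ↔ z - h ∈ D ∧ Alive D (z - h) (n-j) (shift j ω)` (`alive_add`). Apply `lintegral_split` at time `j`
(`A_j` and `S j` depend on the coordinates `< j` only) and `lintegral_lad`. -/
theorem kap_ladder (hD : Dom D) [IsProbabilityMeasure ρ] (n : ℕ) (z : ℝ) (hz : 0 ≤ z) (A : Set ℝ)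
    (hA : MeasurableSet A) :
    kap D ρ n z A = kap D ρ n 0 {s | z + s ∈ A} + ∑ j ∈ Finset.range (n + 1),
      ∫⁻ h in {h | z - h ∈ D}, kap D ρ (n - j) (z - h) A ∂(lad D ρ j) := by
  have hA' : MeasurableSet {s : ℝ | z + s ∈ A} := (measurable_const.add measurable_id) hA
  rw [K2_kap hD n z A hA, K2_kap hD n 0 _ hA', K2_part hD _ n]
  congr 1
  · congr 1
    ext ω
    constructor
    · rintro ⟨⟨h1, h2⟩, h3⟩
      refine ⟨h3, ?_⟩
      show z + (0 + S n ω) ∈ A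
      rwa [zero_add]
    · rintro ⟨h1, h2⟩
      have h3 : z + (0 + S n ω) ∈ A := h2
      rw [zero_add] at h3
      exact ⟨⟨K2_alive_mono hD hz n ω h1, h3⟩, h1⟩
  · refine Finset.sum_congr rfl fun j hj => ?_
    have hjn : j ≤ n := by
      have := Finset.mem_range.1 hj
      omega
    have hQ : MeasurableSet {p : ℝ × (ℕ → ℝ) | Alive D p.1 (n - j) p.2 ∧
        p.1 + S (n - j) p.2 ∈ A} :=
      (measurableSet_alive' hD (n - j)).inter ((A1_meas_add' (n - j)) hA)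
    have h1 := K2_split (ρ := ρ) hD j z _ hQ
    have h2 : ∀ h : ℝ, kap D ρ (n - j) (z - h) A = seqLaw ρ {η | (z - h, η) ∈
        {p : ℝ × (ℕ → ℝ) | Alive D p.1 (n - j) p.2 ∧ p.1 + S (n - j) p.2 ∈ A}} :=
      fun h => K2_kap hD (n - j) (z - h) A hA
    simp only [h2]
    rw [← h1]
    congr 1
    ext ω
    constructor
    · rintro ⟨⟨h3, h4⟩, h5⟩
      have h6 : Alive D z (j + (n - j)) ω := by rwa [Nat.add_sub_cancel' hjn]
      obtain ⟨h7, h8⟩ := (alive_add z j (n - j) ω).1 h6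
      refine ⟨h5, h7 j h5.1 le_rfl, h8, ?_⟩
      show z + S j ω + S (n - j) (shift j ω) ∈ A
      rw [add_assoc, ← S_shift, Nat.add_sub_cancel' hjn]
      exact h4
    · rintro ⟨h3, h4, h5, h6⟩
      have h6' : z + S j ω + S (n - j) (shift j ω) ∈ A := h6
      rw [add_assoc, ← S_shift, Nat.add_sub_cancel' hjn] at h6'
      refine ⟨⟨?_, h6'⟩, h3⟩
      have h7 : Alive D z j ω := by
        obtain ⟨k, rfl⟩ : ∃ k, j = k + 1 := ⟨j - 1, by have := h3.1; omega⟩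
        exact (K2_alive_succ z k ω).2 ⟨K2_alive_mono hD hz k ω h3.2.1, h4⟩
      have h8 := (alive_add z j (n - j) ω).2 ⟨h7, h5⟩
      rwa [Nat.add_sub_cancel' hjn] at h8

/-- the same for the exit time (a walk exiting at time `n` from `z` has been outside `D`, seen from `0`, at some
time `j ≤ n`; `j = n` means that the first exit from `0` is at `n` and `z - h ∉ D`) -/
theorem hit_ladder (hD : Dom D) [IsProbabilityMeasure ρ] (n : ℕ) (z : ℝ) (hz : 0 ≤ z) :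
    ENNReal.ofReal (hit D ρ n z) = lad D ρ n {h | z - h ∉ D} + ∑ j ∈ Finset.range n,
      ∫⁻ h in {h | z - h ∈ D}, ENNReal.ofReal (hit D ρ (n - j) (z - h)) ∂(lad D ρ j) := by
  rw [K2_hit, K2_part hD _ n, Finset.sum_range_succ]
  have h0 : seqLaw ρ ({ω | 1 ≤ n ∧ Alive D z (n - 1) ω ∧ z + S n ω ∉ D} ∩
      {ω | Alive D 0 n ω}) = 0 := by
    have : ({ω | 1 ≤ n ∧ Alive D z (n - 1) ω ∧ z + S n ω ∉ D} ∩
        {ω | Alive D 0 n ω} : Set (ℕ → ℝ)) = ∅ := by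
      ext ω
      simp only [Set.mem_empty_iff_false, iff_false]
      rintro ⟨⟨h1, h2, h3⟩, h4⟩
      exact h3 (K2_alive_mono hD hz n ω h4 n h1 le_rfl)
    rw [this, measure_empty]
  have hn : seqLaw ρ ({ω | 1 ≤ n ∧ Alive D z (n - 1) ω ∧ z + S n ω ∉ D} ∩ K2_A D n) =
      lad D ρ n {h | z - h ∉ D} := by
    have hms : MeasurableSet {h : ℝ | z - h ∉ D} :=
      ((measurable_const.sub measurable_id) hD.meas).compl
    have hmS : Measurable fun ω : ℕ → ℝ => -S n ω := (measurable_S n).neg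
    unfold lad
    rw [Measure.map_apply hmS hms, Measure.restrict_apply (hmS hms)]
    congr 1
    ext ω
    constructor
    · rintro ⟨⟨h1, h2, h3⟩, h4⟩
      refine ⟨?_, h4⟩
      show z - -S n ω ∉ D
      rwa [sub_neg_eq_add]
    · rintro ⟨h1, h2⟩
      have h3 : z - -S n ω ∉ D := h1
      rw [sub_neg_eq_add] at h3
      exact ⟨⟨h2.1, K2_alive_mono hD hz (n - 1) ω h2.2.1, h3⟩, h2⟩
  rw [h0, hn, zero_add, add_comm]
  congr 1
  refine Finset.sum_congr rfl fun j hj => ?_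
  have hjn : j < n := Finset.mem_range.1 hj
  have hQ : MeasurableSet {p : ℝ × (ℕ → ℝ) | 1 ≤ n - j ∧ Alive D p.1 (n - j - 1) p.2 ∧
      p.1 + S (n - j) p.2 ∉ D} :=
    (MeasurableSet.const _).inter ((measurableSet_alive' hD (n - j - 1)).inter
      ((A1_meas_add' (n - j)) hD.meas).compl)
  have h1 := K2_split (ρ := ρ) hD j z _ hQ
  have h2 : ∀ h : ℝ, ENNReal.ofReal (hit D ρ (n - j) (z - h)) = seqLaw ρ {η | (z - h, η) ∈
      {p : ℝ × (ℕ → ℝ) | 1 ≤ n - j ∧ Alive D p.1 (n - j - 1) p.2 ∧ p.1 + S (n - j) p.2 ∉ D}} :=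
    fun h => K2_hit (n - j) (z - h)
  simp only [h2]
  rw [← h1]
  congr 1
  have hsub : j + (n - j - 1) = n - 1 := by omega
  have hsub' : j + (n - j) = n := by omega
  ext ω
  constructor
  · rintro ⟨⟨h3, h4, h4'⟩, h5⟩
    have h6 : Alive D z (j + (n - j - 1)) ω := by rwa [hsub]
    obtain ⟨h7, h8⟩ := (alive_add z j (n - j - 1) ω).1 h6
    refine ⟨h5, h7 j h5.1 le_rfl, by omega, h8, ?_⟩
    show z + S j ω + S (n - j) (shift j ω) ∉ D
    rw [add_assoc, ← S_shift, hsub']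
    exact h4'
  · rintro ⟨h3, h4, -, h5, h6⟩
    have h6' : z + S j ω + S (n - j) (shift j ω) ∉ D := h6
    rw [add_assoc, ← S_shift, hsub'] at h6'
    refine ⟨⟨by omega, ?_, h6'⟩, h3⟩
    have h7 : Alive D z j ω := by
      obtain ⟨k, rfl⟩ : ∃ k, j = k + 1 := ⟨j - 1, by have := h3.1; omega⟩
      exact (K2_alive_succ z k ω).2 ⟨K2_alive_mono hD hz k ω h3.2.1, h4⟩
    have h8 := (alive_add z j (n - j - 1) ω).2 ⟨h7, h5⟩
    rwa [hsub] at h8

end Pool.Agent.BPT
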