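import Pool.Agent.MP_99a865_pr.CV.K2
import Pool.Agent.MP_99a865_pr.CV.K3

open MeasureTheory ProbabilityTheory Filter Topology
open scoped ENNReal NNReal

namespace Pool.Agent.BPT

variable {D : Set ℝ} {ρ : Measure ℝ}

private theorem K4_meas_kap (hD : Dom D) [IsProbabilityMeasure ρ] (l : ℕ) (z y : ℝ) :
    Measurable fun h => kap D ρ l (z - h) (Set.Iic y) :=
  (Measure.measurable_coe measurableSet_Iic).comp
    ((measurable_kap hD l).comp (measurable_const.sub measurable_id))

private theorem K4_measSet (hD : Dom D) (z : ℝ) : MeasurableSet {h : ℝ | z - h ∈ D} :=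
  (measurable_const.sub measurable_id) hD.meas

private theorem K4_swap (n : ℕ) (F : ℕ → ℕ → ℝ≥0∞) (h0 : ∀ l, F 0 l = 0) :
    ∑ k ∈ Finset.range (n + 1), ∑ j ∈ Finset.range (k + 1), F j (k - j) ≤
      ∑ j ∈ Finset.range (n + 1), ∑ l ∈ Finset.range n, F j l := by
  rw [Finset.sum_comm' (s := Finset.range (n + 1)) (t := fun k => Finset.range (k + 1))
    (t' := Finset.range (n + 1)) (s' := fun j => Finset.Ico j (n + 1)) (by
      intro k j
      simp only [Finset.mem_range, Finset.mem_Ico]
      omega)]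
  refine Finset.sum_le_sum fun j _ => ?_
  rcases Nat.eq_zero_or_pos j with rfl | hj
  · simp [h0]
  · rw [Finset.sum_Ico_eq_sum_range]
    have h1 : ∀ i, F j (j + i - j) = F j i := fun i => by rw [Nat.add_sub_cancel_left]
    simp only [h1]
    exact Finset.sum_le_sum_of_subset (Finset.range_subset_range.2 (by omega))

private theorem K4_fin (hD : Dom D) [IsProbabilityMeasure ρ] : IsFiniteMeasure (ladS D ρ) :=
  ⟨(ladS_le_one hD).trans_lt ENNReal.one_lt_top⟩

/-- **[IVC-K4]** Green function of the killed walk. PROOF. Let `g_n(z) = ∑_{k<n} kap k z (Iic y)`. By strong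
induction on `n`, for all `z ≥ 0`: `g_n(z) ≤ VV z · GG y`. By `kap_ladder`,
`g_n(z) = ∑_{k<n} kap k 0 {s | z + s ≤ y} + ∑_{k<n} ∑_{j≤k} ∫_{z-h∈D} kap (k-j) (z-h) (Iic y) ∂(lad j)`. The first sum
is at most `GG y` (`z ≥ 0`); exchanging the sums, the second is `∑_{j<n} ∫_{z-h∈D} g_{n-j}(z-h) ∂(lad j)`, where
`j = 0` does not contribute (`lad_zero`), so `g_{n-j} ≤ VV (z-h) GG y` by induction (`z - h ∈ D` gives
`z - h ≥ 0`), and `1 + ∫_{z-h∈D} VV (z-h) ∂(ladS) = VV z` (`VT_rec`, `lintegral_ladS`). -/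
theorem green_le (hD : Dom D) [IsProbabilityMeasure ρ] (z : ℝ) (hz : 0 ≤ z) (y : ℝ) :
    ∑' k, kap D ρ k z (Set.Iic y) ≤ VV D ρ z * GG D ρ y := by
  have hfin := K4_fin (ρ := ρ) hD
  have key : ∀ n : ℕ, ∀ z : ℝ, 0 ≤ z →
      ∑ k ∈ Finset.range n, kap D ρ k z (Set.Iic y) ≤ VV D ρ z * GG D ρ y := by
    intro n
    induction n with
    | zero => intro z _; simp
    | succ n ih =>
      intro z hz
      have h1 : ∀ k, kap D ρ k z (Set.Iic y) = kap D ρ k 0 {s | z + s ∈ Set.Iic y} +
          ∑ j ∈ Finset.range (k + 1), ∫⁻ h in {h | z - h ∈ D},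
            kap D ρ (k - j) (z - h) (Set.Iic y) ∂(lad D ρ j) :=
        fun k => kap_ladder hD k z hz _ measurableSet_Iic
      simp only [h1]
      rw [Finset.sum_add_distrib]
      have h2 : ∑ k ∈ Finset.range (n + 1), kap D ρ k 0 {s | z + s ∈ Set.Iic y} ≤ GG D ρ y := by
        refine le_trans (Finset.sum_le_sum fun k _ => measure_mono ?_)
          (ENNReal.sum_le_tsum (f := fun k => kap D ρ k 0 (Set.Iic y)) _)
        intro s hs
        simp only [Set.mem_ofPred_eq, Set.mem_Iic] at hs ⊢
        linarith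
      have h3 : ∑ k ∈ Finset.range (n + 1), ∑ j ∈ Finset.range (k + 1),
          ∫⁻ h in {h | z - h ∈ D}, kap D ρ (k - j) (z - h) (Set.Iic y) ∂(lad D ρ j) ≤
          (∫⁻ h in {h | z - h ∈ D}, VV D ρ (z - h) ∂(ladS D ρ)) * GG D ρ y := by
        refine le_trans (K4_swap n (fun j l => ∫⁻ h in {h | z - h ∈ D},
          kap D ρ l (z - h) (Set.Iic y) ∂(lad D ρ j)) (fun l => by
            rw [lad_zero, Measure.restrict_zero, lintegral_zero_measure])) ?_
        have h4 : ∀ j, ∑ l ∈ Finset.range n, ∫⁻ h in {h | z - h ∈ D},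
            kap D ρ l (z - h) (Set.Iic y) ∂(lad D ρ j) ≤
            ∫⁻ h, {h | z - h ∈ D}.indicator (fun h => VV D ρ (z - h) * GG D ρ y) h ∂(lad D ρ j) := by
          intro j
          rw [← lintegral_finsetSum _ (fun l _ => K4_meas_kap hD l z y),
            lintegral_indicator (K4_measSet hD z)]
          refine setLIntegral_mono' (K4_measSet hD z) fun h hh => ?_
          exact ih (z - h) (hD.nonneg hh)
        refine le_trans (Finset.sum_le_sum fun j _ => h4 j) (le_trans (ENNReal.sum_le_tsum _) ?_)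
        rw [← lintegral_ladS, lintegral_indicator (K4_measSet hD z), lintegral_mul_const]
        exact (measurable_VT hD).comp (measurable_const.sub measurable_id)
      refine le_trans (add_le_add h2 h3) ?_
      have h5 : VV D ρ z = 1 + ∫⁻ h in {h | z - h ∈ D}, VV D ρ (z - h) ∂(ladS D ρ) := VT_rec hD z
      rw [h5, add_mul, one_mul]
  exact ENNReal.tsum_le_of_sum_range_le fun n => key n z hz

/-- **[IVC-K4b]** The same bound with `VV y`, for every starting point. PROOF. Partial sums `g_n(z)`, induction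
on `n`: if `z ≤ y`, `VV z ≤ VV y` (`VT_mono`). If `z > y`, the term `k = 0` vanishes, and by the Markov property
at time one (`kap_add_apply`, `kap D ρ 1 z` is concentrated on `D ⊆ [0,∞)` and has mass at most one)
`g_{n+1}(z) = ∫ g_n(z') ∂(kap D ρ 1 z)(z') ≤ VV y · GG y`. -/
theorem green_sup (hD : Dom D) [IsProbabilityMeasure ρ] (z : ℝ) (hz : 0 ≤ z) (y : ℝ) (hy : 0 ≤ y) :
    ∑' k, kap D ρ k z (Set.Iic y) ≤ VV D ρ y * GG D ρ y := by
  have key : ∀ n : ℕ, ∀ z : ℝ, 0 ≤ z →
      ∑ k ∈ Finset.range n, kap D ρ k z (Set.Iic y) ≤ VV D ρ y * GG D ρ y := by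
    intro n
    induction n with
    | zero => intro z _; simp
    | succ n ih =>
      intro z hz
      by_cases hzy : z ≤ y
      · refine le_trans (ENNReal.sum_le_tsum _) (le_trans (green_le hD z hz y) ?_)
        exact mul_le_mul_left (VT_mono hD hzy) _
      · push Not at hzy
        rw [Finset.sum_range_succ']
        have h0 : kap D ρ 0 z (Set.Iic y) = 0 := by
          rw [kap_zero, Measure.dirac_apply' _ measurableSet_Iic]
          simp [hzy]
        rw [h0, add_zero]
        have h1 : ∀ k, kap D ρ (k + 1) z (Set.Iic y) =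
            ∫⁻ z', kap D ρ k z' (Set.Iic y) ∂(kap D ρ 1 z) := by
          intro k
          rw [add_comm k 1]
          exact kap_add_apply hD 1 k z _ measurableSet_Iic
        simp only [h1]
        have hm : ∀ l, Measurable fun z' => kap D ρ l z' (Set.Iic y) := fun l =>
          (Measure.measurable_coe measurableSet_Iic).comp (measurable_kap hD l)
        rw [← lintegral_finsetSum _ (fun l _ => hm l)]
        have hae : ∀ᵐ z' ∂(kap D ρ 1 z), z' ∈ D := by
          rw [ae_iff]
          exact kap_compl hD 1 z (Or.inl le_rfl)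
        calc ∫⁻ z', ∑ k ∈ Finset.range n, kap D ρ k z' (Set.Iic y) ∂(kap D ρ 1 z)
            ≤ ∫⁻ _, VV D ρ y * GG D ρ y ∂(kap D ρ 1 z) := by
              refine lintegral_mono_ae ?_
              filter_upwards [hae] with z' hz'
              exact ih z' (hD.nonneg hz')
          _ = VV D ρ y * GG D ρ y * kap D ρ 1 z Set.univ := lintegral_const _
          _ ≤ VV D ρ y * GG D ρ y * 1 := mul_le_mul_right (kap_univ_le_one 1 z) _
          _ = VV D ρ y * GG D ρ y := mul_one _
  exact ENNReal.tsum_le_of_sum_range_le fun n => key n z hz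

end Pool.Agent.BPT
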