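import Pool.Agent.MP_99a865_pr.CV.K2
import Pool.Agent.MP_99a865_pr.CV.K3

open MeasureTheory ProbabilityTheory Filter Topology
open scoped ENNReal NNReal

namespace Pool.Agent.BPT

variable {D : Set ℝ} {ρ : Measure ℝ}

theorem measurableSet_Lad (hD : Dom D) (m : ℕ) : MeasurableSet {ω | Lad D m ω} := by
  have : {ω | Lad D m ω} = ⋂ i : ℕ, ⋂ (_ : i < m), {ω : ℕ → ℝ | S m ω - S i ω ∉ D} := by
    ext ω
    simp [Lad]
  rw [this]
  refine MeasurableSet.iInter fun i => MeasurableSet.iInter fun _ => ?_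
  exact ((measurable_S m).sub (measurable_S i)) hD.meas.compl

theorem K6_add (hD : Dom D) {x y : ℝ} (hx : x ∉ D) (hy : y ∉ D) : x + y ∉ D := by
  intro h
  have := hD.not_mem hy
  exact hx (hD.up h (by linarith))

theorem K6_sub (hD : Dom D) {x y : ℝ} (hx : x ∉ D) (hy : 0 ≤ y) : x - y ∉ D := by
  intro h
  exact hx (hD.up h (by linarith))

/-- `Lad D m` for `m ≥ 1`, decomposed at the first exit `j ≤ m` of the walk started at `0`.
PROOF. If `m ≥ 1` is a ladder epoch then `S m - S 0 ∉ D`, so there is a first `j ≤ m` with `S j ∉ D`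
(`1 ≤ j`), and `Lad D (m-j) (shift j ω)`. Conversely let `j` be the first exit time and
`Lad D (m-j) (shift j ω)`: for `j ≤ i < m`, `S m - S i ∉ D` by hypothesis; for `i < j`,
`S m - S i = (S m - S j) + (S j - S i)` where `S m - S j ∉ D` (or `m = j`), `S j ∉ D` and `S i ≥ 0` (with
`S i ∈ D` or `i = 0`), so `S j - S i ∉ D`; `Dᶜ` is closed under addition. -/
theorem Lad_iff (hD : Dom D) (m : ℕ) (hm : 1 ≤ m) (ω : ℕ → ℝ) : Lad D m ω ↔
    ∃ j, (1 ≤ j ∧ Alive D 0 (j - 1) ω ∧ 0 + S j ω ∉ D) ∧ j ≤ m ∧ Lad D (m - j) (shift j ω) := by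
  classical
  constructor
  · intro h
    have hex : ∃ j, 1 ≤ j ∧ 0 + S j ω ∉ D := by
      refine ⟨m, hm, ?_⟩
      have := h 0 hm
      rwa [A1_S_zero, sub_zero, ← zero_add (S m ω)] at this
    refine ⟨Nat.find hex, ⟨(Nat.find_spec hex).1, ?_, (Nat.find_spec hex).2⟩, ?_, ?_⟩
    · intro i h1 h2
      by_contra hcon
      exact Nat.find_min hex (m := i) (by have := (Nat.find_spec hex).1; omega) ⟨h1, hcon⟩
    · apply Nat.find_min'
      refine ⟨hm, ?_⟩
      have := h 0 hm
      rwa [A1_S_zero, sub_zero, ← zero_add (S m ω)] at this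
    · have hle : Nat.find hex ≤ m := by
        apply Nat.find_min'
        refine ⟨hm, ?_⟩
        have := h 0 hm
        rwa [A1_S_zero, sub_zero, ← zero_add (S m ω)] at this
      intro i hi
      have h1 := h (Nat.find hex + i) (by omega)
      have e1 : S m ω = S (Nat.find hex) ω + S (m - Nat.find hex) (shift (Nat.find hex) ω) := by
        rw [← S_shift]
        congr 1
        omega
      rw [S_shift, e1] at h1
      have e2 : S (Nat.find hex) ω + S (m - Nat.find hex) (shift (Nat.find hex) ω) -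
          (S (Nat.find hex) ω + S i (shift (Nat.find hex) ω)) =
          S (m - Nat.find hex) (shift (Nat.find hex) ω) - S i (shift (Nat.find hex) ω) := by ring
      rwa [e2] at h1
  · rintro ⟨j, ⟨hj1, hal, hex⟩, hjm, hlad⟩ i hi
    have e1 : S m ω = S j ω + S (m - j) (shift j ω) := by
      rw [← S_shift]
      congr 1
      omega
    rw [zero_add] at hex
    rcases lt_or_ge i j with hij | hij
    · have hSi : 0 ≤ S i ω := by
        rcases Nat.eq_zero_or_pos i with h0 | h0
        · rw [h0, A1_S_zero]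
        · have := hD.nonneg (hal i h0 (by omega))
          rwa [zero_add] at this
      have h1 : S j ω - S i ω ∉ D := K6_sub hD hex hSi
      rcases Nat.eq_or_lt_of_le hjm with h2 | h2
      · rw [← h2]
        exact h1
      · have h3 := hlad 0 (by omega)
        rw [A1_S_zero, sub_zero] at h3
        have h4 := K6_add hD h3 h1
        have e2 : S (m - j) (shift j ω) + (S j ω - S i ω) = S m ω - S i ω := by rw [e1]; ring
        rwa [e2] at h4
    · have h1 := hlad (i - j) (by omega)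
      have e2 : S i ω = S j ω + S (i - j) (shift j ω) := by
        rw [← S_shift]
        congr 1
        omega
      rw [e1, e2]
      have e3 : S j ω + S (m - j) (shift j ω) - (S j ω + S (i - j) (shift j ω)) =
        S (m - j) (shift j ω) - S (i - j) (shift j ω) := by ring
      rwa [e3]

/-- probability of a ladder epoch at `m` above `-z` -/
noncomputable def K6_La (D : Set ℝ) (ρ : Measure ℝ) (m : ℕ) (z : ℝ) : ℝ≥0∞ :=
  seqLaw ρ {ω | Lad D m ω ∧ (m = 0 ∨ z + S m ω ∈ D)}

theorem K6_meas2 (hD : Dom D) (m : ℕ) :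
    MeasurableSet {p : ℝ × (ℕ → ℝ) | Lad D m p.2 ∧ (m = 0 ∨ p.1 + S m p.2 ∈ D)} := by
  apply MeasurableSet.inter
  · exact measurable_snd (measurableSet_Lad hD m)
  · apply MeasurableSet.union
    · exact MeasurableSet.const _
    · exact (A1_meas_add' m) hD.meas

theorem K6_measLa (hD : Dom D) [IsProbabilityMeasure ρ] (m : ℕ) : Measurable (K6_La D ρ m) :=
  measurable_measure_prodMk_left (K6_meas2 hD m)

theorem K6_La_zero [IsProbabilityMeasure ρ] (z : ℝ) : K6_La D ρ 0 z = 1 := by
  unfold K6_La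
  have : {ω : ℕ → ℝ | Lad D 0 ω ∧ (0 = 0 ∨ z + S 0 ω ∈ D)} = Set.univ := by
    ext ω
    simp [Lad]
  rw [this, measure_univ]

/-- the exit event -/
def K6_A (D : Set ℝ) (j : ℕ) : Set (ℕ → ℝ) :=
  {ω | 1 ≤ j ∧ Alive D 0 (j - 1) ω ∧ 0 + S j ω ∉ D}

theorem K6_measA (hD : Dom D) (j : ℕ) : MeasurableSet (K6_A D j) := by
  unfold K6_A
  apply MeasurableSet.inter
  · exact MeasurableSet.const _
  · apply MeasurableSet.inter
    · exact measurableSet_alive hD 0 (j - 1)
    · exact (A1_meas_add j 0) hD.meas.compl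

theorem K6_S_congr {k l : ℕ} (hkl : k ≤ l) {ω ω' : ℕ → ℝ} (h : ∀ i < l, ω i = ω' i) :
    S k ω = S k ω' := by
  unfold S
  apply Finset.sum_congr rfl
  intro i hi
  exact h i (lt_of_lt_of_le (Finset.mem_range.1 hi) hkl)

theorem K6_A_congr {j : ℕ} {ω ω' : ℕ → ℝ} (h : ∀ i < j, ω i = ω' i) :
    ω ∈ K6_A D j ↔ ω' ∈ K6_A D j := by
  unfold K6_A
  simp only [Set.mem_ofPred_eq]
  rw [K6_S_congr le_rfl h]
  constructor
  · rintro ⟨h1, h2, h3⟩
    refine ⟨h1, ?_, h3⟩
    intro i hi1 hi2
    rw [← K6_S_congr (show i ≤ j by omega) h]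
    exact h2 i hi1 hi2
  · rintro ⟨h1, h2, h3⟩
    refine ⟨h1, ?_, h3⟩
    intro i hi1 hi2
    rw [K6_S_congr (show i ≤ j by omega) h]
    exact h2 i hi1 hi2

theorem K6_A_disj {i j : ℕ} (hij : i ≠ j) : Disjoint (K6_A D i) (K6_A D j) := by
  rw [Set.disjoint_left]
  rintro ω ⟨h1, h2, h3⟩ ⟨h4, h5, h6⟩
  rcases lt_or_gt_of_ne hij with h | h
  · exact h3 (h5 i h1 (by omega))
  · exact h6 (h2 j h4 (by omega))

open Classical in
theorem K6_piece (hD : Dom D) [IsProbabilityMeasure ρ] (j i : ℕ) (z : ℝ) :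
    seqLaw ρ {ω | ω ∈ K6_A D j ∧ z + S j ω ∈ D ∧ Lad D i (shift j ω) ∧
      (i = 0 ∨ z + S j ω + S i (shift j ω) ∈ D)} =
    ∫⁻ h in {h | z - h ∈ D}, K6_La D ρ i (z - h) ∂(lad D ρ j) := by
  have hset : MeasurableSet {p : (ℕ → ℝ) × (ℕ → ℝ) | p.1 ∈ K6_A D j ∧ z + S j p.1 ∈ D ∧
      Lad D i p.2 ∧ (i = 0 ∨ z + S j p.1 + S i p.2 ∈ D)} := by
    apply MeasurableSet.inter
    · exact measurable_fst (K6_measA hD j)
    apply MeasurableSet.inter
    · exact measurable_fst ((A1_meas_add j z) hD.meas)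
    apply MeasurableSet.inter
    · exact measurable_snd (measurableSet_Lad hD i)
    apply MeasurableSet.union
    · exact MeasurableSet.const _
    · have : Measurable fun p : (ℕ → ℝ) × (ℕ → ℝ) => z + S j p.1 + S i p.2 :=
        ((A1_meas_add j z).comp measurable_fst).add ((measurable_S i).comp measurable_snd)
      exact this hD.meas
  set Q : Set ((ℕ → ℝ) × (ℕ → ℝ)) := {p | p.1 ∈ K6_A D j ∧ z + S j p.1 ∈ D ∧
      Lad D i p.2 ∧ (i = 0 ∨ z + S j p.1 + S i p.2 ∈ D)} with hQ
  have h1 := lintegral_split ρ j (fun ω η => Q.indicator (fun _ => (1 : ℝ≥0∞)) (ω, η))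
    (measurable_const.indicator hset) (by
      intro ω ω' η h
      have e1 := K6_A_congr (D := D) h
      have e2 := K6_S_congr le_rfl h
      have : (ω, η) ∈ Q ↔ (ω', η) ∈ Q := by
        simp only [hQ, Set.mem_ofPred_eq]
        rw [e1, e2]
      by_cases hq : (ω, η) ∈ Q
      · simp only [Set.indicator_of_mem hq, Set.indicator_of_mem (this.1 hq)]
      · simp only [Set.indicator_of_notMem hq, Set.indicator_of_notMem (fun h => hq (this.2 h))])
  have h2 : ∫⁻ ω, Q.indicator (fun _ => (1 : ℝ≥0∞)) (ω, shift j ω) ∂(seqLaw ρ) =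
      seqLaw ρ {ω | ω ∈ K6_A D j ∧ z + S j ω ∈ D ∧ Lad D i (shift j ω) ∧
      (i = 0 ∨ z + S j ω + S i (shift j ω) ∈ D)} := by
    have hm : MeasurableSet ((fun ω : ℕ → ℝ => (ω, shift j ω)) ⁻¹' Q) :=
      (measurable_id.prodMk (measurable_shift j)) hset
    have e : (fun ω : ℕ → ℝ => Q.indicator (fun _ => (1 : ℝ≥0∞)) (ω, shift j ω)) =
        ((fun ω : ℕ → ℝ => (ω, shift j ω)) ⁻¹' Q).indicator 1 := by
      funext ω
      by_cases hq : (ω, shift j ω) ∈ Q
      · rw [Set.indicator_of_mem hq, Set.indicator_of_mem (by exact hq)]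
        rfl
      · rw [Set.indicator_of_notMem hq, Set.indicator_of_notMem (by exact hq)]
    rw [e, lintegral_indicator_one hm]
    rfl
  rw [← h2, h1]
  have hmLa : Measurable fun h : ℝ => {h : ℝ | z - h ∈ D}.indicator
      (fun h => K6_La D ρ i (z - h)) h := by
    apply Measurable.indicator
    · exact (K6_measLa hD i).comp (measurable_const.sub measurable_id)
    · exact (measurable_const.sub measurable_id) hD.meas
  have hMS : MeasurableSet {h : ℝ | z - h ∈ D} :=
    (measurable_const.sub measurable_id) hD.meas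
  rw [← lintegral_indicator hMS, lintegral_lad hD j _ hmLa]
  change _ = ∫⁻ ω in K6_A D j, _ ∂(seqLaw ρ)
  rw [← lintegral_indicator (K6_measA hD j)]
  apply lintegral_congr
  intro ω
  by_cases hω : ω ∈ K6_A D j
  · rw [Set.indicator_of_mem hω]
    by_cases hz : z + S j ω ∈ D
    · have e0 : z - -S j ω = z + S j ω := by ring
      rw [Set.indicator_of_mem (by simp only [Set.mem_ofPred_eq]; rw [e0]; exact hz), e0]
      have hm : MeasurableSet (Prod.mk ω ⁻¹' Q) := measurable_prodMk_left hset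
      have e : (fun η : ℕ → ℝ => Q.indicator (fun _ => (1 : ℝ≥0∞)) (ω, η)) =
        (Prod.mk ω ⁻¹' Q).indicator 1 := by
        funext η
        by_cases hq : (ω, η) ∈ Q
        · rw [Set.indicator_of_mem hq, Set.indicator_of_mem (by exact hq)]
          rfl
        · rw [Set.indicator_of_notMem hq, Set.indicator_of_notMem (by exact hq)]
      rw [e, lintegral_indicator_one hm]
      unfold K6_La
      congr 1
      ext η
      simp only [hQ, Set.mem_preimage, Set.mem_ofPred_eq]
      exact ⟨fun h => h.2.2, fun h => ⟨hω, hz, h⟩⟩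
    · have e0 : z - -S j ω = z + S j ω := by ring
      rw [Set.indicator_of_notMem (by simp only [Set.mem_ofPred_eq]; rw [e0]; exact hz)]
      have : ∀ η : ℕ → ℝ, Q.indicator (fun _ => (1 : ℝ≥0∞)) (ω, η) = 0 := by
        intro η
        apply Set.indicator_of_notMem
        rintro ⟨-, h, -⟩
        exact hz h
      simp only [this, lintegral_zero]
  · rw [Set.indicator_of_notMem hω]
    have : ∀ η : ℕ → ℝ, Q.indicator (fun _ => (1 : ℝ≥0∞)) (ω, η) = 0 := by
      intro η
      apply Set.indicator_of_notMem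
      rintro ⟨h, -⟩
      exact hω h
    simp only [this, lintegral_zero]

theorem K6_rec (hD : Dom D) [IsProbabilityMeasure ρ] (m : ℕ) (z : ℝ) :
    K6_La D ρ (m + 1) z = ∑ p ∈ Finset.HasAntidiagonal.antidiagonal m,
      ∫⁻ h in {h | z - h ∈ D}, K6_La D ρ p.2 (z - h) ∂(lad D ρ (p.1 + 1)) := by
  have hU : {ω : ℕ → ℝ | Lad D (m + 1) ω ∧ (m + 1 = 0 ∨ z + S (m + 1) ω ∈ D)} =
      ⋃ p ∈ Finset.HasAntidiagonal.antidiagonal m, {ω | ω ∈ K6_A D (p.1 + 1) ∧ z + S (p.1 + 1) ω ∈ D ∧
        Lad D p.2 (shift (p.1 + 1) ω) ∧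
        (p.2 = 0 ∨ z + S (p.1 + 1) ω + S p.2 (shift (p.1 + 1) ω) ∈ D)} := by
    ext ω
    simp only [Set.mem_ofPred_eq, Set.mem_iUnion, exists_prop, Finset.HasAntidiagonal.mem_antidiagonal]
    constructor
    · rintro ⟨h1, h2⟩
      have h2' : z + S (m + 1) ω ∈ D := by
        rcases h2 with h | h
        · omega
        · exact h
      obtain ⟨j, hj, hjm, hlad⟩ := (Lad_iff hD (m + 1) (by omega) ω).1 h1
      have hj1 := hj.1
      refine ⟨(j - 1, m + 1 - j), by simp only; omega, ?_⟩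
      have ej : j - 1 + 1 = j := by omega
      simp only [ej]
      have e1 : S (m + 1) ω = S j ω + S (m + 1 - j) (shift j ω) := by
        rw [← S_shift]
        congr 1
        omega
      rw [e1, ← add_assoc] at h2'
      refine ⟨hj, ?_, hlad, Or.inr h2'⟩
      rcases Nat.eq_zero_or_pos (m + 1 - j) with h0 | h0
      · rw [h0, A1_S_zero, add_zero] at h2'
        exact h2'
      · have h3 := hlad 0 h0
        rw [A1_S_zero, sub_zero] at h3
        have := hD.not_mem h3
        exact hD.up h2' (by linarith)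
    · rintro ⟨⟨a, b⟩, hab, hA, hz, hlad, hor⟩
      simp only at hab hA hz hlad hor
      have eb : m + 1 - (a + 1) = b := by omega
      have h1 : Lad D (m + 1) ω := by
        rw [Lad_iff hD (m + 1) (by omega) ω]
        exact ⟨a + 1, hA, by omega, by rw [eb]; exact hlad⟩
      refine ⟨h1, Or.inr ?_⟩
      have e1 : S (m + 1) ω = S (a + 1) ω + S b (shift (a + 1) ω) := by
        rw [← S_shift]
        congr 1
        omega
      rw [e1, ← add_assoc]
      rcases hor with h | h
      · rw [h, A1_S_zero, add_zero]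
        exact hz
      · exact h
  unfold K6_La
  rw [hU, measure_biUnion_finset]
  · apply Finset.sum_congr rfl
    intro p _
    exact K6_piece hD (p.1 + 1) p.2 z
  · intro p hp q hq hpq
    rw [Finset.mem_coe, Finset.HasAntidiagonal.mem_antidiagonal] at hp hq
    have hne : p.1 + 1 ≠ q.1 + 1 := by
      intro h
      apply hpq
      ext
      · omega
      · omega
    apply Disjoint.mono _ _ (K6_A_disj (D := D) hne)
    · exact fun ω h => h.1
    · exact fun ω h => h.1
  · intro p _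
    apply MeasurableSet.inter
    · exact K6_measA hD _
    apply MeasurableSet.inter
    · exact (A1_meas_add _ z) hD.meas
    apply MeasurableSet.inter
    · exact (measurable_shift _) (measurableSet_Lad hD _)
    apply MeasurableSet.union
    · exact MeasurableSet.const _
    · exact ((A1_meas_add _ z).add ((measurable_S _).comp (measurable_shift _))) hD.meas

theorem K6_sum_shift [IsProbabilityMeasure ρ] (z : ℝ) (f : ℝ → ℝ≥0∞) :
    ∫⁻ h in {h | z - h ∈ D}, f h ∂(ladS D ρ) =
      ∑' j, ∫⁻ h in {h | z - h ∈ D}, f h ∂(lad D ρ (j + 1)) := by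
  unfold ladS
  rw [Measure.restrict_sum_of_countable, lintegral_sum_measure, tsum_eq_zero_add' ENNReal.summable,
    lad_zero]
  simp

/-- **[IVC-K6]** The renewal function through ladder epochs.
PROOF. Let `Λ_m(z) = P(Lad D m, m = 0 ∨ z + S m ∈ D)`, `Λ_0 = 1`. For `m ≥ 1`, by `Lad_iff` (the exit events are
disjoint), `lintegral_split` and `lintegral_lad`:
`Λ_m(z) = ∑_{j≤m} ∫_{z-h∈D} Λ_{m-j}(z-h) ∂(lad j)` (if `Lad D (m-j)` for the shifted walk then its position is
`≤ 0`, so `z + S m ∈ D` implies `z - h ∈ D`). With `L_n = ∑_{m≤n} Λ_m`: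
`L_n(z) = 1 + ∑_{j≤n} ∫_{z-h∈D} L_{n-j}(z-h) ∂(lad j)`. (`≤`): strong induction on `n`, `L_n ≤ VV` by `VT_rec`.
(`≥`): with `L = sup L_n`, `L(z) ≥ 1 + ∫_{z-h∈D} L(z-h) ∂(ladS)` by monotone convergence, hence all partial
sums `∑_{r<R} ww r z ≤ L(z)` by induction on `R` (`sum_ww_rec`). -/
theorem lad_renewal (hD : Dom D) [IsProbabilityMeasure ρ] (z : ℝ) (hz : 0 ≤ z) :
    ∑' m, seqLaw ρ {ω | Lad D m ω ∧ (m = 0 ∨ z + S m ω ∈ D)} = VV D ρ z := by
  have _ := hz
  haveI : IsFiniteMeasure (ladS D ρ) :=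
    ⟨lt_of_le_of_lt (ladS_le_one hD) ENNReal.one_lt_top⟩
  have hVV : ∀ z, VV D ρ z = 1 + ∫⁻ h in {h | z - h ∈ D}, VV D ρ (z - h) ∂(ladS D ρ) :=
    fun z => VT_rec hD z
  have hmLa : ∀ (i : ℕ) (z : ℝ), Measurable fun h : ℝ => K6_La D ρ i (z - h) :=
    fun i z => (K6_measLa hD i).comp (measurable_const.sub measurable_id)
  -- upper bound
  have hle : ∀ n : ℕ, ∀ z : ℝ, ∑ m ∈ Finset.range n, K6_La D ρ m z ≤ VV D ρ z := by
    intro n
    induction n with
    | zero => intro z; simp
    | succ n ih =>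
      intro z
      rw [Finset.sum_range_succ', K6_La_zero, hVV z, add_comm]
      gcongr
      rw [K6_sum_shift]
      calc ∑ m ∈ Finset.range n, K6_La D ρ (m + 1) z
          = ∑ m ∈ Finset.range n, ∑ p ∈ Finset.HasAntidiagonal.antidiagonal m,
            ∫⁻ h in {h | z - h ∈ D}, K6_La D ρ p.2 (z - h) ∂(lad D ρ (p.1 + 1)) :=
            Finset.sum_congr rfl fun m _ => K6_rec hD m z
        _ ≤ ∑ p ∈ Finset.range n ×ˢ Finset.range n,
            ∫⁻ h in {h | z - h ∈ D}, K6_La D ρ p.2 (z - h) ∂(lad D ρ (p.1 + 1)) := by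
            rw [← Finset.sum_biUnion]
            · apply Finset.sum_le_sum_of_subset
              intro p hp
              rw [Finset.mem_biUnion] at hp
              obtain ⟨m, hm, hp⟩ := hp
              rw [Finset.mem_range] at hm
              rw [Finset.HasAntidiagonal.mem_antidiagonal] at hp
              rw [Finset.mem_product, Finset.mem_range, Finset.mem_range]
              omega
            · intro a _ b _ hab
              rw [Function.onFun, Finset.disjoint_left]
              intro p hp hq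
              rw [Finset.HasAntidiagonal.mem_antidiagonal] at hp hq
              omega
        _ = ∑ j ∈ Finset.range n, ∫⁻ h in {h | z - h ∈ D},
            ∑ i ∈ Finset.range n, K6_La D ρ i (z - h) ∂(lad D ρ (j + 1)) := by
            rw [Finset.sum_product]
            apply Finset.sum_congr rfl
            intro j _
            rw [lintegral_finsetSum _ fun i _ => hmLa i z]
        _ ≤ ∑ j ∈ Finset.range n, ∫⁻ h in {h | z - h ∈ D}, VV D ρ (z - h) ∂(lad D ρ (j + 1)) := by
            apply Finset.sum_le_sum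
            intro j _
            apply lintegral_mono
            intro h
            exact ih (z - h)
        _ ≤ ∑' j, ∫⁻ h in {h | z - h ∈ D}, VV D ρ (z - h) ∂(lad D ρ (j + 1)) :=
            ENNReal.sum_le_tsum _
  -- the renewal equation
  have heq : ∀ z : ℝ, ∑' m, K6_La D ρ m z =
      1 + ∫⁻ h in {h | z - h ∈ D}, ∑' m, K6_La D ρ m (z - h) ∂(ladS D ρ) := by
    intro z
    rw [tsum_eq_zero_add' ENNReal.summable, K6_La_zero]
    congr 1
    rw [K6_sum_shift]
    calc ∑' m, K6_La D ρ (m + 1) z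
        = ∑' m, ∑ p ∈ Finset.HasAntidiagonal.antidiagonal m,
            ∫⁻ h in {h | z - h ∈ D}, K6_La D ρ p.2 (z - h) ∂(lad D ρ (p.1 + 1)) := by
          apply tsum_congr
          intro m
          exact K6_rec hD m z
      _ = ∑' m, ∑' p : Finset.HasAntidiagonal.antidiagonal m,
            ∫⁻ h in {h | z - h ∈ D}, K6_La D ρ p.1.2 (z - h) ∂(lad D ρ (p.1.1 + 1)) := by
          apply tsum_congr
          intro m
          rw [tsum_fintype, Finset.sum_coe_sort (Finset.HasAntidiagonal.antidiagonal m)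
            (fun p => ∫⁻ h in {h | z - h ∈ D}, K6_La D ρ p.2 (z - h) ∂(lad D ρ (p.1 + 1)))]
      _ = ∑' s : Σ m : ℕ, Finset.HasAntidiagonal.antidiagonal m,
            ∫⁻ h in {h | z - h ∈ D}, K6_La D ρ s.2.1.2 (z - h) ∂(lad D ρ (s.2.1.1 + 1)) :=
          (ENNReal.tsum_sigma _).symm
      _ = ∑' p : ℕ × ℕ,
            ∫⁻ h in {h | z - h ∈ D}, K6_La D ρ p.2 (z - h) ∂(lad D ρ (p.1 + 1)) :=
          (Finset.HasAntidiagonal.sigmaAntidiagonalEquivProd (A := ℕ)).tsum_eq (fun p : ℕ × ℕ =>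
            ∫⁻ h in {h | z - h ∈ D}, K6_La D ρ p.2 (z - h) ∂(lad D ρ (p.1 + 1)))
      _ = ∑' j, ∑' i, ∫⁻ h in {h | z - h ∈ D}, K6_La D ρ i (z - h) ∂(lad D ρ (j + 1)) :=
          ENNReal.tsum_prod (f := fun j i : ℕ =>
            ∫⁻ h in {h | z - h ∈ D}, K6_La D ρ i (z - h) ∂(lad D ρ (j + 1)))
      _ = ∑' j, ∫⁻ h in {h | z - h ∈ D}, ∑' m, K6_La D ρ m (z - h) ∂(lad D ρ (j + 1)) := by
          apply tsum_congr
          intro j
          rw [lintegral_tsum fun i => (hmLa i z).aemeasurable]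
  have hge : ∀ R : ℕ, ∀ z : ℝ, ∑ r ∈ Finset.range R, ww D (ladS D ρ) r z ≤
      ∑' m, K6_La D ρ m z := by
    intro R
    induction R with
    | zero => intro z; simp
    | succ R ih =>
      intro z
      rw [sum_ww_rec hD R z, heq z]
      gcongr
      exact ih _
  apply le_antisymm
  · rw [ENNReal.tsum_eq_iSup_nat]
    exact iSup_le fun n => hle n z
  · unfold VV VT
    rw [ENNReal.tsum_eq_iSup_nat]
    exact iSup_le fun R => hge R z

end Pool.Agent.BPT
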