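import Pool.Agent.MP_99a865_pr.CV.K6

open MeasureTheory ProbabilityTheory Filter Topology
open scoped ENNReal NNReal

namespace Pool.Agent.BPT

variable {D : Set ℝ} {ρ : Measure ℝ}

/-- reversal and reflection of the first `l` coordinates -/
def K7_T (l : ℕ) (ω : ℕ → ℝ) : ℕ → ℝ := fun i => -(if i < l then ω (l - 1 - i) else ω i)

theorem K7_meas_rev (l : ℕ) :
    Measurable fun (ω : ℕ → ℝ) (i : ℕ) => if i < l then ω (l - 1 - i) else ω i := by
  refine measurable_pi_lambda _ fun i => ?_
  split_ifs
  · exact measurable_pi_apply _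
  · exact measurable_pi_apply _

theorem K7_meas_neg : Measurable fun (ω : ℕ → ℝ) (i : ℕ) => -(ω i) :=
  measurable_pi_lambda _ fun i => (measurable_pi_apply i).neg

theorem K7_meas_T (l : ℕ) : Measurable (K7_T l) := K7_meas_neg.comp (K7_meas_rev l)

theorem K7_map_T [IsProbabilityMeasure ρ] (l : ℕ) : (seqLaw ρ).map (K7_T l) = seqLaw (dual ρ) := by
  have h1 := map_seqLaw ρ (fun x : ℝ => -x) measurable_neg
  have h2 := map_rev ρ l
  unfold dual
  rw [← h1]
  conv_rhs => rw [← h2]
  rw [Measure.map_map K7_meas_neg (K7_meas_rev l)]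
  rfl

theorem K7_S_T (l : ℕ) (ω : ℕ → ℝ) : ∀ i ≤ l, S i (K7_T l ω) = S (l - i) ω - S l ω := by
  intro i
  induction i with
  | zero => intro _; rw [A1_S_zero, Nat.sub_zero, sub_self]
  | succ i ih =>
    intro hi
    have h1 := ih (by omega)
    have h2 : S (i + 1) (K7_T l ω) = S i (K7_T l ω) + K7_T l ω i := by
      unfold S
      rw [Finset.sum_range_succ]
    have h3 : S (l - i) ω = S (l - (i + 1)) ω + ω (l - 1 - i) := by
      have e1 : l - i = (l - (i + 1)) + 1 := by omega
      have e2 : l - 1 - i = l - (i + 1) := by omega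
      rw [e1, e2]
      unfold S
      rw [Finset.sum_range_succ]
    have h4 : K7_T l ω i = -(ω (l - 1 - i)) := by
      unfold K7_T
      rw [if_pos (by omega)]
    rw [h2, h1, h3, h4]
    ring

/-- **[IVC-K7a]** Time reversal. PROOF. By `map_rev` and `map_seqLaw` (with `g x = -x`) the sequence
`ω'_i = -ω_{l-1-i}` (`i < l`), `-ω_i` (`i ≥ l`) has law `seqLaw (dual ρ)` under `seqLaw ρ`. For it `S' l = -S l`,
`S' l - S' i = -S (l - i)` (`i ≤ l`), so `Lad (Dst D) l ω' ↔ ∀ i < l, -S (l-i) ∉ Dst D ↔ ∀ j ∈ [1,l], S j ∈ D`. -/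
theorem lad_rev (hD : Dom D) [IsProbabilityMeasure ρ] (l : ℕ) (B : Set ℝ) (hB : MeasurableSet B) :
    seqLaw ρ {ω | Alive D 0 l ω ∧ S l ω ∈ B} =
      seqLaw (dual ρ) {ω | Lad (Dst D) l ω ∧ -S l ω ∈ B} := by
  have hm : MeasurableSet {ω : ℕ → ℝ | Lad (Dst D) l ω ∧ -S l ω ∈ B} :=
    MeasurableSet.inter (measurableSet_Lad (dom_Dst hD) l) ((measurable_S l).neg hB)
  rw [← K7_map_T (ρ := ρ) l, Measure.map_apply (K7_meas_T l) hm]
  congr 1
  ext ω
  simp only [Set.mem_ofPred_eq, Set.mem_preimage]
  have hSl : S l (K7_T l ω) = -S l ω := by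
    rw [K7_S_T l ω l le_rfl, Nat.sub_self, A1_S_zero, zero_sub]
  rw [hSl, neg_neg]
  have hL : Lad (Dst D) l (K7_T l ω) ↔ Alive D 0 l ω := by
    unfold Lad Alive
    constructor
    · intro h j hj1 hj2
      have h1 := h (l - j) (by omega)
      rw [hSl, K7_S_T l ω (l - j) (by omega)] at h1
      have e1 : l - (l - j) = j := by omega
      rw [e1] at h1
      unfold Dst at h1
      simp only [Set.mem_ofPred_eq, not_not] at h1
      have e2 : -(-S l ω - (S j ω - S l ω)) = 0 + S j ω := by ring
      rwa [e2] at h1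
    · intro h i hi
      have h1 := h (l - i) (by omega) (by omega)
      rw [hSl, K7_S_T l ω i hi.le]
      unfold Dst
      simp only [Set.mem_ofPred_eq, not_not]
      have e2 : -(-S l ω - (S (l - i) ω - S l ω)) = 0 + S (l - i) ω := by ring
      rwa [e2]
  rw [hL]

theorem K7_kap (hD : Dom D) [IsProbabilityMeasure ρ] (k : ℕ) (B : Set ℝ) (hB : MeasurableSet B) :
    kap D ρ k 0 B = seqLaw (dual ρ) {ω | Lad (Dst D) k ω ∧ -S k ω ∈ B} := by
  rw [← lad_rev hD k B hB]
  unfold kap
  rw [Measure.map_apply (A1_meas_add k 0) hB, Measure.restrict_apply ((A1_meas_add k 0) hB)]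
  congr 1
  ext ω
  simp only [Set.mem_inter_iff, Set.mem_preimage, Set.mem_ofPred_eq, zero_add]
  exact and_comm

/-- **[IVC-K7b]** The Green function is the renewal function of the dual walk (`lad_rev`, `lad_renewal`;
`-S l ≤ y` implies `y + 1 + S l > 0`, and `y + S l ∈ Dst D` implies `-S l ≤ y`). -/
theorem GG_le (hD : Dom D) [IsProbabilityMeasure ρ] (y : ℝ) (hy : 0 ≤ y) :
    GG D ρ y ≤ VV (Dst D) (dual ρ) (y + 1) := by
  haveI := prob_dual (ρ := ρ)
  unfold GG
  rw [← lad_renewal (dom_Dst hD) (y + 1) (by linarith)]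
  apply ENNReal.tsum_le_tsum
  intro k
  rw [K7_kap hD k _ measurableSet_Iic]
  apply measure_mono
  rintro ω ⟨h1, h2⟩
  refine ⟨h1, Or.inr ((dom_Dst hD).pos ?_)⟩
  have : -S k ω ≤ y := h2
  linarith

theorem le_GG (hD : Dom D) [IsProbabilityMeasure ρ] (y : ℝ) (hy : 0 ≤ y) :
    VV (Dst D) (dual ρ) y ≤ GG D ρ y := by
  haveI := prob_dual (ρ := ρ)
  unfold GG
  rw [← lad_renewal (dom_Dst hD) y hy]
  apply ENNReal.tsum_le_tsum
  intro k
  rw [K7_kap hD k _ measurableSet_Iic]
  apply measure_mono
  rintro ω ⟨h1, h2⟩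
  refine ⟨h1, ?_⟩
  change -S k ω ≤ y
  rcases h2 with h2 | h2
  · rw [h2, A1_S_zero]
    linarith
  · have := (dom_Dst hD).nonneg h2
    linarith

/-- **[IVC-K7c]** Decomposition at the last ladder epoch. PROOF. For every `ω` there is exactly one `m ≤ n` with
`Lad D m ω` and `Alive D 0 (n-m) (shift m ω)`: the largest ladder epoch `m ≤ n`. (If `m` is a ladder epoch and
`l > m` is the first time with `S l - S m ∉ D`, then `l` is a ladder epoch: for `i < m` add
`S m - S i ∉ D`; for `m < i < l`, `S i - S m ∈ D` so `S l - S i = (S l - S m) - (S i - S m) ∉ D`. Conversely if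
`Alive D 0 (n-m) (shift m ω)` then no `l ∈ (m,n]` is a ladder epoch.) So
`1 = ∑_{m≤n} P(Lad D m) P(Alive D 0 (n-m))` (`lintegral_split`), and `P(Lad D m) = P*(Alive (Dst D) 0 m)` by
`lad_rev` for `Dst D`, `dual ρ` (`Dst_Dst`, `dual_dual`). -/
theorem arcsine (hD : Dom D) [IsProbabilityMeasure ρ] (n : ℕ) :
    ∑ k ∈ Finset.range (n + 1), kap (Dst D) (dual ρ) k 0 Set.univ * kap D ρ (n - k) 0 Set.univ = 1 := by
  classical
  haveI := prob_dual (ρ := ρ)
  have hk : ∀ k, kap (Dst D) (dual ρ) k 0 Set.univ = seqLaw ρ {ω | Lad D k ω} := by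
    intro k
    rw [K7_kap (dom_Dst hD) k _ MeasurableSet.univ, dual_dual, Dst_Dst]
    congr 1
    ext ω
    simp
  have hpr : ∀ k l : ℕ, seqLaw ρ {ω | Lad D k ω ∧ Alive D 0 l (shift k ω)} =
      seqLaw ρ {ω | Lad D k ω} * kap D ρ l 0 Set.univ := by
    intro k l
    rw [kap_univ_eq hD]
    have hA := measurableSet_Lad hD k
    have hB := measurableSet_alive hD 0 l
    have h1 := lintegral_split ρ k (fun ω η => ({ω | Lad D k ω} : Set (ℕ → ℝ)).indicator
      (fun _ => (1 : ℝ≥0∞)) ω * ({ω | Alive D 0 l ω} : Set (ℕ → ℝ)).indicator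
      (fun _ => (1 : ℝ≥0∞)) η)
      (((measurable_const.indicator hA).comp measurable_fst).mul
        ((measurable_const.indicator hB).comp measurable_snd)) (by
        intro ω ω' η h
        have : Lad D k ω ↔ Lad D k ω' := by
          unfold Lad
          constructor
          · intro h1 i hi
            rw [← K6_S_congr le_rfl h, ← K6_S_congr hi.le h]
            exact h1 i hi
          · intro h1 i hi
            rw [K6_S_congr le_rfl h, K6_S_congr hi.le h]
            exact h1 i hi
        congr 1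
        by_cases hq : Lad D k ω
        · rw [Set.indicator_of_mem (show ω ∈ {ω | Lad D k ω} from hq),
            Set.indicator_of_mem (show ω' ∈ {ω | Lad D k ω} from this.1 hq)]
        · rw [Set.indicator_of_notMem (show ω ∉ {ω | Lad D k ω} from hq),
            Set.indicator_of_notMem (show ω' ∉ {ω | Lad D k ω} from fun h => hq (this.2 h))])
    have h2 : ∫⁻ ω, ({ω | Lad D k ω} : Set (ℕ → ℝ)).indicator (fun _ => (1 : ℝ≥0∞)) ω *
        ({ω | Alive D 0 l ω} : Set (ℕ → ℝ)).indicator (fun _ => (1 : ℝ≥0∞)) (shift k ω)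
        ∂(seqLaw ρ) = seqLaw ρ {ω | Lad D k ω ∧ Alive D 0 l (shift k ω)} := by
      have hm : MeasurableSet {ω : ℕ → ℝ | Lad D k ω ∧ Alive D 0 l (shift k ω)} :=
        hA.inter ((measurable_shift k) hB)
      rw [← lintegral_indicator_one hm]
      apply lintegral_congr
      intro ω
      by_cases h3 : Lad D k ω
      · by_cases h4 : Alive D 0 l (shift k ω)
        · rw [Set.indicator_of_mem (show ω ∈ {ω | Lad D k ω} from h3),
            Set.indicator_of_mem (show shift k ω ∈ {ω | Alive D 0 l ω} from h4),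
            Set.indicator_of_mem (show ω ∈ {ω : ℕ → ℝ | Lad D k ω ∧ Alive D 0 l (shift k ω)} from
              ⟨h3, h4⟩)]
          simp
        · rw [Set.indicator_of_notMem (show shift k ω ∉ {ω | Alive D 0 l ω} from h4),
            Set.indicator_of_notMem (show ω ∉ {ω : ℕ → ℝ | Lad D k ω ∧ Alive D 0 l (shift k ω)} from
              fun h => h4 h.2), mul_zero]
      · rw [Set.indicator_of_notMem (show ω ∉ {ω | Lad D k ω} from h3),
          Set.indicator_of_notMem (show ω ∉ {ω : ℕ → ℝ | Lad D k ω ∧ Alive D 0 l (shift k ω)} from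
              fun h => h3 h.1), zero_mul]
    rw [← h2, h1]
    have h3 : ∀ ω : ℕ → ℝ, ∫⁻ η, ({ω | Lad D k ω} : Set (ℕ → ℝ)).indicator
        (fun _ => (1 : ℝ≥0∞)) ω * ({ω | Alive D 0 l ω} : Set (ℕ → ℝ)).indicator
        (fun _ => (1 : ℝ≥0∞)) η ∂(seqLaw ρ) = ({ω | Lad D k ω} : Set (ℕ → ℝ)).indicator
        (fun _ => (1 : ℝ≥0∞)) ω * seqLaw ρ {ω | Alive D 0 l ω} := by
      intro ω
      rw [lintegral_const_mul _ (measurable_const.indicator hB)]
      congr 1
      exact lintegral_indicator_one hB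
    simp only [h3]
    rw [lintegral_mul_const _ (measurable_const.indicator hA)]
    congr 1
    exact lintegral_indicator_one hA
  have hsum : ∑ k ∈ Finset.range (n + 1),
      kap (Dst D) (dual ρ) k 0 Set.univ * kap D ρ (n - k) 0 Set.univ =
      seqLaw ρ (⋃ k ∈ Finset.range (n + 1), {ω | Lad D k ω ∧ Alive D 0 (n - k) (shift k ω)}) := by
    rw [measure_biUnion_finset]
    · apply Finset.sum_congr rfl
      intro k _
      rw [hk k, hpr k (n - k)]
    · have hdis : ∀ k l : ℕ, k < l → l ≤ n → ∀ ω : ℕ → ℝ, Alive D 0 (n - k) (shift k ω) →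
          Lad D l ω → False := by
        intro k l hkl hln ω h1 h2
        have h3 := h1 (l - k) (by omega) (by omega)
        have h4 := h2 k hkl
        have e : S l ω = S k ω + S (l - k) (shift k ω) := by
          rw [← S_shift]
          congr 1
          omega
        rw [e] at h4
        apply h4
        have e2 : S k ω + S (l - k) (shift k ω) - S k ω = 0 + S (l - k) (shift k ω) := by ring
        rwa [e2]
      intro k hk l hl hkl
      rw [Finset.mem_coe, Finset.mem_range] at hk hl
      rw [Function.onFun, Set.disjoint_left]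
      rintro ω ⟨h1, h2⟩ ⟨h3, h4⟩
      rcases lt_or_gt_of_ne hkl with h | h
      · exact hdis k l h (by omega) ω h2 h3
      · exact hdis l k h (by omega) ω h4 h1
    · intro k _
      exact (measurableSet_Lad hD k).inter ((measurable_shift k) (measurableSet_alive hD 0 (n - k)))
  rw [hsum]
  have huniv : (⋃ k ∈ Finset.range (n + 1),
      {ω : ℕ → ℝ | Lad D k ω ∧ Alive D 0 (n - k) (shift k ω)}) = Set.univ := by
    rw [Set.eq_univ_iff_forall]
    intro ω
    simp only [Set.mem_iUnion, Set.mem_ofPred_eq, Finset.mem_range, exists_prop]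
    have hne : ((Finset.range (n + 1)).filter (fun k => Lad D k ω)).Nonempty :=
      ⟨0, Finset.mem_filter.2 ⟨Finset.mem_range.2 (by omega), fun i hi => by omega⟩⟩
    set m := ((Finset.range (n + 1)).filter (fun k => Lad D k ω)).max' hne with hm
    have hm1 := Finset.max'_mem _ hne
    rw [← hm, Finset.mem_filter, Finset.mem_range] at hm1
    refine ⟨m, hm1.1, hm1.2, ?_⟩
    by_contra hcon
    have hex : ∃ l, 1 ≤ l ∧ l ≤ n - m ∧ 0 + S l (shift m ω) ∉ D := by
      unfold Alive at hcon
      push Not at hcon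
      exact hcon
    have hs := Nat.find_spec hex
    have hmin := fun i (hi : i < Nat.find hex) => Nat.find_min hex hi
    set l := Nat.find hex with hl
    have hlad : Lad D (m + l) ω := by
      intro i hi
      have hz : S l (shift m ω) ∉ D := by
        have := hs.2.2
        rwa [zero_add] at this
      rw [S_shift]
      rcases lt_trichotomy i m with h | h | h
      · have h1 := K6_add hD hz (hm1.2 i h)
        have e : S l (shift m ω) + (S m ω - S i ω) = S m ω + S l (shift m ω) - S i ω := by ring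
        rwa [e] at h1
      · rw [h]
        have e : S m ω + S l (shift m ω) - S m ω = S l (shift m ω) := by ring
        rwa [e]
      · have e1 : S i ω = S m ω + S (i - m) (shift m ω) := by
          rw [← S_shift]
          congr 1
          omega
        have h2 : 0 + S (i - m) (shift m ω) ∈ D := by
          by_contra hc
          exact hmin (i - m) (by omega) ⟨by omega, by omega, hc⟩
        have h3 := hD.nonneg h2
        rw [zero_add] at h3
        rw [e1]
        have e : S m ω + S l (shift m ω) - (S m ω + S (i - m) (shift m ω)) =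
          S l (shift m ω) - S (i - m) (shift m ω) := by ring
        rw [e]
        exact K6_sub hD hz h3
    have hle := Finset.le_max' ((Finset.range (n + 1)).filter (fun k => Lad D k ω)) (m + l)
      (Finset.mem_filter.2 ⟨Finset.mem_range.2 (by omega), hlad⟩)
    rw [← hm] at hle
    omega
  rw [huniv, measure_univ]

end Pool.Agent.BPT
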