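import Pool.Agent.MP_99a865_pr.CV.K1

open MeasureTheory ProbabilityTheory Filter Topology
open scoped ENNReal NNReal

namespace Pool.Agent.BPT

variable {D : Set ℝ} {ρ : Measure ℝ}

lemma K8_ofReal_le {f : ℝ → ℝ} (hf : Integrable f ρ) :
    ENNReal.ofReal (∫ x, f x ∂ρ) ≤ ∫⁻ x, ENNReal.ofReal (f x) ∂ρ := by
  have hfin : ∫⁻ x, ENNReal.ofReal (f x) ∂ρ ≠ ⊤ := by
    have := hf.2
    rw [hasFiniteIntegral_iff_norm] at this
    refine ne_top_of_le_ne_top this.ne (lintegral_mono fun x => ENNReal.ofReal_le_ofReal (le_abs_self _))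
  rw [← ENNReal.ofReal_toReal hfin]
  apply ENNReal.ofReal_le_ofReal
  rw [integral_eq_lintegral_pos_part_sub_lintegral_neg_part hf]
  linarith [ENNReal.toReal_nonneg (a := ∫⁻ x, ENNReal.ofReal (-f x) ∂ρ)]

/-- one step of the positive part of the position -/
lemma K8_step (hD : Dom D) (hρ : Cen ρ) (y : ℝ) :
    ENNReal.ofReal y ≤ ∫⁻ z, ENNReal.ofReal z ∂(kap D ρ 1 y) := by
  haveI := hρ.prob
  rw [lintegral_kap_one hD y _ ENNReal.measurable_ofReal]
  have hms : MeasurableSet {x : ℝ | y + x ∈ D} := (measurable_const_add y) hD.meas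
  have h1 : ∫⁻ x in {x | y + x ∈ D}, ENNReal.ofReal (y + x) ∂ρ = ∫⁻ x, ENNReal.ofReal (y + x) ∂ρ := by
    rw [← lintegral_indicator hms]
    refine lintegral_congr fun x => ?_
    by_cases hx : x ∈ {x | y + x ∈ D}
    · rw [Set.indicator_of_mem hx]
    · rw [Set.indicator_of_notMem hx, ENNReal.ofReal_of_nonpos (hD.not_mem hx)]
  rw [h1]
  have hint : Integrable (fun x : ℝ => y + x) ρ := (integrable_const y).add hρ.int
  refine le_trans (ENNReal.ofReal_le_ofReal (le_of_eq ?_)) (K8_ofReal_le hint)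
  rw [integral_add (integrable_const y) hρ.int, hρ.mean]
  simp

lemma K8_mono (hD : Dom D) (hρ : Cen ρ) (n : ℕ) :
    ∫⁻ z, ENNReal.ofReal z ∂(kap D ρ n 0) ≤ ∫⁻ z, ENNReal.ofReal z ∂(kap D ρ (n + 1) 0) := by
  haveI := hρ.prob
  rw [lintegral_kap_add hD n 1 0 _ ENNReal.measurable_ofReal]
  exact lintegral_mono fun y => K8_step hD hρ y

lemma K8_one_pos (hD : Dom D) (hρ : Cen ρ) : ∫⁻ z, ENNReal.ofReal z ∂(kap D ρ 1 0) ≠ 0 := by
  haveI := hρ.prob
  rw [lintegral_kap_one hD 0 _ ENNReal.measurable_ofReal]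
  have hms : MeasurableSet {x : ℝ | 0 + x ∈ D} := (measurable_const_add 0) hD.meas
  have h1 : ∫⁻ x in {x | 0 + x ∈ D}, ENNReal.ofReal (0 + x) ∂ρ = ∫⁻ x, ENNReal.ofReal x ∂ρ := by
    rw [← lintegral_indicator hms]
    refine lintegral_congr fun x => ?_
    by_cases hx : x ∈ {x | 0 + x ∈ D}
    · rw [Set.indicator_of_mem hx, zero_add]
    · have := hD.not_mem hx
      rw [Set.indicator_of_notMem hx, ENNReal.ofReal_of_nonpos (by linarith)]
  rw [h1]
  intro h0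
  rw [lintegral_eq_zero_iff ENNReal.measurable_ofReal] at h0
  have h2 : ∀ᵐ x ∂ρ, x ≤ 0 := by
    filter_upwards [h0] with x hx
    exact ENNReal.ofReal_eq_zero.1 hx
  have h3 : ∀ᵐ x ∂ρ, 0 ≤ -x := by
    filter_upwards [h2] with x hx
    linarith
  have h4 : ∫ x, -x ∂ρ = 0 := by rw [integral_neg, hρ.mean, neg_zero]
  rw [integral_eq_zero_iff_of_nonneg_ae h3 hρ.int.neg] at h4
  apply hρ.neg
  rw [← nonpos_iff_eq_zero]
  have h5 : ρ {x | ¬ (-x = 0)} = 0 := by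
    have := ae_iff.1 h4
    simpa using this
  refine le_trans (measure_mono ?_) h5.le
  intro x hx
  have : x < 0 := hx
  show ¬ (-x = 0)
  intro h
  linarith

/-- `Z = ∑ |X_i| 1{N > i}` -/
noncomputable def K8_Z (D : Set ℝ) (ω : ℕ → ℝ) : ℝ≥0∞ :=
  ∑' i : ℕ, ({ω : ℕ → ℝ | Alive D 0 i ω}.indicator (fun _ => 1) ω : ℝ≥0∞) * ENNReal.ofReal |ω i|

lemma K8_term (hD : Dom D) (hρ : Cen ρ) (i : ℕ) :
    ∫⁻ ω, ({ω : ℕ → ℝ | Alive D 0 i ω}.indicator (fun _ => 1) ω : ℝ≥0∞) * ENNReal.ofReal |ω i|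
      ∂(seqLaw ρ) = kap D ρ i 0 Set.univ * ∫⁻ x, ENNReal.ofReal |x| ∂ρ := by
  haveI := hρ.prob
  have hA := measurableSet_alive hD 0 i
  have hm : Measurable (Function.uncurry fun (ω η : ℕ → ℝ) =>
      ({ω : ℕ → ℝ | Alive D 0 i ω}.indicator (fun _ => 1) ω : ℝ≥0∞) * ENNReal.ofReal |η 0|) := by
    apply Measurable.mul
    · exact (measurable_const.indicator hA).comp measurable_fst
    · exact ENNReal.measurable_ofReal.comp
        ((measurable_pi_apply 0).comp measurable_snd).abs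
  have h := lintegral_split ρ i (fun (ω η : ℕ → ℝ) =>
      ({ω : ℕ → ℝ | Alive D 0 i ω}.indicator (fun _ => 1) ω : ℝ≥0∞) * ENNReal.ofReal |η 0|) hm (by
    intro ω ω' η hω
    have : ω ∈ {ω : ℕ → ℝ | Alive D 0 i ω} ↔ ω' ∈ {ω : ℕ → ℝ | Alive D 0 i ω} :=
      A1b_alive_congr i 0 hω
    by_cases h1 : ω ∈ {ω : ℕ → ℝ | Alive D 0 i ω}
    · rw [Set.indicator_of_mem h1, Set.indicator_of_mem (this.1 h1)]
    · rw [Set.indicator_of_notMem h1, Set.indicator_of_notMem (fun h2 => h1 (this.2 h2))])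
  simp only [shift, add_zero] at h
  rw [h]
  have hx : ∫⁻ η : ℕ → ℝ, ENNReal.ofReal |η 0| ∂(seqLaw ρ) = ∫⁻ x, ENNReal.ofReal |x| ∂ρ := by
    have h3 : (seqLaw ρ).map (fun ω : ℕ → ℝ => ω 0) = ρ :=
      Measure.infinitePi_map_eval (μ := fun _ : ℕ => ρ) 0
    conv_rhs => rw [← h3]
    have hab : Measurable fun x : ℝ => ENNReal.ofReal |x| :=
      ENNReal.measurable_ofReal.comp continuous_abs.measurable
    rw [lintegral_map hab (measurable_pi_apply 0)]
  have h5 : ∀ ω : ℕ → ℝ, ∫⁻ η : ℕ → ℝ, ({ω : ℕ → ℝ | Alive D 0 i ω}.indicator (fun _ => 1) ω : ℝ≥0∞) *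
      ENNReal.ofReal |η 0| ∂(seqLaw ρ) =
      ({ω : ℕ → ℝ | Alive D 0 i ω}.indicator (fun _ => 1) ω : ℝ≥0∞) * ∫⁻ x, ENNReal.ofReal |x| ∂ρ := by
    intro ω
    have hmη : Measurable (fun η : ℕ → ℝ => ENNReal.ofReal |η 0|) :=
      ENNReal.measurable_ofReal.comp (continuous_abs.measurable.comp (measurable_pi_apply 0))
    rw [lintegral_const_mul _ hmη, hx]
  simp_rw [h5]
  rw [lintegral_mul_const _ (measurable_const.indicator hA), lintegral_indicator hA, kap_univ_eq hD]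
  simp

/-- **[IVC-K8]** The exit time has infinite mean. PROOF. Suppose `∑_k P(N > k) < ∞` (`kap k 0 univ = P(N > k)`).
Let `a_n = E[S_n; N > n] = ∫ y ∂(kap D ρ n 0) ≥ 0`. Since `ρ` is centred, `a_n = E[S_{n+1}; N > n] =
a_{n+1} + E[S_{n+1}; N = n+1]`, and the last term is `≤ 0`, so `a_n` is nondecreasing; `a_0 = 0` and
`a_1 = E[X; X ∈ D] = -E[X; X ∉ D] = E[X^-] > 0`. On the other hand with
`Z = ∑_i |X_i| 1{N > i}`, `E Z = E|X| ∑_i P(N > i) < ∞` (`X_i` is independent of the first `i` steps) and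
`0 ≤ S_n 1{N>n} ≤ Z 1{N>n}`, where `1{N > n} → 0` a.s. because `P(N > n) → 0`; dominated convergence gives
`a_n → 0`, a contradiction. -/
theorem surv_sum (hD : Dom D) (hρ : Cen ρ) : ∑' k, kap D ρ k 0 Set.univ = ⊤ := by
  haveI := hρ.prob
  by_contra hne
  have hfin : ∫⁻ x, ENNReal.ofReal |x| ∂ρ ≠ ⊤ := by
    have := hρ.int.2
    rw [hasFiniteIntegral_iff_norm] at this
    exact this.ne
  have hZ : ∫⁻ ω, K8_Z D ω ∂(seqLaw ρ) ≠ ⊤ := by
    unfold K8_Z
    rw [lintegral_tsum]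
    · simp_rw [K8_term hD hρ]
      rw [ENNReal.tsum_mul_right]
      exact ENNReal.mul_ne_top hne hfin
    · intro i
      apply Measurable.aemeasurable
      exact (measurable_const.indicator (measurableSet_alive hD 0 i)).mul
        (ENNReal.measurable_ofReal.comp (measurable_pi_apply i).abs)
  have hp : Tendsto (fun n => seqLaw ρ {ω | Alive D 0 n ω}) atTop (𝓝 0) := by
    have := ENNReal.tendsto_atTop_zero_of_tsum_ne_top hne
    simp_rw [kap_univ_eq hD] at this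
    exact this
  have hlim := tendsto_setLIntegral_zero hZ (s := fun n => {ω | Alive D 0 n ω}) hp
  have hle : ∀ n, ∫⁻ z, ENNReal.ofReal z ∂(kap D ρ n 0) ≤ ∫⁻ ω in {ω | Alive D 0 n ω}, K8_Z D ω ∂(seqLaw ρ) := by
    intro n
    rw [lintegral_kap_eq hD n 0 _ ENNReal.measurable_ofReal]
    refine setLIntegral_mono' (measurableSet_alive hD 0 n) fun ω hω => ?_
    have hω' : Alive D 0 n ω := hω
    rw [zero_add]
    have h1 : S n ω ≤ ∑ i ∈ Finset.range n, |ω i| := by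
      unfold S
      exact Finset.sum_le_sum fun i _ => le_abs_self _
    refine (ENNReal.ofReal_le_ofReal h1).trans ?_
    rw [ENNReal.ofReal_sum_of_nonneg (fun i _ => abs_nonneg _)]
    refine le_trans (le_of_eq (Finset.sum_congr rfl fun i hi => ?_))
      (ENNReal.sum_le_tsum (Finset.range n))
    have hi' : i < n := Finset.mem_range.1 hi
    have hai : ω ∈ {ω : ℕ → ℝ | Alive D 0 i ω} := fun j hj1 hj2 => hω' j hj1 (by omega)
    rw [Set.indicator_of_mem hai, one_mul]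
  have hmono : Monotone fun n => ∫⁻ z, ENNReal.ofReal z ∂(kap D ρ n 0) :=
    monotone_nat_of_le_succ (K8_mono hD hρ)
  have hzero : ∫⁻ z, ENNReal.ofReal z ∂(kap D ρ 1 0) ≤ 0 := by
    refine ge_of_tendsto hlim ?_
    filter_upwards [eventually_ge_atTop 1] with n hn
    exact (hmono hn).trans (hle n)
  exact K8_one_pos hD hρ (le_antisymm hzero zero_le)

end Pool.Agent.BPT
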