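import Pool.Agent.MP_99a865_pr.CV.K7
import Pool.Agent.MP_99a865_pr.CV.K8

open MeasureTheory ProbabilityTheory Filter Topology
open scoped ENNReal NNReal

namespace Pool.Agent.BPT

variable {D : Set ℝ} {ρ : Measure ℝ}

/-- **[IVC-K9a]** The exit time is finite. PROOF. `P(N > n)` decreases to some `p`. By `arcsine`,
`1 ≥ p ∑_{k≤n} P*(N* > k)` for all `n`; if `p > 0` this contradicts `surv_sum` for `Dst D`, `dual ρ`. -/
theorem surv_tendsto (hD : Dom D) (hρ : Cen ρ) :
    Tendsto (fun k => kap D ρ k 0 Set.univ) atTop (𝓝 0) := by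
  have hp := hρ.prob
  have ha := surv_anti (ρ := ρ) hD 0
  have hlim := tendsto_atTop_iInf ha
  have h0 : (⨅ k, kap D ρ k 0 Set.univ) = 0 := by
    by_contra hne
    have hsum := surv_sum (dom_Dst hD) hρ.dual
    have hle : ∑' k, kap (Dst D) (dual ρ) k 0 Set.univ ≤ (⨅ k, kap D ρ k 0 Set.univ)⁻¹ := by
      apply ENNReal.tsum_le_of_sum_range_le
      intro n
      rcases n with _ | n
      · simp
      · have h1 := arcsine (ρ := ρ) hD n
        have h2 : (⨅ k, kap D ρ k 0 Set.univ) *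
            ∑ k ∈ Finset.range (n + 1), kap (Dst D) (dual ρ) k 0 Set.univ ≤ 1 := by
          rw [← h1, Finset.mul_sum]
          apply Finset.sum_le_sum
          intro k _
          rw [mul_comm]
          exact mul_le_mul_right (iInf_le _ _) _
        rw [← ENNReal.mul_inv_cancel hne (by
          have h3 : (⨅ k, kap D ρ k 0 Set.univ) ≤ 1 :=
            (iInf_le _ 0).trans (kap_univ_le_one 0 0)
          exact ne_top_of_le_ne_top ENNReal.one_ne_top h3)] at h2
        exact (ENNReal.mul_le_mul_iff_right hne (by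
          have h3 : (⨅ k, kap D ρ k 0 Set.univ) ≤ 1 :=
            (iInf_le _ 0).trans (kap_univ_le_one 0 0)
          exact ne_top_of_le_ne_top ENNReal.one_ne_top h3)).1 h2
    rw [hsum, top_le_iff, ENNReal.inv_eq_top] at hle
    exact hne hle
  rw [h0] at hlim
  exact hlim

theorem tsum_hit (hD : Dom D) (hρ : Cen ρ) : ∑' n, ENNReal.ofReal (hit D ρ n 0) = 1 := by
  have hp := hρ.prob
  have h1 := surv_tendsto hD hρ
  have h2 := (ENNReal.tendsto_nat_tsum fun n => ENNReal.ofReal (hit D ρ n 0)).comp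
    (tendsto_add_atTop_nat 1)
  have h3 := h1.add h2
  rw [zero_add] at h3
  have h4 : (fun k => kap D ρ k 0 Set.univ +
      ((fun n => ∑ i ∈ Finset.range n, ENNReal.ofReal (hit D ρ i 0)) ∘ fun a => a + 1) k)
      = fun _ => 1 := by
    funext k
    exact surv_add_hit hD k 0
  rw [h4] at h3
  exact tendsto_nhds_unique h3 tendsto_const_nhds

theorem ladS_univ (hD : Dom D) (hρ : Cen ρ) : ladS D ρ Set.univ = 1 := by
  have hp := hρ.prob
  unfold ladS
  rw [Measure.sum_apply _ MeasurableSet.univ]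
  simp only [lad_univ hD]
  exact tsum_hit hD hρ

/-- `P(N > k) = ∑_{n > k} hit n` -/
theorem surv_eq (hD : Dom D) (hρ : Cen ρ) (k : ℕ) :
    kap D ρ k 0 Set.univ = ∑' n : ℕ, (if k < n then ENNReal.ofReal (hit D ρ n 0) else 0) := by
  have hp := hρ.prob
  have h1 := surv_add_hit (ρ := ρ) hD k 0
  have h2 := tsum_hit hD hρ
  have h3 : ∀ n, ENNReal.ofReal (hit D ρ n 0) =
      (if k < n then ENNReal.ofReal (hit D ρ n 0) else 0) +
        (if n < k + 1 then ENNReal.ofReal (hit D ρ n 0) else 0) := by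
    intro n
    by_cases h : k < n
    · rw [if_pos h, if_neg (by omega), add_zero]
    · rw [if_neg h, if_pos (by omega), zero_add]
  rw [tsum_congr h3, ENNReal.tsum_add] at h2
  have h4 : ∑' n : ℕ, (if n < k + 1 then ENNReal.ofReal (hit D ρ n 0) else 0) =
      ∑ n ∈ Finset.range (k + 1), ENNReal.ofReal (hit D ρ n 0) := by
    rw [tsum_eq_sum (s := Finset.range (k + 1)) (by
      intro n hn
      rw [if_neg (by simpa using hn)])]
    apply Finset.sum_congr rfl
    intro n hn
    rw [if_pos (Finset.mem_range.1 hn)]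
  rw [h4] at h2
  have h5 : ∑ n ∈ Finset.range (k + 1), ENNReal.ofReal (hit D ρ n 0) ≠ ⊤ := by
    rw [ENNReal.sum_ne_top]
    intro n _
    exact ENNReal.ofReal_ne_top
  exact (ENNReal.add_left_inj h5).1 (h1.trans h2.symm)

/-- `E N = ∑_k P(N > k) = ∞` -/
theorem mean_time (hD : Dom D) (hρ : Cen ρ) :
    ∑' n : ℕ, (n : ℝ≥0∞) * ENNReal.ofReal (hit D ρ n 0) = ⊤ := by
  have h1 : ∀ n : ℕ, (n : ℝ≥0∞) * ENNReal.ofReal (hit D ρ n 0) =
      ∑' k : ℕ, (if k < n then ENNReal.ofReal (hit D ρ n 0) else 0) := by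
    intro n
    rw [tsum_eq_sum (s := Finset.range n) (by
      intro k hk
      rw [if_neg (by simpa using hk)])]
    rw [Finset.sum_congr rfl (g := fun _ => ENNReal.ofReal (hit D ρ n 0)) (by
      intro k hk
      rw [if_pos (Finset.mem_range.1 hk)])]
    rw [Finset.sum_const, Finset.card_range, nsmul_eq_mul]
  rw [tsum_congr h1, ENNReal.tsum_comm, ← surv_sum hD hρ]
  exact tsum_congr fun k => (surv_eq hD hρ k).symm

end Pool.Agent.BPT
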