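import Pool.Agent.MP_99a865_pr.CV.K1
import Pool.Agent.MP_99a865_pr.FV.F5

open MeasureTheory ProbabilityTheory Filter Topology
open scoped ENNReal NNReal

namespace Pool.Agent.BPT

variable {D : Set ℝ} {μ ν : Measure ℝ}

/-! **[IVC-Q1]** The queue without variance assumption; `nz 1 k ω = Zw k ω / 1`. Compare with FV/F1.lean and
FV/F2.lean, where the same facts are proved under `QStd`. -/

theorem map_steps_gen (σ : ℝ) [IsProbabilityMeasure μ] [IsProbabilityMeasure ν] :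
    (PQ μ ν).map (steps σ) = seqLaw (stepLaw μ ν σ) :=
  map_seqLaw (μ.prod ν) (fun p => (p.2 - p.1) / σ) F1_stepMeas

theorem prob_stepLaw (σ : ℝ) [IsProbabilityMeasure μ] [IsProbabilityMeasure ν] :
    IsProbabilityMeasure (stepLaw μ ν σ) :=
  Measure.isProbabilityMeasure_map F1_stepMeas.aemeasurable

/-- integrable, since the integral is not zero -/
theorem QI.int (h : QI μ ν) : Integrable (fun x : ℝ => x) μ ∧ Integrable (fun x : ℝ => x) ν := by
  constructor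
  · by_contra hn
    have := integral_undef hn
    rw [h.meanμ] at this
    exact one_ne_zero this
  · by_contra hn
    have := integral_undef hn
    rw [h.meanν] at this
    exact one_ne_zero this

theorem Q1_int (h : QI μ ν) : Integrable (fun p : ℝ × ℝ => p.1) (μ.prod ν) ∧
    Integrable (fun p : ℝ × ℝ => p.2) (μ.prod ν) := by
  have hprob := h.probμ
  have hprob' := h.probν
  exact ⟨h.int.1.comp_fst ν, h.int.2.comp_snd μ⟩

theorem Q1_sq {τ : Measure ℝ} [IsProbabilityMeasure τ] (c : ℝ) (h : ∀ᵐ x ∂τ, x = c) :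
    Integrable (fun x : ℝ => x ^ 2) τ := by
  have h1 : (fun _ : ℝ => c ^ 2) =ᵐ[τ] fun x : ℝ => x ^ 2 := by
    filter_upwards [h] with x hx
    rw [hx]
  exact (integrable_const _).congr h1

/-- PROOF of `neg`: otherwise `v - u ≥ 0` a.s. with mean zero, so `v = u` a.s., and by independence both are
constant, hence have finite variance. -/
theorem QI.cen (h : QI μ ν) (hv : InfV μ ν) : Cen (stepLaw μ ν 1) := by
  have hprob := h.probμ
  have hprob' := h.probν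
  obtain ⟨hi1, hi2⟩ := Q1_int h
  have hμ : ∫ p : ℝ × ℝ, p.1 ∂(μ.prod ν) = 1 := by
    rw [integral_fun_fst (fun x : ℝ => x)]; simp [h.meanμ]
  have hν : ∫ p : ℝ × ℝ, p.2 ∂(μ.prod ν) = 1 := by
    rw [integral_fun_snd (fun x : ℝ => x)]; simp [h.meanν]
  have hzero : ∫ p : ℝ × ℝ, (p.2 - p.1) ∂(μ.prod ν) = 0 := by
    rw [integral_sub hi2 hi1, hμ, hν, sub_self]
  refine ⟨prob_stepLaw 1, ?_, ?_, ?_⟩
  · rw [stepLaw, integrable_map_measure measurable_id'.aestronglyMeasurable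
      F1_stepMeas.aemeasurable]
    exact (hi2.sub hi1).div_const _
  · rw [stepLaw, integral_map F1_stepMeas.aemeasurable measurable_id'.aestronglyMeasurable,
      integral_div, hzero, zero_div]
  · intro h0
    apply hv
    have h1 : ∀ᵐ p ∂(μ.prod ν), 0 ≤ p.2 - p.1 := by
      rw [stepLaw, Measure.map_apply F1_stepMeas measurableSet_Iio] at h0
      rw [ae_iff]
      convert h0 using 2
      ext p
      simp
    have h2 : ∀ᵐ p ∂(μ.prod ν), p.2 - p.1 = 0 := by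
      have := (integral_eq_zero_iff_of_nonneg_ae h1 (hi2.sub hi1)).1 hzero
      filter_upwards [this] with p hp
      exact hp
    have h3 : ∀ᵐ u ∂μ, ∀ᵐ v ∂ν, v - u = 0 := Measure.ae_ae_of_ae_prod h2
    obtain ⟨u0, hu0⟩ := h3.exists
    have h4 : ∀ᵐ v ∂ν, v = u0 := by
      filter_upwards [hu0] with v hv
      linarith
    have h5 : ∀ᵐ u ∂μ, u = u0 := by
      filter_upwards [h3] with u hu
      obtain ⟨v, hv1, hv2⟩ := (hu.and h4).exists
      linarith
    exact ⟨Q1_sq u0 h5, Q1_sq u0 h4⟩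

theorem Q1_sq_of {τ : Measure ℝ} [IsProbabilityMeasure τ] (c : ℝ)
    (h : ∫⁻ x, ENNReal.ofReal ((x - c) ^ 2) ∂τ ≠ ⊤) : Integrable (fun x : ℝ => x ^ 2) τ := by
  have hm : Measurable (fun x : ℝ => x ^ 2) := measurable_id.pow_const 2
  refine ⟨hm.aestronglyMeasurable, ?_⟩
  rw [hasFiniteIntegral_iff_ofReal (Eventually.of_forall fun x => sq_nonneg _)]
  have h1 : ∀ x : ℝ, ENNReal.ofReal (x ^ 2) ≤
      2 * ENNReal.ofReal ((x - c) ^ 2) + ENNReal.ofReal (2 * c ^ 2) := by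
    intro x
    have : (2 : ℝ≥0∞) = ENNReal.ofReal 2 := by simp
    rw [this, ← ENNReal.ofReal_mul (by norm_num), ← ENNReal.ofReal_add (by positivity) (by positivity)]
    apply ENNReal.ofReal_le_ofReal
    nlinarith [sq_nonneg (x - 2 * c)]
  refine (lintegral_mono h1).trans_lt ?_
  rw [lintegral_add_right _ measurable_const, lintegral_const_mul' _ _ (by norm_num), lintegral_const]
  simp only [measure_univ, mul_one]
  exact ENNReal.add_lt_top.2 ⟨ENNReal.mul_lt_top (by norm_num) (lt_top_iff_ne_top.2 h),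
    ENNReal.ofReal_lt_top⟩

/-- PROOF. If `E (v-u)² < ∞` then by Fubini `∫ (v - u)² ∂ν(v) < ∞` for `μ`-a.e. `u`, so `∫ v² ∂ν < ∞`; the same for `u`. -/
theorem QI.inf (h : QI μ ν) (hv : InfV μ ν) :
    ∫⁻ x, ENNReal.ofReal (x ^ 2) ∂(stepLaw μ ν 1) = ⊤ := by
  have hprob := h.probμ
  have hprob' := h.probν
  by_contra hn
  apply hv
  have hm : Measurable (fun p : ℝ × ℝ => ENNReal.ofReal ((p.2 - p.1) ^ 2)) :=
    ((measurable_snd.sub measurable_fst).pow_const 2).ennreal_ofReal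
  have h1 : ∫⁻ x, ENNReal.ofReal (x ^ 2) ∂(stepLaw μ ν 1) =
      ∫⁻ p, ENNReal.ofReal ((p.2 - p.1) ^ 2) ∂(μ.prod ν) := by
    rw [stepLaw, lintegral_map (measurable_id'.pow_const 2).ennreal_ofReal F1_stepMeas]
    simp
  rw [h1] at hn
  constructor
  · rw [lintegral_prod_symm _ hm.aemeasurable] at hn
    have h2 := ae_lt_top (hm.lintegral_prod_left') hn
    obtain ⟨v, hv⟩ := h2.exists
    refine Q1_sq_of v (ne_of_lt ?_)
    refine lt_of_le_of_lt (le_of_eq ?_) hv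
    refine lintegral_congr fun u => ?_
    congr 1
    ring
  · rw [lintegral_prod _ hm.aemeasurable] at hn
    have h2 := ae_lt_top (hm.lintegral_prod_right') hn
    obtain ⟨u, hu⟩ := h2.exists
    exact Q1_sq_of u (ne_of_lt hu)

theorem ae_NN (h : QI μ ν) : ∀ᵐ ω ∂(PQ μ ν), NN ω := by
  have hprob := h.probμ
  have hprob' := h.probν
  unfold NN
  rw [ae_all_iff]
  intro k
  have h1 : ∀ᵐ x ∂μ, 0 ≤ x := by
    rw [ae_iff]
    have : {a : ℝ | ¬ 0 ≤ a} = Set.Iio 0 := by ext a; simp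
    rw [this]; exact h.nonnegμ
  have h2 : ∀ᵐ x ∂ν, 0 ≤ x := by
    rw [ae_iff]
    have : {a : ℝ | ¬ 0 ≤ a} = Set.Iio 0 := by ext a; simp
    rw [this]; exact h.nonnegν
  have h3 : ∀ᵐ p ∂(μ.prod ν), 0 ≤ p.1 :=
    measurePreserving_fst.quasiMeasurePreserving.ae h1
  have h4 : ∀ᵐ p ∂(μ.prod ν), 0 ≤ p.2 :=
    measurePreserving_snd.quasiMeasurePreserving.ae h2
  have hev : MeasurePreserving (Function.eval k) (PQ μ ν) (μ.prod ν) :=
    measurePreserving_eval_infinitePi (fun _ : ℕ => μ.prod ν) k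
  exact hev.quasiMeasurePreserving.ae (h3.and h4)

theorem Q1_S (k : ℕ) (ω : ℕ → ℝ × ℝ) : S k (steps 1 ω) = Zw k ω := by
  rw [← nz_eq, nz, div_one]

theorem measurable_Zw (k : ℕ) : Measurable (Zw k) := (measurable_Dp k).sub (measurable_Ar k)

theorem Zw_nonneg (hD : Dom D) {k : ℕ} {ω : ℕ → ℝ × ℝ} (h : AliveQ D k ω) : 0 ≤ Zw k ω := by
  rcases Nat.eq_zero_or_pos k with rfl | hk
  · simp [Zw, Dp, Ar]
  · have := h k hk le_rfl
    rcases hD with rfl | rfl
    · exact this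
    · exact le_of_lt this

theorem Q1_Zw_congr (k : ℕ) {ω ω' : ℕ → ℝ × ℝ} (h : ∀ j < k, ω j = ω' j) : Zw k ω = Zw k ω' := by
  unfold Zw Dp Ar
  congr 1
  · exact Finset.sum_congr rfl fun j hj => by rw [h j (Finset.mem_range.1 hj)]
  · exact Finset.sum_congr rfl fun j hj => by rw [h j (Finset.mem_range.1 hj)]

theorem Q1_alive_congr (k : ℕ) {ω ω' : ℕ → ℝ × ℝ} (h : ∀ j < k, ω j = ω' j) :
    AliveQ D k ω ↔ AliveQ D k ω' := by
  unfold AliveQ
  constructor
  · intro h1 j hj1 hj2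
    rw [← Q1_Zw_congr j (fun l hl => h l (by omega))]
    exact h1 j hj1 hj2
  · intro h1 j hj1 hj2
    rw [Q1_Zw_congr j (fun l hl => h l (by omega))]
    exact h1 j hj1 hj2

/-- the general form of the Markov property: `G` a function of the position at time `r` and the steps after time `r` -/
theorem Q1_markov (hD : Dom D) [IsProbabilityMeasure μ] [IsProbabilityMeasure ν] (r : ℕ)
    (H : (ℕ → ℝ × ℝ) → ℝ≥0∞) (hH : Measurable H)
    (hdep : ∀ ω ω', (∀ j < r, ω j = ω' j) → H ω = H ω')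
    (G : ℝ × (ℕ → ℝ) → ℝ≥0∞) (hG : Measurable G) :
    ∫⁻ ω in {ω | AliveQ D r ω}, H ω * G (Zw r ω, shift r (steps 1 ω)) ∂(PQ μ ν) =
      ∫⁻ ω in {ω | AliveQ D r ω}, H ω * ∫⁻ η, G (Zw r ω, η) ∂(seqLaw (stepLaw μ ν 1)) ∂(PQ μ ν) := by
  classical
  have hAm := measurableSet_aliveQ hD r
  have hpair : Measurable (fun p : (ℕ → ℝ × ℝ) × (ℕ → ℝ × ℝ) => (Zw r p.1, steps 1 p.2)) :=
    ((measurable_Zw r).comp measurable_fst).prodMk (measurable_steps.comp measurable_snd)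
  let F : (ℕ → ℝ × ℝ) → (ℕ → ℝ × ℝ) → ℝ≥0∞ := fun ω η =>
    {ω | AliveQ D r ω}.indicator H ω * G (Zw r ω, steps 1 η)
  have hF : Measurable (Function.uncurry F) :=
    ((hH.indicator hAm).comp measurable_fst).mul (hG.comp hpair)
  have hFdep : ∀ ω ω' η, (∀ j < r, ω j = ω' j) → F ω η = F ω' η := by
    intro ω ω' η h
    have h1 := hdep ω ω' h
    have h2 := Q1_Zw_congr r h
    have h3 : {ω | AliveQ D r ω}.indicator H ω = {ω | AliveQ D r ω}.indicator H ω' := by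
      by_cases h4 : AliveQ D r ω
      · have h5 : AliveQ D r ω' := (Q1_alive_congr r h).1 h4
        rw [Set.indicator_of_mem (show ω ∈ {ω | AliveQ D r ω} from h4),
          Set.indicator_of_mem (show ω' ∈ {ω | AliveQ D r ω} from h5), h1]
      · have h5 : ¬ AliveQ D r ω' := fun h6 => h4 ((Q1_alive_congr r h).2 h6)
        rw [Set.indicator_of_notMem (show ω ∉ {ω | AliveQ D r ω} from h4),
          Set.indicator_of_notMem (show ω' ∉ {ω | AliveQ D r ω} from h5)]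
    show {ω | AliveQ D r ω}.indicator H ω * G (Zw r ω, steps 1 η) =
      {ω | AliveQ D r ω}.indicator H ω' * G (Zw r ω', steps 1 η)
    rw [h3, h2]
  have hsplit : ∫⁻ ω, F ω (shift r ω) ∂(PQ μ ν) = ∫⁻ ω, ∫⁻ η, F ω η ∂(PQ μ ν) ∂(PQ μ ν) :=
    lintegral_split (μ.prod ν) r F hF hFdep
  rw [← lintegral_indicator hAm, ← lintegral_indicator hAm]
  have hL : ∀ ω, {ω | AliveQ D r ω}.indicator
      (fun ω => H ω * G (Zw r ω, shift r (steps 1 ω))) ω = F ω (shift r ω) := by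
    intro ω
    show _ = {ω | AliveQ D r ω}.indicator H ω * G (Zw r ω, steps 1 (shift r ω))
    have h2 : steps 1 (shift r ω) = shift r (steps 1 ω) := rfl
    rw [h2]
    by_cases h1 : AliveQ D r ω
    · rw [Set.indicator_of_mem (show ω ∈ {ω | AliveQ D r ω} from h1),
        Set.indicator_of_mem (show ω ∈ {ω | AliveQ D r ω} from h1)]
    · rw [Set.indicator_of_notMem (show ω ∉ {ω | AliveQ D r ω} from h1),
        Set.indicator_of_notMem (show ω ∉ {ω | AliveQ D r ω} from h1), zero_mul]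
  rw [lintegral_congr hL, hsplit]
  refine lintegral_congr fun ω => ?_
  show ∫⁻ η, {ω | AliveQ D r ω}.indicator H ω * G (Zw r ω, steps 1 η) ∂(PQ μ ν) = _
  have hm1 : Measurable fun η : ℕ → ℝ × ℝ => G (Zw r ω, steps 1 η) :=
    hG.comp (measurable_const.prodMk measurable_steps)
  have hm2 : Measurable fun η : ℕ → ℝ => G (Zw r ω, η) :=
    hG.comp (measurable_const.prodMk measurable_id)
  rw [lintegral_const_mul _ hm1]
  have h5 : ∫⁻ η, G (Zw r ω, steps 1 η) ∂(PQ μ ν) =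
      ∫⁻ η, G (Zw r ω, η) ∂(seqLaw (stepLaw μ ν 1)) := by
    rw [← map_steps_gen, lintegral_map hm2 measurable_steps]
  rw [h5]
  by_cases h1 : AliveQ D r ω
  · rw [Set.indicator_of_mem (show ω ∈ {ω | AliveQ D r ω} from h1),
      Set.indicator_of_mem (show ω ∈ {ω | AliveQ D r ω} from h1)]
  · rw [Set.indicator_of_notMem (show ω ∉ {ω | AliveQ D r ω} from h1),
      Set.indicator_of_notMem (show ω ∉ {ω | AliveQ D r ω} from h1), zero_mul]

theorem Q1_alive_iff (hD : Dom D) (k : ℕ) (ω : ℕ → ℝ × ℝ) :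
    AliveQ D k ω ↔ Alive D 0 k (steps 1 ω) := aliveQ_iff hD one_pos k ω

theorem Q1_alive_add (hD : Dom D) (r m : ℕ) (ω : ℕ → ℝ × ℝ) :
    AliveQ D (r + m) ω ↔ AliveQ D r ω ∧ Alive D (Zw r ω) m (shift r (steps 1 ω)) := by
  rw [Q1_alive_iff hD, Q1_alive_iff hD, alive_add, Q1_S, zero_add]

theorem Q1_Zw_add (r m : ℕ) (ω : ℕ → ℝ × ℝ) :
    Zw (r + m) ω = Zw r ω + S m (shift r (steps 1 ω)) := by
  rw [← Q1_S, ← Q1_S, S_shift]

/-- Markov property at time `r ≤ k` while alive; `H` depends on the first `r` pairs. (`aliveQ_iff` with `σ = 1`,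
`lintegral_split`, or transfer through `steps 1` together with the first `r` pairs.) -/
theorem q_alive (hD : Dom D) [IsProbabilityMeasure μ] [IsProbabilityMeasure ν] (r k : ℕ) (hrk : r ≤ k)
    (H : (ℕ → ℝ × ℝ) → ℝ≥0∞) (hH : Measurable H)
    (hdep : ∀ ω ω', (∀ j < r, ω j = ω' j) → H ω = H ω') (f : ℝ → ℝ≥0∞) (hf : Measurable f) :
    ∫⁻ ω in {ω | AliveQ D k ω}, H ω * f (Zw k ω) ∂(PQ μ ν) =
      ∫⁻ ω in {ω | AliveQ D r ω}, H ω * ∫⁻ y, f y ∂(kap D (stepLaw μ ν 1) (k - r) (Zw r ω)) ∂(PQ μ ν) := by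
  classical
  have hpr : IsProbabilityMeasure (stepLaw μ ν 1) := prob_stepLaw 1
  obtain ⟨m, rfl⟩ := Nat.exists_eq_add_of_le hrk
  have hm : r + m - r = m := by omega
  rw [hm]
  have hW : MeasurableSet {p : ℝ × (ℕ → ℝ) | Alive D p.1 m p.2} := measurableSet_alive' hD m
  have hG0 : Measurable (fun p : ℝ × (ℕ → ℝ) => f (p.1 + S m p.2)) :=
    hf.comp (measurable_fst.add ((measurable_S m).comp measurable_snd))
  have key := Q1_markov (μ := μ) (ν := ν) hD r H hH hdep _ (hG0.indicator hW)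
  have hL : ∫⁻ ω in {ω | AliveQ D (r + m) ω}, H ω * f (Zw (r + m) ω) ∂(PQ μ ν) =
      ∫⁻ ω in {ω | AliveQ D r ω}, H ω * ({p : ℝ × (ℕ → ℝ) | Alive D p.1 m p.2}.indicator
        (fun p => f (p.1 + S m p.2))) (Zw r ω, shift r (steps 1 ω)) ∂(PQ μ ν) := by
    rw [← lintegral_indicator (measurableSet_aliveQ hD (r + m)),
      ← lintegral_indicator (measurableSet_aliveQ hD r)]
    refine lintegral_congr fun ω => ?_
    have hiff := Q1_alive_add hD r m ω
    by_cases h1 : AliveQ D r ω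
    · rw [Set.indicator_of_mem (show ω ∈ {ω | AliveQ D r ω} from h1)]
      by_cases h2 : Alive D (Zw r ω) m (shift r (steps 1 ω))
      · rw [Set.indicator_of_mem (show ω ∈ {ω | AliveQ D (r + m) ω} from hiff.2 ⟨h1, h2⟩),
          Set.indicator_of_mem (show (Zw r ω, shift r (steps 1 ω)) ∈
            {p : ℝ × (ℕ → ℝ) | Alive D p.1 m p.2} from h2), Q1_Zw_add]
      · rw [Set.indicator_of_notMem (show ω ∉ {ω | AliveQ D (r + m) ω} from fun h => h2 (hiff.1 h).2),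
          Set.indicator_of_notMem (show (Zw r ω, shift r (steps 1 ω)) ∉
            {p : ℝ × (ℕ → ℝ) | Alive D p.1 m p.2} from h2), mul_zero]
    · rw [Set.indicator_of_notMem (show ω ∉ {ω | AliveQ D r ω} from h1),
        Set.indicator_of_notMem (show ω ∉ {ω | AliveQ D (r + m) ω} from fun h => h1 (hiff.1 h).1)]
  rw [hL, key]
  refine lintegral_congr fun ω => ?_
  congr 1
  rw [lintegral_kap_eq hD m (Zw r ω) f hf, ← lintegral_indicator (measurableSet_alive hD _ m)]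
  rfl

theorem q_exit (hD : Dom D) [IsProbabilityMeasure μ] [IsProbabilityMeasure ν] (r n : ℕ) (hrn : r < n)
    (H : (ℕ → ℝ × ℝ) → ℝ≥0∞) (hH : Measurable H)
    (hdep : ∀ ω ω', (∀ j < r, ω j = ω' j) → H ω = H ω') :
    ∫⁻ ω in EvN D n, H ω ∂(PQ μ ν) = ∫⁻ ω in {ω | AliveQ D r ω},
      H ω * ENNReal.ofReal (hit D (stepLaw μ ν 1) (n - r) (Zw r ω)) ∂(PQ μ ν) := by
  classical
  have hpr : IsProbabilityMeasure (stepLaw μ ν 1) := prob_stepLaw 1
  obtain ⟨m, rfl⟩ := Nat.exists_eq_add_of_le hrn.le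
  have hm1 : 1 ≤ m := by omega
  have hm : r + m - r = m := by omega
  rw [hm]
  have hW : MeasurableSet {p : ℝ × (ℕ → ℝ) | 1 ≤ m ∧ Alive D p.1 (m - 1) p.2 ∧ p.1 + S m p.2 ∉ D} := by
    have h1 : MeasurableSet {p : ℝ × (ℕ → ℝ) | 1 ≤ m} := MeasurableSet.const _
    have h2 := measurableSet_alive' hD (m - 1)
    have h3 : MeasurableSet {p : ℝ × (ℕ → ℝ) | p.1 + S m p.2 ∈ D} :=
      (measurable_fst.add ((measurable_S m).comp measurable_snd)) hD.meas
    exact h1.inter (h2.inter h3.compl)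
  have key := Q1_markov (μ := μ) (ν := ν) hD r H hH hdep _ (measurable_one.indicator hW)
  have hiff : ∀ ω, ω ∈ EvN D (r + m) ↔ AliveQ D r ω ∧ (Zw r ω, shift r (steps 1 ω)) ∈
      {p : ℝ × (ℕ → ℝ) | 1 ≤ m ∧ Alive D p.1 (m - 1) p.2 ∧ p.1 + S m p.2 ∉ D} := by
    intro ω
    have h1 : r + m - 1 = r + (m - 1) := by omega
    show (1 ≤ r + m ∧ AliveQ D (r + m - 1) ω ∧ Zw (r + m) ω ∉ D) ↔ AliveQ D r ω ∧ (1 ≤ m ∧
      Alive D (Zw r ω) (m - 1) (shift r (steps 1 ω)) ∧ Zw r ω + S m (shift r (steps 1 ω)) ∉ D)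
    rw [h1, Q1_alive_add hD, Q1_Zw_add]
    constructor
    · rintro ⟨_, ⟨h4, h5⟩, h6⟩
      exact ⟨h4, hm1, h5, h6⟩
    · rintro ⟨h4, _, h5, h6⟩
      exact ⟨by omega, ⟨h4, h5⟩, h6⟩
  have hL : ∫⁻ ω in EvN D (r + m), H ω ∂(PQ μ ν) =
      ∫⁻ ω in {ω | AliveQ D r ω}, H ω *
        ({p : ℝ × (ℕ → ℝ) | 1 ≤ m ∧ Alive D p.1 (m - 1) p.2 ∧ p.1 + S m p.2 ∉ D}.indicator 1)
          (Zw r ω, shift r (steps 1 ω)) ∂(PQ μ ν) := by
    rw [← lintegral_indicator (measurableSet_EvN hD (r + m)),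
      ← lintegral_indicator (measurableSet_aliveQ hD r)]
    refine lintegral_congr fun ω => ?_
    by_cases h1 : AliveQ D r ω
    · rw [Set.indicator_of_mem (show ω ∈ {ω | AliveQ D r ω} from h1)]
      by_cases h2 : (Zw r ω, shift r (steps 1 ω)) ∈
          {p : ℝ × (ℕ → ℝ) | 1 ≤ m ∧ Alive D p.1 (m - 1) p.2 ∧ p.1 + S m p.2 ∉ D}
      · rw [Set.indicator_of_mem ((hiff ω).2 ⟨h1, h2⟩), Set.indicator_of_mem h2]
        simp
      · rw [Set.indicator_of_notMem (fun h => h2 ((hiff ω).1 h).2), Set.indicator_of_notMem h2,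
          mul_zero]
    · rw [Set.indicator_of_notMem (show ω ∉ {ω | AliveQ D r ω} from h1),
        Set.indicator_of_notMem (fun h => h1 ((hiff ω).1 h).1)]
  rw [hL, key]
  refine lintegral_congr fun ω => ?_
  congr 1
  unfold hit
  rw [ofReal_measureReal]
  have hms : MeasurableSet {η : ℕ → ℝ | 1 ≤ m ∧ Alive D (Zw r ω) (m - 1) η ∧
      Zw r ω + S m η ∉ D} := (measurable_const.prodMk measurable_id) hW
  rw [← lintegral_indicator_one hms]
  rfl

theorem PQ_EvN_gen (hD : Dom D) [IsProbabilityMeasure μ] [IsProbabilityMeasure ν] (n : ℕ) :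
    (PQ μ ν).real (EvN D n) = hit D (stepLaw μ ν 1) n 0 := by
  have hset : EvN D n = steps 1 ⁻¹' {ω | 1 ≤ n ∧ Alive D 0 (n - 1) ω ∧ 0 + S n ω ∉ D} := by
    ext ω
    show (1 ≤ n ∧ AliveQ D (n - 1) ω ∧ Zw n ω ∉ D) ↔
      (1 ≤ n ∧ Alive D 0 (n - 1) (steps 1 ω) ∧ 0 + S n (steps 1 ω) ∉ D)
    rw [Q1_alive_iff hD, Q1_S, zero_add]
  have hmeas : MeasurableSet {ω : ℕ → ℝ | 1 ≤ n ∧ Alive D 0 (n - 1) ω ∧ 0 + S n ω ∉ D} := by
    have h : {ω : ℕ → ℝ | 1 ≤ n ∧ Alive D 0 (n - 1) ω ∧ 0 + S n ω ∉ D} =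
        {ω : ℕ → ℝ | 1 ≤ n} ∩ ({ω | Alive D 0 (n - 1) ω} ∩ {ω | 0 + S n ω ∉ D}) := by
      ext ω
      simp
    rw [h]
    exact (MeasurableSet.const _).inter ((measurableSet_alive hD 0 _).inter
      (hD.meas.preimage (measurable_const.add (measurable_S n))).compl)
  rw [hit, ← map_steps_gen, measureReal_def, measureReal_def,
    Measure.map_apply measurable_steps hmeas, ← hset]

end Pool.Agent.BPT
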