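import Pool.Agent.MP_99a865_pr.CV.Q1
import Pool.Agent.MP_99a865_pr.CV.K4

open MeasureTheory ProbabilityTheory Filter Topology
open scoped ENNReal NNReal

namespace Pool.Agent.BPT

variable {D : Set ℝ} {μ ν : Measure ℝ}

theorem Q2_meas_alive (hD : Dom D) (k : ℕ) : MeasurableSet {ω : ℕ → ℝ × ℝ | AliveQ D k ω} := by
  have : {ω : ℕ → ℝ × ℝ | AliveQ D k ω} =
      ⋂ j : ℕ, ⋂ (_ : 1 ≤ j), ⋂ (_ : j ≤ k), {ω | Zw j ω ∈ D} := by
    ext ω
    simp [AliveQ]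
  rw [this]
  exact MeasurableSet.iInter fun j => MeasurableSet.iInter fun _ => MeasurableSet.iInter fun _ =>
    (measurable_Zw j) hD.meas

/-- one time -/
theorem Q2_one (hD : Dom D) [IsProbabilityMeasure μ] [IsProbabilityMeasure ν] (r k : ℕ) (hrk : r ≤ k)
    (H : (ℕ → ℝ × ℝ) → ℝ≥0∞) (hH : Measurable H)
    (hdep : ∀ ω ω', (∀ j < r, ω j = ω' j) → H ω = H ω') (y : ℝ) :
    ∫⁻ ω in {ω | AliveQ D k ω ∧ Zw k ω ≤ y}, H ω ∂(PQ μ ν) =
      ∫⁻ ω in {ω | AliveQ D r ω}, H ω * kap D (stepLaw μ ν 1) (k - r) (Zw r ω) (Set.Iic y)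
        ∂(PQ μ ν) := by
  have hf : Measurable ((Set.Iic y).indicator fun _ : ℝ => (1 : ℝ≥0∞)) :=
    measurable_const.indicator measurableSet_Iic
  have h1 := q_alive (μ := μ) (ν := ν) hD r k hrk H hH hdep _ hf
  have h2 : ∀ z : ℝ, ∫⁻ x, (Set.Iic y).indicator (fun _ : ℝ => (1 : ℝ≥0∞)) x
      ∂(kap D (stepLaw μ ν 1) (k - r) z) = kap D (stepLaw μ ν 1) (k - r) z (Set.Iic y) := by
    intro z
    exact lintegral_indicator_one measurableSet_Iic
  simp only [h2] at h1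
  rw [← h1]
  have hm : MeasurableSet {ω : ℕ → ℝ × ℝ | Zw k ω ≤ y} := (measurable_Zw k) measurableSet_Iic
  have h3 : {ω : ℕ → ℝ × ℝ | AliveQ D k ω ∧ Zw k ω ≤ y} =
      {ω | Zw k ω ≤ y} ∩ {ω | AliveQ D k ω} := by
    ext ω
    exact and_comm
  rw [h3, ← setLIntegral_indicator hm]
  refine lintegral_congr fun ω => ?_
  by_cases h4 : Zw k ω ≤ y
  · rw [Set.indicator_of_mem (show ω ∈ {ω : ℕ → ℝ × ℝ | Zw k ω ≤ y} from h4),
      Set.indicator_of_mem (show Zw k ω ∈ Set.Iic y from h4), mul_one]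
  · rw [Set.indicator_of_notMem (show ω ∉ {ω : ℕ → ℝ × ℝ | Zw k ω ≤ y} from h4),
      Set.indicator_of_notMem (show Zw k ω ∉ Set.Iic y from h4), mul_zero]

/-- **[IVC-Q2]** Time spent at levels `≤ y` after time `r` (`q_alive` with `f = 1_{Iic y}`, sum over `k`, `green_sup`). -/
theorem time_le (hD : Dom D) [IsProbabilityMeasure μ] [IsProbabilityMeasure ν] (r : ℕ)
    (H : (ℕ → ℝ × ℝ) → ℝ≥0∞) (hH : Measurable H)
    (hdep : ∀ ω ω', (∀ j < r, ω j = ω' j) → H ω = H ω') (y : ℝ) (hy : 0 ≤ y) (G : ℝ≥0∞)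
    (hG : ∀ z, 0 ≤ z → ∑' k, kap D (stepLaw μ ν 1) k z (Set.Iic y) ≤ G) :
    ∑' k, ∫⁻ ω in {ω | r ≤ k ∧ AliveQ D k ω ∧ Zw k ω ≤ y}, H ω ∂(PQ μ ν) ≤
      G * ∫⁻ ω in {ω | AliveQ D r ω}, H ω ∂(PQ μ ν) := by
  have := prob_stepLaw (μ := μ) (ν := ν) 1
  have h0 : ∀ k, k < r →
      ∫⁻ ω in {ω | r ≤ k ∧ AliveQ D k ω ∧ Zw k ω ≤ y}, H ω ∂(PQ μ ν) = 0 := by
    intro k hk
    have h1 : {ω : ℕ → ℝ × ℝ | r ≤ k ∧ AliveQ D k ω ∧ Zw k ω ≤ y} = ∅ := by
      ext ω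
      simp only [Set.mem_empty_iff_false, iff_false]
      rintro ⟨h2, -⟩
      omega
    rw [h1, Measure.restrict_empty, lintegral_zero_measure]
  have h1 : ∀ l, ∫⁻ ω in {ω | r ≤ l + r ∧ AliveQ D (l + r) ω ∧ Zw (l + r) ω ≤ y}, H ω ∂(PQ μ ν) =
      ∫⁻ ω in {ω | AliveQ D r ω}, H ω * kap D (stepLaw μ ν 1) l (Zw r ω) (Set.Iic y)
        ∂(PQ μ ν) := by
    intro l
    have h2 : {ω : ℕ → ℝ × ℝ | r ≤ l + r ∧ AliveQ D (l + r) ω ∧ Zw (l + r) ω ≤ y} =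
        {ω | AliveQ D (l + r) ω ∧ Zw (l + r) ω ≤ y} := by
      ext ω
      constructor
      · rintro ⟨-, h⟩
        exact h
      · intro h
        exact ⟨by omega, h⟩
    rw [h2, Q2_one hD r (l + r) (by omega) H hH hdep y, Nat.add_sub_cancel]
  rw [← (ENNReal.summable).sum_add_tsum_nat_add' (k := r),
    Finset.sum_eq_zero fun k hk => h0 k (Finset.mem_range.1 hk), zero_add]
  simp only [h1]
  have hm : ∀ l, Measurable fun ω : ℕ → ℝ × ℝ =>
      H ω * kap D (stepLaw μ ν 1) l (Zw r ω) (Set.Iic y) := by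
    intro l
    refine hH.mul ?_
    exact ((Measure.measurable_coe measurableSet_Iic).comp (measurable_kap hD l)).comp
      (measurable_Zw r)
  rw [← lintegral_tsum fun l => (hm l).aemeasurable]
  have hmH : Measurable fun ω => H ω := hH
  rw [mul_comm G, ← lintegral_mul_const G hmH]
  refine setLIntegral_mono' (Q2_meas_alive hD r) fun ω hω => ?_
  rw [ENNReal.tsum_mul_left]
  exact mul_le_mul_right (hG _ (Zw_nonneg hD hω)) _

/-- from the start (`H = 1`, `r = 0`): equality with the Green function `GG` -/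
theorem time_zero (hD : Dom D) [IsProbabilityMeasure μ] [IsProbabilityMeasure ν] (y : ℝ) :
    ∑' k, PQ μ ν {ω | AliveQ D k ω ∧ Zw k ω ≤ y} = GG D (stepLaw μ ν 1) y := by
  unfold GG
  refine tsum_congr fun k => ?_
  have h1 := Q2_one (μ := μ) (ν := ν) hD 0 k (Nat.zero_le k) (fun _ => 1) measurable_const
    (fun _ _ _ => rfl) y
  have h2 : {ω : ℕ → ℝ × ℝ | AliveQ D 0 ω} = Set.univ := by
    ext ω
    simp only [Set.mem_univ, iff_true]
    intro j h3 h4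
    omega
  have h3 : ∀ ω : ℕ → ℝ × ℝ, Zw 0 ω = 0 := by
    intro ω
    simp [Zw, Dp, Ar]
  simp only [h2, h3, Measure.restrict_univ, one_mul, Nat.sub_zero, lintegral_const, measure_univ,
    mul_one, Measure.restrict_apply_univ] at h1
  exact h1

end Pool.Agent.BPT
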