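import Pool.Agent.MP_99a865_pr.CV.Q1

open MeasureTheory ProbabilityTheory Filter Topology
open scoped ENNReal NNReal

namespace Pool.Agent.BPT

variable {D : Set ℝ} {μ ν : Measure ℝ}

/-- total length of the service and interarrival times in the window `[b, b + w)` -/
noncomputable def wsum (b w : ℕ) (ω : ℕ → ℝ × ℝ) : ℝ :=
  ∑ i ∈ Finset.Ico b (b + w), ((ω i).1 + (ω i).2)

/-! auxiliary facts -/

theorem Q3_wsum_shift (b w : ℕ) (ω : ℕ → ℝ × ℝ) : wsum b w ω = wsum 0 w (shift b ω) := by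
  unfold wsum shift
  rw [Finset.sum_Ico_eq_sum_range, Finset.sum_Ico_eq_sum_range]
  simp

theorem Q3_wsum_meas (b w : ℕ) : Measurable (wsum b w) := by
  unfold wsum
  exact Finset.measurable_sum _ fun i _ =>
    (measurable_fst.comp (measurable_pi_apply i)).add (measurable_snd.comp (measurable_pi_apply i))

theorem Q3_mean {τ : Measure ℝ} (h0 : τ (Set.Iio 0) = 0) (hm : ∫ x, x ∂τ = 1) :
    ∫⁻ x, ENNReal.ofReal x ∂τ = 1 := by
  have hint : Integrable (fun x : ℝ => x) τ := by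
    by_contra h
    rw [integral_undef h] at hm
    norm_num at hm
  have hnn : 0 ≤ᵐ[τ] fun x : ℝ => x := by
    rw [Filter.EventuallyLE, ae_iff]
    have : {a : ℝ | ¬ (0 : ℝ → ℝ) a ≤ a} = Set.Iio 0 := by ext a; simp
    rw [this]; exact h0
  rw [← ofReal_integral_eq_lintegral_ofReal hint hnn, hm, ENNReal.ofReal_one]

theorem Q3_pair (h : QI μ ν) (i : ℕ) :
    ∫⁻ ω, ENNReal.ofReal ((ω i).1 + (ω i).2) ∂(PQ μ ν) ≤ 2 := by
  have hprob := h.probμ
  have hprob' := h.probν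
  have hev1 : MeasurePreserving (fun ω : ℕ → ℝ × ℝ => (ω i).1) (PQ μ ν) μ :=
    measurePreserving_fst.comp (measurePreserving_eval_infinitePi (fun _ : ℕ => μ.prod ν) i)
  have hev2 : MeasurePreserving (fun ω : ℕ → ℝ × ℝ => (ω i).2) (PQ μ ν) ν :=
    measurePreserving_snd.comp (measurePreserving_eval_infinitePi (fun _ : ℕ => μ.prod ν) i)
  calc ∫⁻ ω, ENNReal.ofReal ((ω i).1 + (ω i).2) ∂(PQ μ ν)
      ≤ ∫⁻ ω, (ENNReal.ofReal (ω i).1 + ENNReal.ofReal (ω i).2) ∂(PQ μ ν) :=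
        lintegral_mono fun ω => ENNReal.ofReal_add_le
    _ = ∫⁻ ω, ENNReal.ofReal (ω i).1 ∂(PQ μ ν) + ∫⁻ ω, ENNReal.ofReal (ω i).2 ∂(PQ μ ν) :=
        lintegral_add_left (hev1.measurable.ennreal_ofReal) _
    _ = ∫⁻ x, ENNReal.ofReal x ∂μ + ∫⁻ x, ENNReal.ofReal x ∂ν := by
        rw [← hev1.lintegral_comp ENNReal.measurable_ofReal,
          ← hev2.lintegral_comp ENNReal.measurable_ofReal]
    _ ≤ 2 := by
        rw [Q3_mean h.nonnegμ h.meanμ, Q3_mean h.nonnegν h.meanν]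
        exact (one_add_one_eq_two).le

theorem Q3_wmean (h : QI μ ν) (w : ℕ) :
    ∫⁻ ω, ENNReal.ofReal (wsum 0 w ω) ∂(PQ μ ν) ≤ ENNReal.ofReal (2 * w) := by
  have hprob := h.probμ
  have hprob' := h.probν
  calc ∫⁻ ω, ENNReal.ofReal (wsum 0 w ω) ∂(PQ μ ν)
      ≤ ∫⁻ ω, ∑ i ∈ Finset.Ico 0 (0 + w), ENNReal.ofReal ((ω i).1 + (ω i).2) ∂(PQ μ ν) := by
        refine lintegral_mono fun ω => ?_
        unfold wsum
        exact Finset.le_sum_of_subadditive ENNReal.ofReal ENNReal.ofReal_zero.le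
          (fun _ _ => ENNReal.ofReal_add_le) _ _
    _ = ∑ i ∈ Finset.Ico 0 (0 + w), ∫⁻ ω, ENNReal.ofReal ((ω i).1 + (ω i).2) ∂(PQ μ ν) := by
        refine lintegral_finsetSum _ fun i _ => ?_
        exact ((measurable_fst.comp (measurable_pi_apply i)).add
          (measurable_snd.comp (measurable_pi_apply i))).ennreal_ofReal
    _ ≤ ∑ i ∈ Finset.Ico 0 (0 + w), (2 : ℝ≥0∞) := Finset.sum_le_sum fun i _ => Q3_pair h i
    _ = ENNReal.ofReal (2 * w) := by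
        rw [Finset.sum_const, Nat.card_Ico, zero_add, Nat.sub_zero, nsmul_eq_mul, mul_comm,
          ENNReal.ofReal_mul (by norm_num), ENNReal.ofReal_natCast, ENNReal.ofReal_ofNat]

theorem Q3_prob (h : QI μ ν) (w : ℕ) (y : ℝ) (hy : 4 * (w : ℝ) ≤ y) (hy0 : 0 < y) :
    1 ≤ 2 * (PQ μ ν) {ω | wsum 0 w ω < y} := by
  have hprob := h.probμ
  have hprob' := h.probν
  have hm : MeasurableSet {ω : ℕ → ℝ × ℝ | y ≤ wsum 0 w ω} :=
    measurableSet_le measurable_const (Q3_wsum_meas 0 w)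
  have h1 := mul_meas_ge_le_lintegral (μ := PQ μ ν)
    ((Q3_wsum_meas 0 w).ennreal_ofReal) (ENNReal.ofReal y)
  have h2 : {ω : ℕ → ℝ × ℝ | ENNReal.ofReal y ≤ ENNReal.ofReal (wsum 0 w ω)} =
      {ω | y ≤ wsum 0 w ω} := by
    ext ω
    simp only [Set.mem_ofPred_eq]
    constructor
    · intro h3
      by_contra h4
      push Not at h4
      have := (ENNReal.ofReal_lt_ofReal_iff hy0).2 h4
      exact absurd h3 (not_le.2 this)
    · intro h3
      exact ENNReal.ofReal_le_ofReal h3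
  rw [h2] at h1
  have h3 := h1.trans (Q3_wmean h w)
  have h4 : ENNReal.ofReal (2 * w) ≤ ENNReal.ofReal y * (1 / 2) := by
    rw [show (1 / 2 : ℝ≥0∞) = ENNReal.ofReal (1 / 2) by
      rw [ENNReal.ofReal_div_of_pos (by norm_num)]; simp, ← ENNReal.ofReal_mul hy0.le]
    exact ENNReal.ofReal_le_ofReal (by linarith)
  have h5 : (PQ μ ν) {ω | y ≤ wsum 0 w ω} ≤ 1 / 2 := by
    have h6 := h3.trans h4
    have hy1 : ENNReal.ofReal y ≠ 0 := by
      rw [Ne, ENNReal.ofReal_eq_zero, not_le]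
      exact hy0
    exact (ENNReal.mul_le_mul_iff_right hy1 ENNReal.ofReal_ne_top).1 h6
  have h6 : {ω : ℕ → ℝ × ℝ | wsum 0 w ω < y} = {ω | y ≤ wsum 0 w ω}ᶜ := by
    ext ω
    simp
  have h7 : (PQ μ ν) {ω | y ≤ wsum 0 w ω} + (PQ μ ν) {ω | wsum 0 w ω < y} = 1 := by
    rw [h6, measure_add_measure_compl hm, measure_univ]
  have h8 : (1 : ℝ≥0∞) / 2 ≤ (PQ μ ν) {ω | wsum 0 w ω < y} := by
    by_contra h9
    push Not at h9
    have h10 : (PQ μ ν) {ω | y ≤ wsum 0 w ω} + (PQ μ ν) {ω | wsum 0 w ω < y} < 1 / 2 + 1 / 2 :=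
      ENNReal.add_lt_add_of_le_of_lt (measure_ne_top _ _) h5 h9
    rw [h7, ENNReal.add_halves] at h10
    exact lt_irrefl _ h10
  calc (1 : ℝ≥0∞) = 2 * (1 / 2) := by
        rw [ENNReal.mul_div_cancel (by norm_num) (by norm_num)]
    _ ≤ _ := by gcongr

/-- **[IVC-Q3a]** PROOF. `wsum b w` is independent of the first `b` pairs and has mean `2w`, so by Markov's inequality
`P(wsum ≥ y) ≤ 2w/y ≤ 1/2`. (`lintegral_split`.) -/
theorem good_half (h : QI μ ν) (b w : ℕ) (y : ℝ) (hy : 4 * (w : ℝ) ≤ y) (hy0 : 0 < y)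
    (H : (ℕ → ℝ × ℝ) → ℝ≥0∞) (hH : Measurable H)
    (hdep : ∀ ω ω', (∀ j < b, ω j = ω' j) → H ω = H ω') :
    ∫⁻ ω, H ω ∂(PQ μ ν) ≤ 2 * ∫⁻ ω in {ω | wsum b w ω < y}, H ω ∂(PQ μ ν) := by
  classical
  have hprob := h.probμ
  have hprob' := h.probν
  have hG0 : MeasurableSet {η : ℕ → ℝ × ℝ | wsum 0 w η < y} :=
    measurableSet_lt (Q3_wsum_meas 0 w) measurable_const
  have hG : MeasurableSet {η : ℕ → ℝ × ℝ | wsum b w η < y} :=
    measurableSet_lt (Q3_wsum_meas b w) measurable_const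
  have h1 : ∫⁻ ω in {ω | wsum b w ω < y}, H ω ∂(PQ μ ν) =
      (∫⁻ ω, H ω ∂(PQ μ ν)) * (PQ μ ν) {ω | wsum 0 w ω < y} := by
    rw [← lintegral_indicator hG]
    have h2 : ∀ ω : ℕ → ℝ × ℝ, ({ω | wsum b w ω < y} : Set (ℕ → ℝ × ℝ)).indicator H ω =
        H ω * ({η | wsum 0 w η < y} : Set (ℕ → ℝ × ℝ)).indicator 1 (shift b ω) := by
      intro ω
      by_cases h3 : wsum b w ω < y
      · rw [Set.indicator_of_mem (show ω ∈ {ω | wsum b w ω < y} from h3),
          Set.indicator_of_mem (show shift b ω ∈ {η | wsum 0 w η < y} by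
            rw [Q3_wsum_shift] at h3
            exact h3)]
        simp
      · rw [Set.indicator_of_notMem (show ω ∉ {ω | wsum b w ω < y} from h3),
          Set.indicator_of_notMem (show shift b ω ∉ {η | wsum 0 w η < y} by
            rw [Q3_wsum_shift] at h3
            exact h3)]
        simp
    rw [lintegral_congr h2]
    have h3 := lintegral_split (μ.prod ν) b
      (fun ω η => H ω * ({η | wsum 0 w η < y} : Set (ℕ → ℝ × ℝ)).indicator 1 η)
      ((hH.comp measurable_fst).mul ((measurable_one.indicator hG0).comp measurable_snd))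
      (fun ω ω' η hω => by
        rw [hdep ω ω' hω])
    have h4 : ∀ ω : ℕ → ℝ × ℝ, ∫⁻ η, H ω * ({η | wsum 0 w η < y} : Set (ℕ → ℝ × ℝ)).indicator 1 η
        ∂(seqLaw (μ.prod ν)) = H ω * (PQ μ ν) {ω | wsum 0 w ω < y} := by
      intro ω
      rw [lintegral_const_mul _ (measurable_one.indicator hG0), lintegral_indicator_one hG0]
      rfl
    rw [lintegral_congr h4] at h3
    refine h3.trans ?_
    rw [lintegral_mul_const _ hH]
    rfl
  rw [h1, ← mul_assoc, mul_comm (2 : ℝ≥0∞), mul_assoc]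
  calc ∫⁻ ω, H ω ∂(PQ μ ν) = (∫⁻ ω, H ω ∂(PQ μ ν)) * 1 := (mul_one _).symm
    _ ≤ _ := by
      gcongr
      exact Q3_prob h w y hy hy0

theorem Q3_move {ω : ℕ → ℝ × ℝ} (hnn : NN ω) (b w k : ℕ) (hbk : b ≤ k) (hk : k ≤ b + w) :
    |Zw k ω - Zw b ω| ≤ wsum b w ω ∧ Ar k ω - Ar b ω ≤ wsum b w ω := by
  have h1 : Dp k ω - Dp b ω = ∑ i ∈ Finset.Ico b k, (ω i).2 := by
    unfold Dp
    rw [Finset.sum_Ico_eq_sub _ hbk]
  have h2 : Ar k ω - Ar b ω = ∑ i ∈ Finset.Ico b k, (ω i).1 := by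
    unfold Ar
    rw [Finset.sum_Ico_eq_sub _ hbk]
  have h3 : ∑ i ∈ Finset.Ico b k, ((ω i).1 + (ω i).2) ≤ wsum b w ω := by
    unfold wsum
    refine Finset.sum_le_sum_of_subset_of_nonneg (Finset.Ico_subset_Ico le_rfl hk) ?_
    intro i _ _
    exact add_nonneg (hnn i).1 (hnn i).2
  rw [Finset.sum_add_distrib, ← h1, ← h2] at h3
  have h4 : 0 ≤ Dp k ω - Dp b ω := by
    rw [h1]
    exact Finset.sum_nonneg fun i _ => (hnn i).2
  have h5 : 0 ≤ Ar k ω - Ar b ω := by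
    rw [h2]
    exact Finset.sum_nonneg fun i _ => (hnn i).1
  refine ⟨?_, by linarith⟩
  rw [abs_le]
  unfold Zw
  constructor <;> linarith

/-- **[IVC-Q3b]** In a good window the walk stays alive and does not move much, and there is no other boundary.
PROOF. For `b ≤ k ≤ b + w`, `|Zw k - Zw b| ≤ wsum b w < y/4 < Zw b/2`, so `Zw k ∈ (y/4, 5y/4)`, in particular
`Zw k ∈ D`. If `b'` with `b < b' ≤ b + w` were a boundary, let `b''` be the boundary following `b` (`b'' ≤ b'`; it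
exists because `b'` is a boundary `> b`: take the least one): `Dp b - Ar b'' ∉ D`, so `Ar b'' - Ar b ≥ Zw b > y/2`,
but `Ar b'' - Ar b ≤ wsum b w < y/4`. (`Nxt_prop`.) -/
theorem good_det (hD : Dom D) {ω : ℕ → ℝ × ℝ} (hnn : NN ω) (b w : ℕ) (y : ℝ) (hb : Bd D ω b)
    (ha : AliveQ D b ω) (h1 : y / 2 < Zw b ω) (h2 : Zw b ω ≤ y) (hg : wsum b w ω < y / 4) :
    (∀ k, b ≤ k → k ≤ b + w → AliveQ D k ω ∧ Zw k ω ≤ 2 * y) ∧
    (∀ b', b < b' → b' ≤ b + w → ¬ Bd D ω b') := by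
  have hy : 0 < y := by linarith
  constructor
  · intro k hbk hk
    constructor
    · intro j hj1 hj2
      rcases le_or_gt j b with h | h
      · exact ha j hj1 h
      · have h3 := (Q3_move hnn b w j h.le (by omega)).1
        rw [abs_le] at h3
        exact hD.pos (by linarith [h3.1])
    · have h3 := (Q3_move hnn b w k hbk hk).1
      rw [abs_le] at h3
      linarith [h3.2]
  · intro b' hbb' hb' hB
    have hb1 := Bd_pos hb
    obtain ⟨a, hn⟩ := exists_prev hD hnn hB (by omega)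
    have hab : b ≤ a := by
      by_contra h
      push Not at h
      exact hn.2.2.2 b h hbb' hb
    have h3 := hD.not_mem (Nxt_prop hD hnn hn).2
    have h4 := F5_Dp_mono hnn hab
    have h5 := (Q3_move hnn b w b' hbb'.le hb').2
    have h6 : Zw b ω = Dp b ω - Ar b ω := rfl
    linarith

/-- disjoint windows -/
theorem Q3_count (B C : Set ℕ) (w : ℕ) (hBC : ∀ b ∈ B, ∀ i < w, b + i ∈ C)
    (hB : ∀ b ∈ B, ∀ b' ∈ B, b < b' → b + w < b') :
    (w : ℝ≥0∞) * ∑' b, B.indicator (1 : ℕ → ℝ≥0∞) b ≤ ∑' k, C.indicator (1 : ℕ → ℝ≥0∞) k := by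
  rw [← tsum_subtype B, ← tsum_subtype C]
  let e : B × Fin w → C := fun p => ⟨p.1.1 + p.2.1, hBC p.1.1 p.1.2 p.2.1 p.2.2⟩
  have he : Function.Injective e := by
    rintro ⟨⟨b, hb⟩, ⟨i, hi⟩⟩ ⟨⟨b', hb'⟩, ⟨i', hi'⟩⟩ h
    have h1 : b + i = b' + i' := congrArg Subtype.val h
    have h2 : b = b' := by
      rcases lt_trichotomy b b' with h2 | h2 | h2
      · have := hB b hb b' hb' h2
        omega
      · exact h2
      · have := hB b' hb' b hb h2
        omega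
    subst h2
    have h3 : i = i' := by omega
    subst h3
    rfl
  have h1 := ENNReal.tsum_comp_le_tsum_of_injective he (fun _ : C => (1 : ℝ≥0∞))
  have h2 : ∑' p : B × Fin w, (1 : ℝ≥0∞) = (w : ℝ≥0∞) * ∑' b : B, (1 : ℝ≥0∞) := by
    rw [ENNReal.tsum_prod', ← ENNReal.tsum_mul_left]
    refine tsum_congr fun b => ?_
    rw [tsum_fintype, Finset.sum_const, Finset.card_univ, Fintype.card_fin, nsmul_eq_mul]
  calc (w : ℝ≥0∞) * ∑' b : B, (1 : ℕ → ℝ≥0∞) b = ∑' p : B × Fin w, (1 : ℝ≥0∞) := h2.symm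
    _ ≤ _ := h1

/-- **[IVC-Q3c]** Number of boundaries at levels in `(y/2, y]` compared with the time spent at levels `≤ 2y`.
PROOF. Let `w = ⌊y/16⌋ ≥ max(1, y/32)`. The event `A_b = {r ≤ b, Bd b, AliveQ b, y/2 < Zw b ≤ y}` depends on the first
`b` pairs (`Bd_dep`), and `H` too when `r ≤ b`, so `∫_{A_b} H ≤ 2 ∫_{A_b ∩ G_b} H`, `G_b = {wsum b w < y/4}` (`good_half`,
`4w ≤ y/4`). Pointwise (for `NN ω`), `w ∑_b 1_{A_b ∩ G_b} = ∑_k ∑_{b ∈ (k-w,k]} 1_{A_b ∩ G_b} ≤ ∑_k 1{r ≤ k, AliveQ k, Zw k ≤ 2y}`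
by `good_det` (at most one `b` in `(k-w, k]`). So the sum is at most `(2/w) ∑_k … ≤ (64/y) ∑_k …`. -/
theorem bd_time (hD : Dom D) (h : QI μ ν) (r : ℕ) (H : (ℕ → ℝ × ℝ) → ℝ≥0∞) (hH : Measurable H)
    (hdep : ∀ ω ω', (∀ j < r, ω j = ω' j) → H ω = H ω') (y : ℝ) (hy : 16 ≤ y) :
    ∑' b, ∫⁻ ω in {ω | r ≤ b ∧ Bd D ω b ∧ AliveQ D b ω ∧ y / 2 < Zw b ω ∧ Zw b ω ≤ y}, H ω ∂(PQ μ ν) ≤
      ENNReal.ofReal (64 / y) *
        ∑' k, ∫⁻ ω in {ω | r ≤ k ∧ AliveQ D k ω ∧ Zw k ω ≤ 2 * y}, H ω ∂(PQ μ ν) := by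
  classical
  have hprob := h.probμ
  have hprob' := h.probν
  have hy0 : 0 < y := by linarith
  set w : ℕ := ⌊y / 16⌋₊ with hw
  have hw1 : 1 ≤ w := by
    rw [hw, Nat.one_le_floor_iff]
    rw [le_div_iff₀ (by norm_num)]
    linarith
  have hw2 : (w : ℝ) ≤ y / 16 := Nat.floor_le (by positivity)
  have hw3 : y / 32 ≤ w := by
    have h1 := Nat.lt_floor_add_one (y / 16)
    rw [← hw] at h1
    have h2 : (1 : ℝ) ≤ w := by exact_mod_cast hw1
    linarith
  set A : ℕ → Set (ℕ → ℝ × ℝ) := fun b =>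
    {ω | r ≤ b ∧ Bd D ω b ∧ AliveQ D b ω ∧ y / 2 < Zw b ω ∧ Zw b ω ≤ y} with hA
  set C : ℕ → Set (ℕ → ℝ × ℝ) := fun k => {ω | r ≤ k ∧ AliveQ D k ω ∧ Zw k ω ≤ 2 * y} with hC
  set G : ℕ → Set (ℕ → ℝ × ℝ) := fun b => {ω | wsum b w ω < y / 4} with hGdef
  have hAm : ∀ b, MeasurableSet (A b) := by
    intro b
    have e : A b = {ω | r ≤ b} ∩ ({ω | Bd D ω b} ∩ ({ω | AliveQ D b ω} ∩
        ({ω | y / 2 < Zw b ω} ∩ {ω | Zw b ω ≤ y}))) := by
      ext ω
      simp [hA]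
    rw [e]
    exact (MeasurableSet.const _).inter ((measurableSet_Bd hD b).inter
      ((measurableSet_aliveQ hD b).inter ((measurableSet_lt measurable_const (measurable_Zw b)).inter
        (measurableSet_le (measurable_Zw b) measurable_const))))
  have hCm : ∀ k, MeasurableSet (C k) := by
    intro k
    have e : C k = {ω | r ≤ k} ∩ ({ω | AliveQ D k ω} ∩ {ω | Zw k ω ≤ 2 * y}) := by
      ext ω
      simp [hC]
    rw [e]
    exact (MeasurableSet.const _).inter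
      ((measurableSet_aliveQ hD k).inter (measurableSet_le (measurable_Zw k) measurable_const))
  have hGm : ∀ b, MeasurableSet (G b) := fun b =>
    measurableSet_lt (Q3_wsum_meas b w) measurable_const
  -- the first step
  have hstep : ∀ b, ∫⁻ ω in A b, H ω ∂(PQ μ ν) ≤ 2 * ∫⁻ ω in A b ∩ G b, H ω ∂(PQ μ ν) := by
    intro b
    have h1 := good_half h b w (y / 4) (by linarith) (by linarith) ((A b).indicator H)
      (hH.indicator (hAm b)) (by
        intro ω ω' hω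
        have hmem : ω ∈ A b ↔ ω' ∈ A b := by
          have hZ : ∀ j ≤ b, Zw j ω = Zw j ω' := by
            intro j hj
            unfold Zw
            rw [F5_Dp_congr hω hj, F5_Ar_congr hω hj]
          have hAl : AliveQ D b ω ↔ AliveQ D b ω' := by
            unfold AliveQ
            constructor
            · intro h2 j h3 h4
              rw [← hZ j h4]
              exact h2 j h3 h4
            · intro h2 j h3 h4
              rw [hZ j h4]
              exact h2 j h3 h4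
          have hBd : Bd D ω b ↔ Bd D ω' b := Bd_dep b ω ω' hω
          simp only [hA, Set.mem_ofPred_eq]
          rw [hBd, hAl, hZ b le_rfl]
        by_cases h2 : ω ∈ A b
        · rw [Set.indicator_of_mem h2, Set.indicator_of_mem (hmem.1 h2)]
          refine hdep ω ω' fun j hj => hω j (lt_of_lt_of_le hj h2.1)
        · rw [Set.indicator_of_notMem h2, Set.indicator_of_notMem (fun h3 => h2 (hmem.2 h3))])
    rw [lintegral_indicator (hAm b), setLIntegral_indicator (hAm b)] at h1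
    exact h1
  -- the pointwise inequality
  have hpt : ∀ᵐ ω ∂(PQ μ ν), (w : ℝ≥0∞) * ∑' b, (A b ∩ G b).indicator H ω ≤
      ∑' k, (C k).indicator H ω := by
    filter_upwards [ae_NN h] with ω hnn
    have h1 := Q3_count {b | ω ∈ A b ∩ G b} {k | ω ∈ C k} w (by
        rintro b ⟨⟨hb1, hb2, hb3, hb4, hb5⟩, hb6⟩ i hi
        have h2 := (good_det hD hnn b w y hb2 hb3 hb4 hb5 hb6).1 (b + i) (by omega) (by omega)
        exact ⟨by omega, h2.1, h2.2⟩)
      (by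
        rintro b ⟨⟨hb1, hb2, hb3, hb4, hb5⟩, hb6⟩ b' ⟨⟨hb1', hb2', hb3', hb4', hb5'⟩, hb6'⟩ hlt
        by_contra hcon
        push Not at hcon
        exact (good_det hD hnn b w y hb2 hb3 hb4 hb5 hb6).2 b' hlt hcon hb2')
    have h2 : ∀ b, (A b ∩ G b).indicator H ω =
        ({b | ω ∈ A b ∩ G b} : Set ℕ).indicator (1 : ℕ → ℝ≥0∞) b * H ω := by
      intro b
      by_cases h3 : ω ∈ A b ∩ G b
      · rw [Set.indicator_of_mem h3, Set.indicator_of_mem (show b ∈ {b | ω ∈ A b ∩ G b} from h3)]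
        simp
      · rw [Set.indicator_of_notMem h3,
          Set.indicator_of_notMem (show b ∉ {b | ω ∈ A b ∩ G b} from h3)]
        simp
    have h3 : ∀ k, (C k).indicator H ω =
        ({k | ω ∈ C k} : Set ℕ).indicator (1 : ℕ → ℝ≥0∞) k * H ω := by
      intro k
      by_cases h3 : ω ∈ C k
      · rw [Set.indicator_of_mem h3, Set.indicator_of_mem (show k ∈ {k | ω ∈ C k} from h3)]
        simp
      · rw [Set.indicator_of_notMem h3,
          Set.indicator_of_notMem (show k ∉ {k | ω ∈ C k} from h3)]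
        simp
    rw [tsum_congr h2, tsum_congr h3, ENNReal.tsum_mul_right, ENNReal.tsum_mul_right, ← mul_assoc]
    gcongr
  have hint : (w : ℝ≥0∞) * ∑' b, ∫⁻ ω in A b ∩ G b, H ω ∂(PQ μ ν) ≤
      ∑' k, ∫⁻ ω in C k, H ω ∂(PQ μ ν) := by
    have h1 := lintegral_mono_ae hpt
    rw [lintegral_const_mul _ (Measurable.ennreal_tsum fun b =>
      hH.indicator ((hAm b).inter (hGm b))),
      lintegral_tsum fun b => (hH.indicator ((hAm b).inter (hGm b))).aemeasurable,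
      lintegral_tsum fun k => (hH.indicator (hCm k)).aemeasurable] at h1
    simp_rw [lintegral_indicator ((hAm _).inter (hGm _)), lintegral_indicator (hCm _)] at h1
    exact h1
  have hw0 : (w : ℝ≥0∞) ≠ 0 := by
    rw [Ne, Nat.cast_eq_zero]
    omega
  have hwt : (w : ℝ≥0∞) ≠ ⊤ := ENNReal.natCast_ne_top w
  have hfin : ∑' b, ∫⁻ ω in A b ∩ G b, H ω ∂(PQ μ ν) ≤
      (w : ℝ≥0∞)⁻¹ * ∑' k, ∫⁻ ω in C k, H ω ∂(PQ μ ν) := by
    rw [← ENNReal.div_eq_inv_mul, ENNReal.le_div_iff_mul_le (Or.inl hw0) (Or.inl hwt), mul_comm]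
    exact hint
  have hconst : 2 * (w : ℝ≥0∞)⁻¹ ≤ ENNReal.ofReal (64 / y) := by
    have hwpos : (0 : ℝ) < w := by exact_mod_cast hw1
    rw [show (2 : ℝ≥0∞) = ENNReal.ofReal 2 by simp, ← ENNReal.ofReal_natCast w,
      ← ENNReal.ofReal_inv_of_pos hwpos, ← ENNReal.ofReal_mul (by norm_num)]
    apply ENNReal.ofReal_le_ofReal
    rw [← div_eq_mul_inv, div_le_div_iff₀ hwpos hy0]
    linarith
  calc ∑' b, ∫⁻ ω in A b, H ω ∂(PQ μ ν)
      ≤ ∑' b, 2 * ∫⁻ ω in A b ∩ G b, H ω ∂(PQ μ ν) := ENNReal.tsum_le_tsum hstep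
    _ = 2 * ∑' b, ∫⁻ ω in A b ∩ G b, H ω ∂(PQ μ ν) := ENNReal.tsum_mul_left
    _ ≤ 2 * ((w : ℝ≥0∞)⁻¹ * ∑' k, ∫⁻ ω in C k, H ω ∂(PQ μ ν)) := by gcongr
    _ = (2 * (w : ℝ≥0∞)⁻¹) * ∑' k, ∫⁻ ω in C k, H ω ∂(PQ μ ν) := by rw [mul_assoc]
    _ ≤ _ := by gcongr

end Pool.Agent.BPT
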