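import Pool.Agent.MP_99a865_pr.CV.Q2
import Pool.Agent.MP_99a865_pr.CV.Q3
import Pool.Agent.MP_99a865_pr.CV.K11

open MeasureTheory ProbabilityTheory Filter Topology
open scoped ENNReal NNReal

namespace Pool.Agent.BPT

variable {D : Set ℝ} {μ ν : Measure ℝ}

/-- dyadic iteration -/
theorem Q4_iter (F : ℝ → ℝ≥0∞) (hF : Monotone F) (I : ℝ≥0∞) (y₁ K c : ℝ) (hy : 0 < y₁)
    (hK : 0 ≤ K) (hc : 0 ≤ c) (h0 : F y₁ ≤ ENNReal.ofReal K * I)
    (hs : ∀ x ≥ y₁, F x ≤ F (x / 2) + ENNReal.ofReal (c * x) * I) (x : ℝ) (hx : 0 ≤ x) :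
    F x ≤ ENNReal.ofReal (K + 2 * c * x) * I := by
  have key : ∀ n : ℕ, ∀ x : ℝ, 0 ≤ x → x ≤ 2 ^ n * y₁ → F x ≤ ENNReal.ofReal (K + 2 * c * x) * I := by
    intro n
    induction n with
    | zero =>
      intro x hx hxn
      rw [pow_zero, one_mul] at hxn
      refine (hF hxn).trans (h0.trans ?_)
      gcongr
      nlinarith [mul_nonneg hc hx]
    | succ n ih =>
      intro x hx hxn
      by_cases h : x ≤ y₁
      · refine (hF h).trans (h0.trans ?_)
        gcongr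
        nlinarith [mul_nonneg hc hx]
      · push Not at h
        have h1 := ih (x / 2) (by linarith) (by rw [pow_succ] at hxn; linarith)
        refine (hs x h.le).trans ((add_le_add_left h1 _).trans (le_of_eq ?_))
        rw [← add_mul, ← ENNReal.ofReal_add (by positivity) (by positivity)]
        congr 2
        ring
  obtain ⟨n, hn⟩ := pow_unbounded_of_one_lt (x / y₁) (one_lt_two)
  refine key n x hx ?_
  rw [div_lt_iff₀ hy] at hn
  exact hn.le

theorem Q4_small (hD : Dom D) (h : QI μ ν) (hv : InfV μ ν) (e : ℝ) (he : 0 < e) :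
    ∃ y₁ ≥ (32 : ℝ), ∃ K ≥ (0 : ℝ),
      VV D (stepLaw μ ν 1) y₁ * GG D (stepLaw μ ν 1) y₁ ≤ ENNReal.ofReal K ∧
      ∀ x ≥ y₁, ENNReal.ofReal (64 / x) *
        (VV D (stepLaw μ ν 1) (2 * x) * GG D (stepLaw μ ν 1) (2 * x)) ≤
          ENNReal.ofReal (e * x) := by
  have hc := h.cen hv
  obtain ⟨C1, h1⟩ := VV_linear hD hc
  obtain ⟨C2, h2⟩ := GG_linear hD hc
  obtain ⟨y₀, h3⟩ := VG_small hD hc (h.inf hv) (e / 256) (by positivity)
  have hy32 : (32 : ℝ) ≤ max y₀ 32 := le_max_right _ _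
  refine ⟨max y₀ 32, hy32,
    (VV D (stepLaw μ ν 1) (max y₀ 32) * GG D (stepLaw μ ν 1) (max y₀ 32)).toReal,
    ENNReal.toReal_nonneg, ?_, ?_⟩
  · rw [ENNReal.ofReal_toReal]
    refine ENNReal.mul_ne_top ?_ ?_
    · exact ((h1 _ (by linarith)).trans_lt
        (ENNReal.mul_lt_top ENNReal.coe_lt_top ENNReal.ofReal_lt_top)).ne
    · exact ((h2 _ (by linarith)).trans_lt
        (ENNReal.mul_lt_top ENNReal.coe_lt_top ENNReal.ofReal_lt_top)).ne
  · intro x hx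
    have hx0 : 0 < x := by linarith
    have h4 := h3 (2 * x) (by linarith [le_max_left y₀ 32])
    refine (mul_le_mul_right h4 _).trans (le_of_eq ?_)
    rw [← ENNReal.ofReal_mul (by positivity)]
    congr 1
    field_simp
    ring

theorem Q4_set_le (hD : Dom D) (ρ : Measure ℝ) (b : ℕ) (s : Set (ℕ → ℝ × ℝ)) (y : ℝ)
    (hs : ∀ ω ∈ s, Zw b ω ≤ y) :
    ∫⁻ ω in s, VV D ρ (Zw b ω) ∂(PQ μ ν) ≤ VV D ρ y * PQ μ ν s := by
  rw [← setLIntegral_const]
  refine setLIntegral_mono measurable_const fun ω hω => ?_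
  exact VT_mono hD (hs ω hω)

theorem Q4_piece (hD : Dom D) (h : QI μ ν) (x : ℝ) (hx : 16 ≤ x) :
    ∑' b, PQ μ ν {ω | Bd D ω b ∧ AliveQ D b ω ∧ x / 2 < Zw b ω ∧ Zw b ω ≤ x} ≤
      ENNReal.ofReal (64 / x) * GG D (stepLaw μ ν 1) (2 * x) := by
  have hpμ := h.probμ
  have hpν := h.probν
  have h1 := bd_time hD h 0 (fun _ => 1) measurable_const (fun _ _ _ => rfl) x hx
  simp only [lintegral_const, Measure.restrict_apply_univ, one_mul, Nat.zero_le, true_and] at h1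
  rw [time_zero hD] at h1
  exact h1

/-- **[IVC-Q4a]** Number of boundaries at levels `≤ x` after time `r`: `o(x)`.
PROOF. Cut `[0,x]` into `(x 2^{-i-1}, x 2^{-i}]`, `i < I`, where `x 2^{-I} ∈ [16, 32)` say, and `[0, 32]`. For each
dyadic piece with upper end `y`, `bd_time` and `time_le` (with `G = VV (2y) GG (2y)`, `green_sup`) give at most
`(64/y) VV(2y) GG(2y) ∫_{AliveQ r} H`, and `VV(2y)GG(2y) ≤ ε'(2y)²` if `y ≥ y₀/2`, `≤ C² (2y)²` always (`VV_linear`,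
`GG_linear`). The sum over the dyadic `y ≤ x` is at most `C' y₁ + 512 ε' x`. The boundaries at levels `≤ 32` are
at most the times at levels `≤ 32`: `≤ VV 32 · GG 32`. -/
theorem bd_count (hD : Dom D) (h : QI μ ν) (hv : InfV μ ν) : ∀ ε > (0 : ℝ), ∃ x₀ : ℝ, ∀ x ≥ x₀,
    ∀ (r : ℕ) (H : (ℕ → ℝ × ℝ) → ℝ≥0∞), Measurable H →
    (∀ ω ω', (∀ j < r, ω j = ω' j) → H ω = H ω') →
    ∑' b, ∫⁻ ω in {ω | r ≤ b ∧ Bd D ω b ∧ AliveQ D b ω ∧ Zw b ω ≤ x}, H ω ∂(PQ μ ν) ≤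
      ENNReal.ofReal (ε * x) * ∫⁻ ω in {ω | AliveQ D r ω}, H ω ∂(PQ μ ν) := by
  intro ε hε
  have hpμ := h.probμ
  have hpν := h.probν
  obtain ⟨y₁, hy32, K, hK, hK1, hsm⟩ := Q4_small hD h hv (ε / 4) (by positivity)
  refine ⟨2 * K / ε, fun x hx r H hH hdep => ?_⟩
  have hps : IsProbabilityMeasure (stepLaw μ ν 1) := prob_stepLaw 1
  have hx0 : 0 ≤ x := le_trans (by positivity) hx
  have hF : Monotone fun x : ℝ => ∑' b, ∫⁻ ω in {ω | r ≤ b ∧ Bd D ω b ∧ AliveQ D b ω ∧ Zw b ω ≤ x},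
      H ω ∂(PQ μ ν) := by
    intro x y hxy
    refine ENNReal.tsum_le_tsum fun b => lintegral_mono_set ?_
    rintro ω ⟨h1, h2, h3, h4⟩
    exact ⟨h1, h2, h3, h4.trans hxy⟩
  have hG : ∀ y, 0 ≤ y → ∀ z, 0 ≤ z → ∑' k, kap D (stepLaw μ ν 1) k z (Set.Iic y) ≤
      VV D (stepLaw μ ν 1) y * GG D (stepLaw μ ν 1) y := fun y hy z hz => green_sup hD z hz y hy
  have key := Q4_iter _ hF (∫⁻ ω in {ω | AliveQ D r ω}, H ω ∂(PQ μ ν)) y₁ K (ε / 4) (by linarith) hK
    (by positivity) ?_ ?_ x hx0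
  · refine key.trans ?_
    gcongr
    rw [ge_iff_le, div_le_iff₀ hε] at hx
    nlinarith
  · refine le_trans ?_ (mul_le_mul_left hK1 _)
    refine le_trans ?_ (time_le hD r H hH hdep y₁ (by linarith) _ (hG y₁ (by linarith)))
    refine ENNReal.tsum_le_tsum fun b => lintegral_mono_set ?_
    rintro ω ⟨h1, h2, h3, h4⟩
    exact ⟨h1, h3, h4⟩
  · intro x hx
    have hx1 : 16 ≤ x := by linarith
    have h1 := bd_time hD h r H hH hdep x hx1
    have h2 := time_le hD r H hH hdep (2 * x) (by linarith) _ (hG (2 * x) (by linarith))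
    have h3 : (∑' b, ∫⁻ ω in {ω | r ≤ b ∧ Bd D ω b ∧ AliveQ D b ω ∧ Zw b ω ≤ x}, H ω ∂(PQ μ ν)) ≤
        (∑' b, ∫⁻ ω in {ω | r ≤ b ∧ Bd D ω b ∧ AliveQ D b ω ∧ Zw b ω ≤ x / 2}, H ω ∂(PQ μ ν)) +
        ∑' b, ∫⁻ ω in {ω | r ≤ b ∧ Bd D ω b ∧ AliveQ D b ω ∧ x / 2 < Zw b ω ∧ Zw b ω ≤ x},
          H ω ∂(PQ μ ν) := by
      rw [← ENNReal.tsum_add]
      refine ENNReal.tsum_le_tsum fun b => ?_
      refine le_trans (lintegral_mono_set ?_) (lintegral_union_le _ _ _)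
      rintro ω ⟨h1, h2, h3, h4⟩
      by_cases h5 : Zw b ω ≤ x / 2
      · exact Or.inl ⟨h1, h2, h3, h5⟩
      · exact Or.inr ⟨h1, h2, h3, not_le.1 h5, h4⟩
    refine h3.trans (add_le_add_right (h1.trans ?_) _)
    refine (mul_le_mul_right h2 _).trans ?_
    rw [← mul_assoc]
    exact mul_le_mul_left (hsm x hx) _

/-- **[IVC-Q4b]** The weighted number of boundaries from the start. PROOF. The same decomposition, with `r = 0`,
`H = 1`, `VV (Zw b) ≤ VV y` on the piece with upper end `y` (`VT_mono`), and the time spent is now `GG (2y)`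
(`time_zero`): the piece contributes at most `VV(y) (64/y) GG(2y) ≤ (64/y) VV(2y) GG(2y)`. -/
theorem bd_weighted (hD : Dom D) (h : QI μ ν) (hv : InfV μ ν) : ∀ ε > (0 : ℝ), ∃ x₀ : ℝ, ∀ x ≥ x₀,
    ∑' b, ∫⁻ ω in {ω | Bd D ω b ∧ AliveQ D b ω ∧ Zw b ω ≤ x},
      VV D (stepLaw μ ν 1) (Zw b ω) ∂(PQ μ ν) ≤ ENNReal.ofReal (ε * x) := by
  intro ε hε
  have hpμ := h.probμ
  have hpν := h.probν
  obtain ⟨y₁, hy32, K, hK, hK1, hsm⟩ := Q4_small hD h hv (ε / 4) (by positivity)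
  refine ⟨2 * K / ε, fun x hx => ?_⟩
  have hps : IsProbabilityMeasure (stepLaw μ ν 1) := prob_stepLaw 1
  have hx0 : 0 ≤ x := le_trans (by positivity) hx
  have hF : Monotone fun x : ℝ => ∑' b, ∫⁻ ω in {ω | Bd D ω b ∧ AliveQ D b ω ∧ Zw b ω ≤ x},
      VV D (stepLaw μ ν 1) (Zw b ω) ∂(PQ μ ν) := by
    intro x y hxy
    refine ENNReal.tsum_le_tsum fun b => lintegral_mono_set ?_
    rintro ω ⟨h2, h3, h4⟩
    exact ⟨h2, h3, h4.trans hxy⟩
  have key := Q4_iter _ hF 1 y₁ K (ε / 4) (by linarith) hK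
    (by positivity) ?_ ?_ x hx0
  · refine key.trans ?_
    rw [mul_one]
    refine ENNReal.ofReal_le_ofReal ?_
    rw [ge_iff_le, div_le_iff₀ hε] at hx
    nlinarith
  · rw [mul_one]
    refine le_trans ?_ hK1
    rw [← time_zero hD, ← ENNReal.tsum_mul_left]
    refine ENNReal.tsum_le_tsum fun b => ?_
    refine (Q4_set_le hD _ _ _ y₁ fun ω hω => hω.2.2).trans ?_
    refine mul_le_mul_right (measure_mono ?_) _
    rintro ω ⟨h2, h3, h4⟩
    exact ⟨h3, h4⟩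
  · intro x hx
    have hx1 : 16 ≤ x := by linarith
    have h2 := Q4_piece hD h x hx1
    have h3 : (∑' b, ∫⁻ ω in {ω | Bd D ω b ∧ AliveQ D b ω ∧ Zw b ω ≤ x},
        VV D (stepLaw μ ν 1) (Zw b ω) ∂(PQ μ ν)) ≤
        (∑' b, ∫⁻ ω in {ω | Bd D ω b ∧ AliveQ D b ω ∧ Zw b ω ≤ x / 2},
          VV D (stepLaw μ ν 1) (Zw b ω) ∂(PQ μ ν)) +
        ∑' b, ∫⁻ ω in {ω | Bd D ω b ∧ AliveQ D b ω ∧ x / 2 < Zw b ω ∧ Zw b ω ≤ x},
          VV D (stepLaw μ ν 1) (Zw b ω) ∂(PQ μ ν) := by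
      rw [← ENNReal.tsum_add]
      refine ENNReal.tsum_le_tsum fun b => ?_
      refine le_trans (lintegral_mono_set ?_) (lintegral_union_le _ _ _)
      rintro ω ⟨h2, h3, h4⟩
      by_cases h5 : Zw b ω ≤ x / 2
      · exact Or.inl ⟨h2, h3, h5⟩
      · exact Or.inr ⟨h2, h3, not_le.1 h5, h4⟩
    refine h3.trans (add_le_add_right ?_ _)
    rw [mul_one]
    refine le_trans ?_ (hsm x hx)
    have h4 : (∑' b, ∫⁻ ω in {ω | Bd D ω b ∧ AliveQ D b ω ∧ x / 2 < Zw b ω ∧ Zw b ω ≤ x},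
          VV D (stepLaw μ ν 1) (Zw b ω) ∂(PQ μ ν)) ≤
        VV D (stepLaw μ ν 1) (2 * x) *
          ∑' b, PQ μ ν {ω | Bd D ω b ∧ AliveQ D b ω ∧ x / 2 < Zw b ω ∧ Zw b ω ≤ x} := by
      rw [← ENNReal.tsum_mul_left]
      refine ENNReal.tsum_le_tsum fun b => ?_
      exact Q4_set_le hD _ _ _ (2 * x) fun ω hω => hω.2.2.2.trans (by linarith)
    refine h4.trans ((mul_le_mul_right h2 _).trans (le_of_eq ?_))
    ring

/-- **[IVC-Q4c]** The number of boundaries from the start is `O(log x)`: each dyadic piece contributes at most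
`(64/y) GG(2y) ≤ 128 C`. -/
theorem bd_log (hD : Dom D) (h : QI μ ν) (hv : InfV μ ν) : ∃ C > (0 : ℝ), ∀ x : ℝ, 2 ≤ x →
    ∑' b, PQ μ ν {ω | Bd D ω b ∧ AliveQ D b ω ∧ Zw b ω ≤ x} ≤ ENNReal.ofReal (C * Real.log x) := by
  have hpμ := h.probμ
  have hpν := h.probν
  obtain ⟨C0, h2⟩ := GG_linear hD (h.cen hv)
  set F : ℝ → ℝ≥0∞ := fun x => ∑' b, PQ μ ν {ω | Bd D ω b ∧ AliveQ D b ω ∧ Zw b ω ≤ x} with hFd
  have hF : Monotone F := by
    intro x y hxy
    refine ENNReal.tsum_le_tsum fun b => measure_mono ?_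
    rintro ω ⟨h2, h3, h4⟩
    exact ⟨h2, h3, h4.trans hxy⟩
  have hlog : 0 < Real.log 2 := Real.log_pos one_lt_two
  set A : ℝ := 128 * (C0 + 1) / Real.log 2 with hA
  have hA0 : 0 < A := by positivity
  have hAl : A * Real.log 2 = 128 * (C0 + 1) := by rw [hA]; field_simp
  have hgg : ∀ x : ℝ, 1 ≤ x → GG D (stepLaw μ ν 1) x ≤ ENNReal.ofReal (C0 * x) := by
    intro x hx
    refine (h2 x hx).trans (le_of_eq ?_)
    rw [ENNReal.ofReal_mul (by positivity), ENNReal.ofReal_coe_nnreal]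
  have h32 : F 32 ≤ ENNReal.ofReal (32 * C0) := by
    refine le_trans ?_ ((hgg 32 (by norm_num)).trans (le_of_eq (by rw [mul_comm])))
    rw [← time_zero hD]
    refine ENNReal.tsum_le_tsum fun b => measure_mono ?_
    rintro ω ⟨h2, h3, h4⟩
    exact ⟨h3, h4⟩
  have hC0 : (0 : ℝ) ≤ C0 := C0.2
  refine ⟨A, hA0, ?_⟩
  have key : ∀ n : ℕ, ∀ x : ℝ, 2 ≤ x → x ≤ 2 ^ n * 32 → F x ≤ ENNReal.ofReal (A * Real.log x) := by
    intro n
    induction n with
    | zero =>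
      intro x hx hxn
      rw [pow_zero, one_mul] at hxn
      refine (hF hxn).trans (h32.trans (ENNReal.ofReal_le_ofReal ?_))
      have h5 : Real.log 2 ≤ Real.log x := Real.log_le_log (by norm_num) hx
      have h6 : A * Real.log 2 ≤ A * Real.log x := mul_le_mul_of_nonneg_left h5 hA0.le
      linarith
    | succ n ih =>
      intro x hx hxn
      by_cases hx32 : x ≤ 32
      · refine (hF hx32).trans (h32.trans (ENNReal.ofReal_le_ofReal ?_))
        have h5 : Real.log 2 ≤ Real.log x := Real.log_le_log (by norm_num) hx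
        have h6 : A * Real.log 2 ≤ A * Real.log x := mul_le_mul_of_nonneg_left h5 hA0.le
        linarith
      · push Not at hx32
        have hx0 : (0 : ℝ) < x := by linarith
        have h1 := ih (x / 2) (by linarith) (by rw [pow_succ] at hxn; linarith)
        have h3 : F x ≤ F (x / 2) +
            ∑' b, PQ μ ν {ω | Bd D ω b ∧ AliveQ D b ω ∧ x / 2 < Zw b ω ∧ Zw b ω ≤ x} := by
          rw [hFd]
          simp only
          rw [← ENNReal.tsum_add]
          refine ENNReal.tsum_le_tsum fun b => ?_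
          refine le_trans (measure_mono ?_) (measure_union_le _ _)
          rintro ω ⟨h2, h3, h4⟩
          by_cases h5 : Zw b ω ≤ x / 2
          · exact Or.inl ⟨h2, h3, h5⟩
          · exact Or.inr ⟨h2, h3, not_le.1 h5, h4⟩
        have h4 := Q4_piece hD h x (by linarith)
        have h5 : ENNReal.ofReal (64 / x) * GG D (stepLaw μ ν 1) (2 * x) ≤
            ENNReal.ofReal (128 * C0) := by
          refine (mul_le_mul_right (hgg (2 * x) (by linarith)) _).trans (le_of_eq ?_)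
          rw [← ENNReal.ofReal_mul (by positivity)]
          congr 1
          field_simp
          ring
        refine h3.trans ((add_le_add h1 (h4.trans h5)).trans ?_)
        have h6 : Real.log (x / 2) = Real.log x - Real.log 2 :=
          Real.log_div hx0.ne' (by norm_num)
        have h7 : 0 ≤ Real.log (x / 2) := Real.log_nonneg (by linarith)
        rw [← ENNReal.ofReal_add (by positivity) (by positivity)]
        refine ENNReal.ofReal_le_ofReal ?_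
        rw [h6, mul_sub, hAl]
        linarith
  intro x hx
  obtain ⟨n, hn⟩ := pow_unbounded_of_one_lt (x / 32) (one_lt_two)
  refine key n x hx ?_
  rw [div_lt_iff₀ (by norm_num)] at hn
  exact hn.le

end Pool.Agent.BPT
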