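import Pool.Agent.MP_99a865_pr.CV.Q1

open MeasureTheory ProbabilityTheory Filter Topology
open scoped ENNReal NNReal

namespace Pool.Agent.BPT

variable {D : Set ℝ} {μ ν : Measure ℝ}

/-- pure counting: `HS` is a set of indices, `nx b` the end of the interval `[b, nx b)` of `b` -/
theorem Q5_count (HS : Finset ℕ) (n m : ℕ) (hnm : n ≤ m) (nx : ℕ → ℕ) (W : Finset ℕ)
    (t s : ℕ → ℝ) (ht : ∀ i, 0 ≤ t i) (x : ℝ) (hx : 0 < x)
    (hnx : ∀ b ∈ HS, nx b ≤ n)
    (hdis : ∀ b ∈ HS, ∀ c ∈ HS, b < c → nx b ≤ c)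
    (hW : ∀ i, i < m → i ∉ W → t i = s i)
    (P : Finset ℕ) (hP : P ⊆ HS)
    (hsum : ∀ b ∈ P, x ≤ ∑ i ∈ Finset.Ico b (nx b), s i) :
    ((P.card : ℝ) - W.card) * x ≤ ∑ i ∈ Finset.range m, t i := by
  classical
  have hpd : ∀ b ∈ HS, ∀ c ∈ HS, b ≠ c →
      Disjoint (Finset.Ico b (nx b)) (Finset.Ico c (nx c)) := by
    have key : ∀ b ∈ HS, ∀ c ∈ HS, b < c →
        Disjoint (Finset.Ico b (nx b)) (Finset.Ico c (nx c)) := by
      intro b hb c hc hbc
      have h1 := hdis b hb c hc hbc
      rw [Finset.disjoint_left]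
      intro i hi hi'
      rw [Finset.mem_Ico] at hi hi'
      omega
    intro b hb c hc hbc
    rcases lt_or_gt_of_ne hbc with h | h
    · exact key b hb c hc h
    · exact (key c hc b hb h).symm
  let P1 : Finset ℕ := P.filter fun b => ∃ i ∈ Finset.Ico b (nx b), i ∈ W
  let P2 : Finset ℕ := P.filter fun b => ¬ ∃ i ∈ Finset.Ico b (nx b), i ∈ W
  have hcard : P1.card + P2.card = P.card := Finset.card_filter_add_card_filter_not _
  have hP1 : P1.card ≤ W.card := by
    have h1 : P1.card ≤ ∑ b ∈ P1, (Finset.Ico b (nx b) ∩ W).card := by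
      rw [Finset.card_eq_sum_ones]
      refine Finset.sum_le_sum fun b hb => ?_
      obtain ⟨i, hi, hiW⟩ := (Finset.mem_filter.1 hb).2
      exact Finset.card_pos.2 ⟨i, Finset.mem_inter.2 ⟨hi, hiW⟩⟩
    rw [← Finset.card_biUnion] at h1
    · refine h1.trans (Finset.card_le_card ?_)
      intro i hi
      obtain ⟨b, -, hb⟩ := Finset.mem_biUnion.1 hi
      exact (Finset.mem_inter.1 hb).2
    · intro b hb c hc hbc
      have h2 := hpd b (hP (Finset.mem_filter.1 hb).1) c (hP (Finset.mem_filter.1 hc).1) hbc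
      exact Finset.disjoint_of_subset_left Finset.inter_subset_left
        (Finset.disjoint_of_subset_right Finset.inter_subset_left h2)
  have hP2 : (P2.card : ℝ) * x ≤ ∑ i ∈ Finset.range m, t i := by
    have h1 : (P2.card : ℝ) * x = ∑ _b ∈ P2, x := by
      rw [Finset.sum_const, nsmul_eq_mul]
    rw [h1]
    have h2 : ∑ _b ∈ P2, x ≤ ∑ b ∈ P2, ∑ i ∈ Finset.Ico b (nx b), t i := by
      refine Finset.sum_le_sum fun b hb => ?_
      obtain ⟨hbP, hbW⟩ := Finset.mem_filter.1 hb
      refine (hsum b hbP).trans (le_of_eq ?_)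
      refine Finset.sum_congr rfl fun i hi => ?_
      have h3 : i < m := by
        have := hnx b (hP hbP)
        have := (Finset.mem_Ico.1 hi).2
        omega
      exact (hW i h3 fun h4 => hbW ⟨i, hi, h4⟩).symm
    refine h2.trans ?_
    rw [← Finset.sum_biUnion]
    · refine Finset.sum_le_sum_of_subset_of_nonneg ?_ fun i _ _ => ht i
      intro i hi
      obtain ⟨b, hb, hib⟩ := Finset.mem_biUnion.1 hi
      have := hnx b (hP (Finset.mem_filter.1 hb).1)
      have := (Finset.mem_Ico.1 hib).2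
      rw [Finset.mem_range]
      omega
    · intro b hb c hc hbc
      exact hpd b (hP (Finset.mem_filter.1 hb).1) c (hP (Finset.mem_filter.1 hc).1) hbc
  refine le_trans (mul_le_mul_of_nonneg_right ?_ hx.le) hP2
  have h1 : (P.card : ℝ) = P1.card + P2.card := by
    rw [← hcard]
    push_cast
    rfl
  have h2 : (P1.card : ℝ) ≤ W.card := by exact_mod_cast hP1
  linarith

open Classical in
/-- **[IVC-Q5]** Many boundaries at high levels force large interarrival times.
PROOF. `HB D n ω` is the number of boundaries `b < n`; on `EvN D n` all of them are alive (`b ≤ n - 1`). At most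
`cG D x m ω < a/4` of them have `Zw b ≤ x`, so at least `3a/4` have `Zw b > x`. For such `b` let `b' ≤ n` be the
next boundary (`exists_next`): `Ar b' - Ar b ≥ Zw b > x` since `Dp b - Ar b' ∉ D`. The intervals `[b, b')` are
disjoint subsets of `[0, n) ⊆ [0, m)`. If fewer than `a/4` indices `i < m` have `(ω i).1 ≥ w`, then at least `a/2` of
these intervals contain none of them, so for each of them the sum of the `(ω i).1 < w` over the interval is
`Ar b' - Ar b ≥ x`. -/
theorem gaps_det (hD : Dom D) {ω : ℕ → ℝ × ℝ} (hnn : NN ω) (n m : ℕ) (hN : ω ∈ EvN D n) (hnm : n ≤ m)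
    (a x w : ℝ) (hx : 0 < x) (hHB : a ≤ HB D n ω) (hG : (cG D x m ω : ℝ) < a / 4) :
    a / 4 ≤ ((Finset.range m).filter fun i => w ≤ (ω i).1).card ∨
    a / 2 * x ≤ ∑ i ∈ Finset.range m, (if (ω i).1 < w then (ω i).1 else 0) := by
  rcases le_or_gt (a / 4) (((Finset.range m).filter fun i => w ≤ (ω i).1).card : ℝ) with hW | hW
  · exact Or.inl hW
  right
  have hnext : ∀ b, b ∈ (Finset.range n).filter (fun b => Bd D ω b) → ∃ b', b' ≤ n ∧
      Nxt D ω b b' ∧ Dp b ω - Ar b' ω ∉ D := by
    intro b hb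
    obtain ⟨hb1, hb2⟩ := Finset.mem_filter.1 hb
    obtain ⟨b', h1, h2, -, h3⟩ := exists_next hD hN hnn hb2 (Finset.mem_range.1 hb1)
    exact ⟨b', h1, h2, h3⟩
  choose! nx hnx1 hnx2 hnx3 using hnext
  let P : Finset ℕ := ((Finset.range n).filter (fun b => Bd D ω b)).filter fun b => x < Zw b ω
  let Q : Finset ℕ := ((Finset.range n).filter (fun b => Bd D ω b)).filter fun b => ¬ x < Zw b ω
  have hcard : P.card + Q.card = HB D n ω := Finset.card_filter_add_card_filter_not _
  have hQ : Q.card ≤ cG D x m ω := by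
    refine Finset.card_le_card ?_
    intro b hb
    obtain ⟨hb1, hb2⟩ := Finset.mem_filter.1 hb
    obtain ⟨hb3, hb4⟩ := Finset.mem_filter.1 hb1
    have hbn := Finset.mem_range.1 hb3
    rw [Finset.mem_filter, Finset.mem_range]
    refine ⟨by omega, hb4, ?_, not_lt.1 hb2⟩
    intro j h1 h2
    exact hN.2.1 j h1 (by omega)
  have h1 := Q5_count ((Finset.range n).filter (fun b => Bd D ω b)) n m hnm nx
    ((Finset.range m).filter fun i => w ≤ (ω i).1)
    (fun i => if (ω i).1 < w then (ω i).1 else 0) (fun i => (ω i).1)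
    (fun i => by
      split_ifs
      · exact (hnn i).1
      · exact le_rfl) x hx hnx1
    (fun b hb c hc hbc => by
      by_contra h2
      exact (hnx2 b hb).2.2.2 c hbc (by omega) (Finset.mem_filter.1 hc).2)
    (fun i hi hiW => by
      have h2 : (ω i).1 < w := by
        by_contra h3
        exact hiW (Finset.mem_filter.2 ⟨Finset.mem_range.2 hi, not_lt.1 h3⟩)
      rw [if_pos h2]) P (Finset.filter_subset _ _)
    (fun b hb => by
      obtain ⟨hb1, hb2⟩ := Finset.mem_filter.1 hb
      have h3 := hD.not_mem (hnx3 b hb1)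
      have h4 : Ar (nx b) ω - Ar b ω = ∑ i ∈ Finset.Ico b (nx b), (ω i).1 := by
        unfold Ar
        rw [Finset.sum_Ico_eq_sub _ (hnx2 b hb1).2.2.1.le]
      rw [← h4]
      unfold Zw at hb2
      linarith)
  refine le_trans (mul_le_mul_of_nonneg_right ?_ hx.le) h1
  have h2 : ((P.card : ℕ) : ℝ) + Q.card = HB D n ω := by exact_mod_cast hcard
  have h3 : ((Q.card : ℕ) : ℝ) ≤ cG D x m ω := by exact_mod_cast hQ
  linarith

end Pool.Agent.BPT
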