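import Pool.Agent.MP_99a865_pr.CV.Q1

open MeasureTheory ProbabilityTheory Filter Topology
open scoped ENNReal NNReal

namespace Pool.Agent.BPT

variable {D : Set ℝ} {μ ν : Measure ℝ}

/-! auxiliary lemmas -/

theorem Q6_prod [IsProbabilityMeasure μ] [IsProbabilityMeasure ν] (g : ℝ → ℝ≥0∞) (hg : Measurable g)
    (n : ℕ) : ∫⁻ ω, ∏ i ∈ Finset.range n, g (ω i).1 ∂(PQ μ ν) = (∫⁻ x, g x ∂μ) ^ n := by
  have hind : iIndepFun (fun (i : ℕ) (ω : ℕ → ℝ × ℝ) => g (ω i).1) (PQ μ ν) := by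
    unfold PQ seqLaw
    exact iIndepFun_infinitePi (X := fun (_ : ℕ) (p : ℝ × ℝ) => g p.1)
      (fun _ => hg.comp measurable_fst)
  rw [lintegral_prod_eq_prod_lintegral_of_indepFun (Finset.range n) _ hind
    (fun i => hg.comp (measurable_fst.comp (measurable_pi_apply i)))]
  have h1 : ∀ i : ℕ, ∫⁻ ω, g (ω i).1 ∂(PQ μ ν) = ∫⁻ x, g x ∂μ := by
    intro i
    have h2 : ∫⁻ ω, g (ω i).1 ∂(PQ μ ν) = ∫⁻ p, g p.1 ∂(μ.prod ν) := by
      have h3 : (PQ μ ν).map (fun ω => ω i) = μ.prod ν := by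
        unfold PQ seqLaw
        exact Measure.infinitePi_map_eval (fun _ : ℕ => μ.prod ν) i
      rw [← h3]
      exact (lintegral_map (f := fun p : ℝ × ℝ => g p.1) (g := fun ω : ℕ → ℝ × ℝ => ω i)
        (hg.comp measurable_fst) (measurable_pi_apply i)).symm
    rw [h2]
    have h4 : (μ.prod ν).map Prod.fst = μ := by
      rw [Measure.map_fst_prod]; simp
    conv_rhs => rw [← h4]
    rw [lintegral_map hg measurable_fst]
  rw [Finset.prod_congr rfl (fun i _ => h1 i), Finset.prod_const, Finset.card_range]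

theorem Q6_tail (c : ℝ) (hc : 0 < c) : ∃ M₀ : ℕ, ∀ M : ℕ, M₀ ≤ M → 1 ≤ M ∧
    Real.exp (-(c * √M)) ≤ 1 / (M : ℝ) ^ 4 := by
  have h1 : Tendsto (fun M : ℕ => c * √(M : ℝ)) atTop atTop := by
    apply Tendsto.const_mul_atTop hc
    exact Real.tendsto_sqrt_atTop.comp tendsto_natCast_atTop_atTop
  have h2 := (Real.tendsto_pow_mul_exp_neg_atTop_nhds_zero 8).comp h1
  have h3 : ∀ᶠ M : ℕ in atTop, (c * √(M : ℝ)) ^ 8 * Real.exp (-(c * √(M : ℝ))) ≤ c ^ 8 := by
    have := h2.eventually (ge_mem_nhds (show (0 : ℝ) < c ^ 8 by positivity))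
    exact this
  obtain ⟨M₀, hM₀⟩ := eventually_atTop.mp h3
  refine ⟨M₀ + 1, fun M hM => ?_⟩
  refine ⟨by omega, ?_⟩
  have h4 := hM₀ M (by omega)
  have h5 : (0 : ℝ) < M := by exact_mod_cast (by omega : 0 < M)
  have h6 : (c * √(M : ℝ)) ^ 8 = c ^ 8 * (M : ℝ) ^ 4 := by
    have : (√(M : ℝ)) ^ 2 = M := Real.sq_sqrt h5.le
    calc (c * √(M : ℝ)) ^ 8 = c ^ 8 * ((√(M : ℝ)) ^ 2) ^ 4 := by ring
      _ = c ^ 8 * (M : ℝ) ^ 4 := by rw [this]
  rw [h6] at h4
  rw [le_div_iff₀ (by positivity)]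
  have h7 : 0 < c ^ 8 := by positivity
  have h8 : c ^ 8 * (Real.exp (-(c * √(M : ℝ))) * (M : ℝ) ^ 4) ≤ c ^ 8 * 1 := by linarith
  exact le_of_mul_le_mul_left h8 h7

/-- the tail of the first moment tends to zero -/
theorem Q6_tail_int (h : QI μ ν) (δ : ℝ) (hδ : 0 < δ) : ∃ M₀ : ℕ, ∀ M : ℕ, M₀ ≤ M →
    √M * μ.real {x | √M ≤ x} ≤ δ := by
  haveI := h.probμ
  have hint : Integrable (fun x : ℝ => x) μ := (QI.int h).1
  have hmeas : ∀ M : ℕ, MeasurableSet {x : ℝ | √(M : ℝ) ≤ x} := fun M => measurableSet_Ici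
  have hanti : Antitone fun M : ℕ => {x : ℝ | √(M : ℝ) ≤ x} := by
    intro M M' hM x hx
    have : √(M : ℝ) ≤ √(M' : ℝ) := Real.sqrt_le_sqrt (by exact_mod_cast hM)
    exact this.trans hx
  have hlim := tendsto_setIntegral_of_antitone (μ := μ) hmeas hanti ⟨0, hint.integrableOn⟩
  have hempty : (⋂ M : ℕ, {x : ℝ | √(M : ℝ) ≤ x}) = ∅ := by
    ext x
    simp only [Set.mem_iInter, Set.mem_ofPred_eq, Set.mem_empty_iff_false, iff_false, not_forall,
      not_le]
    obtain ⟨M, hM⟩ := exists_nat_gt (|x| ^ 2)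
    refine ⟨M, lt_of_le_of_lt (le_abs_self x) ?_⟩
    exact Real.lt_sqrt_of_sq_lt hM
  rw [hempty, setIntegral_empty] at hlim
  obtain ⟨M₀, hM₀⟩ := eventually_atTop.mp (hlim.eventually (ge_mem_nhds hδ))
  refine ⟨M₀, fun M hM => ?_⟩
  refine le_trans ?_ (hM₀ M hM)
  have h1 : √M * μ.real {x | √M ≤ x} = ∫ x in {x : ℝ | √(M : ℝ) ≤ x}, √(M : ℝ) ∂μ := by
    rw [setIntegral_const, smul_eq_mul, mul_comm]
  rw [h1]
  apply setIntegral_mono_on _ hint.integrableOn (hmeas M)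
  · intro x hx
    exact hx
  · exact integrableOn_const (measure_ne_top _ _)

open Classical in
/-- **[IVC-Q6a]** PROOF. With `w = √M`, `G = #{i < 2M : u_i ≥ w}`: `E 2^G = (1 + P(u ≥ w))^{2M} ≤ exp(2M P(u ≥ w))` and
`2M P(u ≥ w) ≤ 2√M E[u; u ≥ √M] = o(√M)`, so `P(G ≥ ε√M) ≤ 2^{-ε√M} e^{o(√M)} ≤ M^{-4}` for `M` large. (`u_i` are
the first coordinates, i.i.d. with law `μ`; exponential moments of sums: `iIndepFun`, or induction with
`lintegral_split`.) -/
theorem giants (h : QI μ ν) : ∀ ε > (0 : ℝ), ∃ M₀ : ℕ, ∀ M ≥ M₀,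
    PQ μ ν {ω | ε * √M ≤ ((Finset.range (2 * M)).filter fun i => √M ≤ (ω i).1).card} ≤
      ENNReal.ofReal (1 / (M : ℝ) ^ 4) := by
  haveI := h.probμ
  haveI := h.probν
  intro ε hε
  have hl2 : 0 < Real.log 2 := Real.log_pos (by norm_num)
  obtain ⟨M₁, hM₁⟩ := Q6_tail_int h (ε * Real.log 2 / 4) (by positivity)
  obtain ⟨M₂, hM₂⟩ := Q6_tail (ε * Real.log 2 / 2) (by positivity)
  refine ⟨max M₁ M₂, fun M hM => ?_⟩
  have h1 := hM₁ M (le_trans (le_max_left _ _) hM)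
  obtain ⟨h0, h2⟩ := hM₂ M (le_trans (le_max_right _ _) hM)
  have hMpos : (0 : ℝ) < M := by exact_mod_cast h0
  set p : ℝ := μ.real {x | √(M : ℝ) ≤ x} with hp
  have hp0 : 0 ≤ p := measureReal_nonneg
  set g : ℝ → ℝ≥0∞ := fun x => if √(M : ℝ) ≤ x then 2 else 1 with hg
  have hgm : Measurable g := by
    apply Measurable.ite measurableSet_Ici measurable_const measurable_const
  have hgi : ∫⁻ x, g x ∂μ ≤ ENNReal.ofReal (Real.exp p) := by
    have e1 : ∀ x, g x = 1 + ({x : ℝ | √(M : ℝ) ≤ x}).indicator (fun _ => (1 : ℝ≥0∞)) x := by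
      intro x
      simp only [hg, Set.indicator_apply, Set.mem_ofPred_eq]
      split_ifs <;> norm_num
    have hms : MeasurableSet {x : ℝ | √(M : ℝ) ≤ x} := measurableSet_Ici
    rw [lintegral_congr e1, lintegral_add_left measurable_const, lintegral_const, measure_univ,
      mul_one, lintegral_indicator hms, setLIntegral_const, one_mul]
    have e2 : μ {x : ℝ | √(M : ℝ) ≤ x} = ENNReal.ofReal p := by
      rw [hp, ofReal_measureReal]
    change 1 + μ {x : ℝ | √(M : ℝ) ≤ x} ≤ _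
    rw [e2, ← ENNReal.ofReal_one, ← ENNReal.ofReal_add zero_le_one hp0]
    apply ENNReal.ofReal_le_ofReal
    linarith [Real.add_one_le_exp p]
  have hE : ∫⁻ ω, ∏ i ∈ Finset.range (2 * M), g (ω i).1 ∂(PQ μ ν) ≤
      ENNReal.ofReal (Real.exp (ε * Real.log 2 / 2 * √M)) := by
    rw [Q6_prod g hgm]
    calc (∫⁻ x, g x ∂μ) ^ (2 * M) ≤ (ENNReal.ofReal (Real.exp p)) ^ (2 * M) := by gcongr
      _ = ENNReal.ofReal (Real.exp p ^ (2 * M)) := by rw [ENNReal.ofReal_pow (Real.exp_pos p).le]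
      _ ≤ ENNReal.ofReal (Real.exp (ε * Real.log 2 / 2 * √M)) := by
        apply ENNReal.ofReal_le_ofReal
        rw [← Real.exp_nat_mul]
        apply Real.exp_le_exp.mpr
        push_cast
        have e3 : (M : ℝ) = √M * √M := (Real.mul_self_sqrt hMpos.le).symm
        have e4 : 2 * (M : ℝ) * p = 2 * √M * (√M * p) := by
          conv_lhs => rw [e3]
          ring
        rw [e4]
        have e5 : 0 ≤ 2 * √(M : ℝ) := by positivity
        nlinarith [mul_le_mul_of_nonneg_left h1 e5]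
  set c : ℝ := ε * √M * Real.log 2 with hc
  have hmark := mul_meas_ge_le_lintegral (μ := PQ μ ν)
    (f := fun ω : ℕ → ℝ × ℝ => ∏ i ∈ Finset.range (2 * M), g (ω i).1)
    (Finset.measurable_prod _ fun i _ => hgm.comp (measurable_fst.comp (measurable_pi_apply i)))
    (ENNReal.ofReal (Real.exp c))
  have hsub : {ω : ℕ → ℝ × ℝ | ε * √M ≤
      ((Finset.range (2 * M)).filter fun i => √M ≤ (ω i).1).card} ⊆
      {ω | ENNReal.ofReal (Real.exp c) ≤ ∏ i ∈ Finset.range (2 * M), g (ω i).1} := by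
    intro ω hω
    simp only [Set.mem_ofPred_eq] at hω ⊢
    have e1 : ∏ i ∈ Finset.range (2 * M), g (ω i).1 =
        2 ^ ((Finset.range (2 * M)).filter fun i => √M ≤ (ω i).1).card := by
      simp only [hg]
      rw [Finset.prod_ite, Finset.prod_const, Finset.prod_const_one, mul_one]
    rw [e1]
    have e2 : (2 : ℝ≥0∞) ^ ((Finset.range (2 * M)).filter fun i => √M ≤ (ω i).1).card =
        ENNReal.ofReal (Real.exp (((Finset.range (2 * M)).filter fun i =>
          √M ≤ (ω i).1).card * Real.log 2)) := by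
      rw [Real.exp_nat_mul, Real.exp_log (by norm_num), ENNReal.ofReal_pow (by norm_num)]
      norm_num
    rw [e2]
    apply ENNReal.ofReal_le_ofReal
    apply Real.exp_le_exp.mpr
    rw [hc]
    exact mul_le_mul_of_nonneg_right hω hl2.le
  have hpos : ENNReal.ofReal (Real.exp c) ≠ 0 := by
    rw [Ne, ENNReal.ofReal_eq_zero, not_le]; exact Real.exp_pos c
  calc PQ μ ν {ω | ε * √M ≤ ((Finset.range (2 * M)).filter fun i => √M ≤ (ω i).1).card}
      ≤ PQ μ ν {ω | ENNReal.ofReal (Real.exp c) ≤ ∏ i ∈ Finset.range (2 * M), g (ω i).1} :=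
        measure_mono hsub
    _ ≤ ENNReal.ofReal (Real.exp (ε * Real.log 2 / 2 * √M)) / ENNReal.ofReal (Real.exp c) := by
        rw [ENNReal.le_div_iff_mul_le (Or.inl hpos) (Or.inl ENNReal.ofReal_ne_top), mul_comm]
        exact hmark.trans hE
    _ = ENNReal.ofReal (Real.exp (-(ε * Real.log 2 / 2 * √M))) := by
        rw [← ENNReal.ofReal_div_of_pos (Real.exp_pos c), ← Real.exp_sub]
        congr 2
        rw [hc]; ring
    _ ≤ ENNReal.ofReal (1 / (M : ℝ) ^ 4) := ENNReal.ofReal_le_ofReal h2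

/-- **[IVC-Q6b]** PROOF. With `ũ = u 1{u < √M}`, `E exp(ũ/√M) ≤ 1 + 2 E ũ/√M ≤ exp(2/√M)` (`e^t ≤ 1 + 2t` on `[0,1]`), so
`P(∑_{i<2M} ũ_i ≥ 50 M) ≤ exp(-50√M) exp(4√M) ≤ M^{-4}` for `M` large. -/
theorem trunc_sum (h : QI μ ν) : ∃ M₀ : ℕ, ∀ M ≥ M₀,
    PQ μ ν {ω | 50 * (M : ℝ) ≤ ∑ i ∈ Finset.range (2 * M), (if (ω i).1 < √M then (ω i).1 else 0)} ≤
      ENNReal.ofReal (1 / (M : ℝ) ^ 4) := by
  classical
  haveI := h.probμ
  haveI := h.probν
  obtain ⟨M₂, hM₂⟩ := Q6_tail 46 (by norm_num)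
  refine ⟨M₂, fun M hM => ?_⟩
  obtain ⟨h0, h2⟩ := hM₂ M hM
  have hMpos : (0 : ℝ) < M := by exact_mod_cast h0
  have hs : 0 < √(M : ℝ) := Real.sqrt_pos.mpr hMpos
  have hint : Integrable (fun x : ℝ => x) μ := (QI.int h).1
  set t : ℝ → ℝ := fun x => if x < √(M : ℝ) then x else 0 with ht
  have htm : Measurable t := Measurable.ite measurableSet_Iio measurable_id measurable_const
  set g : ℝ → ℝ≥0∞ := fun x => ENNReal.ofReal (Real.exp (t x / √M)) with hg
  have hgm : Measurable g := by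
    apply ENNReal.measurable_ofReal.comp
    exact Real.measurable_exp.comp (htm.div_const _)
  have hnn : ∀ᵐ x ∂μ, 0 ≤ x := by
    rw [ae_iff]
    have : {a : ℝ | ¬ 0 ≤ a} = Set.Iio 0 := by ext a; simp
    rw [this]
    exact h.nonnegμ
  have hgi : ∫⁻ x, g x ∂μ ≤ ENNReal.ofReal (Real.exp (2 / √M)) := by
    have e1 : ∫⁻ x, g x ∂μ ≤ ∫⁻ x, ENNReal.ofReal (1 + 2 * (x / √M)) ∂μ := by
      apply lintegral_mono_ae
      filter_upwards [hnn] with x hx
      apply ENNReal.ofReal_le_ofReal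
      have e2 : 0 ≤ t x ∧ t x ≤ x ∧ t x ≤ √M := by
        simp only [ht]
        split_ifs with hlt
        · exact ⟨hx, le_refl _, hlt.le⟩
        · exact ⟨le_refl _, hx, hs.le⟩
      have e3 : 0 ≤ t x / √M := div_nonneg e2.1 hs.le
      have e4 : t x / √M ≤ 1 := by rw [div_le_one hs]; exact e2.2.2
      have e5 : t x / √M ≤ x / √M := div_le_div_of_nonneg_right e2.2.1 hs.le
      have e6 : Real.exp (t x / √M) ≤ 1 + 2 * (t x / √M) := by
        have := Real.exp_bound' e3 e4 (n := 2) (by norm_num)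
        simp [Finset.sum_range_succ] at this
        nlinarith
      linarith
    refine e1.trans ?_
    have e7 : Integrable (fun x : ℝ => 1 + 2 * (x / √M)) μ :=
      (integrable_const _).add ((hint.div_const _).const_mul 2)
    rw [← ofReal_integral_eq_lintegral_ofReal e7 (by
      filter_upwards [hnn] with x hx
      have : 0 ≤ x / √(M : ℝ) := div_nonneg hx hs.le
      simp only [Pi.zero_apply]
      linarith)]
    apply ENNReal.ofReal_le_ofReal
    rw [integral_add (integrable_const _) ((hint.div_const _).const_mul 2), integral_const,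
      integral_const_mul, integral_div, h.meanμ]
    rw [probReal_univ, smul_eq_mul]
    have := Real.add_one_le_exp (2 / √(M : ℝ))
    have e8 : 2 * (1 / √(M : ℝ)) = 2 / √(M : ℝ) := by ring
    rw [e8]
    linarith
  have hE : ∫⁻ ω, ∏ i ∈ Finset.range (2 * M), g (ω i).1 ∂(PQ μ ν) ≤
      ENNReal.ofReal (Real.exp (4 * √M)) := by
    rw [Q6_prod g hgm]
    calc (∫⁻ x, g x ∂μ) ^ (2 * M) ≤ (ENNReal.ofReal (Real.exp (2 / √M))) ^ (2 * M) := by gcongr
      _ = ENNReal.ofReal (Real.exp (2 / √M) ^ (2 * M)) := by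
        rw [ENNReal.ofReal_pow (Real.exp_pos _).le]
      _ ≤ ENNReal.ofReal (Real.exp (4 * √M)) := by
        apply ENNReal.ofReal_le_ofReal
        rw [← Real.exp_nat_mul]
        apply Real.exp_le_exp.mpr
        push_cast
        have e3 : (M : ℝ) = √M * √M := (Real.mul_self_sqrt hMpos.le).symm
        have e4 : 2 * (M : ℝ) * (2 / √M) = 4 * √M := by
          have e5 : (M : ℝ) / √M = √M := by rw [div_eq_iff hs.ne', ← e3]
          calc 2 * (M : ℝ) * (2 / √M) = 4 * ((M : ℝ) / √M) := by ring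
            _ = 4 * √M := by rw [e5]
        rw [e4]
  set c : ℝ := 50 * √M with hc
  have hmark := mul_meas_ge_le_lintegral (μ := PQ μ ν)
    (f := fun ω : ℕ → ℝ × ℝ => ∏ i ∈ Finset.range (2 * M), g (ω i).1)
    (Finset.measurable_prod _ fun i _ => hgm.comp (measurable_fst.comp (measurable_pi_apply i)))
    (ENNReal.ofReal (Real.exp c))
  have hsub : {ω : ℕ → ℝ × ℝ | 50 * (M : ℝ) ≤
      ∑ i ∈ Finset.range (2 * M), (if (ω i).1 < √M then (ω i).1 else 0)} ⊆
      {ω | ENNReal.ofReal (Real.exp c) ≤ ∏ i ∈ Finset.range (2 * M), g (ω i).1} := by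
    intro ω hω
    simp only [Set.mem_ofPred_eq] at hω ⊢
    simp only [hg]
    rw [← ENNReal.ofReal_prod_of_nonneg (fun i _ => (Real.exp_pos _).le), ← Real.exp_sum]
    apply ENNReal.ofReal_le_ofReal
    apply Real.exp_le_exp.mpr
    rw [← Finset.sum_div, le_div_iff₀ hs, hc]
    have e3 : √(M : ℝ) * √M = M := Real.mul_self_sqrt hMpos.le
    have e4 : 50 * √(M : ℝ) * √M = 50 * M := by rw [mul_assoc, e3]
    rw [e4]
    exact hω
  have hpos : ENNReal.ofReal (Real.exp c) ≠ 0 := by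
    rw [Ne, ENNReal.ofReal_eq_zero, not_le]; exact Real.exp_pos c
  calc PQ μ ν {ω | 50 * (M : ℝ) ≤
        ∑ i ∈ Finset.range (2 * M), (if (ω i).1 < √M then (ω i).1 else 0)}
      ≤ PQ μ ν {ω | ENNReal.ofReal (Real.exp c) ≤ ∏ i ∈ Finset.range (2 * M), g (ω i).1} :=
        measure_mono hsub
    _ ≤ ENNReal.ofReal (Real.exp (4 * √M)) / ENNReal.ofReal (Real.exp c) := by
        rw [ENNReal.le_div_iff_mul_le (Or.inl hpos) (Or.inl ENNReal.ofReal_ne_top), mul_comm]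
        exact hmark.trans hE
    _ = ENNReal.ofReal (Real.exp (-(46 * √M))) := by
        rw [← ENNReal.ofReal_div_of_pos (Real.exp_pos c), ← Real.exp_sub]
        congr 2
        rw [hc]; ring
    _ ≤ ENNReal.ofReal (1 / (M : ℝ) ^ 4) := ENNReal.ofReal_le_ofReal h2

end Pool.Agent.BPT
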