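import Pool.Agent.MP_99a865_pr.CV.Q5
import Pool.Agent.MP_99a865_pr.CV.Q6

open MeasureTheory ProbabilityTheory Filter Topology
open scoped ENNReal NNReal

namespace Pool.Agent.BPT

variable {D : Set ℝ} {μ ν : Measure ℝ}

theorem measurable_cG (hD : Dom D) (x : ℝ) (m : ℕ) : Measurable (cG D x m) := by
  classical
  have h1 : cG D x m = fun ω => ∑ b ∈ Finset.range m,
      (if Bd D ω b ∧ AliveQ D b ω ∧ Zw b ω ≤ x then 1 else 0 : ℕ) := by
    funext ω
    unfold cG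
    rw [Finset.card_filter]
  rw [h1]
  refine Finset.measurable_sum _ fun b _ => ?_
  refine Measurable.ite ?_ measurable_const measurable_const
  have h2 : MeasurableSet {ω : ℕ → ℝ × ℝ | Zw b ω ≤ x} :=
    measurableSet_le (measurable_Zw b) measurable_const
  exact (measurableSet_Bd hD b).inter ((measurableSet_aliveQ hD b).inter h2)

theorem measurableSet_EvI (hD : Dom D) (M M' : ℕ) : MeasurableSet (EvI D M M') := by
  have h1 : EvI D M M' = ⋃ n : ℕ, ⋃ (_ : M ≤ n), ⋃ (_ : n < M'), EvN D n := by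
    ext ω
    simp only [EvI, Set.mem_ofPred_eq, Set.mem_iUnion, exists_prop]
  rw [h1]
  exact MeasurableSet.iUnion fun n => MeasurableSet.iUnion fun _ => MeasurableSet.iUnion fun _ =>
    measurableSet_EvN hD n

/-- **[IVC-Q7]** A large height forces many boundaries at levels of order `√M`.
PROOF. `gaps_det` with `m = 2M`, `a = ε√M`, `x = (100/ε)√M`, `w = √M` (`a x/2 = 50 M`), `giants` with `ε/4`, `trunc_sum`,
`ae_NN`. -/
theorem height_count (hD : Dom D) (h : QI μ ν) (ε : ℝ) (hε : 0 < ε) : ∃ M₀ : ℕ, ∀ M ≥ M₀,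
    PQ μ ν {ω | ∃ n, M ≤ n ∧ n < 2 * M ∧ ω ∈ EvN D n ∧ ε * √M ≤ HB D n ω} ≤
      PQ μ ν (EvI D M (2 * M) ∩ {ω | ε / 4 * √M ≤ cG D (100 / ε * √M) (2 * M) ω}) +
        ENNReal.ofReal (2 / (M : ℝ) ^ 4) := by
  classical
  obtain ⟨M₁, h1⟩ := giants h (ε / 4) (by positivity)
  obtain ⟨M₂, h2⟩ := trunc_sum h
  refine ⟨max (max M₁ M₂) 1, fun M hM => ?_⟩
  have hM1 : M₁ ≤ M := (le_max_left _ _).trans ((le_max_left _ _).trans hM)
  have hM2 : M₂ ≤ M := (le_max_right _ _).trans ((le_max_left _ _).trans hM)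
  have hM0 : 1 ≤ M := (le_max_right _ _).trans hM
  have hMr : (0 : ℝ) < M := by exact_mod_cast hM0
  have hs : (0 : ℝ) < √M := Real.sqrt_pos.2 hMr
  have hss : √(M : ℝ) * √M = M := Real.mul_self_sqrt hMr.le
  have g1 := h1 M hM1
  have g2 := h2 M hM2
  have hsub : {ω | ∃ n, M ≤ n ∧ n < 2 * M ∧ ω ∈ EvN D n ∧ ε * √M ≤ HB D n ω} ≤ᵐ[PQ μ ν]
      ((EvI D M (2 * M) ∩ {ω | ε / 4 * √M ≤ cG D (100 / ε * √M) (2 * M) ω}) ∪
        ({ω | ε / 4 * √M ≤ ((Finset.range (2 * M)).filter fun i => √M ≤ (ω i).1).card} ∪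
        {ω | 50 * (M : ℝ) ≤ ∑ i ∈ Finset.range (2 * M), (if (ω i).1 < √M then (ω i).1 else 0)}) :
          Set (ℕ → ℝ × ℝ)) := by
    filter_upwards [ae_NN h] with ω hnn hω
    obtain ⟨n, hn1, hn2, hn3, hn4⟩ := hω
    by_cases hc : ε / 4 * √M ≤ cG D (100 / ε * √M) (2 * M) ω
    · exact Or.inl ⟨⟨n, hn1, hn2, hn3⟩, hc⟩
    · right
      have hc' : (cG D (100 / ε * √M) (2 * M) ω : ℝ) < ε * √M / 4 := by
        rw [not_le] at hc
        linarith
      rcases gaps_det hD hnn n (2 * M) hn3 hn2.le (ε * √M) (100 / ε * √M) (√M)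
        (by positivity) hn4 hc' with h3 | h3
      · left
        show ε / 4 * √M ≤ _
        calc ε / 4 * √M = ε * √M / 4 := by ring
          _ ≤ _ := by convert h3 using 3
      · right
        show 50 * (M : ℝ) ≤ _
        have h4 : ε * √(M : ℝ) / 2 * (100 / ε * √M) = 50 * M := by
          field_simp
          linear_combination 100 * hss
        rw [← h4]
        exact h3
  calc PQ μ ν {ω | ∃ n, M ≤ n ∧ n < 2 * M ∧ ω ∈ EvN D n ∧ ε * √M ≤ HB D n ω}
      ≤ PQ μ ν ((EvI D M (2 * M) ∩ {ω | ε / 4 * √M ≤ cG D (100 / ε * √M) (2 * M) ω}) ∪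
        ({ω | ε / 4 * √M ≤ ((Finset.range (2 * M)).filter fun i => √M ≤ (ω i).1).card} ∪
        {ω | 50 * (M : ℝ) ≤ ∑ i ∈ Finset.range (2 * M), (if (ω i).1 < √M then (ω i).1 else 0)})) :=
        measure_mono_ae hsub
    _ ≤ PQ μ ν (EvI D M (2 * M) ∩ {ω | ε / 4 * √M ≤ cG D (100 / ε * √M) (2 * M) ω}) +
        PQ μ ν ({ω | ε / 4 * √M ≤ ((Finset.range (2 * M)).filter fun i => √M ≤ (ω i).1).card} ∪
        {ω | 50 * (M : ℝ) ≤ ∑ i ∈ Finset.range (2 * M), (if (ω i).1 < √M then (ω i).1 else 0)}) :=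
        measure_union_le _ _
    _ ≤ PQ μ ν (EvI D M (2 * M) ∩ {ω | ε / 4 * √M ≤ cG D (100 / ε * √M) (2 * M) ω}) +
        (ENNReal.ofReal (1 / (M : ℝ) ^ 4) + ENNReal.ofReal (1 / (M : ℝ) ^ 4)) := by
        gcongr
        refine (measure_union_le _ _).trans (add_le_add ?_ ?_)
        · convert g1 using 6
        · convert g2 using 6
    _ = _ := by
        rw [← ENNReal.ofReal_add (by positivity) (by positivity)]
        congr 2
        ring

end Pool.Agent.BPT
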