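import Pool.Agent.MP_99a865_pr.CV.Q4
import Pool.Agent.MP_99a865_pr.CV.Q7
import Pool.Agent.MP_99a865_pr.CV.K12

open MeasureTheory ProbabilityTheory Filter Topology
open scoped ENNReal NNReal

namespace Pool.Agent.BPT

variable {D : Set ℝ} {μ ν : Measure ℝ}

/-- low boundary event -/
def R1_E (D : Set ℝ) (x : ℝ) (b : ℕ) : Set (ℕ → ℝ × ℝ) := {ω | Bd D ω b ∧ AliveQ D b ω ∧ Zw b ω ≤ x}

/-- low boundary event without the condition to be alive -/
def R1_F (D : Set ℝ) (x : ℝ) (b : ℕ) : Set (ℕ → ℝ × ℝ) := {ω | Bd D ω b ∧ Zw b ω ≤ x}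

theorem R1_mF (hD : Dom D) (x : ℝ) (b : ℕ) : MeasurableSet (R1_F D x b) :=
  (measurableSet_Bd hD b).inter (measurableSet_le (measurable_Zw b) measurable_const)

theorem R1_E_eq (x : ℝ) (b : ℕ) : R1_E D x b = R1_F D x b ∩ {ω | AliveQ D b ω} := by
  ext ω
  simp only [R1_E, R1_F, Set.mem_setOf_eq, Set.mem_inter_iff]
  tauto

theorem R1_mE (hD : Dom D) (x : ℝ) (b : ℕ) : MeasurableSet (R1_E D x b) := by
  rw [R1_E_eq]
  exact (R1_mF hD x b).inter (measurableSet_aliveQ hD b)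

theorem R1_cG (hD : Dom D) (P : Measure (ℕ → ℝ × ℝ)) (A : Set (ℕ → ℝ × ℝ)) (x : ℝ) (m : ℕ) :
    ∫⁻ ω in A, (cG D x m ω : ℝ≥0∞) ∂P = ∑ b ∈ Finset.range m, P (R1_E D x b ∩ A) := by
  classical
  have h1 : ∀ ω, (cG D x m ω : ℝ≥0∞) =
      ∑ b ∈ Finset.range m, (R1_E D x b).indicator (1 : (ℕ → ℝ × ℝ) → ℝ≥0∞) ω := by
    intro ω
    unfold cG
    rw [Finset.card_filter, Nat.cast_sum]
    apply Finset.sum_congr rfl
    intro b _
    simp only [R1_E, Set.indicator, Set.mem_setOf_eq, Pi.one_apply, Nat.cast_ite, Nat.cast_one,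
      Nat.cast_zero]
  simp_rw [h1]
  rw [lintegral_finset_sum _ (fun b _ => measurable_one.indicator (R1_mE hD x b))]
  apply Finset.sum_congr rfl
  intro b _
  rw [lintegral_indicator_one (R1_mE hD x b), Measure.restrict_apply (R1_mE hD x b)]

theorem R1_term (hD : Dom D) (h : QI μ ν) (x : ℝ) (m b : ℕ) (hm : 1 ≤ m) (hb : b ≤ m) :
    (m : ℝ≥0∞) * PQ μ ν (R1_E D x b ∩ EvI D (2 * m) (2 * (2 * m))) ≤
      (∑ n ∈ Finset.range (2 * (2 * m)),
        (n : ℝ≥0∞) * ENNReal.ofReal (hit D (stepLaw μ ν 1) n 0)) *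
      ∫⁻ ω in R1_E D x b, VV D (stepLaw μ ν 1) (Zw b ω) ∂(PQ μ ν) := by
  haveI := h.probμ
  haveI := h.probν
  haveI := prob_stepLaw (μ := μ) (ν := ν) 1
  set T := ∑ n ∈ Finset.range (2 * (2 * m)),
        (n : ℝ≥0∞) * ENNReal.ofReal (hit D (stepLaw μ ν 1) n 0) with hT
  set H : (ℕ → ℝ × ℝ) → ℝ≥0∞ := (R1_F D x b).indicator 1 with hH
  have hHm : Measurable H := measurable_one.indicator (R1_mF hD x b)
  have hHd : ∀ ω ω' : ℕ → ℝ × ℝ, (∀ j < b, ω j = ω' j) → H ω = H ω' := by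
    intro ω ω' hj
    have e1 : ω ∈ R1_F D x b ↔ ω' ∈ R1_F D x b := by
      have a1 := Bd_dep (D := D) b ω ω' hj
      have a2 : Zw b ω = Zw b ω' := by
        unfold Zw
        rw [F5_Ar_congr hj le_rfl, F5_Dp_congr hj le_rfl]
      simp only [R1_F, Set.mem_setOf_eq, a1, a2]
    by_cases hw : ω ∈ R1_F D x b
    · rw [hH, Set.indicator_of_mem hw, Set.indicator_of_mem (e1.1 hw)]
      rfl
    · rw [hH, Set.indicator_of_notMem hw, Set.indicator_of_notMem (fun hc => hw (e1.2 hc))]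
  have s1 : PQ μ ν (R1_E D x b ∩ EvI D (2 * m) (2 * (2 * m))) ≤
      ∑ n ∈ Finset.Ico (2 * m) (2 * (2 * m)), ∫⁻ ω in {ω | AliveQ D b ω},
        H ω * ENNReal.ofReal (hit D (stepLaw μ ν 1) (n - b) (Zw b ω)) ∂(PQ μ ν) := by
    have e1 : R1_E D x b ∩ EvI D (2 * m) (2 * (2 * m)) ⊆
        ⋃ n ∈ Finset.Ico (2 * m) (2 * (2 * m)), (R1_E D x b ∩ EvN D n) := by
      rintro ω ⟨h1, n, h2, h3, h4⟩
      simp only [Set.mem_iUnion]
      exact ⟨n, Finset.mem_Ico.2 ⟨h2, h3⟩, h1, h4⟩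
    refine (measure_mono e1).trans ((measure_biUnion_finset_le _ _).trans ?_)
    apply Finset.sum_le_sum
    intro n hn
    have hn' := Finset.mem_Ico.1 hn
    rw [← q_exit hD b n (by omega) H hHm hHd]
    have e2 : PQ μ ν (R1_E D x b ∩ EvN D n) =
        ∫⁻ ω in EvN D n, (R1_E D x b).indicator 1 ω ∂(PQ μ ν) := by
      rw [lintegral_indicator_one (R1_mE hD x b), Measure.restrict_apply (R1_mE hD x b)]
    rw [e2]
    apply lintegral_mono
    intro ω
    rw [hH]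
    apply Set.indicator_le_indicator_of_subset
    · rw [R1_E_eq]; exact Set.inter_subset_left
    · intro _; exact bot_le
  have s2 : ∑ n ∈ Finset.Ico (2 * m) (2 * (2 * m)), ∫⁻ ω in {ω | AliveQ D b ω},
        H ω * ENNReal.ofReal (hit D (stepLaw μ ν 1) (n - b) (Zw b ω)) ∂(PQ μ ν) =
      ∫⁻ ω in {ω | AliveQ D b ω}, H ω * ∑ n ∈ Finset.Ico (2 * m) (2 * (2 * m)),
        ENNReal.ofReal (hit D (stepLaw μ ν 1) (n - b) (Zw b ω)) ∂(PQ μ ν) := by
    rw [← lintegral_finset_sum]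
    · simp_rw [Finset.mul_sum]
    · intro n _
      exact hHm.mul (((measurable_hit hD _).comp (measurable_Zw b)).ennreal_ofReal)
  have hmeas2 : Measurable fun ω => H ω * ∑ n ∈ Finset.Ico (2 * m) (2 * (2 * m)),
        ENNReal.ofReal (hit D (stepLaw μ ν 1) (n - b) (Zw b ω)) := by
    apply hHm.mul
    exact Finset.measurable_sum _ fun n _ =>
      ((measurable_hit hD _).comp (measurable_Zw b)).ennreal_ofReal
  have hVV : Measurable (VV D (stepLaw μ ν 1)) := (VT_mono hD).measurable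
  calc (m : ℝ≥0∞) * PQ μ ν (R1_E D x b ∩ EvI D (2 * m) (2 * (2 * m)))
      ≤ (m : ℝ≥0∞) * ∫⁻ ω in {ω | AliveQ D b ω}, H ω * ∑ n ∈ Finset.Ico (2 * m) (2 * (2 * m)),
        ENNReal.ofReal (hit D (stepLaw μ ν 1) (n - b) (Zw b ω)) ∂(PQ μ ν) := by
        rw [← s2]
        gcongr
    _ = ∫⁻ ω in {ω | AliveQ D b ω}, (m : ℝ≥0∞) * (H ω * ∑ n ∈ Finset.Ico (2 * m) (2 * (2 * m)),
        ENNReal.ofReal (hit D (stepLaw μ ν 1) (n - b) (Zw b ω))) ∂(PQ μ ν) := by
        rw [lintegral_const_mul _ hmeas2]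
    _ ≤ ∫⁻ ω in {ω | AliveQ D b ω}, T * (H ω * VV D (stepLaw μ ν 1) (Zw b ω)) ∂(PQ μ ν) := by
        apply setLIntegral_mono' (measurableSet_aliveQ hD b)
        intro ω hω
        have hz := Zw_nonneg hD hω
        have h1 := hit_win_le (D := D) (ρ := stepLaw μ ν 1) hD m (2 * (2 * m)) (Zw b ω) hz
        have h2 : ∑ n ∈ Finset.Ico (2 * m) (2 * (2 * m)),
            ENNReal.ofReal (hit D (stepLaw μ ν 1) (n - b) (Zw b ω)) ≤
            ∑ n ∈ Finset.Ico m (2 * (2 * m)), ENNReal.ofReal (hit D (stepLaw μ ν 1) n (Zw b ω)) := by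
          have e3 : ∑ n ∈ Finset.Ico (2 * m) (2 * (2 * m)),
              ENNReal.ofReal (hit D (stepLaw μ ν 1) (n - b) (Zw b ω)) =
              ∑ n ∈ Finset.Ico (2 * m - b) (2 * (2 * m) - b),
              ENNReal.ofReal (hit D (stepLaw μ ν 1) n (Zw b ω)) := by
            have := Finset.sum_Ico_add' (fun n => ENNReal.ofReal
              (hit D (stepLaw μ ν 1) (n - b) (Zw b ω))) (2 * m - b) (2 * (2 * m) - b) b
            rw [Nat.sub_add_cancel (by omega), Nat.sub_add_cancel (by omega)] at this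
            rw [← this]
            simp
          rw [e3]
          apply Finset.sum_le_sum_of_subset
          apply Finset.Ico_subset_Ico <;> omega
        calc (m : ℝ≥0∞) * (H ω * ∑ n ∈ Finset.Ico (2 * m) (2 * (2 * m)),
            ENNReal.ofReal (hit D (stepLaw μ ν 1) (n - b) (Zw b ω)))
            = H ω * (m * ∑ n ∈ Finset.Ico (2 * m) (2 * (2 * m)),
            ENNReal.ofReal (hit D (stepLaw μ ν 1) (n - b) (Zw b ω))) := by ring
          _ ≤ H ω * (m * ∑ n ∈ Finset.Ico m (2 * (2 * m)),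
              ENNReal.ofReal (hit D (stepLaw μ ν 1) n (Zw b ω))) := by gcongr
          _ ≤ H ω * (VV D (stepLaw μ ν 1) (Zw b ω) * T) := by gcongr
          _ = T * (H ω * VV D (stepLaw μ ν 1) (Zw b ω)) := by ring
    _ = T * ∫⁻ ω in {ω | AliveQ D b ω}, H ω * VV D (stepLaw μ ν 1) (Zw b ω) ∂(PQ μ ν) := by
        have hm3 : Measurable fun ω => H ω * VV D (stepLaw μ ν 1) (Zw b ω) :=
          hHm.mul (hVV.comp (measurable_Zw b))
        rw [lintegral_const_mul _ hm3]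
    _ = T * ∫⁻ ω in R1_E D x b, VV D (stepLaw μ ν 1) (Zw b ω) ∂(PQ μ ν) := by
        congr 1
        rw [R1_E_eq]
        have e4 : ∀ ω, H ω * VV D (stepLaw μ ν 1) (Zw b ω) =
            (R1_F D x b).indicator (fun ω => VV D (stepLaw μ ν 1) (Zw b ω)) ω := by
          intro ω
          simp only [hH, Set.indicator, Pi.one_apply]
          split_ifs <;> simp
        simp_rw [e4]
        rw [lintegral_indicator (R1_mF hD x b), Measure.restrict_restrict (R1_mF hD x b)]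

theorem R1_alive (hD : Dom D) (h : QI μ ν) (m : ℕ) :
    ∫⁻ _ω in {ω | AliveQ D m ω}, (1 : ℝ≥0∞) ∂(PQ μ ν) = kap D (stepLaw μ ν 1) m 0 Set.univ := by
  haveI := h.probμ
  haveI := h.probν
  have h1 := q_alive (μ := μ) (ν := ν) hD 0 m (Nat.zero_le m) (fun _ => 1) measurable_const
    (fun _ _ _ => rfl) (fun _ => 1) measurable_const
  simp only [one_mul, lintegral_const, Nat.sub_zero] at h1 ⊢
  rw [h1]
  have h2 : {ω : ℕ → ℝ × ℝ | AliveQ D 0 ω} = Set.univ := by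
    ext ω
    simp only [AliveQ, Set.mem_setOf_eq, Set.mem_univ, iff_true]
    intro j h1 h2
    omega
  have h3 : ∀ ω : ℕ → ℝ × ℝ, Zw 0 ω = 0 := by
    intro ω
    simp [Zw, Dp, Ar]
  simp only [h2, h3, Measure.restrict_univ, lintegral_const, measure_univ, mul_one]

/-- **[IVC-R1]** Mean number of low boundaries on `{M ≤ N < 2M}`.
PROOF. The left side is `∑_{b<2M} PQ(Bd b, AliveQ b, Zw b ≤ x, M ≤ N < 2M)`, `x = L√M`.
`b ≤ M/2`: by `q_exit` (for every `n ∈ [M, 2M)`, `H = 1{Bd b, Zw b ≤ x}`) and summation over `n`, the term is at most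
`∫_{Bd b, AliveQ b, Zw b ≤ x} ∑_{n∈[M-b,2M-b)} hit n (Zw b)`, and `[M-b, 2M-b) ⊆ [M/2, 2M)`, so `hit_win_le` with
`t = M/2`, `t' = 2M` bounds the inner sum by `VV (Zw b) · (2/M) E[N; N<2M]` (`M ≥ 2` even); sum over `b` with
`bd_weighted`: `≤ ε₁ x · (2/M) E[N;N<2M]`. `b > M/2`: drop the condition on `N` and use `bd_count` with `r = M/2`, `H = 1`:
`≤ ε₁ x PQ(AliveQ (M/2)) = ε₁ x P(N > M/2)`. Take `ε₁ = ε/(2L)`. -/
theorem count_mean (hD : Dom D) (h : QI μ ν) (hv : InfV μ ν) (L : ℝ) (hL : 0 < L) :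
    ∀ ε > (0 : ℝ), ∃ M₀ : ℕ, ∀ M ≥ M₀, Even M →
    ∫⁻ ω in EvI D M (2 * M), (cG D (L * √M) (2 * M) ω : ℝ≥0∞) ∂(PQ μ ν) ≤
      ENNReal.ofReal (ε * √M) * ((∑ n ∈ Finset.range (2 * M),
        (n : ℝ≥0∞) * ENNReal.ofReal (hit D (stepLaw μ ν 1) n 0)) / M +
        kap D (stepLaw μ ν 1) (M / 2) 0 Set.univ) := by
  intro ε hε
  haveI := h.probμ
  haveI := h.probν
  haveI := prob_stepLaw (μ := μ) (ν := ν) 1
  have hε1 : 0 < ε / (2 * L) := by positivity
  obtain ⟨x0, hx0⟩ := bd_count hD h hv (ε / (2 * L)) hε1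
  obtain ⟨x1, hx1⟩ := bd_weighted hD h hv (ε / (2 * L)) hε1
  refine ⟨max 2 (⌈(max x0 x1 / L) ^ 2⌉₊ + 1), ?_⟩
  rintro M hM ⟨m, rfl⟩
  have hM2 : 2 ≤ m + m := le_trans (le_max_left _ _) hM
  have hm1 : 1 ≤ m := by omega
  have hMx : (max x0 x1 / L) ^ 2 ≤ ((m + m : ℕ) : ℝ) := by
    have h1 : ⌈(max x0 x1 / L) ^ 2⌉₊ ≤ m + m := by
      have := le_trans (le_max_right _ _) hM
      omega
    exact (Nat.le_ceil _).trans (by exact_mod_cast h1)
  have hx : max x0 x1 ≤ L * √((m + m : ℕ) : ℝ) := by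
    have h1 : max x0 x1 / L ≤ √((m + m : ℕ) : ℝ) := Real.le_sqrt_of_sq_le hMx
    rw [div_le_iff₀ hL] at h1
    linarith
  set x : ℝ := L * √((m + m : ℕ) : ℝ) with hxdef
  have hxx0 : x ≥ x0 := (le_max_left _ _).trans hx
  have hxx1 : x ≥ x1 := (le_max_right _ _).trans hx
  have hmm : m + m = 2 * m := by ring
  have hdiv : (m + m) / 2 = m := by omega
  rw [R1_cG hD]
  simp only [hdiv]
  set T := ∑ n ∈ Finset.range (2 * (m + m)),
        (n : ℝ≥0∞) * ENNReal.ofReal (hit D (stepLaw μ ν 1) n 0) with hT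
  have hmE : (m : ℝ≥0∞) ≠ 0 := by
    simp only [ne_eq, Nat.cast_eq_zero]; omega
  have hmT : (m : ℝ≥0∞) ≠ ⊤ := ENNReal.natCast_ne_top m
  -- first part
  have p1 : ∑ b ∈ Finset.range (m + 1), PQ μ ν (R1_E D x b ∩ EvI D (m + m) (2 * (m + m))) ≤
      T / m * ENNReal.ofReal (ε / (2 * L) * x) := by
    have h1 : ∀ b ∈ Finset.range (m + 1), PQ μ ν (R1_E D x b ∩ EvI D (m + m) (2 * (m + m))) ≤
        T / m * ∫⁻ ω in R1_E D x b, VV D (stepLaw μ ν 1) (Zw b ω) ∂(PQ μ ν) := by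
      intro b hb
      have h2 := R1_term hD h x m b hm1 (by have := Finset.mem_range.1 hb; omega)
      rw [← hmm, ← hT] at h2
      rw [ENNReal.div_eq_inv_mul, mul_assoc]
      rw [← ENNReal.mul_le_mul_iff_right hmE hmT] 
      rw [← mul_assoc (m : ℝ≥0∞), ENNReal.mul_inv_cancel hmE hmT, one_mul]
      exact h2
    refine (Finset.sum_le_sum h1).trans ?_
    rw [← Finset.mul_sum]
    gcongr
    exact (ENNReal.sum_le_tsum _).trans (hx1 x hxx1)
  -- second part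
  have p2 : ∑ b ∈ Finset.Ico (m + 1) (2 * (m + m)),
      PQ μ ν (R1_E D x b ∩ EvI D (m + m) (2 * (m + m))) ≤
      ENNReal.ofReal (ε / (2 * L) * x) * kap D (stepLaw μ ν 1) m 0 Set.univ := by
    have h1 := hx0 x hxx0 m (fun _ => 1) measurable_const (fun _ _ _ => rfl)
    rw [R1_alive hD h] at h1
    refine le_trans ?_ h1
    refine le_trans ?_ (ENNReal.sum_le_tsum (Finset.Ico (m + 1) (2 * (m + m))))
    apply Finset.sum_le_sum
    intro b hb
    have hb' := Finset.mem_Ico.1 hb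
    rw [setLIntegral_one]
    apply measure_mono
    rintro ω ⟨h2, _⟩
    exact ⟨by omega, h2.1, h2.2.1, h2.2.2⟩
  have hsum : ∑ b ∈ Finset.range (2 * (m + m)),
      PQ μ ν (R1_E D x b ∩ EvI D (m + m) (2 * (m + m))) =
      ∑ b ∈ Finset.range (m + 1), PQ μ ν (R1_E D x b ∩ EvI D (m + m) (2 * (m + m))) +
      ∑ b ∈ Finset.Ico (m + 1) (2 * (m + m)),
        PQ μ ν (R1_E D x b ∩ EvI D (m + m) (2 * (m + m))) := by
    rw [Finset.range_eq_Ico, Finset.range_eq_Ico]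
    exact (Finset.sum_Ico_consecutive _ (Nat.zero_le _) (by omega)).symm
  rw [hsum]
  have hex : ε / (2 * L) * x = ε * √((m + m : ℕ) : ℝ) / 2 := by
    rw [hxdef]; field_simp
  have hofR : ENNReal.ofReal (ε * √((m + m : ℕ) : ℝ)) = 2 * ENNReal.ofReal (ε / (2 * L) * x) := by
    rw [hex]
    rw [show (2 : ℝ≥0∞) = ENNReal.ofReal 2 by simp, ← ENNReal.ofReal_mul (by norm_num)]
    congr 1
    ring
  have hTm : T / ((m + m : ℕ) : ℝ≥0∞) * 2 = T / m := by
    have e1 : ((m + m : ℕ) : ℝ≥0∞) = 2 * m := by push_cast; ring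
    rw [e1, ENNReal.div_eq_inv_mul, ENNReal.div_eq_inv_mul,
      ENNReal.mul_inv (Or.inl (by norm_num)) (Or.inl (by norm_num))]
    calc (2 : ℝ≥0∞)⁻¹ * (m : ℝ≥0∞)⁻¹ * T * 2 = (2 * 2⁻¹) * ((m : ℝ≥0∞)⁻¹ * T) := by ring
      _ = (m : ℝ≥0∞)⁻¹ * T := by
        rw [ENNReal.mul_inv_cancel (by norm_num) (by norm_num), one_mul]
  calc _ ≤ T / m * ENNReal.ofReal (ε / (2 * L) * x) +
        ENNReal.ofReal (ε / (2 * L) * x) * kap D (stepLaw μ ν 1) m 0 Set.univ := add_le_add p1 p2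
    _ ≤ T / m * ENNReal.ofReal (ε / (2 * L) * x) +
        2 * (ENNReal.ofReal (ε / (2 * L) * x) * kap D (stepLaw μ ν 1) m 0 Set.univ) := by
        have e5 : ∀ u : ℝ≥0∞, u ≤ 2 * u := fun u => by
          rw [two_mul]; exact le_self_add
        exact add_le_add le_rfl (e5 _)
    _ = _ := by
        rw [hofR, ← hTm]
        ring

/-- **[IVC-R1b]** from `bd_log` -/
theorem count_log (hD : Dom D) (h : QI μ ν) (hv : InfV μ ν) (L : ℝ) (hL : 0 < L) :
    ∃ C > (0 : ℝ), ∀ M : ℕ, 2 ≤ M →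
    ∫⁻ ω, (cG D (L * √M) (2 * M) ω : ℝ≥0∞) ∂(PQ μ ν) ≤ ENNReal.ofReal (C * Real.log M) := by
  obtain ⟨C, hC, hlog⟩ := bd_log hD h hv
  have hl2 : 0 < Real.log 2 := Real.log_pos (by norm_num)
  refine ⟨C * (2 + |Real.log L| / Real.log 2), by positivity, fun M hM => ?_⟩
  have hM0 : (0 : ℝ) < M := by
    have : 0 < M := by omega
    exact_mod_cast this
  have hM2 : (2 : ℝ) ≤ M := by exact_mod_cast hM
  have hlM : Real.log 2 ≤ Real.log M := Real.log_le_log (by norm_num) hM2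
  set x : ℝ := max 2 (L * √M) with hx
  have h1 := hlog x (le_max_left _ _)
  have h2 : ∫⁻ ω, (cG D (L * √M) (2 * M) ω : ℝ≥0∞) ∂(PQ μ ν) ≤
      ∑' b, PQ μ ν {ω | Bd D ω b ∧ AliveQ D b ω ∧ Zw b ω ≤ x} := by
    have h3 := R1_cG hD (PQ μ ν) Set.univ (L * √M) (2 * M)
    rw [Measure.restrict_univ] at h3
    rw [h3]
    refine le_trans ?_ (ENNReal.sum_le_tsum (Finset.range (2 * M)))
    apply Finset.sum_le_sum
    intro b _
    apply measure_mono
    rintro ω ⟨h4, _⟩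
    exact ⟨h4.1, h4.2.1, h4.2.2.trans (le_max_right _ _)⟩
  refine h2.trans (h1.trans (ENNReal.ofReal_le_ofReal ?_))
  have hxle : Real.log x ≤ (2 + |Real.log L| / Real.log 2) * Real.log M := by
    have a1 : |Real.log L| ≤ |Real.log L| / Real.log 2 * Real.log M := by
      rw [div_mul_eq_mul_div, le_div_iff₀ hl2]
      exact mul_le_mul_of_nonneg_left hlM (abs_nonneg _)
    have a2 : 0 ≤ Real.log M := by linarith
    rcases max_cases (2 : ℝ) (L * √M) with ⟨he, _⟩ | ⟨he, _⟩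
    · rw [hx, he]
      nlinarith [abs_nonneg (Real.log L)]
    · rw [hx, he, Real.log_mul hL.ne' (by positivity), Real.log_sqrt hM0.le]
      nlinarith [le_abs_self (Real.log L)]
  calc C * Real.log x ≤ C * ((2 + |Real.log L| / Real.log 2) * Real.log M) :=
        mul_le_mul_of_nonneg_left hxle hC.le
    _ = _ := by ring

end Pool.Agent.BPT
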