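import Pool.Agent.MP_99a865_pr.CV.R1
import Pool.Agent.MP_99a865_pr.CV.K9

open MeasureTheory ProbabilityTheory Filter Topology
open scoped ENNReal NNReal

namespace Pool.Agent.BPT

variable {D : Set ℝ} {μ ν : Measure ℝ}

theorem R2_meas_HB (hD : Dom D) (n : ℕ) : Measurable (HB D n) := by
  classical
  have h : HB D n = fun ω => ∑ b ∈ Finset.range n, if Bd D ω b then 1 else 0 := by
    funext ω
    unfold HB
    rw [Finset.card_filter]
  rw [h]
  refine Finset.measurable_sum _ fun b _ => ?_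
  exact Measurable.ite (measurableSet_Bd hD b) measurable_const measurable_const

theorem R2_disj {m n : ℕ} (hmn : m ≠ n) : Disjoint (EvN D m) (EvN D n) := by
  have key : ∀ m n : ℕ, m < n → Disjoint (EvN D m) (EvN D n) := by
    intro m n h
    rw [Set.disjoint_left]
    rintro ω ⟨h1, h2, h3⟩ ⟨h4, h5, h6⟩
    exact h3 (h5 m h1 (by omega))
  rcases lt_or_gt_of_ne hmn with h | h
  · exact key m n h
  · exact (key n m h).symm

/-- Sum over dyadic blocks. -/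
theorem R2_block (f : ℕ → ℝ) (J : ℕ) : ∑ n ∈ Finset.range (2 ^ J), f n =
    f 0 + ∑ j ∈ Finset.range J, ∑ n ∈ Finset.Ico (2 ^ j) (2 ^ (j + 1)), f n := by
  induction J with
  | zero => simp
  | succ J ih =>
    rw [Finset.sum_range_succ, ← add_assoc, ← ih,
      Finset.sum_range_add_sum_Ico f (Nat.pow_le_pow_right (by norm_num) (Nat.le_succ J))]

theorem R2_hit_nonneg (ρ : Measure ℝ) (n : ℕ) (z : ℝ) : 0 ≤ hit D ρ n z := measureReal_nonneg

theorem R2_hit_zero (ρ : Measure ℝ) (z : ℝ) : hit D ρ 0 z = 0 := by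
  unfold hit
  simp

theorem R2_qj_nonneg (ρ : Measure ℝ) (j : ℕ) : 0 ≤ qj D ρ j :=
  Finset.sum_nonneg fun n _ => R2_hit_nonneg ρ n 0

theorem R2_sum_hit_le (hD : Dom D) {ρ : Measure ℝ} (hρ : Cen ρ) (s : Finset ℕ) :
    ∑ n ∈ s, hit D ρ n 0 ≤ 1 := by
  have h1 : ∑ n ∈ s, ENNReal.ofReal (hit D ρ n 0) ≤ 1 := by
    rw [← tsum_hit hD hρ]
    exact ENNReal.sum_le_tsum s
  rw [← ENNReal.ofReal_sum_of_nonneg (fun n _ => R2_hit_nonneg ρ n 0)] at h1
  rw [← ENNReal.ofReal_one] at h1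
  exact (ENNReal.ofReal_le_ofReal_iff zero_le_one).1 h1

theorem R2_summable (hD : Dom D) {ρ : Measure ℝ} (hρ : Cen ρ) : Summable (qj D ρ) := by
  refine summable_of_sum_range_le (c := 1) (R2_qj_nonneg ρ) fun J => ?_
  have h1 := R2_block (fun n => hit D ρ n 0) J
  have h2 := R2_sum_hit_le hD hρ (Finset.range (2 ^ J))
  rw [h1, R2_hit_zero, zero_add] at h2
  exact h2

/-- the weighted block sum -/
theorem R2_weighted (ρ : Measure ℝ) (J : ℕ) : ∑ n ∈ Finset.range (2 ^ J), (n : ℝ) * hit D ρ n 0 ≤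
    ∑ j ∈ Finset.range J, 2 ^ (j + 1) * qj D ρ j := by
  rw [R2_block (fun n => (n : ℝ) * hit D ρ n 0) J]
  simp only [Nat.cast_zero, zero_mul, zero_add]
  refine Finset.sum_le_sum fun j _ => ?_
  unfold qj
  rw [Finset.mul_sum]
  refine Finset.sum_le_sum fun n hn => ?_
  rw [Finset.mem_Ico] at hn
  refine mul_le_mul_of_nonneg_right ?_ (R2_hit_nonneg ρ n 0)
  exact_mod_cast hn.2.le

/-- the tail -/
theorem R2_tail (hD : Dom D) {ρ : Measure ℝ} (hρ : Cen ρ) (k : ℕ) :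
    kap D ρ (2 ^ k) 0 Set.univ ≤ ENNReal.ofReal (∑' i, qj D ρ (k + i)) := by
  have hs := R2_summable hD hρ
  have hs' : Summable fun i => qj D ρ (k + i) := by
    have := (summable_nat_add_iff k).2 hs
    refine this.congr fun i => ?_
    rw [add_comm]
  rw [surv_eq hD hρ]
  refine ENNReal.tsum_le_of_sum_range_le fun N => ?_
  set g : ℕ → ℝ := fun n => if 2 ^ k < n then hit D ρ n 0 else 0 with hg
  have hg0 : ∀ n, 0 ≤ g n := by
    intro n
    rw [hg]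
    simp only
    split_ifs
    · exact R2_hit_nonneg ρ n 0
    · exact le_rfl
  have h1 : ∀ n, (if 2 ^ k < n then ENNReal.ofReal (hit D ρ n 0) else 0) = ENNReal.ofReal (g n) := by
    intro n
    rw [hg]
    simp only
    split_ifs
    · rfl
    · exact ENNReal.ofReal_zero.symm
  simp only [h1]
  rw [← ENNReal.ofReal_sum_of_nonneg (fun n _ => hg0 n)]
  refine ENNReal.ofReal_le_ofReal ?_
  have h2 : ∑ n ∈ Finset.range N, g n ≤ ∑ n ∈ Finset.range (2 ^ N), g n :=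
    Finset.sum_le_sum_of_subset_of_nonneg
      (Finset.range_subset_range.2 (Nat.lt_two_pow_self).le) fun n _ _ => hg0 n
  refine h2.trans ?_
  rw [R2_block]
  have h0 : g 0 = 0 := by
    rw [hg]
    simp
  rw [h0, zero_add]
  have h3 : ∀ j ∈ Finset.range N, ∑ n ∈ Finset.Ico (2 ^ j) (2 ^ (j + 1)), g n ≤
      if k ≤ j then qj D ρ j else 0 := by
    intro j _
    split_ifs with hkj
    · unfold qj
      refine Finset.sum_le_sum fun n _ => ?_
      rw [hg]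
      simp only
      split_ifs
      · exact le_rfl
      · exact R2_hit_nonneg ρ n 0
    · refine le_of_eq (Finset.sum_eq_zero fun n hn => ?_)
      rw [Finset.mem_Ico] at hn
      rw [hg]
      simp only
      rw [if_neg]
      have h4 : 2 ^ (j + 1) ≤ 2 ^ k := Nat.pow_le_pow_right (by norm_num) (by omega)
      omega
  refine (Finset.sum_le_sum h3).trans ?_
  rw [← Finset.sum_filter]
  have h5 : (Finset.range N).filter (fun j => k ≤ j) = Finset.Ico k N := by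
    ext j
    simp only [Finset.mem_filter, Finset.mem_range, Finset.mem_Ico]
    omega
  rw [h5, Finset.sum_Ico_eq_sum_range]
  exact hs'.sum_le_tsum _ fun i _ => R2_qj_nonneg ρ _

/-- Markov's inequality for `cG` -/
theorem R2_markov (hD : Dom D) [IsProbabilityMeasure μ] [IsProbabilityMeasure ν] (A : Set (ℕ → ℝ × ℝ))
    (x a B : ℝ) (m : ℕ) (ha : 0 < a) (hB : 0 ≤ B)
    (hint : ∫⁻ ω in A, (cG D x m ω : ℝ≥0∞) ∂(PQ μ ν) ≤ ENNReal.ofReal B) :
    (PQ μ ν).real (A ∩ {ω | a ≤ cG D x m ω}) ≤ B / a := by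
  have h1 := mul_meas_ge_le_lintegral (μ := (PQ μ ν).restrict A)
    (f := fun ω => (cG D x m ω : ℝ≥0∞)) (measurable_from_top.comp (measurable_cG hD x m))
    (ENNReal.ofReal a)
  have h2 : {ω | ENNReal.ofReal a ≤ (cG D x m ω : ℝ≥0∞)} = {ω | a ≤ (cG D x m ω : ℝ)} := by
    ext ω
    simp only [Set.mem_ofPred_eq]
    rw [← ENNReal.ofReal_natCast, ENNReal.ofReal_le_ofReal_iff (Nat.cast_nonneg _)]
  have hm : MeasurableSet {ω | a ≤ (cG D x m ω : ℝ)} :=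
    measurableSet_le measurable_const (measurable_from_top.comp (measurable_cG hD x m))
  rw [h2, Measure.restrict_apply hm, Set.inter_comm] at h1
  have h3 := h1.trans hint
  have h4 : PQ μ ν (A ∩ {ω | a ≤ (cG D x m ω : ℝ)}) ≠ ⊤ := measure_ne_top _ _
  have h5 := ENNReal.toReal_mono ENNReal.ofReal_ne_top h3
  rw [ENNReal.toReal_mul, ENNReal.toReal_ofReal ha.le, ENNReal.toReal_ofReal hB] at h5
  rw [le_div_iff₀ ha, mul_comm]
  exact h5

/-- the assumption to be refuted: from some `n₀` on, the height is at least `ε√n` with conditional probability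
at least `δ` -/
def BadH (D : Set ℝ) (μ ν : Measure ℝ) (ε δ : ℝ) (n₀ : ℕ) : Prop :=
  ∀ n ≥ n₀, δ * (PQ μ ν).real (EvN D n) ≤ (PQ μ ν).real (EvN D n ∩ {ω | ε * √n ≤ HB D n ω})

/-- **[IVC-R2a]** PROOF. For `M ≥ n₀` sum `BadH` over `n ∈ [M, 2M)` (disjoint events, `HB ≥ ε√n ≥ ε√M`) and use
`height_count`. -/
theorem bad_le (hD : Dom D) (h : QI μ ν) {ε δ : ℝ} (hε : 0 < ε) {n₀ : ℕ}
    (hb : BadH D μ ν ε δ n₀) : ∃ M₀ : ℕ, ∀ M ≥ M₀,
    δ * ∑ n ∈ Finset.Ico M (2 * M), hit D (stepLaw μ ν 1) n 0 ≤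
      (PQ μ ν).real (EvI D M (2 * M) ∩ {ω | ε / 4 * √M ≤ cG D (100 / ε * √M) (2 * M) ω}) +
        2 / (M : ℝ) ^ 4 := by
  have hpμ := h.probμ
  have hpν := h.probν
  obtain ⟨M₁, hM₁⟩ := height_count hD h ε hε
  refine ⟨max n₀ M₁, fun M hM => ?_⟩
  have hn : n₀ ≤ M := (le_max_left _ _).trans hM
  have hm : M₁ ≤ M := (le_max_right _ _).trans hM
  have hmeas : ∀ n, MeasurableSet (EvN D n ∩ {ω | ε * √n ≤ HB D n ω}) := fun n =>
    (measurableSet_EvN hD n).inter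
      (measurableSet_le measurable_const (measurable_from_top.comp (R2_meas_HB hD n)))
  have h1 : δ * ∑ n ∈ Finset.Ico M (2 * M), hit D (stepLaw μ ν 1) n 0 ≤
      ∑ n ∈ Finset.Ico M (2 * M), (PQ μ ν).real (EvN D n ∩ {ω | ε * √n ≤ HB D n ω}) := by
    rw [Finset.mul_sum]
    refine Finset.sum_le_sum fun n hn' => ?_
    rw [Finset.mem_Ico] at hn'
    rw [← PQ_EvN_gen hD n]
    exact hb n (hn.trans hn'.1)
  have h2 : ∑ n ∈ Finset.Ico M (2 * M), (PQ μ ν).real (EvN D n ∩ {ω | ε * √n ≤ HB D n ω}) =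
      (PQ μ ν).real (⋃ n ∈ Finset.Ico M (2 * M), (EvN D n ∩ {ω | ε * √n ≤ HB D n ω})) := by
    rw [measureReal_biUnion_finset]
    · intro a _ b _ hab
      exact (R2_disj hab).mono Set.inter_subset_left Set.inter_subset_left
    · intro n _
      exact hmeas n
  have h3 : (PQ μ ν).real (⋃ n ∈ Finset.Ico M (2 * M), (EvN D n ∩ {ω | ε * √n ≤ HB D n ω})) ≤
      (PQ μ ν).real {ω | ∃ n, M ≤ n ∧ n < 2 * M ∧ ω ∈ EvN D n ∧ ε * √M ≤ HB D n ω} := by
    refine measureReal_mono ?_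
    intro ω hω
    simp only [Set.mem_iUnion, Finset.mem_Ico, Set.mem_inter_iff, Set.mem_ofPred_eq,
      exists_prop] at hω
    obtain ⟨n, ⟨h4, h5⟩, h6, h7⟩ := hω
    refine ⟨n, h4, h5, h6, le_trans ?_ h7⟩
    exact mul_le_mul_of_nonneg_left (Real.sqrt_le_sqrt (by exact_mod_cast h4)) hε.le
  have h8 := ENNReal.toReal_mono (by
    exact ENNReal.add_ne_top.2 ⟨measure_ne_top _ _, ENNReal.ofReal_ne_top⟩) (hM₁ M hm)
  rw [ENNReal.toReal_add (measure_ne_top _ _) ENNReal.ofReal_ne_top,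
    ENNReal.toReal_ofReal (by positivity)] at h8
  exact (h1.trans (h2.le.trans h3)).trans h8

/-- **[IVC-R2b]** The main inequality, `q j = qj D ρ j = P(2^j ≤ N < 2^{j+1})`.
PROOF. Markov's inequality `P(…, cG ≥ (ε/4)√M) ≤ (4/(ε√M)) E[cG; …]` and `count_mean` with `M = 2^j`:
`∑_{n<2M} n hit n ≤ ∑_{i≤j} 2^{i+1} q i` and `P(N > M/2) ≤ ∑_{i≥j-1} q i` (`surv_eq`); the error `2/M⁴` is at most `2^{-3j}`
for `j` large, also after division by `δ`. -/
theorem main_ineq (hD : Dom D) (h : QI μ ν) (hv : InfV μ ν) {ε δ : ℝ} (hε : 0 < ε) (hδ : 0 < δ) {n₀ : ℕ}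
    (hb : BadH D μ ν ε δ n₀) : ∀ c > (0 : ℝ), ∃ j₀ : ℕ, ∀ j ≥ j₀,
    qj D (stepLaw μ ν 1) j ≤ c * ((∑ i ∈ Finset.range (j + 1),
      qj D (stepLaw μ ν 1) i * 2 ^ i / 2 ^ j) + ∑' i, qj D (stepLaw μ ν 1) (j - 1 + i)) +
      1 / 2 ^ (3 * j) := by
  intro c hc
  have hpμ := h.probμ
  have hpν := h.probν
  have hρ := h.cen hv
  obtain ⟨M₀, hM₀⟩ := bad_le hD h hε hb
  obtain ⟨M₁, hM₁⟩ := count_mean hD h hv (100 / ε) (by positivity) (c * ε * δ / 8) (by positivity)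
  obtain ⟨J, hJ⟩ := pow_unbounded_of_one_lt (2 / δ) (one_lt_two : (1 : ℝ) < 2)
  refine ⟨max 1 (max J (max M₀ M₁)), fun j hj => ?_⟩
  have hj1 : 1 ≤ j := (le_max_left _ _).trans hj
  have hjJ : J ≤ j := (le_max_left _ _).trans ((le_max_right _ _).trans hj)
  have hj0 : M₀ ≤ j := (le_max_left _ _).trans ((le_max_right _ _).trans ((le_max_right _ _).trans hj))
  have hj2 : M₁ ≤ j := (le_max_right _ _).trans ((le_max_right _ _).trans ((le_max_right _ _).trans hj))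
  have hjp : j ≤ 2 ^ j := (Nat.lt_two_pow_self).le
  have e1 := hM₀ (2 ^ j) (hj0.trans hjp)
  have heven : Even (2 ^ j) := (Nat.even_pow.2 ⟨even_two, by omega⟩)
  have e2 := hM₁ (2 ^ j) (hj2.trans hjp) heven
  have e22 : 2 * 2 ^ j = 2 ^ (j + 1) := by ring
  have ehalf : 2 ^ j / 2 = 2 ^ (j - 1) := by
    obtain ⟨i, rfl⟩ : ∃ i, j = i + 1 := ⟨j - 1, by omega⟩
    rw [pow_succ, Nat.mul_div_cancel _ (by norm_num), Nat.add_sub_cancel]
  rw [e22] at e1 e2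
  rw [ehalf] at e2
  set Q := qj D (stepLaw μ ν 1) with hQ
  set S1 : ℝ := ∑ i ∈ Finset.range (j + 1), Q i * 2 ^ i / 2 ^ j with hS1
  set S2 : ℝ := ∑' i, Q (j - 1 + i) with hS2
  have hQ0 : ∀ i, 0 ≤ Q i := R2_qj_nonneg _
  have hS10 : 0 ≤ S1 := Finset.sum_nonneg fun i _ => by
    have := hQ0 i
    positivity
  have hS20 : 0 ≤ S2 := tsum_nonneg fun i => hQ0 _
  have e3 : (∑ n ∈ Finset.range (2 ^ (j + 1)),
      (n : ℝ≥0∞) * ENNReal.ofReal (hit D (stepLaw μ ν 1) n 0)) / ((2 ^ j : ℕ) : ℝ≥0∞) ≤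
      ENNReal.ofReal (2 * S1) := by
    have h1 : ∑ n ∈ Finset.range (2 ^ (j + 1)),
        (n : ℝ≥0∞) * ENNReal.ofReal (hit D (stepLaw μ ν 1) n 0) =
        ENNReal.ofReal (∑ n ∈ Finset.range (2 ^ (j + 1)), (n : ℝ) * hit D (stepLaw μ ν 1) n 0) := by
      rw [ENNReal.ofReal_sum_of_nonneg (fun n _ => mul_nonneg (Nat.cast_nonneg n) (R2_hit_nonneg _ n 0))]
      refine Finset.sum_congr rfl fun n _ => ?_
      rw [ENNReal.ofReal_mul (Nat.cast_nonneg n), ENNReal.ofReal_natCast]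
    rw [h1, ← ENNReal.ofReal_natCast, ← ENNReal.ofReal_div_of_pos (by positivity)]
    refine ENNReal.ofReal_le_ofReal ?_
    have h2 := R2_weighted (D := D) (stepLaw μ ν 1) (j + 1)
    rw [div_le_iff₀ (by positivity)]
    refine h2.trans (le_of_eq ?_)
    rw [hS1, Finset.mul_sum, Finset.sum_mul]
    refine Finset.sum_congr rfl fun i _ => ?_
    push_cast
    rw [← hQ]
    field_simp
    ring
  have e4 := R2_tail hD hρ (j - 1)
  rw [← hQ, ← hS2] at e4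
  have hsq : √(((2 ^ j : ℕ) : ℝ)) ≠ 0 := by positivity
  have e5 : ∫⁻ ω in EvI D (2 ^ j) (2 ^ (j + 1)),
      (cG D (100 / ε * √((2 ^ j : ℕ) : ℝ)) (2 ^ (j + 1)) ω : ℝ≥0∞) ∂(PQ μ ν) ≤
      ENNReal.ofReal (c * ε * δ / 8 * √((2 ^ j : ℕ) : ℝ) * (2 * S1 + S2)) := by
    refine e2.trans ?_
    have e50 : ENNReal.ofReal (c * ε * δ / 8 * √((2 ^ j : ℕ) : ℝ) * (2 * S1 + S2)) =
        ENNReal.ofReal (c * ε * δ / 8 * √((2 ^ j : ℕ) : ℝ)) *
          (ENNReal.ofReal (2 * S1) + ENNReal.ofReal S2) := by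
      rw [ENNReal.ofReal_mul (by positivity), ENNReal.ofReal_add (by positivity) hS20]
    rw [e50]
    exact mul_le_mul_right (add_le_add e3 e4) _
  have e6 := R2_markov hD (EvI D (2 ^ j) (2 ^ (j + 1))) (100 / ε * √((2 ^ j : ℕ) : ℝ))
    (ε / 4 * √((2 ^ j : ℕ) : ℝ)) _ (2 ^ (j + 1)) (by positivity) (by positivity) e5
  have e7 : c * ε * δ / 8 * √((2 ^ j : ℕ) : ℝ) * (2 * S1 + S2) / (ε / 4 * √((2 ^ j : ℕ) : ℝ)) =
      c * δ / 2 * (2 * S1 + S2) := by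
    field_simp
    ring
  rw [e7] at e6
  have e8 := e1.trans (add_le_add_left e6 _)
  have e9 : 2 / (((2 ^ j : ℕ) : ℝ)) ^ 4 ≤ δ * (1 / 2 ^ (3 * j)) := by
    have h3 : (2 : ℝ) / δ ≤ 2 ^ j := hJ.le.trans (pow_le_pow_right₀ (by norm_num) hjJ)
    have h4 : (((2 ^ j : ℕ) : ℝ)) ^ 4 = 2 ^ j * 2 ^ (3 * j) := by
      push_cast
      ring
    rw [h4, div_le_iff₀ (by positivity)]
    rw [div_le_iff₀ hδ] at h3
    have h5 : δ * (1 / 2 ^ (3 * j)) * (2 ^ j * 2 ^ (3 * j)) = 2 ^ j * δ := by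
      field_simp
    rw [h5]
    exact h3
  have e10 : δ * Q j ≤ δ * (c * (S1 + S2) + 1 / 2 ^ (3 * j)) := by
    have h6 : δ * Q j ≤ c * δ / 2 * (2 * S1 + S2) + 2 / (((2 ^ j : ℕ) : ℝ)) ^ 4 := e8
    have h7 : 0 ≤ c * δ * S2 := by positivity
    nlinarith
  exact le_of_mul_le_mul_left e10 hδ

/-- **[IVC-R2c]** The a priori bound (`bad_le`, Markov's inequality and `count_log`). -/
theorem apriori (hD : Dom D) (h : QI μ ν) (hv : InfV μ ν) {ε δ : ℝ} (hε : 0 < ε) (hδ : 0 < δ) {n₀ : ℕ}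
    (hb : BadH D μ ν ε δ n₀) : ∃ C > (0 : ℝ), ∀ j : ℕ,
    qj D (stepLaw μ ν 1) j ≤ C * (j + 1) / √(2 ^ j) := by
  have hpμ := h.probμ
  have hpν := h.probν
  have hρ := h.cen hv
  obtain ⟨M₀, hM₀⟩ := bad_le hD h hε hb
  obtain ⟨C₀, hC₀, hlog⟩ := count_log hD h hv (100 / ε) (by positivity)
  have hq1 : ∀ j, qj D (stepLaw μ ν 1) j ≤ 1 := fun j => R2_sum_hit_le hD hρ _
  refine ⟨√(2 ^ (M₀ + 1)) + (4 * C₀ / ε + 2) / δ, by positivity, fun j => ?_⟩
  have hpow : ∀ i : ℕ, (0 : ℝ) < √(2 ^ i) := fun i => by positivity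
  have hj0 : (0 : ℝ) ≤ j := Nat.cast_nonneg j
  rw [le_div_iff₀ (hpow j)]
  by_cases hj : j ≤ M₀ + 1
  · have h1 : √((2 : ℝ) ^ j) ≤ √(2 ^ (M₀ + 1)) :=
      Real.sqrt_le_sqrt (pow_le_pow_right₀ (by norm_num) hj)
    have h2 : qj D (stepLaw μ ν 1) j * √(2 ^ j) ≤ 1 * √(2 ^ (M₀ + 1)) :=
      mul_le_mul (hq1 j) h1 (hpow j).le zero_le_one
    have h3 : 0 ≤ (4 * C₀ / ε + 2) / δ := by positivity
    have h4 : 0 ≤ √((2 : ℝ) ^ (M₀ + 1)) := (hpow _).le
    nlinarith [mul_nonneg h4 hj0, mul_nonneg h3 hj0]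
  · push Not at hj
    have hjp : j ≤ 2 ^ j := (Nat.lt_two_pow_self).le
    have h2j : 2 ≤ 2 ^ j := by
      calc 2 = 2 ^ 1 := rfl
        _ ≤ 2 ^ j := Nat.pow_le_pow_right (by norm_num) (by omega)
    have e1 := hM₀ (2 ^ j) (by omega)
    have e2 := hlog (2 ^ j) h2j
    have e22 : 2 * 2 ^ j = 2 ^ (j + 1) := by ring
    rw [e22] at e1 e2
    have hlogj : Real.log ((2 ^ j : ℕ) : ℝ) = j * Real.log 2 := by
      push_cast
      exact Real.log_pow 2 j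
    have hlog2 : Real.log 2 ≤ 1 := by
      have := Real.log_two_lt_d9
      linarith
    have hlog20 : 0 < Real.log 2 := Real.log_pos (by norm_num)
    have e3 : ∫⁻ ω in EvI D (2 ^ j) (2 ^ (j + 1)),
        (cG D (100 / ε * √((2 ^ j : ℕ) : ℝ)) (2 ^ (j + 1)) ω : ℝ≥0∞) ∂(PQ μ ν) ≤
        ENNReal.ofReal (C₀ * (j + 1)) := by
      refine (setLIntegral_le_lintegral _ _).trans (e2.trans (ENNReal.ofReal_le_ofReal ?_))
      rw [hlogj]
      refine mul_le_mul_of_nonneg_left ?_ hC₀.le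
      nlinarith
    have e4 := R2_markov hD (EvI D (2 ^ j) (2 ^ (j + 1))) (100 / ε * √((2 ^ j : ℕ) : ℝ))
      (ε / 4 * √((2 ^ j : ℕ) : ℝ)) _ (2 ^ (j + 1)) (by positivity) (by positivity) e3
    have e5 := e1.trans (add_le_add_left e4 _)
    have hc : (((2 ^ j : ℕ) : ℝ)) = 2 ^ j := by push_cast; rfl
    rw [hc] at e5
    have hs := hpow j
    set s := √((2 : ℝ) ^ j) with hsd
    have hss : s * s = 2 ^ j := Real.mul_self_sqrt (by positivity)
    have hs1 : 1 ≤ s := by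
      rw [hsd]
      exact Real.one_le_sqrt.2 (one_le_pow₀ (by norm_num))
    have e6 : δ * qj D (stepLaw μ ν 1) j ≤ C₀ * (j + 1) / (ε / 4 * s) + 2 / (2 ^ j) ^ 4 := e5
    have e7 : (2 : ℝ) / (2 ^ j) ^ 4 ≤ 2 / s := by
      refine div_le_div_of_nonneg_left (by norm_num) hs ?_
      rw [← hss]
      have : s ^ 1 ≤ s ^ 8 := pow_le_pow_right₀ hs1 (by norm_num)
      calc s = s ^ 1 := (pow_one s).symm
        _ ≤ s ^ 8 := this
        _ = (s * s) ^ 4 := by ring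
    have e8 : δ * (qj D (stepLaw μ ν 1) j * s) ≤ 4 * C₀ / ε * (j + 1) + 2 := by
      have h9 : (C₀ * (j + 1) / (ε / 4 * s) + 2 / s) * s = 4 * C₀ / ε * (j + 1) + 2 := by
        field_simp
      rw [← h9, ← mul_assoc]
      refine mul_le_mul_of_nonneg_right ?_ hs.le
      linarith
    have e9 : qj D (stepLaw μ ν 1) j * s ≤ (4 * C₀ / ε * (j + 1) + 2) / δ := by
      rw [le_div_iff₀ hδ]
      linarith
    refine e9.trans ?_
    have h10 : (4 * C₀ / ε * (j + 1) + 2) / δ ≤ (4 * C₀ / ε + 2) / δ * (j + 1) := by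
      have h12 : 4 * C₀ / ε * (j + 1) + 2 ≤ (4 * C₀ / ε + 2) * (j + 1) := by nlinarith
      calc (4 * C₀ / ε * (j + 1) + 2) / δ ≤ (4 * C₀ / ε + 2) * (j + 1) / δ :=
            div_le_div_of_nonneg_right h12 hδ.le
        _ = _ := by ring
    have h11 : 0 ≤ √((2 : ℝ) ^ (M₀ + 1)) * (j + 1) := by
      have := hpow (M₀ + 1)
      positivity
    nlinarith

/-- **[IVC-R2d]** `qj` is summable (`∑ ≤ 1`), nonnegative, and `∑ 2^j qj = ∞` (`mean_time`: `n < 2^{j+1}` on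
`[2^j, 2^{j+1})`). -/
theorem qj_facts (hD : Dom D) (hρ : Cen (stepLaw μ ν 1)) :
    (∀ j, 0 ≤ qj D (stepLaw μ ν 1) j) ∧ Summable (qj D (stepLaw μ ν 1)) ∧
    ¬ Summable fun j => 2 ^ j * qj D (stepLaw μ ν 1) j := by
  refine ⟨R2_qj_nonneg _, R2_summable hD hρ, fun hs => ?_⟩
  set Q := qj D (stepLaw μ ν 1) with hQ
  have hQ0 : ∀ i, 0 ≤ Q i := R2_qj_nonneg _
  have h1 : ∑' n : ℕ, (n : ℝ≥0∞) * ENNReal.ofReal (hit D (stepLaw μ ν 1) n 0) ≤
      ENNReal.ofReal (2 * ∑' j, 2 ^ j * Q j) := by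
    refine ENNReal.tsum_le_of_sum_range_le fun N => ?_
    have h2 : ∑ n ∈ Finset.range N, (n : ℝ≥0∞) * ENNReal.ofReal (hit D (stepLaw μ ν 1) n 0) =
        ENNReal.ofReal (∑ n ∈ Finset.range N, (n : ℝ) * hit D (stepLaw μ ν 1) n 0) := by
      rw [ENNReal.ofReal_sum_of_nonneg (fun n _ => mul_nonneg (Nat.cast_nonneg n) (R2_hit_nonneg _ n 0))]
      refine Finset.sum_congr rfl fun n _ => ?_
      rw [ENNReal.ofReal_mul (Nat.cast_nonneg n), ENNReal.ofReal_natCast]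
    rw [h2]
    refine ENNReal.ofReal_le_ofReal ?_
    have h3 : ∑ n ∈ Finset.range N, (n : ℝ) * hit D (stepLaw μ ν 1) n 0 ≤
        ∑ n ∈ Finset.range (2 ^ N), (n : ℝ) * hit D (stepLaw μ ν 1) n 0 :=
      Finset.sum_le_sum_of_subset_of_nonneg
        (Finset.range_subset_range.2 (Nat.lt_two_pow_self).le)
        fun n _ _ => mul_nonneg (Nat.cast_nonneg n) (R2_hit_nonneg _ n 0)
    refine h3.trans ((R2_weighted _ N).trans ?_)
    have h4 : ∑ j ∈ Finset.range N, 2 ^ (j + 1) * Q j = 2 * ∑ j ∈ Finset.range N, 2 ^ j * Q j := by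
      rw [Finset.mul_sum]
      refine Finset.sum_congr rfl fun j _ => ?_
      ring
    rw [← hQ, h4]
    refine mul_le_mul_of_nonneg_left ?_ (by norm_num)
    exact hs.sum_le_tsum _ fun j _ => mul_nonneg (by positivity) (hQ0 j)
  rw [mean_time hD hρ] at h1
  exact absurd h1 (not_le.2 ENNReal.ofReal_lt_top)

end Pool.Agent.BPT
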