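import Pool.Agent.MP_99a865_pr.CV.CDefs

open MeasureTheory ProbabilityTheory Filter Topology
open scoped ENNReal NNReal

namespace Pool.Agent.BPT

theorem R3_unbounded (q : ℕ → ℝ)
    (hc : ∀ j₀ : ℕ, ∃ j ≥ j₀, (2 : ℝ) ^ (-(19 / 20 : ℝ) * j) ≤ q j) (M : ℝ) :
    ∃ j : ℕ, M < q j * (39 / 20 : ℝ) ^ j := by
  set s : ℝ := (2 : ℝ) ^ (-(19 / 20 : ℝ)) with hs
  have hs0 : 0 < s := Real.rpow_pos_of_pos (by norm_num) _
  have hs20 : s ^ 20 = 1 / 2 ^ 19 := by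
    rw [hs, ← Real.rpow_natCast, ← Real.rpow_mul (by norm_num),
      show (-(19 / 20 : ℝ)) * ((20 : ℕ) : ℝ) = -((19 : ℕ) : ℝ) by norm_num,
      Real.rpow_neg (by norm_num), Real.rpow_natCast]
    norm_num
  have hr : 1 < s * (39 / 20) := by
    by_contra hcon
    push Not at hcon
    have h1 : (s * (39 / 20)) ^ 20 ≤ 1 := pow_le_one₀ (by positivity) hcon
    rw [mul_pow, hs20] at h1
    norm_num at h1
  obtain ⟨j₀, hj₀⟩ := pow_unbounded_of_one_lt M hr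
  obtain ⟨j, hj, hq⟩ := hc j₀
  refine ⟨j, ?_⟩
  have h1 : (2 : ℝ) ^ (-(19 / 20 : ℝ) * j) = s ^ j := by
    rw [hs, Real.rpow_mul_natCast (by norm_num)]
  rw [h1] at hq
  calc M < (s * (39 / 20)) ^ j₀ := hj₀
    _ ≤ (s * (39 / 20)) ^ j := pow_le_pow_right₀ hr.le hj
    _ = s ^ j * (39 / 20) ^ j := by rw [mul_pow]
    _ ≤ q j * (39 / 20) ^ j := by gcongr

/-- records -/
theorem R3_record (q : ℕ → ℝ) (hq : ∀ j, 0 ≤ q j)
    (hc : ∀ j₀ : ℕ, ∃ j ≥ j₀, (2 : ℝ) ^ (-(19 / 20 : ℝ) * j) ≤ q j) (J : ℕ) :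
    ∃ j ≥ J, 1 ≤ q j * (39 / 20 : ℝ) ^ j ∧
      ∀ i ≤ j, q i * (39 / 20 : ℝ) ^ i ≤ q j * (39 / 20 : ℝ) ^ j := by
  set M : ℝ := 1 + ∑ i ∈ Finset.range J, q i * (39 / 20 : ℝ) ^ i with hM
  have hnn : ∀ i, 0 ≤ q i * (39 / 20 : ℝ) ^ i := fun i => mul_nonneg (hq i) (by positivity)
  have hM1 : 1 ≤ M := by
    have : 0 ≤ ∑ i ∈ Finset.range J, q i * (39 / 20 : ℝ) ^ i :=
      Finset.sum_nonneg fun i _ => hnn i
    linarith
  have hex := R3_unbounded q hc M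
  classical
  set j := Nat.find hex with hj
  have hj1 : M < q j * (39 / 20 : ℝ) ^ j := Nat.find_spec hex
  have hlt : ∀ i < j, q i * (39 / 20 : ℝ) ^ i ≤ M := by
    intro i hi
    exact not_lt.1 (Nat.find_min hex hi)
  refine ⟨j, ?_, hM1.trans hj1.le, ?_⟩
  · by_contra hcon
    push Not at hcon
    have h1 : q j * (39 / 20 : ℝ) ^ j ≤ ∑ i ∈ Finset.range J, q i * (39 / 20 : ℝ) ^ i :=
      Finset.single_le_sum (f := fun i => q i * (39 / 20 : ℝ) ^ i) (fun i _ => hnn i)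
        (Finset.mem_range.2 hcon)
    linarith
  · intro i hi
    rcases hi.lt_or_eq with h | h
    · exact (hlt i h).trans hj1.le
    · rw [h]

theorem R3_tendsto (q : ℕ → ℝ) (hq : ∀ j, 0 ≤ q j)
    (hb : ∃ C > (0 : ℝ), ∀ j : ℕ, q j ≤ C * (j + 1) / √(2 ^ j)) :
    Tendsto (fun l => q l * (11 / 10 : ℝ) ^ l) atTop (𝓝 0) := by
  obtain ⟨C, hC, hb⟩ := hb
  have h2 : (0 : ℝ) < √2 := by positivity
  have hr : |(11 / 10 : ℝ) / √2| < 1 := by
    rw [abs_of_pos (by positivity), div_lt_one h2]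
    exact Real.lt_sqrt_of_sq_lt (by norm_num)
  have hlim1 := tendsto_pow_const_mul_const_pow_of_abs_lt_one 1 hr
  have hlim2 := tendsto_pow_const_mul_const_pow_of_abs_lt_one 0 hr
  have hlim : Tendsto (fun l : ℕ => C * ((l : ℝ) ^ 1 * ((11 / 10 : ℝ) / √2) ^ l +
      (l : ℝ) ^ 0 * ((11 / 10 : ℝ) / √2) ^ l)) atTop (𝓝 0) := by
    have := (hlim1.add hlim2).const_mul C
    rw [add_zero, mul_zero] at this
    exact this
  refine squeeze_zero (fun l => mul_nonneg (hq l) (by positivity)) ?_ hlim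
  intro l
  have h3 : √((2 : ℝ) ^ l) = √2 ^ l := by
    rw [Real.sqrt_eq_iff_mul_self_eq (by positivity) (by positivity), ← mul_pow,
      Real.mul_self_sqrt (by norm_num)]
  have h4 := hb l
  rw [h3] at h4
  calc q l * (11 / 10 : ℝ) ^ l ≤ C * (l + 1) / √2 ^ l * (11 / 10 : ℝ) ^ l := by gcongr
    _ = C * ((l : ℝ) ^ 1 * ((11 / 10 : ℝ) / √2) ^ l +
      (l : ℝ) ^ 0 * ((11 / 10 : ℝ) / √2) ^ l) := by
      rw [div_pow (11 / 10 : ℝ) (√2) l, pow_one, pow_zero]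
      field_simp

/-- the choice of the index -/
theorem R3_index (q : ℕ → ℝ) (hq : ∀ j, 0 ≤ q j)
    (hb : ∃ C > (0 : ℝ), ∀ j : ℕ, q j ≤ C * (j + 1) / √(2 ^ j))
    (hc : ∀ j₀ : ℕ, ∃ j ≥ j₀, (2 : ℝ) ^ (-(19 / 20 : ℝ) * j) ≤ q j) (J : ℕ) :
    ∃ l ≥ J, 0 < q l ∧ 1 ≤ q l * (39 / 20 : ℝ) ^ l ∧
      (∀ i, q (l + i) ≤ q l * (10 / 11 : ℝ) ^ i) ∧
      ∀ i ≤ l, q (l - i) ≤ q l * (39 / 20 : ℝ) ^ i := by
  obtain ⟨j, hjJ, hj1, hj2⟩ := R3_record q hq hc J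
  have hqj : 0 < q j := by
    by_contra hcon
    have : q j = 0 := le_antisymm (not_lt.1 hcon) (hq j)
    rw [this, zero_mul] at hj1
    norm_num at hj1
  have hpos : 0 < q j * (11 / 10 : ℝ) ^ j := mul_pos hqj (by positivity)
  obtain ⟨N, hN⟩ := eventually_atTop.1 ((R3_tendsto q hq hb).eventually_lt_const hpos)
  obtain ⟨l, hl1, hl2⟩ := Finset.exists_max_image (Finset.Icc j (max j N))
    (fun l => q l * (11 / 10 : ℝ) ^ l) ⟨j, Finset.mem_Icc.2 ⟨le_rfl, le_max_left _ _⟩⟩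
  rw [Finset.mem_Icc] at hl1
  have hjl := hl2 j (Finset.mem_Icc.2 ⟨le_rfl, le_max_left _ _⟩)
  have hmax : ∀ i ≥ j, q i * (11 / 10 : ℝ) ^ i ≤ q l * (11 / 10 : ℝ) ^ l := by
    intro i hi
    by_cases h : i ≤ max j N
    · exact hl2 i (Finset.mem_Icc.2 ⟨hi, h⟩)
    · have h1 : N ≤ i := by
        have := le_max_right j N
        omega
      exact (hN i h1).le.trans hjl
  have hql : 0 < q l := by
    by_contra hcon
    have h1 : q l = 0 := le_antisymm (not_lt.1 hcon) (hq l)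
    simp only [h1, zero_mul] at hjl
    linarith
  have hup : ∀ i, q (l + i) ≤ q l * (10 / 11 : ℝ) ^ i := by
    intro i
    have h1 := hmax (l + i) (by omega)
    have h2 : (0 : ℝ) < (11 / 10) ^ l := by positivity
    rw [pow_add, mul_comm ((11 / 10 : ℝ) ^ l), ← mul_assoc] at h1
    have h3 := le_of_mul_le_mul_right h1 h2
    have h4 : (10 / 11 : ℝ) ^ i * (11 / 10) ^ i = 1 := by
      rw [← mul_pow]; norm_num
    calc q (l + i) = q (l + i) * ((11 / 10 : ℝ) ^ i * (10 / 11 : ℝ) ^ i) := by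
          rw [mul_comm ((11 / 10 : ℝ) ^ i), h4, mul_one]
      _ = q (l + i) * (11 / 10 : ℝ) ^ i * (10 / 11 : ℝ) ^ i := by ring
      _ ≤ q l * (10 / 11 : ℝ) ^ i := by gcongr
  -- for `j ≤ i ≤ l`
  have hmid : ∀ i, j ≤ l - i → i ≤ l → q (l - i) ≤ q l * (39 / 20 : ℝ) ^ i := by
    intro i hi hil
    have h1 := hmax (l - i) hi
    have h2 : (11 / 10 : ℝ) ^ l = (11 / 10 : ℝ) ^ (l - i) * (11 / 10 : ℝ) ^ i := by
      rw [← pow_add]; congr 1; omega
    have h3 : (0 : ℝ) < (11 / 10) ^ (l - i) := by positivity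
    rw [h2, mul_comm ((11 / 10 : ℝ) ^ (l - i)) ((11 / 10 : ℝ) ^ i), ← mul_assoc] at h1
    have h4 := le_of_mul_le_mul_right h1 h3
    exact h4.trans (mul_le_mul_of_nonneg_left
      (pow_le_pow_left₀ (by norm_num) (by norm_num) i) hql.le)
  have hjl2 : q j ≤ q l * (39 / 20 : ℝ) ^ (l - j) := by
    have := hmid (l - j) (by omega) (by omega)
    rwa [Nat.sub_sub_self hl1.1] at this
  have hdown : ∀ i ≤ l, q (l - i) ≤ q l * (39 / 20 : ℝ) ^ i := by
    intro i hi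
    by_cases h : j ≤ l - i
    · exact hmid i h hi
    · push Not at h
      have h1 := hj2 (l - i) h.le
      have h2 : (39 / 20 : ℝ) ^ j = (39 / 20 : ℝ) ^ (j - (l - i)) * (39 / 20 : ℝ) ^ (l - i) := by
        rw [← pow_add]; congr 1; omega
      have h3 : (0 : ℝ) < (39 / 20) ^ (l - i) := by positivity
      rw [h2, ← mul_assoc] at h1
      have h4 := le_of_mul_le_mul_right h1 h3
      calc q (l - i) ≤ q j * (39 / 20) ^ (j - (l - i)) := h4
        _ ≤ q l * (39 / 20 : ℝ) ^ (l - j) * (39 / 20) ^ (j - (l - i)) := by gcongr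
        _ = q l * (39 / 20 : ℝ) ^ i := by
          rw [mul_assoc, ← pow_add]
          congr 2
          have := hl1.1
          omega
  refine ⟨l, hjJ.trans hl1.1, hql, ?_, hup, hdown⟩
  calc 1 ≤ q j * (39 / 20) ^ j := hj1
    _ ≤ q l * (39 / 20 : ℝ) ^ (l - j) * (39 / 20) ^ j := by gcongr
    _ = q l * (39 / 20 : ℝ) ^ l := by
      rw [mul_assoc, ← pow_add]
      congr 2
      have := hl1.1
      omega

/-- **[IVC-R3]** Selection lemma (pure analysis).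
PROOF. Let `lam₁ = 2^{19/20}`... write `A = 2^{(39/40)}` and `B = 11/10`, `1 < B < 2^{1/2}`, `2^{19/20} < A < 2`. By (c),
`q j A^j` is unbounded, so there are arbitrarily large `j` (records) with `q i A^i ≤ q j A^j` for all `i ≤ j` and
`q j A^j ≥ 1`. By (b) `q l B^l → 0` (as `B < √2`), so `l ↦ q l B^l` attains its maximum over `l ≥ j` at some `l ≥ j`
(`q l > 0`). Then `q (l + i) ≤ B^{-i} q l` for `i ≥ 0`; and `q i ≤ A^{l-i} q l` for `i ≤ l` (for `j ≤ i ≤ l`,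
`q i ≤ B^{l-i} q l`; for `i < j`, `q i ≤ A^{j-i} q j ≤ A^{j-i} B^{l-j} q l`). Also `q l ≥ B^{-(l-j)} q j ≥ A^{-l} ≥ 2^{-l}`.
Insert in (a): `∑_{i≤l} q i 2^{i-l} ≤ q l ∑_k (A/2)^k = C_A q l`, `∑_{i≥l-1} q i ≤ q l (A + ∑_k B^{-k}) = C_B q l`, and
`2^{-3l} ≤ 2^{-2l} q l`. So `q l ≤ (c (C_A + C_B) + 4^{-l}) q l`, a contradiction if `c (C_A + C_B) < 1/2` and
`l` is large. -/
theorem selection (q : ℕ → ℝ) (hq : ∀ j, 0 ≤ q j) (hs : Summable q)
    (ha : ∀ c > (0 : ℝ), ∃ j₀ : ℕ, ∀ j ≥ j₀, q j ≤ c * ((∑ i ∈ Finset.range (j + 1),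
      q i * 2 ^ i / 2 ^ j) + ∑' i, q (j - 1 + i)) + 1 / 2 ^ (3 * j))
    (hb : ∃ C > (0 : ℝ), ∀ j : ℕ, q j ≤ C * (j + 1) / √(2 ^ j))
    (hc : ∀ j₀ : ℕ, ∃ j ≥ j₀, (2 : ℝ) ^ (-(19 / 20 : ℝ) * j) ≤ q j) : False := by
  obtain ⟨j₀, hj₀⟩ := ha (1 / 212) (by norm_num)
  obtain ⟨l, hl, hql, hl1, hup, hdown⟩ := R3_index q hq hb hc (max j₀ 1)
  have hl0 : 1 ≤ l := (le_max_right _ _).trans hl
  have h1 := hj₀ l ((le_max_left _ _).trans hl)
  -- the first sum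
  have e1 : ∑ i ∈ Finset.range (l + 1), q i * 2 ^ i / 2 ^ l ≤ q l * 40 := by
    rw [← Finset.sum_range_reflect]
    have h2 : ∀ i ∈ Finset.range (l + 1), q (l + 1 - 1 - i) * 2 ^ (l + 1 - 1 - i) / 2 ^ l ≤
        q l * (39 / 40 : ℝ) ^ i := by
      intro i hi
      rw [Finset.mem_range] at hi
      have hi' : i ≤ l := by omega
      rw [Nat.add_sub_cancel]
      have h3 : (2 : ℝ) ^ l = 2 ^ (l - i) * 2 ^ i := by
        rw [← pow_add]; congr 1; omega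
      have h4 : q (l - i) * 2 ^ (l - i) / 2 ^ l = q (l - i) * (1 / 2) ^ i := by
        rw [h3, div_pow, one_pow]
        field_simp
      rw [h4]
      calc q (l - i) * (1 / 2 : ℝ) ^ i ≤ q l * (39 / 20 : ℝ) ^ i * (1 / 2) ^ i := by
            have := hdown i hi'
            gcongr
        _ = q l * (39 / 40 : ℝ) ^ i := by
            rw [mul_assoc, ← mul_pow]
            norm_num
    refine (Finset.sum_le_sum h2).trans ?_
    rw [← Finset.mul_sum]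
    refine mul_le_mul_of_nonneg_left ?_ hql.le
    have h5 := (summable_geometric_of_lt_one (r := (39 / 40 : ℝ)) (by norm_num)
      (by norm_num)).sum_le_tsum (Finset.range (l + 1)) (fun i _ => by positivity)
    rw [tsum_geometric_of_lt_one (by norm_num) (by norm_num)] at h5
    norm_num at h5
    exact h5
  have e2 : ∑' i, q (l - 1 + i) ≤ q l * (39 / 20) + q l * 11 := by
    have hs1 : Summable fun i => q (l - 1 + i) := by
      have := (summable_nat_add_iff (l - 1)).2 hs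
      refine this.congr fun i => ?_
      rw [add_comm]
    rw [hs1.tsum_eq_zero_add]
    have h2 : q (l - 1 + 0) ≤ q l * (39 / 20) := by
      have := hdown 1 hl0
      rwa [pow_one] at this
    refine add_le_add h2 ?_
    have h3 : ∀ i, q (l - 1 + (i + 1)) ≤ q l * (10 / 11 : ℝ) ^ i := by
      intro i
      have h4 : l - 1 + (i + 1) = l + i := by omega
      rw [h4]
      exact hup i
    have hs2 : Summable fun i : ℕ => (10 / 11 : ℝ) ^ i :=
      summable_geometric_of_lt_one (by norm_num) (by norm_num)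
    have hs3 : Summable fun i => q (l - 1 + (i + 1)) := (summable_nat_add_iff 1).2 hs1
    calc ∑' i, q (l - 1 + (i + 1)) ≤ ∑' i : ℕ, q l * (10 / 11 : ℝ) ^ i :=
          hs3.tsum_le_tsum h3 (hs2.mul_left _)
      _ = q l * 11 := by
          rw [tsum_mul_left, tsum_geometric_of_lt_one (by norm_num) (by norm_num)]
          norm_num
  have e3 : (1 : ℝ) / 2 ^ (3 * l) ≤ q l / 4 := by
    have h2 : (1 : ℝ) ≤ q l * 2 ^ l := by
      refine hl1.trans (mul_le_mul_of_nonneg_left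
        (pow_le_pow_left₀ (by norm_num) (by norm_num) l) hql.le)
    have h3 : (4 : ℝ) ≤ 2 ^ (2 * l) := by
      calc (4 : ℝ) = 2 ^ (2 * 1) := by norm_num
        _ ≤ 2 ^ (2 * l) := pow_le_pow_right₀ (by norm_num) (by omega)
    rw [div_le_div_iff₀ (by positivity) (by norm_num)]
    have h4 : (2 : ℝ) ^ (3 * l) = 2 ^ l * 2 ^ (2 * l) := by
      rw [← pow_add]; congr 1; omega
    rw [h4]
    calc (1 : ℝ) * 4 ≤ (q l * 2 ^ l) * 2 ^ (2 * l) := by
          apply mul_le_mul h2 h3 (by norm_num) (by positivity)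
      _ = q l * (2 ^ l * 2 ^ (2 * l)) := by ring
  nlinarith

end Pool.Agent.BPT
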