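import Pool.Agent.MP_99a865_pr.CV.Q4
import Pool.Agent.MP_99a865_pr.CV.Q7
import Pool.Agent.MP_99a865_pr.CV.K12

open MeasureTheory ProbabilityTheory Filter Topology
open scoped ENNReal NNReal

namespace Pool.Agent.BPT

variable {D : Set ℝ} {μ ν : Measure ℝ}

private theorem R4_step {u : ℝ} (hu : 1 ≤ u) :
    u ^ (-(19 / 20 : ℝ)) ≤ 40 * ((u + 1) ^ (1 / 20 : ℝ) - u ^ (1 / 20 : ℝ)) := by
  have hu0 : 0 < u := by linarith
  have hu1 : 0 < u + 1 := by linarith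
  have h1 : (1 + -(1 / (u + 1))) ^ (1 / 20 : ℝ) ≤ 1 + 1 / 20 * -(1 / (u + 1)) := by
    refine rpow_one_add_le_one_add_mul_self ?_ (by norm_num) (by norm_num)
    have : 1 / (u + 1) ≤ 1 := by
      rw [div_le_one hu1]
      linarith
    linarith
  have h2 : u ^ (1 / 20 : ℝ) = (u + 1) ^ (1 / 20 : ℝ) * (1 + -(1 / (u + 1))) ^ (1 / 20 : ℝ) := by
    rw [← Real.mul_rpow hu1.le (by
      have : 1 / (u + 1) ≤ 1 := by
        rw [div_le_one hu1]
        linarith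
      linarith)]
    congr 1
    field_simp
    ring
  have h3 : (u + 1) ^ (1 / 20 : ℝ) * (1 / (u + 1)) = (u + 1) ^ (-(19 / 20 : ℝ)) := by
    rw [one_div (u + 1), ← Real.rpow_neg_one (u + 1), ← Real.rpow_add hu1]
    norm_num
  have h4 : (u + 1) ^ (1 / 20 : ℝ) - u ^ (1 / 20 : ℝ) ≥ 1 / 20 * (u + 1) ^ (-(19 / 20 : ℝ)) := by
    have h5 := mul_le_mul_of_nonneg_left h1 (Real.rpow_nonneg hu1.le (1 / 20 : ℝ))
    rw [← h2] at h5
    rw [← h3]
    linarith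
  have h6 : u ^ (-(19 / 20 : ℝ)) ≤ 2 * (u + 1) ^ (-(19 / 20 : ℝ)) := by
    have h7 : (2 * u) ^ (-(19 / 20 : ℝ)) ≤ (u + 1) ^ (-(19 / 20 : ℝ)) :=
      Real.rpow_le_rpow_of_nonpos hu1 (by linarith) (by norm_num)
    rw [Real.mul_rpow (by norm_num) hu0.le] at h7
    have h8 : (1 / 2 : ℝ) ≤ (2 : ℝ) ^ (-(19 / 20 : ℝ)) := by
      have : (2 : ℝ) ^ (-1 : ℝ) ≤ (2 : ℝ) ^ (-(19 / 20 : ℝ)) :=
        Real.rpow_le_rpow_of_exponent_le (by norm_num) (by norm_num)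
      rw [Real.rpow_neg_one] at this
      linarith
    have h9 := mul_le_mul_of_nonneg_right h8 (Real.rpow_nonneg hu0.le (-(19 / 20 : ℝ)))
    linarith
  linarith

private theorem R4_sum (C : ℝ) (hC : 0 ≤ C) (p : ℕ → ℝ) (hp0 : p 0 ≤ 1)
    (h : ∀ t : ℕ, 1 ≤ t → p t ≤ C * (t : ℝ) ^ (-(19 / 20 : ℝ))) (t : ℕ) (ht : 1 ≤ t) :
    ∑ k ∈ Finset.range t, p k ≤ (1 + 40 * C) * (t : ℝ) ^ (1 / 20 : ℝ) := by
  induction t, ht using Nat.le_induction with
  | base =>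
    rw [Finset.sum_range_one, Nat.cast_one, Real.one_rpow]
    linarith
  | succ t ht ih =>
    rw [Finset.sum_range_succ]
    have hu : (1 : ℝ) ≤ t := by exact_mod_cast ht
    have h1 := R4_step hu
    have h2 := h t ht
    have h3 := mul_le_mul_of_nonneg_left h1 hC
    have h4 : (t : ℝ) ^ (1 / 20 : ℝ) ≤ ((t : ℝ) + 1) ^ (1 / 20 : ℝ) :=
      Real.rpow_le_rpow (by linarith) (by linarith) (by norm_num)
    push_cast
    linarith

private theorem R4_surv (hD : Dom D) {ρ : Measure ℝ} (hρ : Cen ρ)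
    (hs : ∃ C : ℝ, ∀ t : ℕ, 1 ≤ t → (kap D ρ t 0 Set.univ).toReal ≤ C * (t : ℝ) ^ (-(19 / 20 : ℝ))) :
    ∃ K : ℝ, 1 ≤ K ∧ ∀ y : ℝ, 1 ≤ y → ∀ z : ℝ, 0 ≤ z → z ≤ y → ∀ t : ℕ, 1 ≤ t →
      kap D ρ t z Set.univ ≤ ENNReal.ofReal (K * y * (t : ℝ) ^ (-(19 / 20 : ℝ))) := by
  have := hρ.prob
  obtain ⟨C, hC⟩ := hs
  have hC0 : 0 ≤ C := by
    have h1 := hC 1 le_rfl
    rw [Nat.cast_one, Real.one_rpow, mul_one] at h1
    exact ENNReal.toReal_nonneg.trans h1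
  obtain ⟨CV, hV⟩ := VV_linear hD hρ
  have hCV : (0 : ℝ) ≤ CV := CV.2
  have hle1 : ∀ k, kap D ρ k 0 Set.univ ≤ 1 := fun k => kap_univ_le_one k 0
  have hfin : ∀ k, kap D ρ k 0 Set.univ ≠ ⊤ := fun k => ((hle1 k).trans_lt ENNReal.one_lt_top).ne
  refine ⟨(CV + 1) * (1 + 40 * C), by nlinarith [mul_nonneg hCV hC0], ?_⟩
  intro y hy z hz hzy t ht
  have hy0 : 0 < y := by linarith
  have ht0 : (0 : ℝ) < t := by exact_mod_cast ht
  have h1 := surv_le hD (ρ := ρ) t z hz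
  have h2 : ∑ k ∈ Finset.range t, kap D ρ k 0 Set.univ ≤
      ENNReal.ofReal ((1 + 40 * C) * (t : ℝ) ^ (1 / 20 : ℝ)) := by
    have h3 := R4_sum C hC0 (fun k => (kap D ρ k 0 Set.univ).toReal) (by
      have := ENNReal.toReal_mono ENNReal.one_ne_top (hle1 0)
      simpa using this) hC t ht
    rw [← ENNReal.toReal_sum (fun k _ => hfin k)] at h3
    rw [← ENNReal.ofReal_toReal (ENNReal.sum_ne_top.2 fun k _ => hfin k)]
    exact ENNReal.ofReal_le_ofReal h3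
  have h4 : VV D ρ z ≤ ENNReal.ofReal ((CV + 1) * y) := by
    refine (VT_mono hD hzy).trans ((hV y hy).trans ?_)
    rw [ENNReal.ofReal_mul (by positivity)]
    refine mul_le_mul_left ?_ _
    rw [← ENNReal.ofReal_coe_nnreal]
    exact ENNReal.ofReal_le_ofReal (by linarith)
  have h5 : (t : ℝ≥0∞) * kap D ρ t z Set.univ ≤
      (t : ℝ≥0∞) * ENNReal.ofReal ((CV + 1) * (1 + 40 * C) * y * (t : ℝ) ^ (-(19 / 20 : ℝ))) := by
    refine h1.trans ((mul_le_mul' h4 h2).trans (le_of_eq ?_))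
    rw [← ENNReal.ofReal_natCast, ← ENNReal.ofReal_mul (by positivity), ← ENNReal.ofReal_mul (by positivity)]
    congr 1
    have h6 : (t : ℝ) * (t : ℝ) ^ (-(19 / 20 : ℝ)) = (t : ℝ) ^ (1 / 20 : ℝ) := by
      rw [← Real.rpow_one_add' ht0.le (by norm_num)]
      norm_num
    rw [← h6]
    ring
  exact (ENNReal.mul_le_mul_iff_right (by exact_mod_cast ht0.ne') (ENNReal.natCast_ne_top t)).1 h5

private theorem R4_T {x : ℝ} (hx : 1 ≤ x) : ∃ T : ℕ, 1 ≤ T ∧ x ≤ (T : ℝ) ^ (19 / 20 : ℝ) ∧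
    (T : ℝ) ≤ 2 * x ^ (11 / 10 : ℝ) := by
  have hx0 : 0 < x := by linarith
  have h1 : 1 ≤ x ^ (11 / 10 : ℝ) := Real.one_le_rpow hx (by norm_num)
  refine ⟨⌈x ^ (11 / 10 : ℝ)⌉₊, Nat.one_le_ceil_iff.2 (by linarith), ?_, ?_⟩
  · have h2 : (x ^ (11 / 10 : ℝ)) ^ (19 / 20 : ℝ) ≤ (⌈x ^ (11 / 10 : ℝ)⌉₊ : ℝ) ^ (19 / 20 : ℝ) :=
      Real.rpow_le_rpow (by positivity) (Nat.le_ceil _) (by norm_num)
    refine le_trans ?_ h2
    rw [← Real.rpow_mul hx0.le]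
    calc x = x ^ (1 : ℝ) := (Real.rpow_one x).symm
      _ ≤ x ^ (11 / 10 * (19 / 20) : ℝ) := Real.rpow_le_rpow_of_exponent_le hx (by norm_num)
  · have := Nat.ceil_lt_add_one (show 0 ≤ x ^ (11 / 10 : ℝ) by positivity)
    linarith

/-- **[IVC-R4a]** Second case: if `P(N > t) ≤ C t^{-19/20}` then the killed walk, from any starting point, spends at
most `C' y^{11/10}` units of time (in the mean) at levels `≤ y`.
PROOF. `∑_{k<t} P(N>k) ≤ C t^{1/20}` (+1), so by `surv_le` and `VV_linear`, for `z ≤ y`, `y ≥ 1`,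
`P_z(N > t) ≤ P_y(N > t)`-like `≤ C'' y t^{-19/20} ≤ 1/2` if `t = T = ⌈C₃ y^{20/19}⌉` (`VV` is monotone). Let
`G = sup_{z≥0} ∑_k kap k z (Iic y)`, finite by `green_sup`. For `z ≤ y`: `∑_k kap k z (Iic y) ≤ T + ∫ (∑_k kap k z' (Iic y))
∂(kap T z)(z') ≤ T + G/2`; for `z > y` the sum is at most the supremum over `[0,y]` (as in `green_sup`; with partial
sums, by induction). So `G ≤ T + G/2`, `G ≤ 2T ≤ C' y^{11/10}`. -/
theorem time_poly (hD : Dom D) {ρ : Measure ℝ} (hρ : Cen ρ)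
    (hs : ∃ C : ℝ, ∀ t : ℕ, 1 ≤ t → (kap D ρ t 0 Set.univ).toReal ≤ C * (t : ℝ) ^ (-(19 / 20 : ℝ))) :
    ∃ C > (0 : ℝ), ∀ y : ℝ, 1 ≤ y → ∀ z : ℝ, 0 ≤ z →
      ∑' k, kap D ρ k z (Set.Iic y) ≤ ENNReal.ofReal (C * y ^ (11 / 10 : ℝ)) := by
  have := hρ.prob
  obtain ⟨K, hK1, hK⟩ := R4_surv hD hρ hs
  obtain ⟨CV, hV⟩ := VV_linear hD hρ
  obtain ⟨CG, hG⟩ := GG_linear hD hρ
  have hK0 : 0 < K := by linarith
  refine ⟨4 * (2 * K) ^ (11 / 10 : ℝ), by positivity, ?_⟩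
  intro y hy z₀ hz₀
  have hy0 : 0 < y := by linarith
  obtain ⟨T, hT1, hT2, hT3⟩ := R4_T (x := 2 * K * y) (by nlinarith)
  have hTpos : (0 : ℝ) < T := by exact_mod_cast hT1
  have hhalf : ∀ z : ℝ, 0 ≤ z → z ≤ y → kap D ρ T z Set.univ ≤ ENNReal.ofReal (1 / 2) := by
    intro z hz hzy
    refine (hK y hy z hz hzy T hT1).trans (ENNReal.ofReal_le_ofReal ?_)
    rw [Real.rpow_neg hTpos.le, ← div_eq_mul_inv, div_le_iff₀ (by positivity)]
    linarith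
  set G : ℝ≥0∞ := ⨆ z : {z : ℝ // 0 ≤ z}, ∑' k, kap D ρ k z.1 (Set.Iic y) with hGd
  have hGle : ∀ z : ℝ, 0 ≤ z → ∑' k, kap D ρ k z (Set.Iic y) ≤ G := fun z hz =>
    le_iSup (fun z : {z : ℝ // 0 ≤ z} => ∑' k, kap D ρ k z.1 (Set.Iic y)) ⟨z, hz⟩
  have hGfin : G ≠ ⊤ := by
    have h1 : G ≤ VV D ρ y * GG D ρ y := iSup_le fun z => green_sup hD z.1 z.2 y hy0.le
    refine (h1.trans_lt ?_).ne
    refine ENNReal.mul_lt_top ?_ ?_
    · exact (hV y hy).trans_lt (ENNReal.mul_lt_top ENNReal.coe_lt_top ENNReal.ofReal_lt_top)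
    · exact (hG y hy).trans_lt (ENNReal.mul_lt_top ENNReal.coe_lt_top ENNReal.ofReal_lt_top)
  have hm : ∀ l, Measurable fun z' => kap D ρ l z' (Set.Iic y) := fun l =>
    (Measure.measurable_coe measurableSet_Iic).comp (measurable_kap hD l)
  have hae : ∀ k, 1 ≤ k → ∀ z, ∀ᵐ z' ∂(kap D ρ k z), z' ∈ D := by
    intro k hk z
    rw [ae_iff]
    exact kap_compl hD k z (Or.inl hk)
  have hlow : ∀ z : ℝ, 0 ≤ z → z ≤ y → ∑' k, kap D ρ k z (Set.Iic y) ≤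
      (T : ℝ≥0∞) + G * ENNReal.ofReal (1 / 2) := by
    intro z hz hzy
    rw [← (ENNReal.summable (f := fun k => kap D ρ (k + T) z (Set.Iic y))).sum_add_tsum_nat_add'
      (f := fun k => kap D ρ k z (Set.Iic y)) (k := T)]
    refine add_le_add ?_ ?_
    · calc ∑ k ∈ Finset.range T, kap D ρ k z (Set.Iic y) ≤ ∑ _k ∈ Finset.range T, (1 : ℝ≥0∞) :=
            Finset.sum_le_sum fun k _ => (measure_mono (Set.subset_univ _)).trans (kap_univ_le_one k z)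
        _ = T := by simp
    · have h1 : ∀ k, kap D ρ (k + T) z (Set.Iic y) =
          ∫⁻ z', kap D ρ k z' (Set.Iic y) ∂(kap D ρ T z) := by
        intro k
        rw [add_comm k T]
        exact kap_add_apply hD T k z _ measurableSet_Iic
      simp only [h1]
      rw [← lintegral_tsum (fun k => (hm k).aemeasurable)]
      calc ∫⁻ z', ∑' k, kap D ρ k z' (Set.Iic y) ∂(kap D ρ T z) ≤ ∫⁻ _, G ∂(kap D ρ T z) := by
            refine lintegral_mono_ae ?_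
            filter_upwards [hae T hT1 z] with z' hz'
            exact hGle z' (hD.nonneg hz')
        _ = G * kap D ρ T z Set.univ := lintegral_const _
        _ ≤ _ := mul_le_mul_right (hhalf z hz hzy) _
  have key : ∀ n : ℕ, ∀ z : ℝ, 0 ≤ z → ∑ k ∈ Finset.range n, kap D ρ k z (Set.Iic y) ≤
      (T : ℝ≥0∞) + G * ENNReal.ofReal (1 / 2) := by
    intro n
    induction n with
    | zero => intro z _; simp
    | succ n ih =>
      intro z hz
      by_cases hzy : z ≤ y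
      · exact (ENNReal.sum_le_tsum _).trans (hlow z hz hzy)
      · push Not at hzy
        rw [Finset.sum_range_succ']
        have h0 : kap D ρ 0 z (Set.Iic y) = 0 := by
          rw [kap_zero, Measure.dirac_apply' _ measurableSet_Iic]
          simp [hzy]
        rw [h0, add_zero]
        have h1 : ∀ k, kap D ρ (k + 1) z (Set.Iic y) =
            ∫⁻ z', kap D ρ k z' (Set.Iic y) ∂(kap D ρ 1 z) := by
          intro k
          rw [add_comm k 1]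
          exact kap_add_apply hD 1 k z _ measurableSet_Iic
        simp only [h1]
        rw [← lintegral_finsetSum _ (fun l _ => hm l)]
        calc ∫⁻ z', ∑ k ∈ Finset.range n, kap D ρ k z' (Set.Iic y) ∂(kap D ρ 1 z)
            ≤ ∫⁻ _, ((T : ℝ≥0∞) + G * ENNReal.ofReal (1 / 2)) ∂(kap D ρ 1 z) := by
              refine lintegral_mono_ae ?_
              filter_upwards [hae 1 le_rfl z] with z' hz'
              exact ih z' (hD.nonneg hz')
          _ = ((T : ℝ≥0∞) + G * ENNReal.ofReal (1 / 2)) * kap D ρ 1 z Set.univ := lintegral_const _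
          _ ≤ ((T : ℝ≥0∞) + G * ENNReal.ofReal (1 / 2)) * 1 := mul_le_mul_right (kap_univ_le_one 1 z) _
          _ = _ := mul_one _
  have hGB : G ≤ (T : ℝ≥0∞) + G * ENNReal.ofReal (1 / 2) :=
    iSup_le fun z => ENNReal.tsum_le_of_sum_range_le fun n => key n z.1 z.2
  have hreal : G.toReal ≤ 2 * T := by
    have h1 := ENNReal.toReal_mono (by
      exact ENNReal.add_ne_top.2 ⟨ENNReal.natCast_ne_top T, ENNReal.mul_ne_top hGfin ENNReal.ofReal_ne_top⟩) hGB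
    rw [ENNReal.toReal_add (ENNReal.natCast_ne_top T) (ENNReal.mul_ne_top hGfin ENNReal.ofReal_ne_top),
      ENNReal.toReal_mul, ENNReal.toReal_ofReal (by norm_num), ENNReal.toReal_natCast] at h1
    linarith
  refine (hGle z₀ hz₀).trans ?_
  rw [← ENNReal.ofReal_toReal hGfin]
  refine ENNReal.ofReal_le_ofReal (hreal.trans ?_)
  rw [Real.mul_rpow (by positivity) hy0.le] at hT3
  linarith

/-- **[IVC-R4b]** Number of boundaries at levels `≤ x` after time `r`. PROOF. As `bd_count`: dyadic pieces, each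
contributing `(64/y) C (2y)^{11/10}`, sum `≤ C' x^{1/10}`; the boundaries at levels `≤ 32` are at most the times. -/
theorem bd_poly (hD : Dom D) (h : QI μ ν) (ht : ∃ C > (0 : ℝ), ∀ y : ℝ, 1 ≤ y → ∀ z : ℝ, 0 ≤ z →
      ∑' k, kap D (stepLaw μ ν 1) k z (Set.Iic y) ≤ ENNReal.ofReal (C * y ^ (11 / 10 : ℝ))) :
    ∃ C > (0 : ℝ), ∀ x : ℝ, 1 ≤ x → ∀ (r : ℕ) (H : (ℕ → ℝ × ℝ) → ℝ≥0∞), Measurable H →
    (∀ ω ω', (∀ j < r, ω j = ω' j) → H ω = H ω') →
    ∑' b, ∫⁻ ω in {ω | r ≤ b ∧ Bd D ω b ∧ AliveQ D b ω ∧ Zw b ω ≤ x}, H ω ∂(PQ μ ν) ≤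
      ENNReal.ofReal (C * x ^ (1 / 10 : ℝ)) * ∫⁻ ω in {ω | AliveQ D r ω}, H ω ∂(PQ μ ν) := by
  have hpμ := h.probμ
  have hpν := h.probν
  have hps : IsProbabilityMeasure (stepLaw μ ν 1) := prob_stepLaw 1
  obtain ⟨C, hC, hT⟩ := ht
  have hb : (0 : ℝ) < 1 - (2 : ℝ) ^ (-(1 / 10 : ℝ)) := by
    have : (2 : ℝ) ^ (-(1 / 10 : ℝ)) < 1 := Real.rpow_lt_one_of_one_lt_of_neg (by norm_num) (by norm_num)
    linarith
  set A : ℝ := C * (64 * (2 : ℝ) ^ (11 / 10 : ℝ) / (1 - (2 : ℝ) ^ (-(1 / 10 : ℝ))) +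
    (32 : ℝ) ^ (11 / 10 : ℝ)) with hA
  have hA0 : 0 < A := by positivity
  have hA1 : C * (32 : ℝ) ^ (11 / 10 : ℝ) ≤ A := by
    rw [hA]
    have : 0 ≤ 64 * (2 : ℝ) ^ (11 / 10 : ℝ) / (1 - (2 : ℝ) ^ (-(1 / 10 : ℝ))) := by positivity
    nlinarith
  have hA2 : C * (64 * (2 : ℝ) ^ (11 / 10 : ℝ)) ≤ A * (1 - (2 : ℝ) ^ (-(1 / 10 : ℝ))) := by
    have e : A * (1 - (2 : ℝ) ^ (-(1 / 10 : ℝ))) = C * (64 * (2 : ℝ) ^ (11 / 10 : ℝ)) +
        C * (32 : ℝ) ^ (11 / 10 : ℝ) * (1 - (2 : ℝ) ^ (-(1 / 10 : ℝ))) := by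
      rw [hA]
      field_simp
    rw [e]
    have : 0 ≤ C * (32 : ℝ) ^ (11 / 10 : ℝ) * (1 - (2 : ℝ) ^ (-(1 / 10 : ℝ))) := by positivity
    linarith
  refine ⟨A, hA0, ?_⟩
  intro x hx r H hH hdep
  set I : ℝ≥0∞ := ∫⁻ ω in {ω | AliveQ D r ω}, H ω ∂(PQ μ ν) with hI
  set F : ℝ → ℝ≥0∞ := fun x => ∑' b, ∫⁻ ω in {ω | r ≤ b ∧ Bd D ω b ∧ AliveQ D b ω ∧ Zw b ω ≤ x},
      H ω ∂(PQ μ ν) with hFd
  have hF : Monotone F := by
    intro x y hxy
    refine ENNReal.tsum_le_tsum fun b => lintegral_mono_set ?_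
    rintro ω ⟨h1, h2, h3, h4⟩
    exact ⟨h1, h2, h3, h4.trans hxy⟩
  have h32 : F 32 ≤ ENNReal.ofReal (C * (32 : ℝ) ^ (11 / 10 : ℝ)) * I := by
    refine le_trans ?_ (time_le hD r H hH hdep 32 (by norm_num) _ (hT 32 (by norm_num)))
    refine ENNReal.tsum_le_tsum fun b => lintegral_mono_set ?_
    rintro ω ⟨h1, h2, h3, h4⟩
    exact ⟨h1, h3, h4⟩
  have hsmall : ∀ x : ℝ, 1 ≤ x → x ≤ 32 → F x ≤ ENNReal.ofReal (A * x ^ (1 / 10 : ℝ)) * I := by
    intro x hx hx32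
    refine (hF hx32).trans (h32.trans (mul_le_mul_left (ENNReal.ofReal_le_ofReal ?_) _))
    have : 1 ≤ x ^ (1 / 10 : ℝ) := Real.one_le_rpow hx (by norm_num)
    nlinarith
  have key : ∀ n : ℕ, ∀ x : ℝ, 1 ≤ x → x ≤ 2 ^ n * 32 →
      F x ≤ ENNReal.ofReal (A * x ^ (1 / 10 : ℝ)) * I := by
    intro n
    induction n with
    | zero =>
      intro x hx hxn
      rw [pow_zero, one_mul] at hxn
      exact hsmall x hx hxn
    | succ n ih =>
      intro x hx hxn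
      by_cases hx32 : x ≤ 32
      · exact hsmall x hx hx32
      · push Not at hx32
        have hx0 : (0 : ℝ) < x := by linarith
        have h1 := ih (x / 2) (by linarith) (by rw [pow_succ] at hxn; linarith)
        have h2 := bd_time hD h r H hH hdep x (by linarith)
        have h3 := time_le hD r H hH hdep (2 * x) (by linarith) _ (hT (2 * x) (by linarith))
        have h4 : F x ≤ F (x / 2) +
            ∑' b, ∫⁻ ω in {ω | r ≤ b ∧ Bd D ω b ∧ AliveQ D b ω ∧ x / 2 < Zw b ω ∧ Zw b ω ≤ x},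
              H ω ∂(PQ μ ν) := by
          rw [hFd]
          simp only
          rw [← ENNReal.tsum_add]
          refine ENNReal.tsum_le_tsum fun b => ?_
          refine le_trans (lintegral_mono_set ?_) (lintegral_union_le _ _ _)
          rintro ω ⟨h1, h2, h3, h4⟩
          by_cases h5 : Zw b ω ≤ x / 2
          · exact Or.inl ⟨h1, h2, h3, h5⟩
          · exact Or.inr ⟨h1, h2, h3, not_le.1 h5, h4⟩
        refine h4.trans ((add_le_add h1 (h2.trans (mul_le_mul_right h3 _))).trans ?_)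
        rw [← mul_assoc, ← ENNReal.ofReal_mul (by positivity), ← add_mul,
          ← ENNReal.ofReal_add (by positivity) (by positivity)]
        refine mul_le_mul_left (ENNReal.ofReal_le_ofReal ?_) _
        have e1 : (x / 2) ^ (1 / 10 : ℝ) = (2 : ℝ) ^ (-(1 / 10 : ℝ)) * x ^ (1 / 10 : ℝ) := by
          rw [Real.div_rpow hx0.le (by norm_num), Real.rpow_neg (by norm_num), div_eq_mul_inv]
          ring
        have e2 : 64 / x * (C * (2 * x) ^ (11 / 10 : ℝ)) =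
            C * (64 * (2 : ℝ) ^ (11 / 10 : ℝ)) * x ^ (1 / 10 : ℝ) := by
          rw [Real.mul_rpow (by norm_num) hx0.le, show (11 / 10 : ℝ) = 1 + 1 / 10 by norm_num,
            Real.rpow_add hx0, Real.rpow_one]
          field_simp
        rw [e1, e2]
        have h5 := mul_le_mul_of_nonneg_right hA2 (Real.rpow_nonneg hx0.le (1 / 10 : ℝ))
        linarith
  obtain ⟨n, hn⟩ := pow_unbounded_of_one_lt (x / 32) (one_lt_two)
  refine key n x hx ?_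
  rw [div_lt_iff₀ (by norm_num)] at hn
  exact hn.le

end Pool.Agent.BPT
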