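import Pool.Agent.MP_99a865_pr.CV.Q7

open MeasureTheory ProbabilityTheory Filter Topology
open scoped ENNReal NNReal

namespace Pool.Agent.BPT

variable {D : Set ℝ} {μ ν : Measure ℝ}

theorem R5_two (β : ℕ → ℕ) (m : ℕ) : ∀ k n : ℕ, n + k = m →
    (∑ b ∈ Finset.Ico n m, β b) ^ 2 ≤
      2 * ∑ b ∈ Finset.Ico n m, β b * ∑ c ∈ Finset.Ico b m, β c := by
  intro k
  induction k with
  | zero =>
    intro n hn
    have : n = m := by omega
    subst this
    simp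
  | succ k ih =>
    intro n hn
    have hlt : n < m := by omega
    have h1 := ih (n + 1) (by omega)
    rw [Finset.sum_eq_sum_Ico_succ_bot hlt (fun b => β b * ∑ c ∈ Finset.Ico b m, β c),
      Finset.sum_eq_sum_Ico_succ_bot hlt β]
    set d := ∑ b ∈ Finset.Ico (n + 1) m, β b
    set e := ∑ b ∈ Finset.Ico (n + 1) m, β b * ∑ c ∈ Finset.Ico b m, β c
    calc (β n + d) ^ 2 ≤ 2 * (β n * (β n + d)) + d ^ 2 := by nlinarith [sq_nonneg (β n)]
      _ ≤ 2 * (β n * (β n + d)) + 2 * e := by omega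
      _ = 2 * (β n * (β n + d) + e) := by ring

theorem R5_three (β : ℕ → ℕ) (m : ℕ) : ∀ k n : ℕ, n + k = m →
    (∑ b ∈ Finset.Ico n m, β b) ^ 3 ≤
      6 * ∑ b ∈ Finset.Ico n m, β b * ∑ c ∈ Finset.Ico b m, β c * ∑ c' ∈ Finset.Ico c m, β c' := by
  intro k
  induction k with
  | zero =>
    intro n hn
    have : n = m := by omega
    subst this
    simp
  | succ k ih =>
    intro n hn
    have hlt : n < m := by omega
    have h1 := ih (n + 1) (by omega)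
    have h2 := R5_two β m (k + 1) n hn
    rw [Finset.sum_eq_sum_Ico_succ_bot hlt (fun b => β b * ∑ c ∈ Finset.Ico b m, β c *
      ∑ c' ∈ Finset.Ico c m, β c')]
    generalize (∑ c ∈ Finset.Ico n m, β c * ∑ c' ∈ Finset.Ico c m, β c') = p at h2 ⊢
    rw [Finset.sum_eq_sum_Ico_succ_bot hlt β] at h2 ⊢
    set d := ∑ b ∈ Finset.Ico (n + 1) m, β b
    set e := ∑ b ∈ Finset.Ico (n + 1) m, β b * ∑ c ∈ Finset.Ico b m, β c *
      ∑ c' ∈ Finset.Ico c m, β c'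
    have h3 : 3 * β n * (β n + d) ^ 2 ≤ 3 * β n * (2 * p) := Nat.mul_le_mul_left _ h2
    have h4 : (β n + d) ^ 3 ≤ 3 * β n * (β n + d) ^ 2 + d ^ 3 := by
      have : (β n + d) ^ 3 + (2 * β n ^ 3 + 3 * β n ^ 2 * d) =
          3 * β n * (β n + d) ^ 2 + d ^ 3 := by ring
      omega
    calc (β n + d) ^ 3 ≤ 3 * β n * (β n + d) ^ 2 + d ^ 3 := h4
      _ ≤ 3 * β n * (2 * p) + 6 * e := by omega
      _ = 6 * (β n * p + e) := by ring

/-- a counted boundary -/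
def R5_B (D : Set ℝ) (x : ℝ) (b : ℕ) : Set (ℕ → ℝ × ℝ) :=
  {ω | Bd D ω b ∧ AliveQ D b ω ∧ Zw b ω ≤ x}

theorem R5_meas (hD : Dom D) (x : ℝ) (b : ℕ) : MeasurableSet (R5_B D x b) :=
  (measurableSet_Bd hD b).inter ((measurableSet_aliveQ hD b).inter
    (measurableSet_le (measurable_Zw b) measurable_const))

theorem R5_dep (x : ℝ) (b r : ℕ) (hbr : b ≤ r) (ω ω' : ℕ → ℝ × ℝ) (h : ∀ j < r, ω j = ω' j) :
    ω ∈ R5_B D x b ↔ ω' ∈ R5_B D x b := by
  have hZ : ∀ k ≤ b, Zw k ω = Zw k ω' := by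
    intro k hk
    unfold Zw
    rw [F5_Dp_congr h (hk.trans hbr), F5_Ar_congr h (hk.trans hbr)]
  have h1 := Bd_dep (D := D) b ω ω' (fun j hj => h j (by omega))
  have h2 : AliveQ D b ω ↔ AliveQ D b ω' := by
    unfold AliveQ
    constructor
    · intro h3 j hj1 hj2
      rw [← hZ j hj2]
      exact h3 j hj1 hj2
    · intro h3 j hj1 hj2
      rw [hZ j hj2]
      exact h3 j hj1 hj2
  unfold R5_B
  change (_ ∧ _ ∧ _) ↔ (_ ∧ _ ∧ _)
  rw [h1, h2, hZ b le_rfl]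

/-- its indicator -/
noncomputable def R5_i (D : Set ℝ) (x : ℝ) (b : ℕ) : (ℕ → ℝ × ℝ) → ℝ≥0∞ :=
  (R5_B D x b).indicator 1

theorem R5_i_meas (hD : Dom D) (x : ℝ) (b : ℕ) : Measurable (R5_i D x b) :=
  measurable_one.indicator (R5_meas hD x b)

theorem R5_i_dep (x : ℝ) (b r : ℕ) (hbr : b ≤ r) (ω ω' : ℕ → ℝ × ℝ) (h : ∀ j < r, ω j = ω' j) :
    R5_i D x b ω = R5_i D x b ω' := by
  unfold R5_i
  by_cases h1 : ω ∈ R5_B D x b
  · rw [Set.indicator_of_mem h1, Set.indicator_of_mem ((R5_dep x b r hbr ω ω' h).1 h1)]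
    rfl
  · rw [Set.indicator_of_notMem h1, Set.indicator_of_notMem
      (fun h2 => h1 ((R5_dep x b r hbr ω ω' h).2 h2))]

theorem R5_step (hD : Dom D) [IsProbabilityMeasure μ] [IsProbabilityMeasure ν] (x : ℝ) (g : ℝ≥0∞)
    (hg : ∀ (r : ℕ) (H : (ℕ → ℝ × ℝ) → ℝ≥0∞), Measurable H →
    (∀ ω ω', (∀ j < r, ω j = ω' j) → H ω = H ω') →
    ∑' b, ∫⁻ ω in {ω | r ≤ b ∧ Bd D ω b ∧ AliveQ D b ω ∧ Zw b ω ≤ x}, H ω ∂(PQ μ ν) ≤
      g * ∫⁻ ω in {ω | AliveQ D r ω}, H ω ∂(PQ μ ν)) (m r : ℕ)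
    (H : (ℕ → ℝ × ℝ) → ℝ≥0∞) (hH : Measurable H)
    (hdep : ∀ ω ω', (∀ j < r, ω j = ω' j) → H ω = H ω') :
    ∑ b ∈ Finset.Ico r m, ∫⁻ ω, H ω * R5_i D x b ω ∂(PQ μ ν) ≤ g * ∫⁻ ω, H ω ∂(PQ μ ν) := by
  calc ∑ b ∈ Finset.Ico r m, ∫⁻ ω, H ω * R5_i D x b ω ∂(PQ μ ν)
      = ∑ b ∈ Finset.Ico r m,
        ∫⁻ ω in {ω | r ≤ b ∧ Bd D ω b ∧ AliveQ D b ω ∧ Zw b ω ≤ x}, H ω ∂(PQ μ ν) := by
        refine Finset.sum_congr rfl fun b hb => ?_
        rw [Finset.mem_Ico] at hb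
        have h1 : {ω : ℕ → ℝ × ℝ | r ≤ b ∧ Bd D ω b ∧ AliveQ D b ω ∧ Zw b ω ≤ x} =
            R5_B D x b := by
          ext ω
          exact and_iff_right hb.1
        rw [h1, ← lintegral_indicator (R5_meas hD x b)]
        refine lintegral_congr fun ω => ?_
        unfold R5_i
        by_cases h2 : ω ∈ R5_B D x b
        · rw [Set.indicator_of_mem h2, Set.indicator_of_mem h2]
          simp
        · rw [Set.indicator_of_notMem h2, Set.indicator_of_notMem h2, mul_zero]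
    _ ≤ ∑' b, ∫⁻ ω in {ω | r ≤ b ∧ Bd D ω b ∧ AliveQ D b ω ∧ Zw b ω ≤ x}, H ω ∂(PQ μ ν) :=
        ENNReal.sum_le_tsum _
    _ ≤ g * ∫⁻ ω in {ω | AliveQ D r ω}, H ω ∂(PQ μ ν) := hg r H hH hdep
    _ ≤ g * ∫⁻ ω, H ω ∂(PQ μ ν) := by
        gcongr
        exact Measure.restrict_le_self

open Classical in
theorem R5_pointwise (x : ℝ) (m : ℕ) (ω : ℕ → ℝ × ℝ) :
    ((cG D x m ω : ℕ) : ℝ≥0∞) ^ 3 ≤ 6 * ∑ b ∈ Finset.Ico 0 m, ∑ c ∈ Finset.Ico b m,
      ∑ c' ∈ Finset.Ico c m, R5_i D x b ω * R5_i D x c ω * R5_i D x c' ω := by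
  let β : ℕ → ℕ := fun b => if ω ∈ R5_B D x b then 1 else 0
  have h1 : cG D x m ω = ∑ b ∈ Finset.Ico 0 m, β b := by
    unfold cG
    rw [Finset.card_filter, Finset.range_eq_Ico]
    refine Finset.sum_congr rfl fun b _ => ?_
    by_cases h : ω ∈ R5_B D x b
    · have h' : Bd D ω b ∧ AliveQ D b ω ∧ Zw b ω ≤ x := h
      simp [β, h, h']
    · have h' : ¬ (Bd D ω b ∧ AliveQ D b ω ∧ Zw b ω ≤ x) := h
      simp only [β, h, h', if_false]
  have h2 : ∀ b, R5_i D x b ω = (β b : ℝ≥0∞) := by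
    intro b
    unfold R5_i
    by_cases h : ω ∈ R5_B D x b
    · rw [Set.indicator_of_mem h]
      simp [β, h]
    · rw [Set.indicator_of_notMem h]
      simp [β, h]
  have h3 := R5_three β m m 0 (zero_add m)
  rw [← h1] at h3
  simp only [h2]
  have h4 : ∑ b ∈ Finset.Ico 0 m, β b * ∑ c ∈ Finset.Ico b m, β c * ∑ c' ∈ Finset.Ico c m, β c' =
      ∑ b ∈ Finset.Ico 0 m, ∑ c ∈ Finset.Ico b m, ∑ c' ∈ Finset.Ico c m, β b * β c * β c' := by
    refine Finset.sum_congr rfl fun b _ => ?_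
    rw [Finset.mul_sum]
    refine Finset.sum_congr rfl fun c _ => ?_
    rw [← mul_assoc, Finset.mul_sum]
  rw [h4] at h3
  exact_mod_cast h3

/-- **[IVC-R5]** Third moment bound. PROOF. Let `B_b = {Bd b, AliveQ b, Zw b ≤ x}` (depends on the first `b` pairs). If
`cG = k ≥ 3` there are `k(k-1)(k-2)/6 ≥ k³/27` triples `b₁ < b₂ < b₃ < m` with `B_{b₁}, B_{b₂}, B_{b₃}`, so
`P(cG ≥ a) ≤ (27/a³) ∑_{b₁<b₂<b₃} P(B_{b₁} ∩ B_{b₂} ∩ B_{b₃})`, and by the hypothesis with `r = b₂`, `H = 1_{B_{b₁}} 1_{B_{b₂}}`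
(`B_{b₂} ⊆ AliveQ b₂`), then `r = b₁`, then `r = 0`, the triple sum is at most `g³`. (The hypothesis also counts `b₃ = b₂`,
which does no harm.) -/
theorem triple (hD : Dom D) [IsProbabilityMeasure μ] [IsProbabilityMeasure ν] (x : ℝ) (g : ℝ≥0∞)
    (hg : ∀ (r : ℕ) (H : (ℕ → ℝ × ℝ) → ℝ≥0∞), Measurable H →
    (∀ ω ω', (∀ j < r, ω j = ω' j) → H ω = H ω') →
    ∑' b, ∫⁻ ω in {ω | r ≤ b ∧ Bd D ω b ∧ AliveQ D b ω ∧ Zw b ω ≤ x}, H ω ∂(PQ μ ν) ≤
      g * ∫⁻ ω in {ω | AliveQ D r ω}, H ω ∂(PQ μ ν)) (m : ℕ) (a : ℝ) (ha : 3 ≤ a) :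
    PQ μ ν {ω | a ≤ cG D x m ω} ≤ ENNReal.ofReal (27 / a ^ 3) * g ^ 3 := by
  have ha0 : 0 < a := by linarith
  set F : (ℕ → ℝ × ℝ) → ℝ≥0∞ := fun ω => 6 * ∑ b ∈ Finset.Ico 0 m, ∑ c ∈ Finset.Ico b m,
      ∑ c' ∈ Finset.Ico c m, R5_i D x b ω * R5_i D x c ω * R5_i D x c' ω with hF
  have hm := fun b => R5_i_meas hD x b
  have hFm : Measurable F := by
    refine Measurable.const_mul ?_ _
    refine Finset.measurable_fun_sum _ fun b _ => ?_
    refine Finset.measurable_fun_sum _ fun c _ => ?_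
    refine Finset.measurable_fun_sum _ fun c' _ => ?_
    exact ((hm b).mul (hm c)).mul (hm c')
  have hint : ∫⁻ ω, F ω ∂(PQ μ ν) ≤ 6 * g ^ 3 := by
    rw [hF, lintegral_const_mul]
    · gcongr
      rw [lintegral_finsetSum]
      · calc ∑ b ∈ Finset.Ico 0 m, ∫⁻ ω, ∑ c ∈ Finset.Ico b m,
              ∑ c' ∈ Finset.Ico c m, R5_i D x b ω * R5_i D x c ω * R5_i D x c' ω ∂(PQ μ ν)
            ≤ ∑ b ∈ Finset.Ico 0 m, g * (g * ∫⁻ ω, R5_i D x b ω ∂(PQ μ ν)) := by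
              refine Finset.sum_le_sum fun b _ => ?_
              rw [lintegral_finsetSum]
              · calc ∑ c ∈ Finset.Ico b m, ∫⁻ ω,
                      ∑ c' ∈ Finset.Ico c m, R5_i D x b ω * R5_i D x c ω * R5_i D x c' ω ∂(PQ μ ν)
                    ≤ ∑ c ∈ Finset.Ico b m, g * ∫⁻ ω, R5_i D x b ω * R5_i D x c ω ∂(PQ μ ν) := by
                      refine Finset.sum_le_sum fun c hc => ?_
                      rw [Finset.mem_Ico] at hc
                      rw [lintegral_finsetSum]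
                      · refine R5_step hD x g hg m c
                          (fun ω => R5_i D x b ω * R5_i D x c ω) ((hm b).mul (hm c)) ?_
                        intro ω ω' h
                        rw [R5_i_dep x b c hc.1 ω ω' h, R5_i_dep x c c le_rfl ω ω' h]
                      · exact fun c' _ => ((hm b).mul (hm c)).mul (hm c')
                  _ = g * ∑ c ∈ Finset.Ico b m, ∫⁻ ω, R5_i D x b ω * R5_i D x c ω ∂(PQ μ ν) := by
                      rw [Finset.mul_sum]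
                  _ ≤ g * (g * ∫⁻ ω, R5_i D x b ω ∂(PQ μ ν)) := by
                      gcongr
                      exact R5_step hD x g hg m b (R5_i D x b) (hm b)
                        (fun ω ω' h => R5_i_dep x b b le_rfl ω ω' h)
              · intro c _
                refine Finset.measurable_fun_sum _ fun c' _ => ?_
                exact ((hm b).mul (hm c)).mul (hm c')
          _ = g * (g * ∑ b ∈ Finset.Ico 0 m, ∫⁻ ω, 1 * R5_i D x b ω ∂(PQ μ ν)) := by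
              rw [Finset.mul_sum, Finset.mul_sum]
              simp only [one_mul]
          _ ≤ g * (g * (g * ∫⁻ _, 1 ∂(PQ μ ν))) := by
              gcongr
              exact R5_step hD x g hg m 0 (fun _ => 1) measurable_const (fun _ _ _ => rfl)
          _ = g ^ 3 := by
              rw [lintegral_one, measure_univ]
              ring
      · intro b _
        refine Finset.measurable_fun_sum _ fun c _ => ?_
        refine Finset.measurable_fun_sum _ fun c' _ => ?_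
        exact ((hm b).mul (hm c)).mul (hm c')
    · refine Finset.measurable_fun_sum _ fun b _ => ?_
      refine Finset.measurable_fun_sum _ fun c _ => ?_
      refine Finset.measurable_fun_sum _ fun c' _ => ?_
      exact ((hm b).mul (hm c)).mul (hm c')
  have ha3 : ENNReal.ofReal (a ^ 3) ≠ 0 := by
    rw [ENNReal.ofReal_ne_zero_iff]
    positivity
  have hsub : {ω | a ≤ cG D x m ω} ⊆ {ω | ENNReal.ofReal (a ^ 3) ≤ F ω} := by
    intro ω hω
    have h1 : a ≤ cG D x m ω := hω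
    refine le_trans ?_ (R5_pointwise x m ω)
    rw [ENNReal.ofReal_pow ha0.le]
    gcongr
    exact ENNReal.ofReal_le_of_le_toReal (by simpa using h1)
  calc PQ μ ν {ω | a ≤ cG D x m ω} ≤ PQ μ ν {ω | ENNReal.ofReal (a ^ 3) ≤ F ω} :=
        measure_mono hsub
    _ ≤ (∫⁻ ω, F ω ∂(PQ μ ν)) / ENNReal.ofReal (a ^ 3) :=
        meas_ge_le_lintegral_div hFm.aemeasurable ha3 ENNReal.ofReal_ne_top
    _ ≤ 6 * g ^ 3 / ENNReal.ofReal (a ^ 3) := by gcongr
    _ = ENNReal.ofReal (6 / a ^ 3) * g ^ 3 := by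
        rw [ENNReal.ofReal_div_of_pos (by positivity), ENNReal.div_eq_inv_mul,
          ENNReal.div_eq_inv_mul, ENNReal.ofReal_ofNat]
        ring
    _ ≤ ENNReal.ofReal (27 / a ^ 3) * g ^ 3 := by
        gcongr
        norm_num

end Pool.Agent.BPT
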