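import Pool.Agent.MP_99a865_pr.CV.R2
import Pool.Agent.MP_99a865_pr.CV.R3
import Pool.Agent.MP_99a865_pr.CV.R4
import Pool.Agent.MP_99a865_pr.CV.R5

open MeasureTheory ProbabilityTheory Filter Topology
open scoped ENNReal NNReal

namespace Pool.Agent.BPT

variable {D : Set ℝ} {μ ν : Measure ℝ}

theorem R6_surv (hD : Dom D) {ρ : Measure ℝ} (hρ : Cen ρ) (j₁ : ℕ)
    (hc : ∀ j ≥ j₁, qj D ρ j < (2 : ℝ) ^ (-(19 / 20 : ℝ) * j)) :
    ∃ C : ℝ, ∀ t : ℕ, 1 ≤ t → (kap D ρ t 0 Set.univ).toReal ≤ C * (t : ℝ) ^ (-(19 / 20 : ℝ)) := by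
  have := hρ.prob
  have hr0 : (0 : ℝ) < (2 : ℝ) ^ (-(19 / 20 : ℝ)) := by positivity
  have hr1 : (2 : ℝ) ^ (-(19 / 20 : ℝ)) < 1 :=
    Real.rpow_lt_one_of_one_lt_of_neg (by norm_num) (by norm_num)
  set r : ℝ := (2 : ℝ) ^ (-(19 / 20 : ℝ)) with hr
  have hrj : ∀ j : ℕ, (2 : ℝ) ^ (-(19 / 20 : ℝ) * j) = r ^ j := fun j => by
    rw [hr, Real.rpow_mul (by norm_num), Real.rpow_natCast]
  refine ⟨2 * (1 - r)⁻¹ + 2 ^ j₁, fun t ht => ?_⟩
  have ht0 : (0 : ℝ) < t := by exact_mod_cast ht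
  have hrc : 0 < 1 - r := by linarith
  obtain ⟨k, hk1, hk2⟩ : ∃ k, 2 ^ k ≤ t ∧ t < 2 ^ (k + 1) :=
    ⟨Nat.log 2 t, Nat.pow_log_le_self 2 (by omega), Nat.lt_pow_succ_log_self (by norm_num) t⟩
  have htp : (0 : ℝ) < (t : ℝ) ^ (-(19 / 20 : ℝ)) := by positivity
  by_cases hkj : j₁ ≤ k
  · have h1 : kap D ρ t 0 Set.univ ≤ ENNReal.ofReal (∑' i, qj D ρ (k + i)) :=
      (surv_anti hD 0 hk1).trans (R2_tail hD hρ k)
    have h2 : ∑' i, qj D ρ (k + i) ≤ ∑' i, r ^ k * r ^ i := by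
      have hs := R2_summable hD hρ
      have hs' : Summable fun i => qj D ρ (k + i) := by
        have := (summable_nat_add_iff k).2 hs
        refine this.congr fun i => ?_
        rw [add_comm]
      refine hs'.tsum_le_tsum (fun i => ?_) ((summable_geometric_of_lt_one hr0.le hr1).mul_left _)
      rw [← pow_add, ← hrj]
      exact (hc (k + i) (by omega)).le
    rw [tsum_mul_left, tsum_geometric_of_lt_one hr0.le hr1] at h2
    have h3 : r ^ k ≤ 2 * (t : ℝ) ^ (-(19 / 20 : ℝ)) := by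
      have h4 : (t : ℝ) ≤ 2 ^ (k + 1) := by exact_mod_cast hk2.le
      have h5 : ((2 : ℝ) ^ (k + 1)) ^ (-(19 / 20 : ℝ)) ≤ (t : ℝ) ^ (-(19 / 20 : ℝ)) :=
        Real.rpow_le_rpow_of_nonpos ht0 h4 (by norm_num)
      have h6 : ((2 : ℝ) ^ (k + 1)) ^ (-(19 / 20 : ℝ)) = r ^ (k + 1) := by
        rw [← hrj, ← Real.rpow_natCast 2 (k + 1), ← Real.rpow_mul (by norm_num), mul_comm]
      have h7 : (1 / 2 : ℝ) ≤ r := by
        have : (2 : ℝ) ^ (-1 : ℝ) ≤ r := Real.rpow_le_rpow_of_exponent_le (by norm_num) (by norm_num)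
        rw [Real.rpow_neg_one] at this
        linarith
      rw [h6, pow_succ] at h5
      have h8 : 0 < r ^ k := by positivity
      nlinarith
    have h9 : (kap D ρ t 0 Set.univ).toReal ≤ r ^ k * (1 - r)⁻¹ := by
      have := ENNReal.toReal_mono ENNReal.ofReal_ne_top
        (h1.trans (ENNReal.ofReal_le_ofReal h2))
      rwa [ENNReal.toReal_ofReal (by positivity)] at this
    refine h9.trans ?_
    have h10 := mul_le_mul_of_nonneg_right h3 (inv_nonneg.2 hrc.le)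
    have h11 : 0 ≤ (2 : ℝ) ^ j₁ * (t : ℝ) ^ (-(19 / 20 : ℝ)) := by positivity
    nlinarith
  · push Not at hkj
    have h1 : (kap D ρ t 0 Set.univ).toReal ≤ 1 := by
      have := ENNReal.toReal_mono ENNReal.one_ne_top (kap_univ_le_one (D := D) (ρ := ρ) t 0)
      simpa using this
    have h2 : (t : ℝ) ≤ 2 ^ j₁ := by
      have : t ≤ 2 ^ j₁ := hk2.le.trans (Nat.pow_le_pow_right (by norm_num) (by omega))
      exact_mod_cast this
    have h3 : 1 ≤ (2 : ℝ) ^ j₁ * (t : ℝ) ^ (-(19 / 20 : ℝ)) := by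
      have h4 : (1 : ℝ) ≤ t := by exact_mod_cast ht
      have h5 : (t : ℝ) ^ (-(1 : ℝ)) ≤ (t : ℝ) ^ (-(19 / 20 : ℝ)) :=
        Real.rpow_le_rpow_of_exponent_le h4 (by norm_num)
      rw [Real.rpow_neg_one] at h5
      calc (1 : ℝ) = t * (t : ℝ)⁻¹ := (mul_inv_cancel₀ ht0.ne').symm
        _ ≤ 2 ^ j₁ * (t : ℝ) ^ (-(19 / 20 : ℝ)) := mul_le_mul h2 h5 (by positivity) (by positivity)
    have h6 : 0 ≤ 2 * (1 - r)⁻¹ * (t : ℝ) ^ (-(19 / 20 : ℝ)) := by positivity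
    nlinarith

/-- **[IVC-R6a]** Second case. PROOF. Suppose `q j < 2^{-(19/20)j}` for all `j ≥ j₁`. Then `P(N > t) ≤ ∑_{2^{j+1} > t} q j ≤
C t^{-19/20}` (`surv_eq`), so `time_poly`, `bd_poly`, `triple` with `x = (100/ε)√M`, `a = (ε/4)√M`, `M = 2^j`, give
`P(cG ≥ a) ≤ C M^{3/20}/M^{3/2}`, and by `bad_le` `q j ≤ C 2^{-(27/20)j}`, so `∑ 2^j q j < ∞`, contradicting `qj_facts`. -/
theorem second_case (hD : Dom D) (h : QI μ ν) (hv : InfV μ ν) {ε δ : ℝ} (hε : 0 < ε) (hδ : 0 < δ) {n₀ : ℕ}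
    (hb : BadH D μ ν ε δ n₀) (j₁ : ℕ)
    (hc : ∀ j ≥ j₁, qj D (stepLaw μ ν 1) j < (2 : ℝ) ^ (-(19 / 20 : ℝ) * j)) : False := by
  have hpμ := h.probμ
  have hpν := h.probν
  have hρ := h.cen hv
  obtain ⟨C, hC, hbd⟩ := bd_poly hD h (time_poly hD hρ (R6_surv hD hρ j₁ hc))
  obtain ⟨M₀, hM₀⟩ := bad_le hD h hε hb
  obtain ⟨-, -, hns⟩ := qj_facts hD hρ
  apply hns
  set Q := qj D (stepLaw μ ν 1) with hQ
  have hQ0 : ∀ i, 0 ≤ Q i := R2_qj_nonneg _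
  -- the constant
  set K : ℝ := (27 * (C * (100 / ε) ^ (1 / 10 : ℝ)) ^ 3 / (ε / 4) ^ 3 + 2) / δ with hK
  have hK0 : 0 < K := by positivity
  obtain ⟨J₁, hJ₁⟩ := pow_unbounded_of_one_lt ((12 / ε) ^ 2 + ε ^ 2) (one_lt_two : (1 : ℝ) < 2)
  have hbound : ∀ j, max M₀ J₁ ≤ j → Q j ≤ K * (2 : ℝ) ^ (-(27 / 20 : ℝ) * j) := by
    intro j hj
    have hj0 : M₀ ≤ j := (le_max_left _ _).trans hj
    have hj1 : J₁ ≤ j := (le_max_right _ _).trans hj
    have hjp : j ≤ 2 ^ j := (Nat.lt_two_pow_self).le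
    have e1 := hM₀ (2 ^ j) (hj0.trans hjp)
    have e22 : 2 * 2 ^ j = 2 ^ (j + 1) := by ring
    rw [e22] at e1
    have hc2 : (((2 ^ j : ℕ) : ℝ)) = 2 ^ j := by push_cast; rfl
    rw [hc2] at e1
    have hs0 : (0 : ℝ) < √(2 ^ j) := by positivity
    have hspow : √((2 : ℝ) ^ j) = (2 : ℝ) ^ ((j : ℝ) / 2) := by
      rw [Real.sqrt_eq_rpow, ← Real.rpow_natCast 2 j, ← Real.rpow_mul (by norm_num)]
      congr 1
      ring
    have hbig : (12 / ε) ^ 2 + ε ^ 2 ≤ (2 : ℝ) ^ j := hJ₁.le.trans (pow_le_pow_right₀ (by norm_num) hj1)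
    set s := √((2 : ℝ) ^ j) with hsd
    have hss : s ^ 2 = 2 ^ j := Real.sq_sqrt (by positivity)
    have hs12 : 12 / ε ≤ s := by
      rw [hsd]
      refine Real.le_sqrt_of_sq_le (by nlinarith [sq_nonneg ε])
    have hsε : ε ≤ s := by
      rw [hsd]
      refine Real.le_sqrt_of_sq_le (by nlinarith [sq_nonneg (12 / ε)])
    have ha3 : 3 ≤ ε / 4 * s := by
      rw [div_le_iff₀ hε] at hs12
      linarith
    have hx1 : 1 ≤ 100 / ε * s := by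
      rw [div_mul_eq_mul_div, le_div_iff₀ hε]
      linarith
    have e2 := triple hD (μ := μ) (ν := ν) (100 / ε * s) _ (hbd (100 / ε * s) hx1) (2 ^ (j + 1))
      (ε / 4 * s) ha3
    have e3 : (PQ μ ν).real (EvI D (2 ^ j) (2 ^ (j + 1)) ∩
        {ω | ε / 4 * s ≤ cG D (100 / ε * s) (2 ^ (j + 1)) ω}) ≤
        27 / (ε / 4 * s) ^ 3 * (C * (100 / ε * s) ^ (1 / 10 : ℝ)) ^ 3 := by
      have h1 : (PQ μ ν).real (EvI D (2 ^ j) (2 ^ (j + 1)) ∩
        {ω | ε / 4 * s ≤ cG D (100 / ε * s) (2 ^ (j + 1)) ω}) ≤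
        (PQ μ ν).real {ω | ε / 4 * s ≤ cG D (100 / ε * s) (2 ^ (j + 1)) ω} :=
        measureReal_mono Set.inter_subset_right
      refine h1.trans ?_
      rw [← ENNReal.ofReal_pow (by positivity), ← ENNReal.ofReal_mul (by positivity)] at e2
      have := ENNReal.toReal_mono ENNReal.ofReal_ne_top e2
      rwa [ENNReal.toReal_ofReal (by positivity)] at this
    have e4 := e1.trans (add_le_add_left e3 _)
    have e5 : 27 / (ε / 4 * s) ^ 3 * (C * (100 / ε * s) ^ (1 / 10 : ℝ)) ^ 3 =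
        27 * (C * (100 / ε) ^ (1 / 10 : ℝ)) ^ 3 / (ε / 4) ^ 3 * (2 : ℝ) ^ (-(27 / 20 : ℝ) * j) := by
      have h1 : (100 / ε * s) ^ (1 / 10 : ℝ) = (100 / ε) ^ (1 / 10 : ℝ) * s ^ (1 / 10 : ℝ) :=
        Real.mul_rpow (by positivity) hs0.le
      have h2 : (s ^ (1 / 10 : ℝ)) ^ 3 / s ^ 3 = (2 : ℝ) ^ (-(27 / 20 : ℝ) * j) := by
        rw [← Real.rpow_natCast (s ^ (1 / 10 : ℝ)) 3, ← Real.rpow_mul hs0.le,
          ← Real.rpow_natCast s 3, ← Real.rpow_sub hs0, hspow, ← Real.rpow_mul (by norm_num)]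
        congr 1
        push_cast
        ring
      rw [h1, ← h2]
      field_simp
    have e6 : (2 : ℝ) / (2 ^ j) ^ 4 ≤ 2 * (2 : ℝ) ^ (-(27 / 20 : ℝ) * j) := by
      have h1 : ((2 : ℝ) ^ j) ^ 4 = (2 : ℝ) ^ ((4 : ℝ) * j) := by
        rw [← pow_mul, ← Real.rpow_natCast 2 (j * 4)]
        congr 1
        push_cast
        ring
      rw [h1, div_eq_mul_inv, ← Real.rpow_neg (by norm_num)]
      refine mul_le_mul_of_nonneg_left ?_ (by norm_num)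
      refine Real.rpow_le_rpow_of_exponent_le (by norm_num) ?_
      have : (0 : ℝ) ≤ j := Nat.cast_nonneg j
      linarith
    have e7 : δ * Q j ≤ δ * (K * (2 : ℝ) ^ (-(27 / 20 : ℝ) * j)) := by
      have h1 : δ * (K * (2 : ℝ) ^ (-(27 / 20 : ℝ) * j)) =
          (27 * (C * (100 / ε) ^ (1 / 10 : ℝ)) ^ 3 / (ε / 4) ^ 3 + 2) *
            (2 : ℝ) ^ (-(27 / 20 : ℝ) * j) := by
        rw [hK]
        field_simp
      rw [h1]
      rw [e5] at e4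
      have h2 : δ * Q j ≤ 27 * (C * (100 / ε) ^ (1 / 10 : ℝ)) ^ 3 / (ε / 4) ^ 3 *
        (2 : ℝ) ^ (-(27 / 20 : ℝ) * j) + 2 / (2 ^ j) ^ 4 := e4
      linarith
    exact le_of_mul_le_mul_left e7 hδ
  -- summation
  have hr0 : (0 : ℝ) < (2 : ℝ) ^ (-(7 / 20 : ℝ)) := by positivity
  have hr1 : (2 : ℝ) ^ (-(7 / 20 : ℝ)) < 1 :=
    Real.rpow_lt_one_of_one_lt_of_neg (by norm_num) (by norm_num)
  have hgeo : Summable fun j : ℕ => K * ((2 : ℝ) ^ (-(7 / 20 : ℝ))) ^ j :=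
    (summable_geometric_of_lt_one hr0.le hr1).mul_left K
  refine Summable.of_norm_bounded_eventually_nat hgeo ?_
  filter_upwards [eventually_ge_atTop (max M₀ J₁)] with j hj
  have h1 := hbound j hj
  rw [Real.norm_eq_abs, abs_of_nonneg (mul_nonneg (by positivity) (hQ0 j))]
  have h2 : (2 : ℝ) ^ j * (K * (2 : ℝ) ^ (-(27 / 20 : ℝ) * j)) = K * ((2 : ℝ) ^ (-(7 / 20 : ℝ))) ^ j := by
    have h3 : (2 : ℝ) ^ j * (2 : ℝ) ^ (-(27 / 20 : ℝ) * j) = ((2 : ℝ) ^ (-(7 / 20 : ℝ))) ^ j := by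
      rw [← Real.rpow_natCast 2 j, ← Real.rpow_add (by norm_num),
        ← Real.rpow_natCast ((2 : ℝ) ^ (-(7 / 20 : ℝ))) j, ← Real.rpow_mul (by norm_num)]
      congr 1
      ring
    rw [← h3]
    ring
  rw [← h2]
  exact mul_le_mul_of_nonneg_left h1 (by positivity)

/-- **[IVC-R6b]** With infinite variance the height is `o(√n)` along a subsequence (by contradiction:
`¬ BadH`, from `selection`, `main_ineq`, `apriori`, `second_case`; if `BadH` fails for `max n₀ 1` there is an `n` with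
`PQ (…) < δ PQ (EvN n)`, in particular `PQ (EvN n) ≠ 0`). -/
theorem height_small (hD : Dom D) (h : QI μ ν) (hv : InfV μ ν) (ε δ : ℝ) (hε : 0 < ε) (hδ : 0 < δ)
    (n₀ : ℕ) : ∃ n ≥ n₀, PQ μ ν (EvN D n) ≠ 0 ∧
      (PQ μ ν).real (EvN D n ∩ {ω | ε * √n ≤ HB D n ω}) < δ * (PQ μ ν).real (EvN D n) := by
  by_contra hcon
  push Not at hcon
  have hρ := h.cen hv
  have hb : BadH D μ ν ε δ n₀ := by
    intro n hn
    by_cases h0 : PQ μ ν (EvN D n) = 0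
    · have h1 : (PQ μ ν).real (EvN D n) = 0 := by
        unfold Measure.real
        rw [h0, ENNReal.toReal_zero]
      rw [h1, mul_zero]
      exact measureReal_nonneg
    · exact hcon n hn h0
  by_cases hc : ∀ j₀ : ℕ, ∃ j ≥ j₀, (2 : ℝ) ^ (-(19 / 20 : ℝ) * j) ≤ qj D (stepLaw μ ν 1) j
  · obtain ⟨h1, h2, -⟩ := qj_facts hD hρ
    exact selection _ h1 h2 (main_ineq hD h hv hε hδ hb) (apriori hD h hv hε hδ hb) hc
  · push Not at hc
    obtain ⟨j₁, hj₁⟩ := hc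
    exact second_case hD h hv hε hδ hb j₁ hj₁

end Pool.Agent.BPT
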