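import Pool.Agent.MP_99a865_pr.CV.R6

open MeasureTheory ProbabilityTheory Filter Topology
open scoped ENNReal NNReal

namespace Pool.Agent.BPT

/-- weak convergence to a probability law -/
def LimLaw {Ω : Type} [MeasurableSpace Ω] (l : Filter ℕ) (P : ℕ → Measure Ω) (X : ℕ → Ω → ℝ)
    (L : Measure ℝ) : Prop :=
  IsProbabilityMeasure L ∧ ∀ f : BoundedContinuousFunction ℝ ℝ,
    Tendsto (fun n => ∫ ω, f (X n ω) ∂(P n)) l (𝓝 (∫ x, f x ∂L))

/-- `min 1 |x|` -/
noncomputable def S1_g : BoundedContinuousFunction ℝ ℝ :=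
  BoundedContinuousFunction.ofNormedAddCommGroup (fun x => min 1 |x|) (by fun_prop) 1 (by
    intro x
    rw [Real.norm_eq_abs, abs_of_nonneg (le_min zero_le_one (abs_nonneg x))]
    exact min_le_left _ _)

theorem S1_g_apply (x : ℝ) : S1_g x = min 1 |x| := rfl

/-- `max 0 (min 1 (x - K))` -/
noncomputable def S1_k (K : ℝ) : BoundedContinuousFunction ℝ ℝ :=
  BoundedContinuousFunction.ofNormedAddCommGroup (fun x => max 0 (min 1 (x - K))) (by fun_prop) 1 (by
    intro x
    rw [Real.norm_eq_abs, abs_of_nonneg (le_max_left _ _)]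
    exact max_le zero_le_one (min_le_left _ _))

theorem S1_k_apply (K x : ℝ) : S1_k K x = max 0 (min 1 (x - K)) := rfl

theorem S1_int {Ω : Type} [MeasurableSpace Ω] (P : Measure Ω) [IsProbabilityMeasure P] {X : Ω → ℝ}
    (hX : Measurable X) (f : BoundedContinuousFunction ℝ ℝ) : Integrable (fun ω => f (X ω)) P := by
  refine Integrable.of_bound (f.continuous.measurable.comp hX).aestronglyMeasurable ‖f‖ ?_
  exact Filter.Eventually.of_forall fun ω => f.norm_coe_le_norm (X ω)

/-- **[IVC-S1a]** PROOF. Let `g x = min 1 |x|`. For infinitely many `n` in the filter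
`∫ g(X n) dP n ≤ ε + P n {ε ≤ X n} ≤ ε + δ` (`X n ≥ 0`), so `∫ g dL ≤ ε + δ` for all `ε, δ > 0`, hence `g = 0` `L`-a.e. -/
theorem lim_zero {Ω : Type} [MeasurableSpace Ω] {A : Set ℕ} (P : ℕ → Measure Ω) (X : ℕ → Ω → ℝ)
    (hP : ∀ n ∈ A, IsProbabilityMeasure (P n)) (hX : ∀ n, Measurable (X n)) (h0 : ∀ n ω, 0 ≤ X n ω)
    (L : Measure ℝ) (hL : LimLaw (atTop ⊓ 𝓟 A) P X L)
    (h : ∀ ε > (0 : ℝ), ∀ δ > (0 : ℝ), ∀ n₀ : ℕ, ∃ n ≥ n₀, n ∈ A ∧ (P n).real {ω | ε ≤ X n ω} < δ) :
    L = Measure.dirac 0 := by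
  obtain ⟨hprob, hlim⟩ := hL
  have h1 : ∀ η > (0 : ℝ), ∫ x, S1_g x ∂L ≤ 2 * η := by
    intro η hη
    apply le_of_tendsto_of_frequently (hlim S1_g)
    rw [Filter.frequently_inf_principal, Filter.frequently_atTop]
    intro n₀
    obtain ⟨n, hn, hnA, hn2⟩ := h η hη η hη n₀
    refine ⟨n, hn, hnA, ?_⟩
    have hPn := hP n hnA
    have hms : MeasurableSet {ω | η ≤ X n ω} := measurableSet_le measurable_const (hX n)
    have hi1 : Integrable (fun _ : Ω => η) (P n) := integrable_const η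
    have hi2 : Integrable ({ω | η ≤ X n ω}.indicator fun _ : Ω => (1 : ℝ)) (P n) :=
      (integrable_const (1 : ℝ)).indicator hms
    have h2 : ∫ ω, S1_g (X n ω) ∂(P n) ≤
        ∫ ω, (η + {ω | η ≤ X n ω}.indicator (fun _ : Ω => (1 : ℝ)) ω) ∂(P n) := by
      apply integral_mono (S1_int (P n) (hX n) S1_g) (hi1.add hi2)
      intro ω
      show S1_g (X n ω) ≤ η + {ω | η ≤ X n ω}.indicator (fun _ : Ω => (1 : ℝ)) ω
      rw [S1_g_apply]
      by_cases hω : η ≤ X n ω
      · rw [Set.indicator_of_mem (show ω ∈ {ω | η ≤ X n ω} from hω)]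
        have := min_le_left 1 |X n ω|
        linarith
      · rw [Set.indicator_of_notMem (show ω ∉ {ω | η ≤ X n ω} from hω)]
        have h3 := min_le_right 1 |X n ω|
        rw [abs_of_nonneg (h0 n ω)] at h3 ⊢
        push Not at hω
        linarith
    rw [integral_add hi1 hi2, integral_indicator hms, setIntegral_const, integral_const] at h2
    simp only [probReal_univ, smul_eq_mul, one_mul, mul_one] at h2
    linarith
  have h2 : ∫ x, S1_g x ∂L = 0 := by
    apply le_antisymm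
    · apply le_of_forall_pos_le_add
      intro ε hε
      have := h1 (ε / 2) (by positivity)
      linarith
    · apply integral_nonneg
      intro x
      rw [S1_g_apply]
      exact le_min zero_le_one (abs_nonneg x)
  have h3 : (fun x : ℝ => S1_g x) =ᵐ[L] 0 := by
    refine (integral_eq_zero_iff_of_nonneg (fun x => ?_) ?_).1 h2
    · show 0 ≤ S1_g x
      rw [S1_g_apply]
      exact le_min zero_le_one (abs_nonneg x)
    · exact S1_int L measurable_id S1_g
  have h4 : (id : ℝ → ℝ) =ᵐ[L] fun _ => 0 := by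
    filter_upwards [h3] with x hx
    have h5 : min 1 |x| = 0 := hx
    have h6 : |x| = 0 := by
      rcases min_choice 1 |x| with h7 | h7
      · rw [h7] at h5
        exact absurd h5 one_ne_zero
      · rw [h7] at h5
        exact h5
    exact abs_eq_zero.1 h6
  have h5 : L.map (id : ℝ → ℝ) = L.map (fun _ : ℝ => (0 : ℝ)) := Measure.map_congr h4
  rw [Measure.map_id, Measure.map_const, measure_univ, one_smul] at h5
  exact h5

/-- **[IVC-S1b]** PROOF. Let `g_K = 0` on `(-∞, K]`, `1` on `[K+1, ∞)`, linear between. For infinitely many `n` in the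
filter `∫ g_K(X n) dP n ≥ P n {K + 1 < X n} ≥ 1 - δ`, so `L [K, ∞) ≥ ∫ g_K dL ≥ 1 - δ`; so `L [K,∞) = 1` for all `K`,
which is impossible. -/
theorem lim_infty {Ω : Type} [MeasurableSpace Ω] {A : Set ℕ} (P : ℕ → Measure Ω) (X : ℕ → Ω → ℝ)
    (hP : ∀ n ∈ A, IsProbabilityMeasure (P n)) (hX : ∀ n, Measurable (X n))
    (h : ∀ K > (0 : ℝ), ∀ δ > (0 : ℝ), ∀ n₀ : ℕ, ∃ n ≥ n₀, n ∈ A ∧ (P n).real {ω | X n ω ≤ K} < δ)
    (L : Measure ℝ) : ¬ LimLaw (atTop ⊓ 𝓟 A) P X L := by
  rintro ⟨hprob, hlim⟩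
  have h1 : ∀ K > (0 : ℝ), ∀ δ > (0 : ℝ), 1 - δ ≤ ∫ x, S1_k K x ∂L := by
    intro K hK δ hδ
    apply ge_of_tendsto_of_frequently (hlim (S1_k K))
    rw [Filter.frequently_inf_principal, Filter.frequently_atTop]
    intro n₀
    obtain ⟨n, hn, hnA, hn2⟩ := h (K + 1) (by linarith) δ hδ n₀
    refine ⟨n, hn, hnA, ?_⟩
    have hPn := hP n hnA
    have hms : MeasurableSet {ω | X n ω ≤ K + 1} := measurableSet_le (hX n) measurable_const
    have hi1 : Integrable (fun _ : Ω => (1 : ℝ)) (P n) := integrable_const 1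
    have hi2 : Integrable ({ω | X n ω ≤ K + 1}.indicator fun _ : Ω => (1 : ℝ)) (P n) :=
      (integrable_const (1 : ℝ)).indicator hms
    have h2 : ∫ ω, (1 - {ω | X n ω ≤ K + 1}.indicator (fun _ : Ω => (1 : ℝ)) ω) ∂(P n) ≤
        ∫ ω, S1_k K (X n ω) ∂(P n) := by
      apply integral_mono (hi1.sub hi2) (S1_int (P n) (hX n) (S1_k K))
      intro ω
      show 1 - {ω | X n ω ≤ K + 1}.indicator (fun _ : Ω => (1 : ℝ)) ω ≤ S1_k K (X n ω)
      rw [S1_k_apply]
      by_cases hω : X n ω ≤ K + 1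
      · rw [Set.indicator_of_mem (show ω ∈ {ω | X n ω ≤ K + 1} from hω), sub_self]
        exact le_max_left _ _
      · rw [Set.indicator_of_notMem (show ω ∉ {ω | X n ω ≤ K + 1} from hω), sub_zero]
        push Not at hω
        apply le_max_of_le_right
        exact le_min le_rfl (by linarith)
    rw [integral_sub hi1 hi2, integral_indicator hms, setIntegral_const, integral_const] at h2
    simp only [probReal_univ, smul_eq_mul, mul_one] at h2
    linarith
  have h2 : ∀ K > (0 : ℝ), L.real (Set.Iic K) ≤ 0 := by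
    intro K hK
    have h3 : 1 ≤ ∫ x, S1_k K x ∂L := by
      apply le_of_forall_pos_le_add
      intro δ hδ
      have := h1 K hK δ hδ
      linarith
    have hi1 : Integrable (fun _ : ℝ => (1 : ℝ)) L := integrable_const 1
    have hi2 : Integrable ((Set.Iic K).indicator fun _ : ℝ => (1 : ℝ)) L :=
      (integrable_const (1 : ℝ)).indicator measurableSet_Iic
    have h4 : ∫ x, S1_k K x ∂L ≤ ∫ x, (1 - (Set.Iic K).indicator (fun _ : ℝ => (1 : ℝ)) x) ∂L := by
      apply integral_mono (S1_int L measurable_id (S1_k K)) (hi1.sub hi2)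
      intro x
      show S1_k K x ≤ 1 - (Set.Iic K).indicator (fun _ : ℝ => (1 : ℝ)) x
      rw [S1_k_apply]
      by_cases hx : x ≤ K
      · rw [Set.indicator_of_mem (show x ∈ Set.Iic K from hx), sub_self]
        exact max_le le_rfl ((min_le_right _ _).trans (by linarith))
      · rw [Set.indicator_of_notMem (show x ∉ Set.Iic K from hx), sub_zero]
        exact max_le zero_le_one (min_le_left _ _)
    rw [integral_sub hi1 hi2, integral_indicator measurableSet_Iic, setIntegral_const,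
      integral_const] at h4
    simp only [probReal_univ, smul_eq_mul, mul_one] at h4
    linarith
  have h3 := tendsto_cdf_atTop L
  have h4 : ∀ᶠ x in atTop, (1 / 2 : ℝ) < cdf L x := h3.eventually (lt_mem_nhds (by norm_num))
  obtain ⟨x, hx1, hx2⟩ := (h4.and (eventually_gt_atTop (0 : ℝ))).exists
  rw [cdf_eq_real] at hx1
  have := h2 x hx2
  linarith

end Pool.Agent.BPT
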