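import Pool.Agent.MP_99a865_pr.FV.Defs

open MeasureTheory ProbabilityTheory Filter Topology
open scoped ENNReal NNReal

namespace Pool.Agent.BPT

private theorem S3_summable {c : ℝ} (hc : 0 < c) :
    Summable fun k : ℕ => ((k : ℝ) + 1) ^ 2 * Real.exp (-c * ((k : ℝ) + 1) ^ 2) := by
  have h1 : Summable fun n : ℕ => (n : ℝ) ^ 2 * Real.exp (-c * n) :=
    Real.summable_pow_mul_exp_neg_nat_mul 2 hc
  have h2 := (summable_nat_add_iff 1).2 h1
  refine Summable.of_nonneg_of_le (fun k => by positivity) (fun k => ?_) h2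
  push_cast
  refine mul_le_mul_of_nonneg_left (Real.exp_le_exp.2 ?_) (by positivity)
  have hk : (0 : ℝ) ≤ k := Nat.cast_nonneg k
  nlinarith [mul_nonneg hc.le (mul_nonneg (by linarith : (0 : ℝ) ≤ (k : ℝ) + 1) hk)]

private theorem S3_term (x : ℝ) (k : ℕ) :
    ((k : ℝ) + 1) ^ 2 * Real.exp (-Real.pi ^ 2 * ((k : ℝ) + 1) ^ 2 / (2 * x ^ 2)) =
      ((k : ℝ) + 1) ^ 2 * Real.exp (-(Real.pi ^ 2 / (2 * x ^ 2)) * ((k : ℝ) + 1) ^ 2) := by
  congr 2
  ring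

private theorem S3_summable' {x : ℝ} (hx : 0 < x) : Summable fun k : ℕ =>
    ((k : ℝ) + 1) ^ 2 * Real.exp (-Real.pi ^ 2 * ((k : ℝ) + 1) ^ 2 / (2 * x ^ 2)) := by
  simp only [S3_term]
  exact S3_summable (by positivity)

theorem S3_pos {x : ℝ} (hx : 0 < x) : 0 < FF x := by
  unfold FF
  have h1 : 0 < ∑' k : ℕ, ((k : ℝ) + 1) ^ 2 *
      Real.exp (-Real.pi ^ 2 * ((k : ℝ) + 1) ^ 2 / (2 * x ^ 2)) :=
    (S3_summable' hx).tsum_pos (fun k => by positivity) 0 (by positivity)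
  positivity

/-- the profile -/
noncomputable def S3_g (t : ℝ) : ℝ := t ^ 2 * Real.exp (-(Real.pi ^ 2 / 2) * t ^ 2)

private theorem S3_g_nonneg (t : ℝ) : 0 ≤ S3_g t := by
  unfold S3_g
  positivity

private theorem S3_g_cont : Continuous S3_g := by
  unfold S3_g
  fun_prop

private theorem S3_ceil {x : ℝ} (hx : 0 < x) (k : ℕ) {t : ℝ}
    (ht : t ∈ Set.Ioc ((k : ℝ) / x) (((k + 1 : ℕ) : ℝ) / x)) : ⌈t * x⌉₊ = k + 1 := by
  rw [Nat.ceil_eq_iff (by omega)]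
  obtain ⟨h1, h2⟩ := ht
  rw [div_lt_iff₀ hx] at h1
  rw [le_div_iff₀ hx] at h2
  exact ⟨by simpa using h1, h2⟩

private theorem S3_union {x : ℝ} (hx : 0 < x) :
    (⋃ k : ℕ, Set.Ioc ((k : ℝ) / x) (((k + 1 : ℕ) : ℝ) / x)) = Set.Ioi 0 := by
  ext t
  rw [Set.mem_iUnion, Set.mem_Ioi]
  constructor
  · rintro ⟨k, h1, _⟩
    exact lt_of_le_of_lt (by positivity) h1
  · intro ht
    have h1 : 0 < t * x := by positivity
    have h2 : 0 < ⌈t * x⌉₊ := Nat.ceil_pos.2 h1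
    refine ⟨⌈t * x⌉₊ - 1, ?_, ?_⟩
    · rw [div_lt_iff₀ hx]
      have h3 := Nat.ceil_lt_add_one h1.le
      rw [Nat.cast_sub h2]
      push_cast
      linarith
    · rw [Nat.sub_add_cancel h2, le_div_iff₀ hx]
      exact Nat.le_ceil _

private theorem S3_bound {x : ℝ} (hx : 1 ≤ x) {t : ℝ} (ht : 0 < t) :
    S3_g ((⌈t * x⌉₊ : ℝ) / x) ≤ (t + 1) ^ 2 * Real.exp (-(Real.pi ^ 2 / 2) * t ^ 2) := by
  have hx0 : 0 < x := by linarith
  have h1 : t ≤ (⌈t * x⌉₊ : ℝ) / x := by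
    rw [le_div_iff₀ hx0]
    exact Nat.le_ceil _
  have h2 : (⌈t * x⌉₊ : ℝ) / x ≤ t + 1 := by
    rw [div_le_iff₀ hx0]
    have h3 := Nat.ceil_lt_add_one (show 0 ≤ t * x by positivity)
    nlinarith
  unfold S3_g
  set s := (⌈t * x⌉₊ : ℝ) / x
  have hs : 0 ≤ s := by linarith
  have h4 : s ^ 2 ≤ (t + 1) ^ 2 := by
    apply pow_le_pow_left₀ hs h2
  have h5 : t ^ 2 ≤ s ^ 2 := by
    apply pow_le_pow_left₀ ht.le h1
  refine mul_le_mul h4 (Real.exp_le_exp.2 ?_) (Real.exp_pos _).le (by positivity)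
  have : 0 < Real.pi ^ 2 / 2 := by positivity
  nlinarith

private theorem S3_G_int : IntegrableOn
    (fun t : ℝ => (t + 1) ^ 2 * Real.exp (-(Real.pi ^ 2 / 2) * t ^ 2)) (Set.Ioi 0) := by
  have hb : 0 < Real.pi ^ 2 / 2 := by positivity
  have h2 := integrable_rpow_mul_exp_neg_mul_sq hb (s := 2) (by norm_num)
  have h1 := integrable_rpow_mul_exp_neg_mul_sq hb (s := 1) (by norm_num)
  have h0 := integrable_exp_neg_mul_sq hb
  have h3 : Integrable (fun t : ℝ => t ^ (2 : ℝ) * Real.exp (-(Real.pi ^ 2 / 2) * t ^ 2) +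
      2 * (t ^ (1 : ℝ) * Real.exp (-(Real.pi ^ 2 / 2) * t ^ 2)) +
      Real.exp (-(Real.pi ^ 2 / 2) * t ^ 2)) := (h2.add (h1.const_mul 2)).add h0
  refine h3.integrableOn.congr_fun (fun t _ => ?_) measurableSet_Ioi
  have e2 : t ^ (2 : ℝ) = t ^ 2 := by exact_mod_cast Real.rpow_natCast t 2
  simp only [e2, Real.rpow_one]
  ring

private theorem S3_meas (x : ℝ) : Measurable fun t : ℝ => S3_g ((⌈t * x⌉₊ : ℝ) / x) := by
  have h1 : Measurable fun t : ℝ => (⌈t * x⌉₊ : ℝ) :=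
    measurable_from_top.comp (Nat.measurable_ceil.comp (measurable_id.mul_const x))
  exact S3_g_cont.measurable.comp (h1.div_const x)

private theorem S3_sum {x : ℝ} (hx : 1 ≤ x) :
    ∫ t in Set.Ioi (0 : ℝ), S3_g ((⌈t * x⌉₊ : ℝ) / x) = ∑' k : ℕ, 1 / x * S3_g (((k : ℝ) + 1) / x) := by
  have hx0 : 0 < x := by linarith
  have hint : IntegrableOn (fun t : ℝ => S3_g ((⌈t * x⌉₊ : ℝ) / x)) (Set.Ioi 0) := by
    refine Integrable.mono' S3_G_int (S3_meas x).aestronglyMeasurable ?_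
    refine (ae_restrict_iff' measurableSet_Ioi).2 (Filter.Eventually.of_forall fun t ht => ?_)
    rw [Real.norm_eq_abs, abs_of_nonneg (S3_g_nonneg _)]
    exact S3_bound hx ht
  rw [← S3_union hx0] at hint ⊢
  have hmono : Monotone fun k : ℕ => (k : ℝ) / x := fun a b hab => by
    simp only
    gcongr
  have h1 := hasSum_integral_iUnion (μ := volume) (f := fun t : ℝ => S3_g ((⌈t * x⌉₊ : ℝ) / x))
    (s := fun k : ℕ => Set.Ioc ((k : ℝ) / x) (((k + 1 : ℕ) : ℝ) / x)) (fun k => measurableSet_Ioc)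
    (by simpa using hmono.pairwise_disjoint_on_Ioc_succ) hint
  rw [← h1.tsum_eq]
  refine tsum_congr fun k => ?_
  rw [setIntegral_congr_fun (g := fun _ => S3_g (((k : ℝ) + 1) / x)) measurableSet_Ioc
    (fun t ht => by
      simp only
      rw [S3_ceil hx0 k ht]
      push_cast
      rfl), setIntegral_const, smul_eq_mul]
  congr 1
  rw [Real.volume_real_Ioc_of_le (by gcongr; exact_mod_cast Nat.le_succ k)]
  push_cast
  field_simp
  ring

private theorem S3_FF_eq {x : ℝ} (hx : 1 ≤ x) :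
    FF x = √2 * Real.pi ^ (5 / 2 : ℝ) * ∫ t in Set.Ioi (0 : ℝ), S3_g ((⌈t * x⌉₊ : ℝ) / x) := by
  have hx0 : 0 < x := by linarith
  rw [S3_sum hx]
  unfold FF S3_g
  rw [div_mul_eq_mul_div, mul_div_assoc, ← tsum_div_const]
  congr 1
  refine tsum_congr fun k => ?_
  have e : -(Real.pi ^ 2 / 2) * (((k : ℝ) + 1) / x) ^ 2 =
      -Real.pi ^ 2 * ((k : ℝ) + 1) ^ 2 / (2 * x ^ 2) := by
    field_simp
  rw [e]
  field_simp

private theorem S3_gauss : √2 * Real.pi ^ (5 / 2 : ℝ) * ∫ t in Set.Ioi (0 : ℝ), S3_g t = 1 := by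
  have hb : 0 < Real.pi ^ 2 / 2 := by positivity
  have h1 := integral_rpow_mul_exp_neg_mul_rpow (p := 2) (q := 2) (by norm_num) (by norm_num) hb
  have h2 : ∫ t in Set.Ioi (0 : ℝ), S3_g t =
      ∫ x in Set.Ioi (0 : ℝ), x ^ (2 : ℝ) * Real.exp (-(Real.pi ^ 2 / 2) * x ^ (2 : ℝ)) := by
    refine setIntegral_congr_fun measurableSet_Ioi fun t _ => ?_
    have e2 : t ^ (2 : ℝ) = t ^ 2 := by exact_mod_cast Real.rpow_natCast t 2
    simp only [e2]
    rfl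
  rw [h2, h1]
  have h3 : Real.Gamma ((2 + 1) / 2) = √Real.pi / 2 := by
    have := Real.Gamma_add_one (s := 1 / 2) (by norm_num)
    rw [Real.Gamma_one_half_eq] at this
    rw [show ((2 : ℝ) + 1) / 2 = 1 / 2 + 1 by norm_num, this]
    ring
  rw [h3]
  have hpi := Real.pi_pos
  have h4 : (Real.pi ^ 2 / 2) ^ (-((2 : ℝ) + 1) / 2) = 2 * √2 / Real.pi ^ 3 := by
    rw [Real.div_rpow (by positivity) (by norm_num)]
    have e1 : (Real.pi ^ 2) ^ (-((2 : ℝ) + 1) / 2) = (Real.pi ^ 3)⁻¹ := by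
      rw [← Real.rpow_natCast Real.pi 2, ← Real.rpow_mul hpi.le, ← Real.rpow_natCast Real.pi 3,
        ← Real.rpow_neg hpi.le]
      congr 1
      norm_num
    have e2 : (2 : ℝ) ^ (-((2 : ℝ) + 1) / 2) = (2 * √2)⁻¹ := by
      rw [Real.sqrt_eq_rpow, show (-((2 : ℝ) + 1) / 2) = -(1 + 1 / 2) by norm_num,
        Real.rpow_neg (by norm_num), Real.rpow_add (by norm_num), Real.rpow_one]
    rw [e1, e2]
    field_simp
  have h5 : Real.pi ^ (5 / 2 : ℝ) = Real.pi ^ 2 * √Real.pi := by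
    rw [Real.sqrt_eq_rpow, ← Real.rpow_natCast Real.pi 2, ← Real.rpow_add hpi]
    congr 1
    norm_num
  rw [h4, h5]
  have h6 : √2 * √2 = 2 := Real.mul_self_sqrt (by norm_num)
  have h7 : √Real.pi * √Real.pi = Real.pi := Real.mul_self_sqrt hpi.le
  field_simp
  nlinarith [h6, h7]

/-- **[IVC-S3a]** The limit distribution function tends to one. PROOF. `FF x = √2 π^{5/2} (1/x) ∑_{k≥1} g(k/x)` with
`g t = t² exp(-π² t²/2)`, a function which increases up to `t₀ = √2/π` and decreases afterwards, so the Riemann sum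
differs from `∫_0^∞ g` by at most `2 g(t₀)/x`, and `∫_0^∞ g = √π/(4 (π²/2)^{3/2})`, which gives
`√2 π^{5/2} ∫ g = 1` (Mathlib: `integral_rpow_mul_exp_neg_mul_rpow` or the Gamma function). -/
theorem FF_tendsto_one : Tendsto FF atTop (𝓝 1) := by
  have h1 : Tendsto (fun x : ℝ => ∫ t in Set.Ioi (0 : ℝ), S3_g ((⌈t * x⌉₊ : ℝ) / x)) atTop
      (𝓝 (∫ t in Set.Ioi (0 : ℝ), S3_g t)) := by
    refine tendsto_integral_filter_of_dominated_convergence
      (fun t : ℝ => (t + 1) ^ 2 * Real.exp (-(Real.pi ^ 2 / 2) * t ^ 2))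
      (Filter.Eventually.of_forall fun x => (S3_meas x).aestronglyMeasurable) ?_ S3_G_int ?_
    · filter_upwards [eventually_ge_atTop (1 : ℝ)] with x hx
      refine (ae_restrict_iff' measurableSet_Ioi).2 (Filter.Eventually.of_forall fun t ht => ?_)
      rw [Real.norm_eq_abs, abs_of_nonneg (S3_g_nonneg _)]
      exact S3_bound hx ht
    · refine (ae_restrict_iff' measurableSet_Ioi).2 (Filter.Eventually.of_forall fun t ht => ?_)
      exact (S3_g_cont.tendsto t).comp (tendsto_nat_ceil_mul_div_atTop (le_of_lt ht))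
  have h2 := h1.const_mul (√2 * Real.pi ^ (5 / 2 : ℝ))
  rw [S3_gauss] at h2
  refine h2.congr' ?_
  filter_upwards [eventually_ge_atTop (1 : ℝ)] with x hx
  exact (S3_FF_eq hx).symm

/-- **[IVC-S3b]** PROOF. For `0 < x ≤ 1`, `exp(-π²k²/(2x²)) ≤ exp(-π²/(4x²)) exp(-π²k²/4)` for `k ≥ 1`, so
`FF x ≤ C x^{-3} exp(-π²/(4x²)) → 0`. -/
theorem FF_tendsto_zero : Tendsto FF (𝓝[>] 0) (𝓝 0) := by
  have hpi := Real.pi_gt_three
  set C : ℝ := √2 * Real.pi ^ (5 / 2 : ℝ) *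
    ∑' k : ℕ, ((k : ℝ) + 1) ^ 2 * Real.exp (-(Real.pi ^ 2 / 4) * ((k : ℝ) + 1) ^ 2) with hC
  have hCs := S3_summable (c := Real.pi ^ 2 / 4) (by positivity)
  have hbound : ∀ x : ℝ, 0 < x → x ≤ 1 → FF x ≤ C * (x⁻¹ ^ 3 * Real.exp (-x⁻¹)) := by
    intro x hx hx1
    have hu : 1 ≤ x⁻¹ := (one_le_inv₀ hx).2 hx1
    have h1 : ∀ k : ℕ, ((k : ℝ) + 1) ^ 2 * Real.exp (-Real.pi ^ 2 * ((k : ℝ) + 1) ^ 2 / (2 * x ^ 2)) ≤
        Real.exp (-x⁻¹) * (((k : ℝ) + 1) ^ 2 * Real.exp (-(Real.pi ^ 2 / 4) * ((k : ℝ) + 1) ^ 2)) := by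
      intro k
      have hk : (0 : ℝ) ≤ k := Nat.cast_nonneg k
      have h2 : -Real.pi ^ 2 * ((k : ℝ) + 1) ^ 2 / (2 * x ^ 2) ≤
          -x⁻¹ + -(Real.pi ^ 2 / 4) * ((k : ℝ) + 1) ^ 2 := by
        have e : -Real.pi ^ 2 * ((k : ℝ) + 1) ^ 2 / (2 * x ^ 2) =
            -(Real.pi ^ 2 / 2) * (((k : ℝ) + 1) ^ 2 * x⁻¹ ^ 2) := by
          field_simp
        rw [e]
        set u := x⁻¹
        set w := ((k : ℝ) + 1) ^ 2
        have hw : 1 ≤ w := by
          show 1 ≤ ((k : ℝ) + 1) ^ 2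
          nlinarith
        have hu2 : u ≤ u ^ 2 := by nlinarith
        have hu1 : 1 ≤ u ^ 2 := by nlinarith
        have hpi2 : 4 ≤ Real.pi ^ 2 := by nlinarith
        have h3 : w ≤ w * u ^ 2 := by nlinarith
        have h4 : u ^ 2 ≤ w * u ^ 2 := by nlinarith
        nlinarith [mul_le_mul_of_nonneg_left h3 (show 0 ≤ Real.pi ^ 2 / 4 by positivity),
          mul_le_mul_of_nonneg_left h4 (show 0 ≤ Real.pi ^ 2 / 4 by positivity)]
      calc ((k : ℝ) + 1) ^ 2 * Real.exp (-Real.pi ^ 2 * ((k : ℝ) + 1) ^ 2 / (2 * x ^ 2)) ≤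
          ((k : ℝ) + 1) ^ 2 * Real.exp (-x⁻¹ + -(Real.pi ^ 2 / 4) * ((k : ℝ) + 1) ^ 2) :=
            mul_le_mul_of_nonneg_left (Real.exp_le_exp.2 h2) (by positivity)
        _ = _ := by
            rw [Real.exp_add]
            ring
    have h2 := (S3_summable' hx).tsum_le_tsum h1 (hCs.mul_left _)
    rw [tsum_mul_left] at h2
    unfold FF
    calc √2 * Real.pi ^ (5 / 2 : ℝ) / x ^ 3 *
        ∑' k : ℕ, ((k : ℝ) + 1) ^ 2 * Real.exp (-Real.pi ^ 2 * ((k : ℝ) + 1) ^ 2 / (2 * x ^ 2)) ≤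
        √2 * Real.pi ^ (5 / 2 : ℝ) / x ^ 3 * (Real.exp (-x⁻¹) *
        ∑' k : ℕ, ((k : ℝ) + 1) ^ 2 * Real.exp (-(Real.pi ^ 2 / 4) * ((k : ℝ) + 1) ^ 2)) :=
          mul_le_mul_of_nonneg_left h2 (by positivity)
      _ = _ := by
          rw [hC, inv_pow]
          ring
  have h3 : Tendsto (fun x : ℝ => C * (x⁻¹ ^ 3 * Real.exp (-x⁻¹))) (𝓝[>] 0) (𝓝 (C * 0)) :=
    ((Real.tendsto_pow_mul_exp_neg_atTop_nhds_zero 3).comp tendsto_inv_nhdsGT_zero).const_mul C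
  rw [mul_zero] at h3
  refine tendsto_of_tendsto_of_tendsto_of_le_of_le' tendsto_const_nhds h3 ?_ ?_
  · filter_upwards [self_mem_nhdsWithin] with x hx
    exact (S3_pos hx).le
  · have h4 : Set.Iio (1 : ℝ) ∈ 𝓝[>] (0 : ℝ) := mem_nhdsWithin_of_mem_nhds (Iio_mem_nhds one_pos)
    filter_upwards [self_mem_nhdsWithin, h4] with x hx hx1
    exact hbound x hx (le_of_lt hx1)

theorem FF_pos {x : ℝ} (hx : 0 < x) : 0 < FF x := S3_pos hx

end Pool.Agent.BPT
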