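import Pool.Agent.MP_99a865_pr.FV.Y6
import Pool.Agent.MP_99a865_pr.FV.F4
import Pool.Agent.MP_99a865_pr.CV.S3

open MeasureTheory ProbabilityTheory Filter Topology
open scoped ENNReal NNReal

namespace Pool.Agent.BPT

set_option linter.unusedSectionVars false
set_option linter.unusedVariables false

lemma srw_real_pos (m : ℕ) : 0 < (PQ muS nuS).real (EvN (Set.Ici 0) (2 * m + 1)) := by
  have := probS
  exact ENNReal.toReal_pos (srw_EvN m).2 (measure_ne_top _ _)

/-- limit of test functions along the simple random walk -/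
lemma srw_test {W : Measure ℝ} (hW : AreaLim W) {F : ℝ → ℝ} (hF : BL 1 F) {a : ℝ}
    (h : ∀ᶠ m : ℕ in atTop, a ≤ EN (Set.Ici 0) muS nuS (2 * m + 1)
      (fun ω => F (Area (1 / 2) (2 * m + 1) ω / ((2 * m + 1 : ℕ) * √((2 * m + 1 : ℕ) : ℝ))))) :
    a ≤ ∫ x, F x ∂W := ge_of_tendsto (srw_area_limit hW hF) h

lemma srw_test' {W : Measure ℝ} (hW : AreaLim W) {F : ℝ → ℝ} (hF : BL 1 F) {a : ℝ}
    (h : ∀ᶠ m : ℕ in atTop, EN (Set.Ici 0) muS nuS (2 * m + 1)
      (fun ω => F (Area (1 / 2) (2 * m + 1) ω / ((2 * m + 1 : ℕ) * √((2 * m + 1 : ℕ) : ℝ)))) ≤ a) :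
    ∫ x, F x ∂W ≤ a := le_of_tendsto (srw_area_limit hW hF) h

lemma PN_le_EN {D : Set ℝ} {μ ν : Measure ℝ} [IsProbabilityMeasure μ] [IsProbabilityMeasure ν]
    (hD : Dom D) {n : ℕ} {A : Set (ℕ → ℝ × ℝ)} (hA : MeasurableSet A) {F : (ℕ → ℝ × ℝ) → ℝ}
    (hF : Integrable F (PQ μ ν)) {r : ℝ} (h0 : ∀ ω ∈ EvN D n, 0 ≤ F ω)
    (h : ∀ ω ∈ EvN D n, ω ∈ A → r ≤ F ω) : r * PN D μ ν n A ≤ EN D μ ν n F := by
  rw [← EN_indicator hD n A hA, ← EN_const_mul]
  refine EN_le hD (((integrable_const (1 : ℝ)).indicator hA).const_mul r) hF (fun ω hω => ?_)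
  by_cases hωA : ω ∈ A
  · rw [Set.indicator_of_mem hωA, mul_one]; exact h ω hω hωA
  · rw [Set.indicator_of_notMem hωA, mul_zero]; exact h0 ω hω

/-- the area is of order `n√n` -/
lemma area_large : ∃ η > (0 : ℝ), ∀ᶠ m : ℕ in atTop, 1 / 2 ≤ PN (Set.Ici 0) muS nuS (2 * m + 1)
    {ω | η ≤ Area (1 / 2) (2 * m + 1) ω / ((2 * m + 1 : ℕ) * √((2 * m + 1 : ℕ) : ℝ))} := by
  classical
  have := probS
  have := qstd_S.probμ
  have := qstd_S.probν
  obtain ⟨C, hC, hocc⟩ := occ (D := Set.Ici 0) domI qstd_S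
  obtain ⟨c, hc, n₀, hle⟩ := le_hit (D := Set.Ici 0) domI qstd_S.std
  obtain ⟨θ, hθ, hθ2⟩ : ∃ θ > (0 : ℝ), C / c * (2 * θ ^ 2) ≤ 1 / 16 := by
    refine ⟨√(c / (32 * C)), by positivity, ?_⟩
    rw [Real.sq_sqrt (by positivity)]
    apply le_of_eq
    field_simp
    norm_num
  refine ⟨θ / 2, by positivity, ?_⟩
  have hlarge : ∀ᶠ m : ℕ in atTop, 32 * (C / c) ≤ ((2 * m + 1 : ℕ) : ℝ) := by
    have h3 : Tendsto (fun m : ℕ => ((2 * m + 1 : ℕ) : ℝ)) atTop atTop := by
      apply tendsto_natCast_atTop_atTop.comp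
      exact tendsto_atTop_mono (fun m => by simp only [id]; omega) tendsto_id
    exact h3.eventually_ge_atTop _
  filter_upwards [hlarge, eventually_ge_atTop n₀] with m hm1 hm2
  set n : ℕ := 2 * m + 1 with hn
  have hn0 : (0 : ℝ) < n := by rw [hn]; positivity
  have hsn : (0 : ℝ) < √(n : ℝ) := by positivity
  have hp : 0 < (PQ muS nuS).real (EvN (Set.Ici 0) n) := srw_real_pos m
  have hph : (PQ muS nuS).real (EvN (Set.Ici 0) n) =
      hit (Set.Ici 0) (stepLaw muS nuS (1 / 2)) n 0 := PQ_EvN domI qstd_S n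
  have hp2 : c / (n * √n) ≤ (PQ muS nuS).real (EvN (Set.Ici 0) n) := by
    rw [hph]
    exact hle n (by omega) (by rw [← hph]; exact hp)
  set y : ℝ := θ * √n with hy
  have hy0 : 0 ≤ y := by positivity
  -- Markov
  have hmc : Measurable (fun ω : ℕ → ℝ × ℝ => (cOcc (1 / 2) n y ω : ℝ≥0∞)) := by
    have e : (fun ω : ℕ → ℝ × ℝ => (cOcc (1 / 2) n y ω : ℝ≥0∞)) = fun ω =>
        ∑ i ∈ Finset.range n, ({ω | nz (1 / 2) i ω < y}.indicator (fun _ => (1 : ℝ≥0∞)) ω) := by
      funext ω
      unfold cOcc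
      rw [Finset.card_filter]
      push_cast
      apply Finset.sum_congr rfl
      intro i _
      simp [Set.indicator]
    rw [e]
    exact Finset.measurable_sum _ fun i _ => measurable_const.indicator
      (measurableSet_lt (measurable_nz i) measurable_const)
  have h1 := hocc n (by omega) y hy0
  have hmE : MeasurableSet (EvN (Set.Ici 0) n) := measurableSet_EvN domI n
  have h2 : PQ muS nuS (EvN (Set.Ici 0) n ∩ {ω | (n : ℝ) / 2 ≤ cOcc (1 / 2) n y ω}) *
      ENNReal.ofReal (n / 2) ≤ ENNReal.ofReal (C * (1 + y) ^ 2 / (n * √n)) := by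
    refine le_trans ?_ h1
    rw [mul_comm]
    have h3 : ENNReal.ofReal (n / 2) *
        ((PQ muS nuS).restrict (EvN (Set.Ici 0) n)) {ω | ENNReal.ofReal (n / 2) ≤
          (cOcc (1 / 2) n y ω : ℝ≥0∞)} ≤
        ∫⁻ ω in EvN (Set.Ici 0) n, (cOcc (1 / 2) n y ω : ℝ≥0∞) ∂(PQ muS nuS) :=
      mul_meas_ge_le_lintegral hmc _
    refine le_trans (mul_le_mul_right ?_ _) h3
    rw [Set.inter_comm, ← Measure.restrict_apply' hmE]
    apply measure_mono
    intro ω hω
    simp only [Set.mem_ofPred_eq] at hω ⊢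
    rw [← ENNReal.ofReal_natCast]
    exact ENNReal.ofReal_le_ofReal hω
  have h4 : (PQ muS nuS).real (EvN (Set.Ici 0) n ∩ {ω | (n : ℝ) / 2 ≤ cOcc (1 / 2) n y ω}) *
      (n / 2) ≤ C * (1 + y) ^ 2 / (n * √n) := by
    have h5 := ENNReal.toReal_mono ENNReal.ofReal_ne_top h2
    rw [ENNReal.toReal_mul, ENNReal.toReal_ofReal (by positivity),
      ENNReal.toReal_ofReal (by positivity)] at h5
    exact h5
  have h6 : C * (1 + y) ^ 2 / (n * √n) ≤ n / 8 * (PQ muS nuS).real (EvN (Set.Ici 0) n) := by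
    have h7 : (1 + y) ^ 2 ≤ 2 + 2 * (θ ^ 2 * n) := by
      have : y ^ 2 = θ ^ 2 * n := by rw [hy, mul_pow, Real.sq_sqrt hn0.le]
      nlinarith [sq_nonneg (1 - y)]
    have h8 : C / c * (1 + y) ^ 2 ≤ n / 8 := by
      have hCc : 0 < C / c := by positivity
      calc C / c * (1 + y) ^ 2 ≤ C / c * (2 + 2 * (θ ^ 2 * n)) :=
            mul_le_mul_of_nonneg_left h7 hCc.le
        _ = 2 * (C / c) + (C / c * (2 * θ ^ 2)) * n := by ring
        _ ≤ n / 16 + 1 / 16 * n := by
            have := mul_le_mul_of_nonneg_right hθ2 hn0.le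
            linarith
        _ = n / 8 := by ring
    calc C * (1 + y) ^ 2 / (n * √n) = (C / c * (1 + y) ^ 2) * (c / (n * √n)) := by
          field_simp
      _ ≤ n / 8 * (c / (n * √n)) := mul_le_mul_of_nonneg_right h8 (by positivity)
      _ ≤ n / 8 * (PQ muS nuS).real (EvN (Set.Ici 0) n) :=
          mul_le_mul_of_nonneg_left hp2 (by positivity)
  have h9 : (PQ muS nuS).real (EvN (Set.Ici 0) n ∩ {ω | (n : ℝ) / 2 ≤ cOcc (1 / 2) n y ω}) ≤
      (PQ muS nuS).real (EvN (Set.Ici 0) n) / 4 := by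
    have h10 := h4.trans h6
    have h11 : (PQ muS nuS).real (EvN (Set.Ici 0) n ∩ {ω | (n : ℝ) / 2 ≤ cOcc (1 / 2) n y ω}) *
      (n / 2) ≤ ((PQ muS nuS).real (EvN (Set.Ici 0) n) / 4) * (n / 2) := by
      calc _ ≤ _ := h10
        _ = _ := by ring
    exact le_of_mul_le_mul_right h11 (by positivity)
  -- the complement
  have h12 : EvN (Set.Ici 0) n ⊆ (EvN (Set.Ici 0) n ∩ {ω | (n : ℝ) / 2 ≤ cOcc (1 / 2) n y ω}) ∪
      (EvN (Set.Ici 0) n ∩ {ω | θ / 2 ≤ Area (1 / 2) n ω / (n * √n)}) := by
    intro ω hω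
    by_cases h13 : (n : ℝ) / 2 ≤ cOcc (1 / 2) n y ω
    · exact Or.inl ⟨hω, h13⟩
    · right
      refine ⟨hω, ?_⟩
      push Not at h13
      simp only [Set.mem_ofPred_eq]
      have h14 : (n : ℝ) / 2 * y ≤ Area (1 / 2) n ω := by
        have h15 : ((Finset.range n).filter fun i => ¬ nz (1 / 2) i ω < y).card +
            cOcc (1 / 2) n y ω = n := by
          unfold cOcc
          have := Finset.card_filter_add_card_filter_not (s := Finset.range n)
            (fun i => nz (1 / 2) i ω < y)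
          rw [Finset.card_range] at this
          omega
        have h16 : (n : ℝ) / 2 ≤ (((Finset.range n).filter fun i => ¬ nz (1 / 2) i ω < y).card : ℝ) := by
          have : ((((Finset.range n).filter fun i => ¬ nz (1 / 2) i ω < y).card +
            cOcc (1 / 2) n y ω : ℕ) : ℝ) = n := by exact_mod_cast h15
          push_cast at this
          linarith
        unfold Area
        calc (n : ℝ) / 2 * y ≤ (((Finset.range n).filter fun i => ¬ nz (1 / 2) i ω < y).card : ℝ) * y :=
              mul_le_mul_of_nonneg_right h16 hy0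
          _ = ∑ i ∈ (Finset.range n).filter (fun i => ¬ nz (1 / 2) i ω < y), y := by
              rw [Finset.sum_const, nsmul_eq_mul]
          _ ≤ ∑ i ∈ (Finset.range n).filter (fun i => ¬ nz (1 / 2) i ω < y), nz (1 / 2) i ω := by
              apply Finset.sum_le_sum
              intro i hi
              rw [Finset.mem_filter] at hi
              exact not_lt.1 hi.2
          _ ≤ ∑ i ∈ Finset.range n, nz (1 / 2) i ω := by
              apply Finset.sum_le_sum_of_subset_of_nonneg (Finset.filter_subset _ _)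
              intro i hi _
              exact nz_nonneg_of_EvN domI (by norm_num) hω (Finset.mem_range.1 hi)
      rw [le_div_iff₀ (by positivity)]
      calc θ / 2 * (n * √n) = (n : ℝ) / 2 * y := by rw [hy]; ring
        _ ≤ _ := h14
  have h17 : (PQ muS nuS).real (EvN (Set.Ici 0) n) ≤
      (PQ muS nuS).real (EvN (Set.Ici 0) n ∩ {ω | (n : ℝ) / 2 ≤ cOcc (1 / 2) n y ω}) +
      (PQ muS nuS).real (EvN (Set.Ici 0) n ∩ {ω | θ / 2 ≤ Area (1 / 2) n ω / (n * √n)}) :=
    (measureReal_mono h12).trans (measureReal_union_le _ _)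
  unfold PN
  rw [le_div_iff₀ hp]
  linarith

/-- the limit law of the area is not a point mass -/
theorem W_nondeg {W : Measure ℝ} [IsProbabilityMeasure W] (hW : AreaLim W) (x : ℝ) :
    W ≠ Measure.dirac x := by
  have := probS
  have := qstd_S.probμ
  have := qstd_S.probν
  intro hx
  have hBLp : BL 1 (fun t : ℝ => max 0 (min 1 t)) := by
    constructor
    · intro t
      rw [abs_of_nonneg (le_max_left _ _)]
      exact max_le zero_le_one (min_le_left _ _)
    · intro s t
      rw [one_mul]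
      have h1 : |max 0 (min 1 s) - max 0 (min 1 t)| ≤ |min 1 s - min 1 t| := by
        have := abs_max_sub_max_le_abs (min 1 s) (min 1 t) 0
        simpa [max_comm] using this
      have h2 : |min 1 s - min 1 t| ≤ |s - t| := by
        have := abs_min_sub_min_le_max 1 s 1 t
        simpa using this
      exact h1.trans h2
  have hBLn : BL 1 (fun t : ℝ => max 0 (min 1 (-t))) := by
    constructor
    · intro t; exact hBLp.bd (-t)
    · intro s t
      have := hBLp.lip (-s) (-t)
      rw [show -s - -t = -(s - t) by ring, abs_neg] at this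
      exact this
  rcases lt_trichotomy x 0 with h | h | h
  · -- x < 0
    have h1 : ∫ t, (fun t : ℝ => max 0 (min 1 (-t))) t ∂W ≤ 0 := by
      refine srw_test' hW hBLn (Eventually.of_forall fun m => ?_)
      apply le_of_eq
      unfold EN
      rw [setIntegral_congr_fun (g := fun _ => (0 : ℝ)) (measurableSet_EvN domI _) ?_]
      · simp
      · intro ω hω
        have h2 : 0 ≤ Area (1 / 2) (2 * m + 1) ω / ((2 * m + 1 : ℕ) * √((2 * m + 1 : ℕ) : ℝ)) :=
          div_nonneg (Area_nonneg domI (by norm_num) hω) (by positivity)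
        simp only
        rw [max_eq_left]
        exact (min_le_right _ _).trans (by linarith)
    rw [hx, integral_dirac] at h1
    have h2 : 0 < max 0 (min 1 (-x)) := by
      apply lt_max_of_lt_right
      apply lt_min one_pos
      linarith
    linarith
  · -- x = 0
    subst h
    obtain ⟨η, hη, hlarge⟩ := area_large
    have h1 : min 1 η / 2 ≤ ∫ t, (fun t : ℝ => max 0 (min 1 t)) t ∂W := by
      refine srw_test hW hBLp ?_
      filter_upwards [hlarge] with m hm
      set n : ℕ := 2 * m + 1 with hn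
      have hmA : MeasurableSet {ω | η ≤ Area (1 / 2) n ω / (n * √(n : ℝ))} :=
        measurableSet_le measurable_const ((measurable_Area' _ _).div_const _)
      have h2 := PN_le_EN (μ := muS) (ν := nuS) domI (n := n) hmA
        (F := fun ω => max 0 (min 1 (Area (1 / 2) n ω / (n * √(n : ℝ)))))
        (integrable_BL _ hBLp ((measurable_Area' _ _).div_const _)) (r := min 1 η)
        (fun ω _ => le_max_left _ _)
        (fun ω _ hωA => (min_le_min_left 1 hωA).trans (le_max_right _ _))
      refine le_trans ?_ h2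
      have h3 : 0 < min 1 η := lt_min one_pos hη
      nlinarith
    rw [hx, integral_dirac] at h1
    have h3 : 0 < min 1 η := lt_min one_pos hη
    simp at h1
    rcases h1 with h1
    linarith
  · -- x > 0
    obtain ⟨b, hb0, hb1, hbx⟩ : ∃ b : ℝ, 0 < b ∧ b ≤ 1 ∧ b ≤ x :=
      ⟨min x 1, lt_min h one_pos, min_le_right _ _, min_le_left _ _⟩
    have hab : b / 2 < b := by linarith
    have hbl : BL 1 (fun t => (b - b / 2) * clampF (b / 2) b t) := clampF_BL hab (by linarith)
    have hlim : Tendsto (fun m : ℕ => PN (Set.Ici 0) muS nuS (2 * m + 1)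
      {ω | Mx (1 / 2) (2 * m + 1) ω ≤ b / 2 * √((2 * m + 1 : ℕ) : ℝ)}) atTop (𝓝 (FF (b / 2))) := by
      have h1 := Mx_limit (Set.Ici 0) muS nuS (1 / 2) domI qstd_S (x := b / 2) (by positivity)
      have h2 : Tendsto (fun m : ℕ => 2 * m + 1) atTop (ff (Set.Ici 0) muS nuS) := by
        unfold ff
        rw [tendsto_inf, tendsto_principal]
        exact ⟨tendsto_atTop_mono (fun m => by simp only [id]; omega) tendsto_id,
          Eventually.of_forall fun m => (srw_EvN m).2⟩
      exact h1.comp h2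
    have hFF : 0 < FF (b / 2) := FF_pos (by positivity)
    have h1 : (b - b / 2) * (FF (b / 2) / 2) ≤ ∫ t, (fun t => (b - b / 2) * clampF (b / 2) b t) t ∂W := by
      refine srw_test hW hbl ?_
      filter_upwards [hlim.eventually (eventually_ge_nhds (show FF (b / 2) / 2 < FF (b / 2) by linarith))] with m hm
      set n : ℕ := 2 * m + 1 with hn
      have hmA : MeasurableSet {ω | Mx (1 / 2) n ω ≤ b / 2 * √(n : ℝ)} :=
        measurableSet_le (meas_Mx _ _) measurable_const
      have h2 := PN_le_EN (μ := muS) (ν := nuS) domI (n := n) hmA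
        (F := fun ω => (b - b / 2) * clampF (b / 2) b (Area (1 / 2) n ω / (n * √(n : ℝ))))
        (integrable_BL _ hbl ((measurable_Area' _ _).div_const _)) (r := b - b / 2)
        (fun ω _ => mul_nonneg (by linarith) (clampF_nonneg _ _ _)) ?_
      · refine le_trans ?_ h2
        exact mul_le_mul_of_nonneg_left hm (by linarith)
      · intro ω hω hωA
        have hn0 : (0 : ℝ) < n := by rw [hn]; positivity
        have h3 : Area (1 / 2) n ω / (n * √(n : ℝ)) ≤ b / 2 := by
          rw [div_le_iff₀ (by positivity)]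
          unfold Area
          have h4 : ∀ i ∈ Finset.range n, nz (1 / 2) i ω ≤ b / 2 * √(n : ℝ) := by
            intro i hi
            refine le_trans ?_ hωA
            unfold Mx
            exact le_ciSup (f := fun i : Fin n => nz (1 / 2) i ω) (Set.finite_range _).bddAbove
              ⟨i, Finset.mem_range.1 hi⟩
          calc ∑ i ∈ Finset.range n, nz (1 / 2) i ω ≤ ∑ i ∈ Finset.range n, b / 2 * √(n : ℝ) :=
                Finset.sum_le_sum h4
            _ = b / 2 * (n * √n) := by
                rw [Finset.sum_const, Finset.card_range, nsmul_eq_mul]; ring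
        rw [clampF_eq_one hab h3, mul_one]
    rw [hx, integral_dirac] at h1
    rw [clampF_eq_zero hab hbx, mul_zero] at h1
    have : 0 < (b - b / 2) * (FF (b / 2) / 2) := mul_pos (by linarith) (by linarith)
    linarith

end Pool.Agent.BPT
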