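import Pool.Agent.MP_99a865_pr.FV.Y8
import Pool.Agent.MP_99a865_pr.CV.S1
import Pool.Agent.MP_99a865_pr.CV.S2

open MeasureTheory ProbabilityTheory Filter Topology
open scoped ENNReal NNReal

namespace Pool.Agent.BPT

set_option linter.unusedSectionVars false
set_option linter.unusedVariables false

/-- the assumptions of the problem: positive, mean one -/
structure Hyp0 (μ ν : Measure ℝ) : Prop where
  probμ : IsProbabilityMeasure μ
  probν : IsProbabilityMeasure ν
  posμ : μ (Set.Iic 0) = 0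
  posν : ν (Set.Iic 0) = 0
  meanμ : ∫ x, x ∂μ = 1
  meanν : ∫ x, x ∂ν = 1

lemma Hyp0.qi {μ ν : Measure ℝ} (h : Hyp0 μ ν) : QI μ ν :=
  { probμ := h.probμ
    probν := h.probν
    nonnegμ := measure_mono_null Set.Iio_subset_Iic_self h.posμ
    nonnegν := measure_mono_null Set.Iio_subset_Iic_self h.posν
    meanμ := h.meanμ
    meanν := h.meanν }

lemma ae_pos_queue0 {μ ν : Measure ℝ} (h : Hyp0 μ ν) :
    ∀ᵐ p ∂(queueLaw μ ν), (∀ k, 0 < p.1 k) ∧ ∀ k, 0 < p.2 k := by
  have := h.probμ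
  have := h.probν
  unfold queueLaw
  have h1 := ae_pos_infinitePi μ h.posμ
  have h2 := ae_pos_infinitePi ν h.posν
  have h3 : ∀ᵐ p ∂((Measure.infinitePi fun _ : ℕ => μ).prod (Measure.infinitePi fun _ : ℕ => ν)),
      ∀ k, 0 < p.1 k := Measure.quasiMeasurePreserving_fst.ae h1
  have h4 : ∀ᵐ p ∂((Measure.infinitePi fun _ : ℕ => μ).prod (Measure.infinitePi fun _ : ℕ => ν)),
      ∀ k, 0 < p.2 k := Measure.quasiMeasurePreserving_snd.ae h2
  filter_upwards [h3, h4] with p h5 h6 using ⟨h5, h6⟩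

lemma queue_busy0 {μ ν : Measure ℝ} (h : Hyp0 μ ν) (c : Bool) (n : ℕ) :
    queueLaw μ ν (busyEvent c n) = PQ μ ν (EvN (DD' c) n) := by
  have := h.probμ
  have := h.probν
  rw [busyEvent_eq, ← Measure.map_apply measurable_zip (measurableSet_EvN (dom_DD' c) n), map_zip]

/-- transfer of conditional probabilities -/
lemma transferP0 {μ ν : Measure ℝ} (h : Hyp0 μ ν) (c : Bool) (n : ℕ)
    (A : Set ((ℕ → ℝ) × (ℕ → ℝ))) (B : Set (ℕ → ℝ × ℝ)) (hA : MeasurableSet A)
    (hB : MeasurableSet B)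
    (hAB : ∀ p : (ℕ → ℝ) × (ℕ → ℝ), p ∈ busyEvent c n → (∀ k, 0 < p.1 k) → (∀ k, 0 < p.2 k) →
      (p ∈ A ↔ zip p.1 p.2 ∈ B)) :
    (ProbabilityTheory.cond (queueLaw μ ν) (busyEvent c n)).real A = PN (DD' c) μ ν n B := by
  have := h.probμ
  have := h.probν
  have h0 : IsProbabilityMeasure (queueLaw μ ν) := by unfold queueLaw; infer_instance
  have h1 : queueLaw μ ν (busyEvent c n ∩ A) = PQ μ ν (EvN (DD' c) n ∩ B) := by
    rw [← map_zip μ ν, Measure.map_apply measurable_zip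
      ((measurableSet_EvN (dom_DD' c) n).inter hB), Set.preimage_inter, ← busyEvent_eq]
    apply measure_congr
    filter_upwards [ae_pos_queue0 h] with p hp
    apply propext
    constructor
    · rintro ⟨h2, h3⟩
      exact ⟨h2, (hAB p h2 hp.1 hp.2).1 h3⟩
    · rintro ⟨h2, h3⟩
      exact ⟨h2, (hAB p h2 hp.1 hp.2).2 h3⟩
  unfold PN Measure.real
  rw [cond_apply (measurableSet_busy c n), h1, ENNReal.toReal_mul, ENNReal.toReal_inv,
    queue_busy0 h, div_eq_inv_mul]

lemma meas_h (c : Bool) (n : ℕ) :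
    Measurable (fun p : (ℕ → ℝ) × (ℕ → ℝ) => (height c p.1 p.2 n : ℝ)) :=
  meas_cast_nat.comp (measurable_height c n).1

lemma meas_w (c : Bool) (n : ℕ) :
    Measurable (fun p : (ℕ → ℝ) × (ℕ → ℝ) => (width c p.1 p.2 n : ℝ)) :=
  meas_cast_nat.comp (measurable_height c n).2.1

lemma meas_t (c : Bool) (n : ℕ) :
    Measurable (fun p : (ℕ → ℝ) × (ℕ → ℝ) => (totalHeight c p.1 p.2 n : ℝ)) :=
  meas_cast_nat.comp (measurable_height c n).2.2

lemma meas_hb (c : Bool) (n : ℕ) :
    Measurable (fun ω : ℕ → ℝ × ℝ => (HB (DD' c) n ω : ℝ)) :=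
  meas_cast_nat.comp (measurable_HB (dom_DD' c) n).1

/-- the filter of the problem -/
noncomputable def lq (c : Bool) (μ ν : Measure ℝ) : Filter ℕ :=
  atTop ⊓ 𝓟 {n | queueLaw μ ν (busyEvent c n) ≠ 0}

lemma height_small_queue {μ ν : Measure ℝ} (h : Hyp0 μ ν) (hv : InfV μ ν) (c : Bool) (ε δ : ℝ)
    (hε : 0 < ε) (hδ : 0 < δ) (n₀ : ℕ) : ∃ n ≥ n₀, queueLaw μ ν (busyEvent c n) ≠ 0 ∧
      (ProbabilityTheory.cond (queueLaw μ ν) (busyEvent c n)).real
        {p | ε * √n ≤ height c p.1 p.2 n} < δ := by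
  have := h.probμ
  have := h.probν
  obtain ⟨n, hn, h1, h2⟩ := height_small (dom_DD' c) h.qi hv ε δ hε hδ n₀
  refine ⟨n, hn, by rwa [queue_busy0 h], ?_⟩
  rw [transferP0 h c n {p | ε * √n ≤ height c p.1 p.2 n} {ω | ε * √n ≤ HB (DD' c) n ω}
    (measurableSet_le measurable_const (meas_h c n))
    (measurableSet_le measurable_const (meas_hb c n))]
  · unfold PN
    have h3 : 0 < (PQ μ ν).real (EvN (DD' c) n) := ENNReal.toReal_pos h1 (measure_ne_top _ _)
    rw [div_lt_iff₀ h3]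
    exact h2
  · intro p hp h3 h4
    simp only [Set.mem_ofPred_eq]
    rw [(height_eq c p.1 p.2 h3 h4 n hp).1]

section converse

variable {μ ν : Measure ℝ} (h : Hyp0 μ ν) (hv : InfV μ ν) (c : Bool)
include h hv

lemma isProb_queue_cond {n : ℕ} (hn : n ∈ {n | queueLaw μ ν (busyEvent c n) ≠ 0}) :
    IsProbabilityMeasure (ProbabilityTheory.cond (queueLaw μ ν) (busyEvent c n)) := by
  have := h.probμ
  have := h.probν
  have h0 : IsProbabilityMeasure (queueLaw μ ν) := by unfold queueLaw; infer_instance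
  exact cond_isProbabilityMeasure hn

lemma conv_height (L : Measure ℝ)
    (hL : LimLaw (lq c μ ν) (fun n => ProbabilityTheory.cond (queueLaw μ ν) (busyEvent c n))
      (fun n p => (height c p.1 p.2 n : ℝ) / √n) L) : L = Measure.dirac 0 := by
  refine lim_zero _ _ (fun n hn => isProb_queue_cond h hv c hn)
    (fun n => (meas_h c n).div_const _)
    (fun n p => div_nonneg (Nat.cast_nonneg _) (Real.sqrt_nonneg _)) L hL ?_
  intro ε hε δ hδ n₀
  obtain ⟨n, hn, h1, h2⟩ := height_small_queue h hv c ε δ hε hδ (n₀ + 1)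
  refine ⟨n, by omega, h1, ?_⟩
  have hn0 : (0 : ℝ) < √n := by
    have : (0 : ℝ) < n := by exact_mod_cast (show 0 < n by omega)
    positivity
  have e : {p : (ℕ → ℝ) × (ℕ → ℝ) | ε ≤ (height c p.1 p.2 n : ℝ) / √n} =
      {p | ε * √n ≤ height c p.1 p.2 n} := by
    ext p
    simp only [Set.mem_ofPred_eq]
    rw [le_div_iff₀ hn0]
  rw [e]
  exact h2

lemma conv_total (L : Measure ℝ)
    (hL : LimLaw (lq c μ ν) (fun n => ProbabilityTheory.cond (queueLaw μ ν) (busyEvent c n))
      (fun n p => (totalHeight c p.1 p.2 n : ℝ) / (n * √n)) L) : L = Measure.dirac 0 := by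
  refine lim_zero _ _ (fun n hn => isProb_queue_cond h hv c hn)
    (fun n => (meas_t c n).div_const _)
    (fun n p => div_nonneg (Nat.cast_nonneg _) (mul_nonneg (Nat.cast_nonneg _)
      (Real.sqrt_nonneg _))) L hL ?_
  intro ε hε δ hδ n₀
  obtain ⟨n, hn, h1, h2⟩ := height_small_queue h hv c ε δ hε hδ (n₀ + 1)
  refine ⟨n, by omega, h1, ?_⟩
  have hn1 : (0 : ℝ) < n := by exact_mod_cast (show 0 < n by omega)
  have hn0 : (0 : ℝ) < √n := by positivity
  have := isProb_queue_cond h hv c h1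
  refine lt_of_le_of_lt (measureReal_mono ?_) h2
  intro p hp
  simp only [Set.mem_ofPred_eq] at hp ⊢
  rw [le_div_iff₀ (by positivity)] at hp
  have h3 : (totalHeight c p.1 p.2 n : ℝ) ≤ n * height c p.1 p.2 n := by
    exact_mod_cast totalHeight_le c p.1 p.2 n
  have h4 : n * (ε * √n) ≤ n * (height c p.1 p.2 n : ℝ) := by
    calc n * (ε * √n) = ε * (n * √n) := by ring
      _ ≤ _ := hp.trans h3
  exact le_of_mul_le_mul_left h4 hn1

lemma conv_width (L : Measure ℝ) :
    ¬ LimLaw (lq c μ ν) (fun n => ProbabilityTheory.cond (queueLaw μ ν) (busyEvent c n))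
      (fun n p => (width c p.1 p.2 n : ℝ) / √n) L := by
  refine lim_infty _ _ (fun n hn => isProb_queue_cond h hv c hn)
    (fun n => (meas_w c n).div_const _) ?_ L
  intro K hK δ hδ n₀
  obtain ⟨m₀, hm₀⟩ := exists_nat_gt ((2 * (K + 1)) ^ 2)
  obtain ⟨n, hn, h1, h2⟩ := height_small_queue h hv c (1 / (2 * (K + 1))) δ (by positivity) hδ
    (n₀ + m₀ + 1)
  refine ⟨n, by omega, h1, ?_⟩
  have hn1 : (0 : ℝ) < n := by exact_mod_cast (show 0 < n by omega)
  have hn0 : (0 : ℝ) < √n := by positivity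
  have hsq : √(n : ℝ) * √n = n := Real.mul_self_sqrt hn1.le
  have hlarge : 2 * (K + 1) ≤ √n := by
    apply Real.le_sqrt_of_sq_le
    have : (m₀ : ℝ) ≤ n := by exact_mod_cast (show m₀ ≤ n by omega)
    linarith
  have := isProb_queue_cond h hv c h1
  refine lt_of_le_of_lt (measureReal_mono ?_) h2
  intro p hp
  simp only [Set.mem_ofPred_eq] at hp ⊢
  rw [div_le_iff₀ hn0] at hp
  by_contra hcon
  push Not at hcon
  have h3 : (n : ℝ) ≤ (height c p.1 p.2 n + 1) * width c p.1 p.2 n := by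
    exact_mod_cast le_width c p.1 p.2 n
  have h5 : (height c p.1 p.2 n : ℝ) + 1 < √n / (K + 1) := by
    have h6 : 1 ≤ 1 / (2 * (K + 1)) * √n := by
      rw [one_div, inv_mul_eq_div, le_div_iff₀ (by positivity)]
      linarith
    have h7 : √n / (K + 1) = 1 / (2 * (K + 1)) * √n + 1 / (2 * (K + 1)) * √n := by
      field_simp
      ring
    rw [h7]
    linarith
  have h8 : (n : ℝ) < n := by
    calc (n : ℝ) ≤ (height c p.1 p.2 n + 1) * width c p.1 p.2 n := h3
      _ ≤ (height c p.1 p.2 n + 1) * (K * √n) := by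
          apply mul_le_mul_of_nonneg_left hp (by positivity)
      _ < √n / (K + 1) * (K * √n) + 1 / (K + 1) * n := by
          have : (height c p.1 p.2 n + 1 : ℝ) * (K * √n) ≤ √n / (K + 1) * (K * √n) :=
            mul_le_mul_of_nonneg_right h5.le (by positivity)
          have h9 : 0 < 1 / (K + 1) * (n : ℝ) := by positivity
          linarith
      _ = n := by
          have : √(n : ℝ) / (K + 1) * (K * √n) = K / (K + 1) * (√n * √n) := by ring
          rw [this, hsq]
          field_simp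
  exact lt_irrefl _ h8

end converse

end Pool.Agent.BPT
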