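import Pool.Agent.MP_99a865_pr.CV.Z0
import Pool.Agent.MP_99a865_pr.CV.Z1
import Pool.Agent.MP_99a865_pr.CV.S4

open MeasureTheory ProbabilityTheory Filter Topology
open scoped ENNReal NNReal

namespace Pool.Agent.BPT

set_option linter.unusedSectionVars false
set_option linter.unusedVariables false

lemma FF_lim {x : ℝ} (hx : 0 < x) : Tendsto (fun m : ℕ => PN (Set.Ici 0) muS nuS (2 * m + 1)
    {ω | Mx (1 / 2) (2 * m + 1) ω ≤ x * √((2 * m + 1 : ℕ) : ℝ)}) atTop (𝓝 (FF x)) := by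
  have h1 := Mx_limit (Set.Ici 0) muS nuS (1 / 2) domI qstd_S hx
  have h2 : Tendsto (fun m : ℕ => 2 * m + 1) atTop (ff (Set.Ici 0) muS nuS) := by
    unfold ff
    rw [tendsto_inf, tendsto_principal]
    exact ⟨tendsto_atTop_mono (fun m => by simp only [id]; omega) tendsto_id,
      Eventually.of_forall fun m => (srw_EvN m).2⟩
  exact h1.comp h2

lemma FF_monotone : MonotoneOn FF (Set.Ioi 0) := by
  have := qstd_S.probμ
  have := qstd_S.probν
  intro x hx y hy hxy
  refine le_of_tendsto_of_tendsto' (FF_lim hx) (FF_lim hy) fun m => ?_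
  unfold PN
  refine div_le_div_of_nonneg_right (measureReal_mono (Set.inter_subset_inter_right _ ?_)
    (measure_ne_top _ _)) measureReal_nonneg
  intro ω hω
  exact le_trans hω (mul_le_mul_of_nonneg_right hxy (Real.sqrt_nonneg _))

lemma FF_continuousOn : ContinuousOn FF (Set.Ioi 0) := fun x hx =>
  (continuousAt_FF hx).continuousWithinAt

lemma LimLaw.scale {Ω : Type} [MeasurableSpace Ω] {l : Filter ℕ} {P : ℕ → Measure Ω}
    {X : ℕ → Ω → ℝ} {L : Measure ℝ} (h : LimLaw l P X L) (a : ℝ) (Y : ℕ → Ω → ℝ)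
    (hY : ∀ n ω, Y n ω = a * X n ω) : LimLaw l P Y (L.map fun x => a * x) := by
  have hm : Measurable fun x : ℝ => a * x := measurable_const_mul a
  have := h.1
  refine ⟨Measure.isProbabilityMeasure_map hm.aemeasurable, fun f => ?_⟩
  have h1 := h.2 (f.compContinuous ⟨fun x => a * x, by fun_prop⟩)
  rw [integral_map hm.aemeasurable f.continuous.aestronglyMeasurable]
  refine h1.congr fun n => ?_
  apply integral_congr_ae
  refine Eventually.of_forall fun ω => ?_
  simp only [BoundedContinuousFunction.compContinuous_apply, ContinuousMap.coe_mk, hY n ω]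

lemma nondeg_scale {L : Measure ℝ} (h : ∀ x, L ≠ Measure.dirac x) {a : ℝ} (ha : a ≠ 0) (x : ℝ) :
    (L.map fun x => a * x) ≠ Measure.dirac x := by
  intro h1
  apply h (a⁻¹ * x)
  have h2 : (L.map fun x => a * x).map (fun x => a⁻¹ * x) = L := by
    rw [Measure.map_map (measurable_const_mul _) (measurable_const_mul _)]
    have : (fun x => a⁻¹ * x) ∘ (fun x => a * x) = (id : ℝ → ℝ) := by
      funext y
      simp only [Function.comp_apply, id]
      rw [← mul_assoc, inv_mul_cancel₀ ha, one_mul]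
    rw [this, Measure.map_id]
  rw [← h2, h1]
  exact Measure.map_dirac' (measurable_const_mul _) _

lemma mem_lq (c : Bool) (μ ν : Measure ℝ) : ∀ᶠ n in lq c μ ν, queueLaw μ ν (busyEvent c n) ≠ 0 :=
  mem_inf_of_right (mem_principal_self _)

section

variable {μ ν : Measure ℝ} {σ : ℝ}

lemma Hyp.hyp0 (h : Hyp μ ν σ) : Hyp0 μ ν :=
  ⟨h.probμ, h.probν, h.posμ, h.posν, h.meanμ, h.meanν⟩

lemma prob_cond (h : Hyp0 μ ν) (c : Bool) : ∀ᶠ n in lq c μ ν,
    IsProbabilityMeasure (ProbabilityTheory.cond (queueLaw μ ν) (busyEvent c n)) := by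
  have := h.probμ
  have := h.probν
  have h0 : IsProbabilityMeasure (queueLaw μ ν) := by unfold queueLaw; infer_instance
  filter_upwards [mem_lq c μ ν] with n hn using cond_isProbabilityMeasure hn

/-- the three functionals, normalised by `√n`, `√n`, `n√n` -/
noncomputable def Hn (c : Bool) (n : ℕ) (p : (ℕ → ℝ) × (ℕ → ℝ)) : ℝ := (height c p.1 p.2 n : ℝ) / √n
noncomputable def Wn (c : Bool) (n : ℕ) (p : (ℕ → ℝ) × (ℕ → ℝ)) : ℝ := (width c p.1 p.2 n : ℝ) / √n
noncomputable def Tn (c : Bool) (n : ℕ) (p : (ℕ → ℝ) × (ℕ → ℝ)) : ℝ :=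
  (totalHeight c p.1 p.2 n : ℝ) / (n * √n)

lemma fwd_height {L : Measure ℝ} (hLp : IsProbabilityMeasure L)
    (hL : ∀ (Ω : Type) (_ : MeasurableSpace Ω) (l : Filter ℕ) (P : ℕ → Measure Ω) (X : ℕ → Ω → ℝ),
      (∀ᶠ n in l, IsProbabilityMeasure (P n)) → (∀ n, Measurable (X n)) → (∀ n ω, 0 ≤ X n ω) →
      (∀ x > 0, Tendsto (fun n => (P n).real {ω | X n ω ≤ x}) l (𝓝 (FF x))) →
      ∀ f : BoundedContinuousFunction ℝ ℝ,
        Tendsto (fun n => ∫ ω, f (X n ω) ∂(P n)) l (𝓝 (∫ x, f x ∂L)))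
    (h : Hyp μ ν σ) (c : Bool) : LimLaw (lq c μ ν)
      (fun n => ProbabilityTheory.cond (queueLaw μ ν) (busyEvent c n)) (Hn c)
      (L.map fun x => (2 / σ) * x) := by
  have hσ := h.pos
  have h1 : LimLaw (lq c μ ν) (fun n => ProbabilityTheory.cond (queueLaw μ ν) (busyEvent c n))
      (fun n p => σ * height c p.1 p.2 n / (2 * √n)) L := by
    refine ⟨hLp, hL _ _ (lq c μ ν) _ _ (prob_cond h.hyp0 c)
      (fun n => ((meas_h c n).const_mul σ).div_const _) (fun n p => by positivity)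
      (fun x hx => final_height h c hx)⟩
  refine h1.scale _ _ fun n p => ?_
  unfold Hn
  rw [mul_div_mul_comm]
  field_simp

lemma fwd_width {L : Measure ℝ} (hLp : IsProbabilityMeasure L)
    (hL : ∀ (Ω : Type) (_ : MeasurableSpace Ω) (l : Filter ℕ) (P : ℕ → Measure Ω) (X : ℕ → Ω → ℝ),
      (∀ᶠ n in l, IsProbabilityMeasure (P n)) → (∀ n, Measurable (X n)) → (∀ n ω, 0 ≤ X n ω) →
      (∀ x > 0, Tendsto (fun n => (P n).real {ω | X n ω ≤ x}) l (𝓝 (FF x))) →
      ∀ f : BoundedContinuousFunction ℝ ℝ,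
        Tendsto (fun n => ∫ ω, f (X n ω) ∂(P n)) l (𝓝 (∫ x, f x ∂L)))
    (h : Hyp μ ν σ) (c : Bool) : LimLaw (lq c μ ν)
      (fun n => ProbabilityTheory.cond (queueLaw μ ν) (busyEvent c n)) (Wn c)
      (L.map fun x => σ * x) := by
  have hσ := h.pos
  have h1 : LimLaw (lq c μ ν) (fun n => ProbabilityTheory.cond (queueLaw μ ν) (busyEvent c n))
      (fun n p => width c p.1 p.2 n / (σ * √n)) L := by
    refine ⟨hLp, hL _ _ (lq c μ ν) _ _ (prob_cond h.hyp0 c)
      (fun n => (meas_w c n).div_const _) (fun n p => by positivity)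
      (fun x hx => final_width h c hx)⟩
  refine h1.scale _ _ fun n p => ?_
  unfold Wn
  rw [div_mul_eq_div_div_swap]
  field_simp

lemma fwd_total {W : Measure ℝ} [IsProbabilityMeasure W] (hW : AreaLim W)
    (h : Hyp μ ν σ) (c : Bool) : LimLaw (lq c μ ν)
      (fun n => ProbabilityTheory.cond (queueLaw μ ν) (busyEvent c n)) (Tn c)
      (W.map fun x => (2 / σ) * x) := by
  have hσ := h.pos
  have h1 : LimLaw (lq c μ ν) (fun n => ProbabilityTheory.cond (queueLaw μ ν) (busyEvent c n))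
      (fun n p => σ * totalHeight c p.1 p.2 n / (2 * (n * √n))) W :=
    ⟨inferInstance, fun f => final_total hW h c f⟩
  refine h1.scale _ _ fun n p => ?_
  unfold Tn
  rw [mul_div_mul_comm]
  field_simp

end

end Pool.Agent.BPT
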