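import Pool.Agent.MP_99a865_pr.CV.Z2

open MeasureTheory ProbabilityTheory Filter Topology
open scoped ENNReal NNReal

namespace Pool.Agent.BPT

set_option linter.unusedSectionVars false
set_option linter.unusedVariables false

/-- a probability law on the line which is not a point mass charges two separated half-lines -/
lemma exists_split {L : Measure ℝ} [IsProbabilityMeasure L] (h : ∀ x, L ≠ Measure.dirac x) :
    ∃ a b : ℝ, a < b ∧ L (Set.Iic a) ≠ 0 ∧ L (Set.Ici b) ≠ 0 := by
  by_contra hcon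
  push Not at hcon
  -- the distribution function takes the values 0 and 1
  have h01 : ∀ a, L (Set.Iic a) ≠ 0 → L (Set.Iic a) = 1 := by
    intro a ha
    have h1 : L (Set.Ioi a) = 0 := by
      have h2 : Set.Ioi a = ⋃ k : ℕ, Set.Ici (a + 1 / ((k : ℝ) + 1)) := by
        ext y
        simp only [Set.mem_Ioi, Set.mem_iUnion, Set.mem_Ici]
        constructor
        · intro hy
          obtain ⟨k, hk⟩ := exists_nat_one_div_lt (show 0 < y - a by linarith)
          exact ⟨k, by linarith⟩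
        · rintro ⟨k, hk⟩
          have : (0 : ℝ) < 1 / ((k : ℝ) + 1) := by positivity
          linarith
      rw [h2, measure_iUnion_null_iff]
      intro k
      have : (0 : ℝ) < 1 / ((k : ℝ) + 1) := by positivity
      exact hcon a _ (by linarith) ha
    rw [← Set.compl_Iic] at h1
    have h3 := prob_compl_eq_zero_iff (μ := L) (measurableSet_Iic (a := a))
    exact h3.1 h1
  have hbot : Tendsto (fun x : ℝ => L (Set.Iic x)) atBot (𝓝 0) := by
    have h1 := tendsto_cdf_atBot L
    have h2 := (ENNReal.tendsto_ofReal h1)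
    rw [ENNReal.ofReal_zero] at h2
    refine h2.congr fun x => ?_
    rw [cdf_eq_real, ofReal_measureReal]
  have htop := tendsto_measure_Iic_atTop L
  rw [measure_univ] at htop
  obtain ⟨a₀, ha₀⟩ : ∃ a, L (Set.Iic a) = 0 := by
    obtain ⟨a, ha⟩ := (hbot.eventually (gt_mem_nhds one_pos)).exists
    refine ⟨a, ?_⟩
    by_contra hne
    rw [h01 a hne] at ha
    exact lt_irrefl _ ha
  obtain ⟨a₁, ha₁⟩ : ∃ a, L (Set.Iic a) = 1 := by
    obtain ⟨a, ha⟩ := (htop.eventually (lt_mem_nhds one_pos)).exists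
    exact ⟨a, h01 a ha.ne'⟩
  let A : Set ℝ := {a | L (Set.Iic a) = 1}
  have hA : A.Nonempty := ⟨a₁, ha₁⟩
  have hup : ∀ a ∈ A, ∀ b, a ≤ b → b ∈ A := by
    intro a ha b hab
    refine le_antisymm prob_le_one ?_
    have : L (Set.Iic a) = 1 := ha
    rw [← this]
    exact measure_mono (Set.Iic_subset_Iic.2 hab)
  have hbdd : BddBelow A := by
    refine ⟨a₀, fun a ha => ?_⟩
    by_contra hlt
    push Not at hlt
    have := hup a ha a₀ hlt.le
    change L (Set.Iic a₀) = 1 at this
    rw [ha₀] at this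
    exact zero_ne_one this
  set x := sInf A with hx
  have hgt : ∀ b, x < b → b ∈ A := by
    intro b hb
    obtain ⟨a, ha, hab⟩ := exists_lt_of_csInf_lt hA hb
    exact hup a ha b hab.le
  have hxA : L (Set.Iic x) = 1 := by
    have h1 : Set.Iic x = ⋂ k : ℕ, Set.Iic (x + 1 / ((k : ℝ) + 1)) := by
      ext y
      simp only [Set.mem_Iic, Set.mem_iInter]
      constructor
      · intro hy k
        have : (0 : ℝ) < 1 / ((k : ℝ) + 1) := by positivity
        linarith
      · intro hy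
        refine le_of_forall_pos_le_add fun ε hε => ?_
        obtain ⟨k, hk⟩ := exists_nat_one_div_lt hε
        have := hy k
        linarith
    have h2 : L (Set.Iic x)ᶜ = 0 := by
      rw [h1, Set.compl_iInter, measure_iUnion_null_iff]
      intro k
      have : (0 : ℝ) < 1 / ((k : ℝ) + 1) := by positivity
      have h3 : L (Set.Iic (x + 1 / ((k : ℝ) + 1))) = 1 := hgt _ (by linarith)
      exact (prob_compl_eq_zero_iff measurableSet_Iic).2 h3
    exact (prob_compl_eq_zero_iff measurableSet_Iic).1 h2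
  apply h x
  refine Measure.ext_of_Iic _ _ fun t => ?_
  rw [Measure.dirac_apply' _ measurableSet_Iic]
  by_cases ht : x ≤ t
  · rw [Set.indicator_of_mem (Set.mem_Iic.2 ht), Pi.one_apply]
    refine le_antisymm prob_le_one ?_
    rw [← hxA]
    exact measure_mono (Set.Iic_subset_Iic.2 ht)
  · rw [Set.indicator_of_notMem (by simpa using ht)]
    by_contra hne
    have h1 : t ∈ A := h01 t hne
    exact ht (csInf_le hbdd h1)

/-- even after centring the limit is a point mass -/
theorem lim_centre {Ω : Type} [MeasurableSpace Ω] {A : Set ℕ} (P : ℕ → Measure Ω) (X : ℕ → Ω → ℝ)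
    (b : ℕ → ℝ) (hP : ∀ n ∈ A, IsProbabilityMeasure (P n)) (hX : ∀ n, Measurable (X n))
    (L : Measure ℝ) (hL : LimLaw (atTop ⊓ 𝓟 A) P (fun n ω => X n ω - b n) L)
    (h : ∀ ε > (0 : ℝ), ∀ δ > (0 : ℝ), ∀ n₀ : ℕ, ∃ n ≥ n₀, n ∈ A ∧
      (P n).real {ω | ε ≤ |X n ω|} < δ) : ∃ x, L = Measure.dirac x := by
  by_contra hcon
  push Not at hcon
  have := hL.1
  obtain ⟨a, b', hab, ha, hb'⟩ := exists_split hcon
  set η : ℝ := (b' - a) / 4 with hη
  have hη0 : 0 < η := by rw [hη]; linarith
  -- test functions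
  let f₁ : BoundedContinuousFunction ℝ ℝ := BoundedContinuousFunction.ofNormedAddCommGroup
    (fun x => max 0 (min 1 ((a + η - x) / η))) (by fun_prop) 1 (by
      intro x
      rw [Real.norm_eq_abs, abs_of_nonneg (le_max_left _ _)]
      exact max_le zero_le_one (min_le_left _ _))
  let f₂ : BoundedContinuousFunction ℝ ℝ := BoundedContinuousFunction.ofNormedAddCommGroup
    (fun x => max 0 (min 1 ((x - (b' - η)) / η))) (by fun_prop) 1 (by
      intro x
      rw [Real.norm_eq_abs, abs_of_nonneg (le_max_left _ _)]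
      exact max_le zero_le_one (min_le_left _ _))
  have hf₁ : ∀ x, f₁ x = max 0 (min 1 ((a + η - x) / η)) := fun x => rfl
  have hf₂ : ∀ x, f₂ x = max 0 (min 1 ((x - (b' - η)) / η)) := fun x => rfl
  have key : ∀ (f : BoundedContinuousFunction ℝ ℝ) (s : Set ℝ), MeasurableSet s → (∀ x, 0 ≤ f x) →
      (∀ x ∈ s, f x = 1) → L.real s ≤ ∫ x, f x ∂L := by
    intro f s hs h0 h1
    rw [← integral_indicator_one hs]
    apply integral_mono ((integrable_const (1 : ℝ)).indicator hs) (f.integrable L)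
    intro x
    by_cases hx : x ∈ s
    · simp only [Set.indicator_of_mem hx, Pi.one_apply, h1 x hx, le_refl]
    · simp only [Set.indicator_of_notMem hx, h0 x]
  have key2 : ∀ n ∈ A, ∀ (f : BoundedContinuousFunction ℝ ℝ) (s : Set Ω), MeasurableSet s →
      (∀ x, f x ≤ 1) → (∀ ω ∉ s, f (X n ω - b n) = 0) →
      ∫ ω, f (X n ω - b n) ∂(P n) ≤ (P n).real s := by
    intro n hn f s hs h1 h0
    have := hP n hn
    rw [← integral_indicator_one hs]
    have hi : Integrable (fun ω => f (X n ω - b n)) (P n) := by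
      refine Integrable.of_bound (C := ‖f‖) ?_ (Eventually.of_forall fun ω => f.norm_coe_le_norm _)
      exact (f.continuous.measurable.comp ((hX n).sub_const _)).aestronglyMeasurable
    apply integral_mono hi ((integrable_const (1 : ℝ)).indicator hs)
    intro ω
    by_cases hx : ω ∈ s
    · simp only [Set.indicator_of_mem hx, Pi.one_apply, h1 _]
    · simp only [Set.indicator_of_notMem hx, h0 ω hx, le_refl]
  have hp₁ : 0 < L.real (Set.Iic a) := ENNReal.toReal_pos ha (measure_ne_top _ _)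
  have hp₂ : 0 < L.real (Set.Ici b') := ENNReal.toReal_pos hb' (measure_ne_top _ _)
  have hI₁ : 0 < ∫ x, f₁ x ∂L := lt_of_lt_of_le hp₁ (key f₁ _ measurableSet_Iic
    (fun x => by rw [hf₁]; exact le_max_left _ _) (fun x hx => by
      rw [hf₁, min_eq_left, max_eq_right zero_le_one]
      rw [le_div_iff₀ hη0]
      have : x ≤ a := hx
      linarith))
  have hI₂ : 0 < ∫ x, f₂ x ∂L := lt_of_lt_of_le hp₂ (key f₂ _ measurableSet_Ici
    (fun x => by rw [hf₂]; exact le_max_left _ _) (fun x hx => by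
      rw [hf₂, min_eq_left, max_eq_right zero_le_one]
      rw [le_div_iff₀ hη0]
      have : b' ≤ x := hx
      linarith))
  set I₁ := ∫ x, f₁ x ∂L with hI₁d
  set I₂ := ∫ x, f₂ x ∂L with hI₂d
  have e₁ := (hL.2 f₁).eventually (lt_mem_nhds (show I₁ / 2 < I₁ by linarith))
  have e₂ := (hL.2 f₂).eventually (lt_mem_nhds (show I₂ / 2 < I₂ by linarith))
  obtain ⟨n₀, hn₀⟩ : ∃ n₀ : ℕ, ∀ n ≥ n₀, n ∈ A → I₁ / 2 < ∫ ω, f₁ (X n ω - b n) ∂(P n) ∧
      I₂ / 2 < ∫ ω, f₂ (X n ω - b n) ∂(P n) := by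
    have e := e₁.and e₂
    rw [eventually_inf_principal, eventually_atTop] at e
    exact e
  obtain ⟨n, hn, hnA, hsm⟩ := h (η / 2) (by positivity) (min (I₁ / 2) (I₂ / 2)) (by positivity) n₀
  obtain ⟨g₁, g₂⟩ := hn₀ n hn hnA
  have := hP n hnA
  have hms : ∀ r : ℝ, MeasurableSet {ω | X n ω - b n < r} := fun r =>
    measurableSet_lt ((hX n).sub_const _) measurable_const
  have hms' : ∀ r : ℝ, MeasurableSet {ω | r < X n ω - b n} := fun r =>
    measurableSet_lt measurable_const ((hX n).sub_const _)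
  have k₁ := key2 n hnA f₁ _ (hms (a + η)) (fun x => by
      rw [hf₁]; exact max_le zero_le_one (min_le_left _ _)) (fun ω hω => by
      simp only [Set.mem_ofPred_eq, not_lt] at hω
      rw [hf₁, max_eq_left]
      refine (min_le_right _ _).trans ?_
      apply div_nonpos_of_nonpos_of_nonneg _ hη0.le
      linarith)
  have k₂ := key2 n hnA f₂ _ (hms' (b' - η)) (fun x => by
      rw [hf₂]; exact max_le zero_le_one (min_le_left _ _)) (fun ω hω => by
      simp only [Set.mem_ofPred_eq, not_lt] at hω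
      rw [hf₂, max_eq_left]
      refine (min_le_right _ _).trans ?_
      apply div_nonpos_of_nonpos_of_nonneg _ hη0.le
      linarith)
  have d₁ : ∃ ω, X n ω - b n < a + η ∧ |X n ω| < η / 2 := by
    by_contra hno
    push Not at hno
    have : (P n).real {ω | X n ω - b n < a + η} ≤ (P n).real {ω | η / 2 ≤ |X n ω|} :=
      measureReal_mono (fun ω hω => hno ω hω) (measure_ne_top _ _)
    have := min_le_left (I₁ / 2) (I₂ / 2)
    linarith
  have d₂ : ∃ ω, b' - η < X n ω - b n ∧ |X n ω| < η / 2 := by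
    by_contra hno
    push Not at hno
    have : (P n).real {ω | b' - η < X n ω - b n} ≤ (P n).real {ω | η / 2 ≤ |X n ω|} :=
      measureReal_mono (fun ω hω => hno ω hω) (measure_ne_top _ _)
    have := min_le_right (I₁ / 2) (I₂ / 2)
    linarith
  obtain ⟨ω₁, q₁, q₂⟩ := d₁
  obtain ⟨ω₂, q₃, q₄⟩ := d₂
  rw [abs_lt] at q₂ q₄
  have : b' - a = 4 * η := by rw [hη]; ring
  linarith [q₂.1, q₂.2, q₄.1, q₄.2]

lemma dirac_of_var {μ : Measure ℝ} [IsProbabilityMeasure μ] (h2 : Integrable (fun x : ℝ => x ^ 2) μ)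
    (h : ∫ x, (x - 1) ^ 2 ∂μ = 0) : μ = Measure.dirac 1 := by
  have h1 : Integrable (fun x : ℝ => x) μ := by
    refine Integrable.mono' ((integrable_const (1 : ℝ)).add h2) measurable_id.aestronglyMeasurable ?_
    refine Eventually.of_forall fun x => ?_
    simp only [Pi.add_apply, Real.norm_eq_abs]
    nlinarith [abs_nonneg x, sq_abs x, sq_nonneg (|x| - 1)]
  have h3 : Integrable (fun x : ℝ => (x - 1) ^ 2) μ := by
    have : (fun x : ℝ => (x - 1) ^ 2) = fun x => x ^ 2 - 2 * x + 1 := by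
      funext x; ring
    rw [this]
    exact (h2.sub (h1.const_mul 2)).add (integrable_const 1)
  rw [integral_eq_zero_iff_of_nonneg (fun x => sq_nonneg _) h3] at h
  have h4 : ∀ᵐ x ∂μ, x = 1 := by
    filter_upwards [h] with x hx
    simp only [Pi.zero_apply] at hx
    have := pow_eq_zero_iff (n := 2) (by norm_num) |>.1 hx
    linarith
  refine Measure.ext fun s hs => ?_
  rw [Measure.dirac_apply' _ hs]
  by_cases h1s : (1 : ℝ) ∈ s
  · rw [Set.indicator_of_mem h1s, Pi.one_apply]
    apply (mem_ae_iff_prob_eq_one hs).1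
    filter_upwards [h4] with x hx
    rwa [hx]
  · rw [Set.indicator_of_notMem h1s]
    rw [measure_eq_zero_iff_ae_notMem]
    filter_upwards [h4] with x hx
    rwa [hx]

lemma exists_hyp {μ ν : Measure ℝ} (h : Hyp0 μ ν) (hne : ¬ (μ = Measure.dirac 1 ∧ ν = Measure.dirac 1))
    (h2μ : Integrable (fun x : ℝ => x ^ 2) μ) (h2ν : Integrable (fun x : ℝ => x ^ 2) ν) :
    ∃ σ, Hyp μ ν σ := by
  have := h.probμ
  have := h.probν
  have h1 : 0 ≤ ∫ x, (x - 1) ^ 2 ∂μ := integral_nonneg fun x => sq_nonneg _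
  have h2 : 0 ≤ ∫ x, (x - 1) ^ 2 ∂ν := integral_nonneg fun x => sq_nonneg _
  have h3 : 0 < ∫ x, (x - 1) ^ 2 ∂μ + ∫ x, (x - 1) ^ 2 ∂ν := by
    rcases (add_nonneg h1 h2).lt_or_eq with h3 | h3
    · exact h3
    · exfalso
      apply hne
      exact ⟨dirac_of_var h2μ (by linarith), dirac_of_var h2ν (by linarith)⟩
  exact ⟨√(∫ x, (x - 1) ^ 2 ∂μ + ∫ x, (x - 1) ^ 2 ∂ν), h.probμ, h.probν, h.posμ, h.posν, h2μ, h2ν,
    h.meanμ, h.meanν, Real.sqrt_pos.2 h3, Real.sq_sqrt h3.le⟩

lemma Std.cen {ρ : Measure ℝ} (h : Std ρ) : Cen ρ := by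
  have := h.prob
  have h1 : Integrable (fun x : ℝ => x) ρ := by
    refine Integrable.mono' ((integrable_const (1 : ℝ)).add h.int2)
      measurable_id.aestronglyMeasurable ?_
    refine Eventually.of_forall fun x => ?_
    simp only [Pi.add_apply, Real.norm_eq_abs]
    nlinarith [abs_nonneg x, sq_abs x, sq_nonneg (|x| - 1)]
  refine ⟨h.prob, h1, h.mean, fun h0 => ?_⟩
  have h2 : ∀ᵐ x ∂ρ, 0 ≤ x := by
    rw [ae_iff]
    refine measure_mono_null (fun x hx => ?_) h0
    simp only [Set.mem_ofPred_eq, not_le] at hx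
    exact hx
  have h3 := (integral_eq_zero_iff_of_nonneg_ae h2 h1).1 h.mean
  have h4 : ∫ x, x ^ 2 ∂ρ = 0 := by
    rw [integral_congr_ae (g := fun _ => (0 : ℝ))]
    · simp
    · filter_upwards [h3] with x hx
      simp only [Pi.zero_apply] at hx
      simp only [hx]
      norm_num
  rw [h.var] at h4
  exact one_ne_zero h4

lemma frequently_hit {D : Set ℝ} (hD : Dom D) {ρ : Measure ℝ} (h : Cen ρ) :
    ∃ᶠ n in atTop, hit D ρ n 0 ≠ 0 := by
  intro hno
  rw [eventually_atTop] at hno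
  obtain ⟨n₀, hn₀⟩ := hno
  have h1 := mean_time hD h
  rw [tsum_eq_sum (s := Finset.range n₀) ?_] at h1
  · rw [ENNReal.sum_eq_top] at h1
    obtain ⟨n, _, hn⟩ := h1
    exact ENNReal.mul_ne_top (ENNReal.natCast_ne_top n) ENNReal.ofReal_ne_top hn
  · intro n hn
    rw [Finset.mem_range, not_lt] at hn
    have := hn₀ n hn
    push Not at this
    rw [this, ENNReal.ofReal_zero, mul_zero]

lemma neBot_fin {μ ν : Measure ℝ} {σ : ℝ} (h : Hyp μ ν σ) (c : Bool) : (lq c μ ν).NeBot := by
  have := h.probμ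
  have := h.probν
  unfold lq
  rw [← frequently_mem_iff_neBot]
  refine (frequently_hit (dom_DD' c) h.qstd.std.cen).mono fun n hn => ?_
  simp only [Set.mem_ofPred_eq]
  rw [queue_busy0 h.hyp0]
  intro h0
  apply hn
  rw [← PQ_EvN (dom_DD' c) h.qstd n]
  unfold Measure.real
  rw [h0, ENNReal.toReal_zero]

lemma neBot_inf {μ ν : Measure ℝ} (h : Hyp0 μ ν) (hv : InfV μ ν) (c : Bool) : (lq c μ ν).NeBot := by
  unfold lq
  rw [← frequently_mem_iff_neBot, frequently_atTop]
  intro n₀
  obtain ⟨n, hn, h1, _⟩ := height_small_queue h hv c 1 1 one_pos one_pos n₀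
  exact ⟨n, hn, h1⟩

end Pool.Agent.BPT
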