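import Pool.Agent.MP_99a865_pr.CV.Z3

open MeasureTheory ProbabilityTheory Filter Topology
open scoped ENNReal NNReal

namespace Pool.Agent.BPT

set_option linter.unusedSectionVars false
set_option linter.unusedVariables false

variable {μ ν : Measure ℝ}

/-- joint behaviour along a subsequence when the variance is infinite -/
lemma all_small (h : Hyp0 μ ν) (hv : InfV μ ν) (c : Bool) (ε : ℝ) (hε : 0 < ε) (K : ℝ) (n₀ : ℕ) :
    ∃ n ≥ n₀, queueLaw μ ν (busyEvent c n) ≠ 0 ∧
      (ProbabilityTheory.cond (queueLaw μ ν) (busyEvent c n)).real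
        {p | ε * √n ≤ height c p.1 p.2 n} < ε ∧
      (ProbabilityTheory.cond (queueLaw μ ν) (busyEvent c n)).real
        {p | ε * (n * √n) ≤ totalHeight c p.1 p.2 n} < ε ∧
      (ProbabilityTheory.cond (queueLaw μ ν) (busyEvent c n)).real
        {p | width c p.1 p.2 n ≤ K * √n} < ε := by
  set K' : ℝ := max K 1 with hK'
  have hK1 : 1 ≤ K' := le_max_right _ _
  have hKK : K ≤ K' := le_max_left _ _
  obtain ⟨m₀, hm₀⟩ := exists_nat_gt ((2 * (K' + 1)) ^ 2)
  obtain ⟨n, hn, h1, h2⟩ := height_small_queue h hv c (min ε (1 / (2 * (K' + 1)))) ε (by positivity)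
    hε (n₀ + m₀ + 1)
  have hn1 : (0 : ℝ) < n := by exact_mod_cast (show 0 < n by omega)
  have hn0 : (0 : ℝ) < √n := by positivity
  have hsq : √(n : ℝ) * √n = n := Real.mul_self_sqrt hn1.le
  have := isProb_queue_cond h hv c h1
  refine ⟨n, by omega, h1, ?_, ?_, ?_⟩
  · refine lt_of_le_of_lt (measureReal_mono ?_) h2
    intro p hp
    exact (mul_le_mul_of_nonneg_right (min_le_left _ _) hn0.le).trans hp
  · refine lt_of_le_of_lt (measureReal_mono ?_) h2
    intro p hp
    simp only [Set.mem_ofPred_eq] at hp ⊢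
    refine (mul_le_mul_of_nonneg_right (min_le_left _ _) hn0.le).trans ?_
    have h3 : (totalHeight c p.1 p.2 n : ℝ) ≤ n * height c p.1 p.2 n := by
      exact_mod_cast totalHeight_le c p.1 p.2 n
    have h4 : n * (ε * √n) ≤ n * (height c p.1 p.2 n : ℝ) := by
      calc n * (ε * √n) = ε * (n * √n) := by ring
        _ ≤ _ := hp.trans h3
    exact le_of_mul_le_mul_left h4 hn1
  · have hlarge : 2 * (K' + 1) ≤ √n := by
      apply Real.le_sqrt_of_sq_le
      have : (m₀ : ℝ) ≤ n := by exact_mod_cast (show m₀ ≤ n by omega)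
      linarith
    refine lt_of_le_of_lt (measureReal_mono ?_) h2
    intro p hp
    simp only [Set.mem_ofPred_eq] at hp ⊢
    refine (mul_le_mul_of_nonneg_right (min_le_right _ _) hn0.le).trans ?_
    have hp' : (width c p.1 p.2 n : ℝ) ≤ K' * √n :=
      hp.trans (mul_le_mul_of_nonneg_right hKK hn0.le)
    by_contra hcon
    push Not at hcon
    have h3 : (n : ℝ) ≤ (height c p.1 p.2 n + 1) * width c p.1 p.2 n := by
      exact_mod_cast le_width c p.1 p.2 n
    have h5 : (height c p.1 p.2 n : ℝ) + 1 < √n / (K' + 1) := by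
      have h6 : 1 ≤ 1 / (2 * (K' + 1)) * √n := by
        rw [one_div, inv_mul_eq_div, le_div_iff₀ (by positivity)]
        linarith
      have h7 : √n / (K' + 1) = 1 / (2 * (K' + 1)) * √n + 1 / (2 * (K' + 1)) * √n := by
        field_simp
        ring
      rw [h7]
      linarith
    have h8 : (n : ℝ) < n := by
      calc (n : ℝ) ≤ (height c p.1 p.2 n + 1) * width c p.1 p.2 n := h3
        _ ≤ (height c p.1 p.2 n + 1) * (K' * √n) := by
            apply mul_le_mul_of_nonneg_left hp' (by positivity)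
        _ < √n / (K' + 1) * (K' * √n) + 1 / (K' + 1) * n := by
            have : (height c p.1 p.2 n + 1 : ℝ) * (K' * √n) ≤ √n / (K' + 1) * (K' * √n) :=
              mul_le_mul_of_nonneg_right h5.le (by positivity)
            have h9 : 0 < 1 / (K' + 1) * (n : ℝ) := by positivity
            linarith
        _ = n := by
            have : √(n : ℝ) / (K' + 1) * (K' * √n) = K' / (K' + 1) * (√n * √n) := by ring
            rw [this, hsq]
            field_simp
    exact lt_irrefl _ h8

/-- no centring helps for the height -/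
lemma conv_height_centre (h : Hyp0 μ ν) (hv : InfV μ ν) (c : Bool) (b : ℕ → ℝ) (L : Measure ℝ)
    (hL : LimLaw (lq c μ ν) (fun n => ProbabilityTheory.cond (queueLaw μ ν) (busyEvent c n))
      (fun n p => (height c p.1 p.2 n : ℝ) / √n - b n) L) : ∃ x, L = Measure.dirac x := by
  refine lim_centre _ (fun n (p : (ℕ → ℝ) × (ℕ → ℝ)) => (height c p.1 p.2 n : ℝ) / √n) b
    (fun n hn => isProb_queue_cond h hv c hn) (fun n => (meas_h c n).div_const _) L hL ?_
  intro ε hε δ hδ n₀
  obtain ⟨n, hn, h1, h2⟩ := height_small_queue h hv c ε δ hε hδ (n₀ + 1)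
  refine ⟨n, by omega, h1, ?_⟩
  have hn0 : (0 : ℝ) < √n := by
    have : (0 : ℝ) < n := by exact_mod_cast (show 0 < n by omega)
    positivity
  have e : {p : (ℕ → ℝ) × (ℕ → ℝ) | ε ≤ |(height c p.1 p.2 n : ℝ) / √n|} =
      {p | ε * √n ≤ height c p.1 p.2 n} := by
    ext p
    simp only [Set.mem_ofPred_eq]
    rw [abs_of_nonneg (by positivity), le_div_iff₀ hn0]
  rw [e]
  exact h2

lemma conv_total_centre (h : Hyp0 μ ν) (hv : InfV μ ν) (c : Bool) (b : ℕ → ℝ) (L : Measure ℝ)
    (hL : LimLaw (lq c μ ν) (fun n => ProbabilityTheory.cond (queueLaw μ ν) (busyEvent c n))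
      (fun n p => (totalHeight c p.1 p.2 n : ℝ) / (n * √n) - b n) L) : ∃ x, L = Measure.dirac x := by
  refine lim_centre _ (fun n (p : (ℕ → ℝ) × (ℕ → ℝ)) => (totalHeight c p.1 p.2 n : ℝ) / (n * √n)) b
    (fun n hn => isProb_queue_cond h hv c hn) (fun n => (meas_t c n).div_const _) L hL ?_
  intro ε hε δ hδ n₀
  obtain ⟨n, hn, h1, h2⟩ := height_small_queue h hv c ε δ hε hδ (n₀ + 1)
  refine ⟨n, by omega, h1, ?_⟩
  have hn1 : (0 : ℝ) < n := by exact_mod_cast (show 0 < n by omega)
  have hn0 : (0 : ℝ) < √n := by positivity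
  have := isProb_queue_cond h hv c h1
  refine lt_of_le_of_lt (measureReal_mono ?_) h2
  intro p hp
  simp only [Set.mem_ofPred_eq] at hp ⊢
  rw [abs_of_nonneg (by positivity), le_div_iff₀ (by positivity)] at hp
  have h3 : (totalHeight c p.1 p.2 n : ℝ) ≤ n * height c p.1 p.2 n := by
    exact_mod_cast totalHeight_le c p.1 p.2 n
  have h4 : n * (ε * √n) ≤ n * (height c p.1 p.2 n : ℝ) := by
    calc n * (ε * √n) = ε * (n * √n) := by ring
      _ ≤ _ := hp.trans h3
  exact le_of_mul_le_mul_left h4 hn1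

end Pool.Agent.BPT
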